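import Pool.Agent.Lib.MP_a349aa_gt.Defs

section

/-!
# Definitions for the fractionally flat simple graph

`Θ × Fin 4`: four parts, each carrying the relation `Γ`, complete between parts inside the classes of
the equivalence relation `E`.  `W` is kept inside the parts.
-/

noncomputable section

namespace EntRF

open Finset
open scoped Classical

/-- `Γ` inside the parts, `E` between different parts. -/
def H4 {Θ : Type} (Γ E : Θ → Θ → Prop) (x y : Θ × Fin 4) : Prop :=
  (x.2 = y.2 ∧ Γ x.1 y.1) ∨ (x.2 ≠ y.2 ∧ E x.1 y.1)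

/-- `W` inside the parts. -/
def W4 {Θ : Type} (W : Θ → Θ → Prop) (x y : Θ × Fin 4) : Prop :=
  x.2 = y.2 ∧ W x.1 y.1

/-- number of common `Γ`-neighbours -/
def comN {Θ : Type} [Fintype Θ] (Γ : Θ → Θ → Prop) (x z : Θ) : ℚ :=
  ∑ w, if Γ x w ∧ Γ z w then (1 : ℚ) else 0

/-- `μ_z`: the mass on `z` in the part of the base `x`, for two neighbours outside this part -/
def muz {Θ : Type} [Fintype Θ] (Γ : Θ → Θ → Prop) (p n0 : ℚ) (x z : Θ) : ℚ :=
  if z = x then (1 - p * (1 / (6 * n0))) / (3 * n0)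
  else (1 - comN Γ x z * (1 / (3 * n0))) / (3 * n0)

def mu2 (p n0 : ℚ) : ℚ := (1 - p * (1 / (p + 2 * n0)) - (p - 1 / 2) * (1 / (3 * n0))) / (2 * n0)

/-- `κ_0 = ∑ μ_z` -/
def kap0 (p n0 : ℚ) : ℚ := (n0 - (1 / (3 * n0)) * (p ^ 2 - p / 2)) / (3 * n0)

def mu3 (p n0 : ℚ) : ℚ := (1 - kap0 p n0) / (2 * n0)

def mu4 (p n0 : ℚ) : ℚ := (1 - 2 * (p * (1 / (p + 2 * n0))) - kap0 p n0) / n0

/-- The fractional symmetric array for pairs of `H4`-neighbours. Base `x`, neighbours `a`, `b`,
common neighbour `z`. -/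
def KHH4 {Θ : Type} [Fintype Θ] (Γ E : Θ → Θ → Prop) (p n0 : ℚ) (x a b z : Θ × Fin 4) : ℚ :=
  if H4 Γ E x a ∧ H4 Γ E x b ∧ H4 Γ E a z ∧ H4 Γ E b z then
    if a.2 = x.2 ∧ b.2 = x.2 then
      if z = x then 1 / (2 * p) else if z.2 = x.2 then 0 else (1 - 1 / (2 * p)) / (3 * n0)
    else if a.2 = x.2 ∨ b.2 = x.2 then
      if z.2 = x.2 then (if z = x then 1 / (6 * n0) else 1 / (3 * n0))
      else if z.2 = a.2 ∨ z.2 = b.2 then 1 / (p + 2 * n0) else mu2 p n0
    else if a.2 = b.2 then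
      if z.2 = x.2 then muz Γ p n0 x.1 z.1 else if z.2 = a.2 then 0 else mu3 p n0
    else
      if z.2 = x.2 then muz Γ p n0 x.1 z.1
      else if z.2 = a.2 ∨ z.2 = b.2 then 1 / (p + 2 * n0) else mu4 p n0
  else 0

/-- Standing hypotheses: `Γ` is a simple `p`-regular graph inside the classes of the equivalence
relation `E`, all classes have `n0` elements. -/
structure PartHyp {Θ : Type} [Fintype Θ] (Γ E : Θ → Θ → Prop) (p n0 : ℚ) : Prop where
  symm : ∀ x y, Γ x y → Γ y x
  irr : ∀ x, ¬ Γ x x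
  sub : ∀ x y, Γ x y → E x y
  erefl : ∀ x, E x x
  esymm : ∀ x y, E x y → E y x
  etrans : ∀ x y z, E x y → E y z → E x z
  deg : ∀ x, ∑ y, (if Γ x y then (1 : ℚ) else 0) = p
  card : ∀ x, ∑ y, (if E x y then (1 : ℚ) else 0) = n0
  one_le : 1 ≤ p
  le : 2 * p ≤ n0

/-- A coupling of a kernel `P` with the relation `R`: base `x`, `P`-neighbour `y`, `R`-neighbour
`u`, and `z` with `R y z`. -/
structure IsCpl {Ω : Type} [Fintype Ω] (R : Ω → Ω → Prop) (P : Ω → Ω → ℚ)
    (c : Ω → Ω → Ω → Ω → ℚ) : Prop where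
  nonneg : ∀ x y u z, 0 ≤ c x y u z
  supp : ∀ x y u z, c x y u z ≠ 0 → R x u ∧ R y z
  sum_z : ∀ x y u, R x u → ∑ z, c x y u z = P x y
  sum_u : ∀ x y z, R y z → ∑ u, c x y u z = P x y
  sum_y : ∀ x u z, R x u → ∑ y, c x y u z = P u z

/-- Labels: `κ`, `ε`, `λ`. -/
abbrev Lab (K n : ℕ) : Type := ZMod K × ZMod 2 × Fin n

/-- `P`-type adjacency of labelled points, `m = K * P`. -/
def GLab {Ω : Type} {K n : ℕ} (m : Ω → Ω → ℕ) (x y : Ω × Lab K n) : Prop :=
  (x.2.1 + y.2.1).val < m x.1 y.1 ∧ y.2.2.1 = x.2.2.1 + 1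

/-- same block -/
def ELab {Ω : Type} {K n : ℕ} (B : Ω → Ω → Prop) (x y : Ω × Lab K n) : Prop := B x.1 y.1

/-- `R`-type adjacency of labelled points. -/
def WLab {Ω : Type} {K n : ℕ} (R : Ω → Ω → Prop) (x y : Ω × Lab K n) : Prop :=
  R x.1 y.1 ∧ y.2.2.1 = x.2.2.1 ∧ y.2.2.2 = x.2.2.2

/-- The uniform kernel on the blocks of size `b`. -/
def UB {Ω : Type} (B : Ω → Ω → Prop) (b : ℚ) (x y : Ω) : ℚ := if B x y then 1 / b else 0

/-- All data needed to build the graph. -/
structure KData {Ω : Type} [Fintype Ω] (P : Ω → Ω → ℚ) (B R : Ω → Ω → Prop) (b dV : ℕ)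
    (cP cU : Ω → Ω → Ω → Ω → ℚ) (T : Ω → Ω → Ω → Ω) : Prop where
  Psymm : ∀ x y, P x y = P y x
  Pnonneg : ∀ x y, 0 ≤ P x y
  Psum : ∀ x, ∑ y, P x y = 1
  PB : ∀ x y, P x y ≠ 0 → B x y
  Brefl : ∀ x, B x x
  Bsymm : ∀ x y, B x y → B y x
  Btrans : ∀ x y z, B x y → B y z → B x z
  Bcard : ∀ x, ∑ y, (if B x y then (1 : ℚ) else 0) = b
  Rsymm : ∀ x y, R x y → R y x
  Rirr : ∀ x, ¬ R x x
  Rcard : ∀ x, ∑ y, (if R x y then (1 : ℚ) else 0) = dV
  cplP : IsCpl R P cP
  cplU : IsCpl R (UB B b) cU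
  vv : IsVV R T
  conn : ∀ x y, Relation.ReflTransGen (fun a c => R a c ∨ B a c) x y

/-- The kernel on `Ω × ZMod 2 × Fin 4` to which the graph lumps. -/
def Qn {Ω : Type} (P : Ω → Ω → ℚ) (B R : Ω → Ω → Prop) (b dV n : ℕ)
    (x y : Ω × ZMod 2 × Fin 4) : ℝ :=
  (n : ℝ) / (n * (1 + 6 * b) + dV) *
      ((if y.2.1 = x.2.1 + 1 ∧ y.2.2 = x.2.2 then (P x.1 y.1 : ℝ) else 0) +
        (if B x.1 y.1 ∧ y.2.2 ≠ x.2.2 then 1 else 0)) +
    1 / (n * (1 + 6 * b) + dV) *
      (if R x.1 y.1 ∧ y.2.1 = x.2.1 ∧ y.2.2 = x.2.2 then 1 else 0)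

/-- Adjacency of the labelled graph. -/
def adj0 {Ω : Type} {K n : ℕ} (m : Ω → Ω → ℕ) (B R : Ω → Ω → Prop)
    (x y : (Ω × Lab K n) × Fin 4) : Prop :=
  H4 (GLab m) (ELab B) x y ∨ W4 (WLab R) x y

/-- The lumping map. -/
def lumpMap {Ω : Type} {K n : ℕ} (x : (Ω × Lab K n) × Fin 4) : Ω × ZMod 2 × Fin 4 :=
  (x.1.1, x.1.2.2.1, x.2)

end EntRF

end
end

section

section

/-!
# C1 : the logarithmic mean

With `L = log (s/t) = log s - log t`. Facts used: `1 - 1/x ≤ log x ≤ x - 1`, and strict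
versions. `logMean_le_div`: for `0 < t < s`, `logMean s t = (s - t)/L ≤ s / L`.
`le_logMean`, `logMean_le`: `min s t ≤ logMean s t ≤ max s t`, from
`1 - t/s ≤ log (s/t) ≤ s/t - 1`.
-/

noncomputable section

namespace EntRF

open Finset
open scoped Classical

theorem logMean_comm (s t : ℝ) : logMean s t = logMean t s := by
  unfold logMean
  by_cases h : s = t
  · subst h; rfl
  · rw [if_neg h, if_neg (fun h' => h h'.symm)]
    rw [← neg_sub t s, ← neg_sub (Real.log t) (Real.log s), neg_div_neg_eq]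

theorem logMean_mul {c s t : ℝ} (hc : 0 < c) (hs : 0 < s) (ht : 0 < t) :
    logMean (c * s) (c * t) = c * logMean s t := by
  unfold logMean
  by_cases h : s = t
  · subst h; simp
  · have h' : c * s ≠ c * t := fun e => h (mul_left_cancel₀ hc.ne' e)
    rw [if_neg h, if_neg h', Real.log_mul hc.ne' hs.ne', Real.log_mul hc.ne' ht.ne']
    rw [add_sub_add_left_eq_sub, ← mul_sub, mul_div_assoc]

private theorem log_pos_of_lt {s t : ℝ} (ht : 0 < t) (hst : t < s) :
    0 < Real.log s - Real.log t := by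
  have := Real.log_lt_log ht hst
  linarith

theorem logMean_pos {s t : ℝ} (hs : 0 < s) (ht : 0 < t) : 0 < logMean s t := by
  rcases lt_trichotomy s t with h | h | h
  · rw [logMean_comm]
    unfold logMean
    rw [if_neg h.ne']
    exact div_pos (by linarith) (log_pos_of_lt hs h)
  · subst h; unfold logMean; simpa using hs
  · unfold logMean
    rw [if_neg h.ne']
    exact div_pos (by linarith) (log_pos_of_lt ht h)

private theorem aux_max {s t : ℝ} (ht : 0 < t) (hst : t < s) : logMean s t ≤ s := by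
  have hs : 0 < s := ht.trans hst
  unfold logMean
  rw [if_neg hst.ne', div_le_iff₀ (log_pos_of_lt ht hst)]
  have h1 : Real.log (t / s) ≤ t / s - 1 := Real.log_le_sub_one_of_pos (div_pos ht hs)
  rw [Real.log_div ht.ne' hs.ne'] at h1
  have h2 : s * (Real.log t - Real.log s) ≤ s * (t / s - 1) :=
    mul_le_mul_of_nonneg_left h1 hs.le
  have h3 : s * (t / s - 1) = t - s := by field_simp
  nlinarith

private theorem aux_min {s t : ℝ} (ht : 0 < t) (hst : t < s) : t ≤ logMean s t := by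
  have hs : 0 < s := ht.trans hst
  unfold logMean
  rw [if_neg hst.ne', le_div_iff₀ (log_pos_of_lt ht hst)]
  have h1 : Real.log (s / t) ≤ s / t - 1 := Real.log_le_sub_one_of_pos (div_pos hs ht)
  rw [Real.log_div hs.ne' ht.ne'] at h1
  have h2 : t * (Real.log s - Real.log t) ≤ t * (s / t - 1) :=
    mul_le_mul_of_nonneg_left h1 ht.le
  have h3 : t * (s / t - 1) = s - t := by field_simp
  linarith

theorem logMean_le_max {s t : ℝ} (hs : 0 < s) (ht : 0 < t) : logMean s t ≤ max s t := by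
  rcases lt_trichotomy s t with h | h | h
  · rw [logMean_comm]
    exact (aux_max hs h).trans (le_max_right _ _)
  · subst h; unfold logMean; simp
  · exact (aux_max ht h).trans (le_max_left _ _)

theorem min_le_logMean {s t : ℝ} (hs : 0 < s) (ht : 0 < t) : min s t ≤ logMean s t := by
  rcases lt_trichotomy s t with h | h | h
  · rw [logMean_comm]
    exact (min_le_left _ _).trans (aux_min hs h)
  · subst h; unfold logMean; simp
  · exact (min_le_right _ _).trans (aux_min ht h)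

theorem logMean_le_div {s t : ℝ} (ht : 0 < t) (hst : t < s) :
    logMean s t ≤ s / Real.log (s / t) := by
  have hs : 0 < s := ht.trans hst
  unfold logMean
  rw [if_neg hst.ne', Real.log_div hs.ne' ht.ne']
  exact div_le_div_of_nonneg_right (by linarith) (log_pos_of_lt ht hst).le

end EntRF

end
end

section

/-!
# C2 : the derivative of the logarithmic mean

`lm1_add`: `s lm1 s t + t lm1 t s = logMean s t` (algebra, `s ≠ t`; diagonal `s/2 + s/2`).
`lm1_nonneg`: sign discussion with `logMean s t ≤ s` if `t < s` and `logMean s t ≥ s` if `s < t`.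
`lm1_le_inv_log` (`t < s`): `lm1 s t = (1 - θ/s)/L ≤ 1/L`, `L = log (s/t) > 0`.
`lm1_le_of_lt` (`s < t`): with `L = log (t/s) > 0`, `lm1 s t = (θ/s - 1)/L`, `θ = (t-s)/L ≤ t/L`, so
`lm1 s t ≤ (t/s)/L^2`.
`lm1_le_max`: `s lm1 s t ≤ logMean s t ≤ max s t`.

Derivatives. `hasDerivAt_logMean_fst` for `s ≠ t`: quotient rule near `s`. On the diagonal:
`logMean u t = t * f (u/t)` with `f u = (u-1)/log u`, `f 1 = 1`, and for `u > 0`
`√u ≤ f u ≤ (u+1)/2`; so `|f u - 1 - (u-1)/2| ≤ (√u - 1)^2/2 ≤ (u-1)^2/2`, which is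
`o(u - 1)`. (`f u ≤ (u+1)/2` and `√u ≤ f u` are the classical inequalities
`log u ≥ 2(u-1)/(u+1)` and `log u ≤ (u-1)/√u` for `u ≥ 1`, reversed for `u ≤ 1`; prove them by
monotonicity (derivative) arguments. Any other proof is fine, e.g. via the Taylor bound of `log`.)
`hasDerivAt_logMean_snd` by `logMean_comm`.
-/

noncomputable section

namespace EntRF

open Finset
open scoped Classical

private theorem logsub_pos {s t : ℝ} (ht : 0 < t) (hst : t < s) :
    0 < Real.log s - Real.log t := by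
  have := Real.log_lt_log ht hst
  linarith

theorem lm1_add {s t : ℝ} (hs : 0 < s) (ht : 0 < t) :
    s * lm1 s t + t * lm1 t s = logMean s t := by
  by_cases h : s = t
  · subst h
    unfold lm1 logMean
    simp only [if_true]
    ring
  · have hne : Real.log s - Real.log t ≠ 0 := by
      intro e
      exact h (Real.log_injOn_pos (Set.mem_Ioi.mpr hs) (Set.mem_Ioi.mpr ht) (sub_eq_zero.mp e))
    have hL' : Real.log t - Real.log s = -(Real.log s - Real.log t) := by ring
    have hθ : logMean s t = (s - t) / (Real.log s - Real.log t) := by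
      unfold logMean; rw [if_neg h]
    unfold lm1
    rw [if_neg h, if_neg (fun e => h e.symm), logMean_comm t s, hL']
    have h1 : s * ((1 - logMean s t / s) / (Real.log s - Real.log t))
        = (s - logMean s t) / (Real.log s - Real.log t) := by
      field_simp
    have h2 : t * ((1 - logMean s t / t) / (-(Real.log s - Real.log t)))
        = -((t - logMean s t) / (Real.log s - Real.log t)) := by
      rw [div_neg, mul_neg]
      congr 1
      field_simp
    rw [h1, h2, ← sub_eq_add_neg, ← sub_div]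
    conv_rhs => rw [hθ]
    congr 1
    ring

theorem lm1_nonneg {s t : ℝ} (hs : 0 < s) (ht : 0 < t) : 0 ≤ lm1 s t := by
  rcases lt_trichotomy s t with h | h | h
  · unfold lm1
    rw [if_neg h.ne]
    have h1 := min_le_logMean hs ht
    rw [min_eq_left h.le] at h1
    have h2 : 1 ≤ logMean s t / s := by rwa [one_le_div hs]
    have h3 := logsub_pos hs h
    exact div_nonneg_of_nonpos (by linarith) (by linarith)
  · unfold lm1
    rw [if_pos h]
    norm_num
  · unfold lm1
    rw [if_neg h.ne']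
    have h1 := logMean_le_max hs ht
    rw [max_eq_left h.le] at h1
    have h2 : logMean s t / s ≤ 1 := by rwa [div_le_one hs]
    have h3 := logsub_pos ht h
    exact div_nonneg (by linarith) h3.le

theorem lm1_self (s : ℝ) : lm1 s s = 1 / 2 := by
  unfold lm1
  rw [if_pos rfl]

theorem lm1_mul {c s t : ℝ} (hc : 0 < c) (hs : 0 < s) (ht : 0 < t) :
    lm1 (c * s) (c * t) = lm1 s t := by
  unfold lm1
  by_cases h : s = t
  · subst h
    rw [if_pos rfl, if_pos rfl]
  · have h' : c * s ≠ c * t := fun e => h (mul_left_cancel₀ hc.ne' e)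
    rw [if_neg h, if_neg h', logMean_mul hc hs ht, Real.log_mul hc.ne' hs.ne',
      Real.log_mul hc.ne' ht.ne', add_sub_add_left_eq_sub, mul_div_mul_left _ _ hc.ne']

theorem lm1_le_inv_log {s t : ℝ} (ht : 0 < t) (hst : t < s) :
    lm1 s t ≤ 1 / Real.log (s / t) := by
  have hs : 0 < s := ht.trans hst
  unfold lm1
  rw [if_neg hst.ne', Real.log_div hs.ne' ht.ne']
  refine div_le_div_of_nonneg_right ?_ (logsub_pos ht hst).le
  have := div_pos (logMean_pos hs ht) hs
  linarith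

theorem lm1_le_of_lt {s t : ℝ} (hs : 0 < s) (hst : s < t) :
    lm1 s t ≤ (t / s) / Real.log (t / s) ^ 2 := by
  have ht : 0 < t := hs.trans hst
  have hL := logsub_pos hs hst
  have h1 : logMean s t ≤ t / Real.log (t / s) := by
    rw [logMean_comm]
    exact logMean_le_div hs hst
  rw [Real.log_div ht.ne' hs.ne'] at h1 ⊢
  unfold lm1
  rw [if_neg hst.ne]
  have h2 : (1 - logMean s t / s) / (Real.log s - Real.log t)
      = (logMean s t / s - 1) / (Real.log t - Real.log s) := by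
    rw [← neg_sub (Real.log t) (Real.log s), div_neg, ← neg_div, neg_sub]
  rw [h2]
  have h3 : (t / s) / (Real.log t - Real.log s) ^ 2
      = (t / (Real.log t - Real.log s) / s) / (Real.log t - Real.log s) := by
    field_simp
  rw [h3]
  refine div_le_div_of_nonneg_right ?_ hL.le
  have h4 : logMean s t / s ≤ t / (Real.log t - Real.log s) / s :=
    div_le_div_of_nonneg_right h1 hs.le
  linarith

theorem lm1_le_max {s t : ℝ} (hs : 0 < s) (ht : 0 < t) : lm1 s t ≤ max 1 (t / s) := by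
  have h1 := lm1_add hs ht
  have h2 := mul_nonneg ht.le (lm1_nonneg ht hs)
  have h3 := logMean_le_max hs ht
  have h4 : s * lm1 s t ≤ max s t := by linarith
  have h5 : max 1 (t / s) = max s t / s := by
    rw [← max_div_div_right hs.le, div_self hs.ne']
  rw [h5, le_div_iff₀ hs]
  linarith

end EntRF

end
end
end

section

/-!
# A4 : symmetric arrays from a symbol scheme

`comm_latin`: transport addition of `Fin n` (or `ZMod n`) along an equivalence `X ≃ Fin n`
(`X` empty: trivial).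

`hh_core`. Let `E = Fin r → ZMod 2` (a group with `α + α = 0`, `card E = 2^r`) and
`C = E × Fin N2`; choose an injection `e : E → ℕ` to compare elements of `E`.
By `hcard` and `hcard0` there are bijections
* for `z ≠ z0`: `sym z : {g : E // g ≠ 0} × Fin (s z) ≃ C`,
* for `z0`: `sym0 : ({g : E // g ≠ 0} × Fin (s z0)) ⊕ (Y × Fin N2) ≃ C`.
On `Y × C` define `T (y, α, i) (u, β, j)`:
* `α ≠ β`, `e α < e β`: `(z, sym z (α + β, c))` where `⟨z, c⟩ = F y u (i + j)`;
* `α ≠ β`, `e β < e α`: `(z, sym z (α + β, c))` where `⟨z, c⟩ = F u y (i + j)`;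
* `α = β`: `(z0, sym0 (inr (L (y, i) (u, j))))`, `L` a symmetric latin square on `Y × Fin N2`.
(`i + j` in `Fin N2`; if `N2 = 0` everything is empty.)
`T` is symmetric. Row `(y, α, i)`: for each `g ≠ 0` the index `β = α + g` is determined; if
`e α < e β` the map `(u, j) ↦ F y u (i + j)` is a bijection of `Y × Fin N2` onto
`{q | adj y q.1}` (`hrow`), if `e β < e α` the same holds for `(u, j) ↦ F u y (i + j)` (`hcol`).
Together with the block `β = α` one gets every element of `{q : Z × C | adj y q.1}` exactly once.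
Finally transport from `C` to `Fin (2 ^ r * N2)`.
-/

noncomputable section

namespace EntRF

open Finset
open scoped Classical

theorem comm_latin (X : Type) [Fintype X] :
    ∃ L : X → X → X, (∀ a b, L a b = L b a) ∧ ∀ a, Function.Bijective (L a) := by
  rcases isEmpty_or_nonempty X with hX | hX
  · exact ⟨fun a _ => a, fun a => (hX.false a).elim, fun a => (hX.false a).elim⟩
  · have hpos : 0 < Fintype.card X := Fintype.card_pos
    haveI : NeZero (Fintype.card X) := ⟨hpos.ne'⟩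
    let e : X ≃ Fin (Fintype.card X) := Fintype.equivFin X
    refine ⟨fun a b => e.symm (e a + e b), ?_, ?_⟩
    · intro a b
      simp only [add_comm]
    · intro a
      exact e.symm.bijective.comp ((Equiv.addLeft (e a)).bijective.comp e.bijective)

/-- The symbols used by the off-diagonal blocks (`sy`) and by the diagonal blocks (`dg`). -/
private theorem exists_symbols {Y Z : Type} [Fintype Y] [Fintype Z] (z0 : Z)
    (r N2 : ℕ) (s : Z → ℕ)
    (hcard : ∀ z, z ≠ z0 → (2 ^ r - 1) * s z = 2 ^ r * N2)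
    (hcard0 : (2 ^ r - 1) * s z0 + Fintype.card Y * N2 = 2 ^ r * N2) :
    ∃ (sy : (z : Z) → {g : Fin r → ZMod 2 // g ≠ 0} × Fin (s z) → (Fin r → ZMod 2) × Fin N2)
      (dg : Y × Fin N2 → (Fin r → ZMod 2) × Fin N2),
      (∀ z, Function.Injective (sy z)) ∧ (∀ z, z ≠ z0 → Function.Surjective (sy z)) ∧
      Function.Injective dg ∧ (∀ a b, sy z0 a ≠ dg b) ∧
      ∀ c, (∃ a, sy z0 a = c) ∨ ∃ b, dg b = c := by
  have hE : Fintype.card {g : Fin r → ZMod 2 // g ≠ 0} = 2 ^ r - 1 := by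
    rw [Fintype.card_subtype_compl, Fintype.card_subtype_eq]
    simp
  have h1 : ∀ z, z ≠ z0 → Nonempty
      ({g : Fin r → ZMod 2 // g ≠ 0} × Fin (s z) ≃ (Fin r → ZMod 2) × Fin N2) := by
    intro z hz
    refine ⟨Fintype.equivOfCardEq ?_⟩
    rw [Fintype.card_prod, Fintype.card_prod, hE, Fintype.card_fin, Fintype.card_fin, hcard z hz]
    simp
  have h0 : Nonempty (({g : Fin r → ZMod 2 // g ≠ 0} × Fin (s z0)) ⊕ (Y × Fin N2) ≃
      (Fin r → ZMod 2) × Fin N2) := by
    refine ⟨Fintype.equivOfCardEq ?_⟩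
    rw [Fintype.card_sum, Fintype.card_prod, Fintype.card_prod, Fintype.card_prod, hE,
      Fintype.card_fin, Fintype.card_fin, hcard0]
    simp
  obtain ⟨q0⟩ := h0
  let q' : (z : Z) → z ≠ z0 →
      ({g : Fin r → ZMod 2 // g ≠ 0} × Fin (s z) ≃ (Fin r → ZMod 2) × Fin N2) :=
    fun z hz => Classical.choice (h1 z hz)
  refine ⟨fun z => if hz : z = z0 then fun a => q0 (Sum.inl (a.1, Fin.cast (by rw [hz]) a.2))
    else fun a => q' z hz a, fun b => q0 (Sum.inr b), ?_, ?_, ?_, ?_, ?_⟩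
  · intro z
    by_cases hz : z = z0
    · subst hz
      intro a b hab
      simp only [dif_pos, EmbeddingLike.apply_eq_iff_eq, Sum.inl.injEq, Prod.mk.injEq] at hab
      exact Prod.ext hab.1 (by simpa using hab.2)
    · intro a b hab
      simp only [dif_neg hz, EmbeddingLike.apply_eq_iff_eq] at hab
      exact hab
  · intro z hz c
    obtain ⟨a, ha⟩ := (q' z hz).surjective c
    exact ⟨a, by simp only [dif_neg hz]; exact ha⟩
  · intro a b hab
    simpa using hab
  · intro a b hab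
    simp at hab
  · intro c
    obtain ⟨a, ha⟩ := q0.surjective c
    rcases a with a | b
    · left
      exact ⟨a, by simp only [dif_pos]; simpa using ha⟩
    · right
      exact ⟨b, ha⟩

private theorem hh_aux {Y Z : Type} [Fintype Y] [Fintype Z] (adj : Y → Z → Prop) (z0 : Z)
    (hz0 : ∀ y, adj y z0) (r N2 : ℕ) [NeZero N2] (s : Z → ℕ)
    (F : Y → Y → Fin N2 → (Σ z, Fin (s z)))
    (hrow : ∀ y, Set.BijOn (fun p : Y × Fin N2 => F y p.1 p.2) Set.univ {q | adj y q.1})
    (hcol : ∀ u, Set.BijOn (fun p : Y × Fin N2 => F p.1 u p.2) Set.univ {q | adj u q.1})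
    (hcard : ∀ z, z ≠ z0 → (2 ^ r - 1) * s z = 2 ^ r * N2)
    (hcard0 : (2 ^ r - 1) * s z0 + Fintype.card Y * N2 = 2 ^ r * N2) :
    ∃ T : Y × ((Fin r → ZMod 2) × Fin N2) → Y × ((Fin r → ZMod 2) × Fin N2) →
        Z × ((Fin r → ZMod 2) × Fin N2),
      (∀ p q, T p q = T q p) ∧
      ∀ p, Set.BijOn (T p) Set.univ {q | adj p.1 q.1} := by
  obtain ⟨sy, dg, hsy1, hsy2, hdg, hsd, hall⟩ := exists_symbols (Y := Y) z0 r N2 s hcard hcard0
  obtain ⟨L, hL1, hL2⟩ := comm_latin (Y × Fin N2)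
  have hadd : ∀ g : Fin r → ZMod 2, g + g = 0 := by
    intro g
    funext i
    exact CharTwo.add_self_eq_zero _
  have hne : ∀ α β : Fin r → ZMod 2, α ≠ β → α + β ≠ 0 := by
    intro α β h h'
    apply h
    have : α + β + β = β := by rw [h', zero_add]
    rw [add_assoc, hadd, add_zero] at this
    exact this
  let e : (Fin r → ZMod 2) → ℕ := fun g => (Fintype.equivFin (Fin r → ZMod 2) g : ℕ)
  have he : ∀ α β, e α = e β → α = β := by
    intro α β h
    exact (Fintype.equivFin (Fin r → ZMod 2)).injective (Fin.ext h)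
  let G : Y × ((Fin r → ZMod 2) × Fin N2) → Y × ((Fin r → ZMod 2) × Fin N2) →
      (Σ z, Fin (s z)) := fun p q =>
    if e p.2.1 < e q.2.1 then F p.1 q.1 (p.2.2 + q.2.2) else F q.1 p.1 (p.2.2 + q.2.2)
  have hG1 : ∀ p u β j, adj p.1 (G p (u, (β, j))).1 := by
    intro p u β j
    by_cases h : e p.2.1 < e β
    · have := (hrow p.1).mapsTo (Set.mem_univ (u, p.2.2 + j))
      simp only [G, h, if_true]
      exact this
    · have := (hcol p.1).mapsTo (Set.mem_univ (u, p.2.2 + j))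
      simp only [G, h, if_false]
      exact this
  have hG2 : ∀ p β u j u' j', G p (u, (β, j)) = G p (u', (β, j')) → u = u' ∧ j = j' := by
    intro p β u j u' j' hh
    by_cases h : e p.2.1 < e β
    · simp only [G, h, if_true] at hh
      have := (hrow p.1).injOn (Set.mem_univ (u, p.2.2 + j)) (Set.mem_univ (u', p.2.2 + j')) hh
      rw [Prod.mk.injEq] at this
      exact ⟨this.1, add_left_cancel this.2⟩
    · simp only [G, h, if_false] at hh
      have := (hcol p.1).injOn (Set.mem_univ (u, p.2.2 + j)) (Set.mem_univ (u', p.2.2 + j')) hh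
      rw [Prod.mk.injEq] at this
      exact ⟨this.1, add_left_cancel this.2⟩
  have hG3 : ∀ p β (w : Σ z, Fin (s z)), adj p.1 w.1 → ∃ u j, G p (u, (β, j)) = w := by
    intro p β w hw
    by_cases h : e p.2.1 < e β
    · obtain ⟨⟨u, j⟩, _, huj⟩ := (hrow p.1).surjOn (show w ∈ {q : Σ z, Fin (s z) | adj p.1 q.1} from hw)
      refine ⟨u, j - p.2.2, ?_⟩
      simp only [G, h, if_true]
      rw [add_sub_cancel]
      exact huj
    · obtain ⟨⟨u, j⟩, _, huj⟩ := (hcol p.1).surjOn (show w ∈ {q : Σ z, Fin (s z) | adj p.1 q.1} from hw)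
      refine ⟨u, j - p.2.2, ?_⟩
      simp only [G, h, if_false]
      rw [add_sub_cancel]
      exact huj
  have hGs : ∀ p q, p.2.1 ≠ q.2.1 → G p q = G q p := by
    intro p q hpq
    have h1 : e p.2.1 ≠ e q.2.1 := fun h => hpq (he _ _ h)
    rcases lt_or_gt_of_ne h1 with h | h
    · have h' : ¬ e q.2.1 < e p.2.1 := by omega
      simp only [G, h, h', if_true, if_false]
      rw [add_comm]
    · have h' : ¬ e p.2.1 < e q.2.1 := by omega
      simp only [G, h', if_false]
      rw [if_pos h, add_comm]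
  let T : Y × ((Fin r → ZMod 2) × Fin N2) → Y × ((Fin r → ZMod 2) × Fin N2) →
        Z × ((Fin r → ZMod 2) × Fin N2) := fun p q =>
    if h : p.2.1 = q.2.1 then (z0, dg (L (p.1, p.2.2) (q.1, q.2.2)))
    else ((G p q).1, sy (G p q).1 (⟨p.2.1 + q.2.1, hne _ _ h⟩, (G p q).2))
  have hTd : ∀ p q, p.2.1 = q.2.1 → T p q = (z0, dg (L (p.1, p.2.2) (q.1, q.2.2))) := by
    intro p q h
    simp only [T]
    rw [dif_pos h]
  have hTo : ∀ p q (g : {g : Fin r → ZMod 2 // g ≠ 0}) (w : Σ z, Fin (s z)),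
      p.2.1 + q.2.1 = g.1 → G p q = w → T p q = (w.1, sy w.1 (g, w.2)) := by
    intro p q g w h1 h2
    have h : p.2.1 ≠ q.2.1 := by
      intro h
      apply g.2
      rw [← h1, h, hadd]
    simp only [T]
    rw [dif_neg h]
    subst h2
    have : (⟨p.2.1 + q.2.1, hne _ _ h⟩ : {g : Fin r → ZMod 2 // g ≠ 0}) = g := Subtype.ext h1
    rw [this]
  refine ⟨T, ?_, ?_⟩
  · intro p q
    by_cases h : p.2.1 = q.2.1
    · rw [hTd p q h, hTd q p h.symm, hL1]
    · rw [hTo p q ⟨p.2.1 + q.2.1, hne _ _ h⟩ (G p q) rfl rfl,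
        hTo q p ⟨p.2.1 + q.2.1, hne _ _ h⟩ (G p q) (add_comm _ _) (hGs q p (Ne.symm h))]
  · intro p
    refine ⟨?_, ?_, ?_⟩
    · intro q _
      by_cases h : p.2.1 = q.2.1
      · rw [hTd p q h]
        exact hz0 _
      · rw [hTo p q ⟨p.2.1 + q.2.1, hne _ _ h⟩ (G p q) rfl rfl]
        exact hG1 p q.1 q.2.1 q.2.2
    · intro q _ q' _ hh
      by_cases h : p.2.1 = q.2.1
      · by_cases h' : p.2.1 = q'.2.1
        · rw [hTd p q h, hTd p q' h', Prod.mk.injEq] at hh
          have h3 := (hL2 _).injective (hdg hh.2)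
          rw [Prod.mk.injEq] at h3
          exact Prod.ext h3.1 (Prod.ext (h.symm.trans h') h3.2)
        · exfalso
          obtain ⟨w, hw⟩ : ∃ w, G p q' = w := ⟨_, rfl⟩
          obtain ⟨z, c⟩ := w
          rw [hTd p q h, hTo p q' ⟨p.2.1 + q'.2.1, hne _ _ h'⟩ ⟨z, c⟩ rfl hw, Prod.mk.injEq] at hh
          obtain ⟨h4, h5⟩ := hh
          dsimp only at h4
          subst h4
          exact hsd _ _ h5.symm
      · by_cases h' : p.2.1 = q'.2.1
        · exfalso
          obtain ⟨w, hw⟩ : ∃ w, G p q = w := ⟨_, rfl⟩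
          obtain ⟨z, c⟩ := w
          rw [hTd p q' h', hTo p q ⟨p.2.1 + q.2.1, hne _ _ h⟩ ⟨z, c⟩ rfl hw, Prod.mk.injEq] at hh
          obtain ⟨h4, h5⟩ := hh
          dsimp only at h4
          subst h4
          exact hsd _ _ h5
        · obtain ⟨w, hw⟩ : ∃ w, G p q = w := ⟨_, rfl⟩
          obtain ⟨w', hw'⟩ : ∃ w', G p q' = w' := ⟨_, rfl⟩
          obtain ⟨z, c⟩ := w
          obtain ⟨z', c'⟩ := w'
          rw [hTo p q ⟨p.2.1 + q.2.1, hne _ _ h⟩ ⟨z, c⟩ rfl hw,
            hTo p q' ⟨p.2.1 + q'.2.1, hne _ _ h'⟩ ⟨z', c'⟩ rfl hw', Prod.mk.injEq] at hh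
          obtain ⟨h4, h5⟩ := hh
          dsimp only at h4
          subst h4
          have h6 := hsy1 _ h5
          rw [Prod.mk.injEq, Subtype.mk.injEq] at h6
          obtain ⟨h7, h8⟩ := h6
          dsimp only at h8
          subst h8
          have h9 : q.2.1 = q'.2.1 := add_left_cancel h7
          have h10 : G p (q.1, (q.2.1, q.2.2)) = G p (q'.1, (q.2.1, q'.2.2)) := by
            have e1 : (q'.1, (q.2.1, q'.2.2)) = q' := by rw [h9]
            rw [e1]
            exact hw.trans hw'.symm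
          have h11 := hG2 _ _ _ _ _ _ h10
          exact Prod.ext h11.1 (Prod.ext h9 h11.2)
    · intro t ht
      obtain ⟨z, c0⟩ := t
      have ht' : adj p.1 z := ht
      have hoff : ∀ a : {g : Fin r → ZMod 2 // g ≠ 0} × Fin (s z), sy z a = c0 →
          ∃ q, q ∈ (Set.univ : Set (Y × ((Fin r → ZMod 2) × Fin N2))) ∧ T p q = (z, c0) := by
        intro a ha
        obtain ⟨u, j, huj⟩ := hG3 p (p.2.1 + a.1.1) ⟨z, a.2⟩ ht'
        refine ⟨(u, (p.2.1 + a.1.1, j)), Set.mem_univ _, ?_⟩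
        rw [hTo p (u, (p.2.1 + a.1.1, j)) a.1 ⟨z, a.2⟩ (by
          dsimp only
          rw [← add_assoc, hadd, zero_add]) huj]
        dsimp only
        rw [← ha]
      by_cases hz : z = z0
      · subst hz
        rcases hall c0 with ⟨a, ha⟩ | ⟨b, hb⟩
        · exact hoff a ha
        · obtain ⟨q1, hq1⟩ := (hL2 (p.1, p.2.2)).surjective b
          refine ⟨(q1.1, (p.2.1, q1.2)), Set.mem_univ _, ?_⟩
          rw [hTd p (q1.1, (p.2.1, q1.2)) rfl]
          dsimp only
          rw [show ((q1.1, q1.2) : Y × Fin N2) = q1 from rfl, hq1, hb]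
      · obtain ⟨a, ha⟩ := hsy2 z hz c0
        exact hoff a ha

theorem hh_core {Y Z : Type} [Fintype Y] [Fintype Z] (adj : Y → Z → Prop) (z0 : Z)
    (hz0 : ∀ y, adj y z0) (r N2 : ℕ) (s : Z → ℕ)
    (F : Y → Y → Fin N2 → (Σ z, Fin (s z)))
    (hrow : ∀ y, Set.BijOn (fun p : Y × Fin N2 => F y p.1 p.2) Set.univ {q | adj y q.1})
    (hcol : ∀ u, Set.BijOn (fun p : Y × Fin N2 => F p.1 u p.2) Set.univ {q | adj u q.1})
    (hcard : ∀ z, z ≠ z0 → (2 ^ r - 1) * s z = 2 ^ r * N2)
    (hcard0 : (2 ^ r - 1) * s z0 + Fintype.card Y * N2 = 2 ^ r * N2) :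
    ∃ T : Y × Fin (2 ^ r * N2) → Y × Fin (2 ^ r * N2) → Z × Fin (2 ^ r * N2),
      (∀ p q, T p q = T q p) ∧
      ∀ p, Set.BijOn (T p) Set.univ {q | adj p.1 q.1} := by
  rcases Nat.eq_zero_or_pos N2 with h0 | hpos
  · subst h0
    refine ⟨fun p _ => (Fin.elim0 (Fin.cast (Nat.mul_zero _) p.2)), ?_, ?_⟩
    · intro p
      exact (Fin.elim0 (Fin.cast (Nat.mul_zero _) p.2))
    · intro p
      exact (Fin.elim0 (Fin.cast (Nat.mul_zero _) p.2))
  · haveI : NeZero N2 := ⟨hpos.ne'⟩
    obtain ⟨T, hT1, hT2⟩ := hh_aux adj z0 hz0 r N2 s F hrow hcol hcard hcard0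
    have hc : Fintype.card ((Fin r → ZMod 2) × Fin N2) = Fintype.card (Fin (2 ^ r * N2)) := by
      simp
    let c : (Fin r → ZMod 2) × Fin N2 ≃ Fin (2 ^ r * N2) := Fintype.equivOfCardEq hc
    refine ⟨fun p q => ((T (p.1, c.symm p.2) (q.1, c.symm q.2)).1,
      c (T (p.1, c.symm p.2) (q.1, c.symm q.2)).2), ?_, ?_⟩
    · intro p q
      dsimp only
      rw [hT1]
    · intro p
      have h := hT2 (p.1, c.symm p.2)
      refine ⟨?_, ?_, ?_⟩
      · intro q _
        exact h.mapsTo (Set.mem_univ (q.1, c.symm q.2))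
      · intro q _ q' _ hh
        dsimp only at hh
        rw [Prod.mk.injEq] at hh
        have h3 : T (p.1, c.symm p.2) (q.1, c.symm q.2) = T (p.1, c.symm p.2) (q'.1, c.symm q'.2) :=
          Prod.ext hh.1 (c.injective hh.2)
        have h4 := h.injOn (Set.mem_univ _) (Set.mem_univ _) h3
        rw [Prod.mk.injEq] at h4
        exact Prod.ext h4.1 (c.symm.injective h4.2)
      · intro t ht
        have ht' : (t.1, c.symm t.2) ∈ {q : Z × ((Fin r → ZMod 2) × Fin N2) | adj p.1 q.1} := ht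
        obtain ⟨q, _, hq⟩ := h.surjOn ht'
        refine ⟨(q.1, c q.2), Set.mem_univ _, ?_⟩
        dsimp only
        rw [Equiv.symm_apply_apply, hq]
        dsimp only
        rw [Equiv.apply_symm_apply]

end EntRF

end
end
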