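import Pool.Agent.Lib.MP_a349aa_gt.Defs
import Pool.Agent.Lib.MP_a349aa_gt.A4

section

/-!
# A1 : Koenig's theorem for regular bipartite multigraphs

Induction on `N`. `N = 0`: all entries are 0, take any (empty) family. Step `N + 1`: double
counting gives `card A = card B`. Hall's condition for the relation `0 < m a b`: for `S : Finset A`,
`(N+1) * card S = ∑ a ∈ S, ∑ b ∈ N(S), m a b ≤ ∑ b ∈ N(S), ∑ a, m a b = (N+1) * card N(S)`.
Mathlib: `Finset.all_card_le_biUnion_card_iff_exists_injective` (or the relation version).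
The injection `f : A → B` is a bijection by cardinality. Subtract `1` at the positions
`(a, f a)`, apply the induction hypothesis, and use `Fin.cons f π`.
-/

noncomputable section

namespace EntRF

open Finset
open scoped Classical

theorem konig {A B : Type} [Fintype A] [Fintype B] (N : ℕ) (m : A → B → ℕ)
    (hr : ∀ a, ∑ b, m a b = N) (hc : ∀ b, ∑ a, m a b = N) :
    ∃ π : Fin N → A → B, (∀ c, Function.Bijective (π c)) ∧
      ∀ a b, Nat.card {c // π c a = b} = m a b := by
  induction N generalizing m with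
  | zero =>
    refine ⟨fun c => c.elim0, fun c => c.elim0, fun a b => ?_⟩
    have h1 : m a b = 0 := by
      have h2 := hr a
      rw [Finset.sum_eq_zero_iff] at h2
      exact h2 b (Finset.mem_univ b)
    rw [h1]
    exact Nat.card_of_isEmpty
  | succ N ih =>
    have hcard : Fintype.card A = Fintype.card B := by
      have h1 : ∑ a, ∑ b, m a b = Fintype.card A * (N + 1) := by
        rw [Finset.sum_congr rfl (fun a _ => hr a), Finset.sum_const, Finset.card_univ, smul_eq_mul]
      have h2 : ∑ a, ∑ b, m a b = Fintype.card B * (N + 1) := by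
        rw [Finset.sum_comm, Finset.sum_congr rfl (fun b _ => hc b), Finset.sum_const,
          Finset.card_univ, smul_eq_mul]
      rw [h1] at h2
      exact Nat.eq_of_mul_eq_mul_right (Nat.succ_pos N) h2
    have hhall : ∀ S : Finset A, S.card ≤ (Finset.univ.filter fun b => ∃ a ∈ S, 0 < m a b).card := by
      intro S
      set T : Finset B := Finset.univ.filter fun b => ∃ a ∈ S, 0 < m a b with hT
      have h1 : S.card * (N + 1) = ∑ a ∈ S, ∑ b ∈ T, m a b := by
        rw [← smul_eq_mul, ← Finset.sum_const]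
        refine Finset.sum_congr rfl ?_
        intro a ha
        rw [← hr a]
        symm
        refine Finset.sum_subset (Finset.subset_univ _) ?_
        intro b _ hb
        by_contra hne
        apply hb
        rw [hT, Finset.mem_filter]
        exact ⟨Finset.mem_univ b, a, ha, Nat.pos_of_ne_zero hne⟩
      have h2 : ∑ a ∈ S, ∑ b ∈ T, m a b ≤ T.card * (N + 1) := by
        rw [Finset.sum_comm]
        calc ∑ b ∈ T, ∑ a ∈ S, m a b ≤ ∑ b ∈ T, ∑ a, m a b := by
              refine Finset.sum_le_sum ?_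
              intro b _
              exact Finset.sum_le_sum_of_subset (Finset.subset_univ _)
          _ = T.card * (N + 1) := by
              rw [Finset.sum_congr rfl (fun b _ => hc b), Finset.sum_const, smul_eq_mul]
      rw [← h1] at h2
      exact Nat.le_of_mul_le_mul_right h2 (Nat.succ_pos N)
    obtain ⟨f, hf, hfm⟩ := (Fintype.all_card_le_filter_rel_iff_exists_injective
      (fun (a : A) (b : B) => 0 < m a b)).1 hhall
    have hbij : Function.Bijective f := (Fintype.bijective_iff_injective_and_card f).2 ⟨hf, hcard⟩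
    obtain ⟨π, hπ, hπc⟩ := ih (fun a b => m a b - if f a = b then 1 else 0) (by
      intro a
      have h1 : ∑ b, (m a b - if f a = b then 1 else 0) + ∑ b, (if f a = b then 1 else 0) = N + 1 := by
        rw [← Finset.sum_add_distrib, ← hr a]
        refine Finset.sum_congr rfl ?_
        intro b _
        by_cases h : f a = b
        · have := hfm a
          rw [h] at this
          rw [if_pos h]
          omega
        · rw [if_neg h]
          omega
      rw [Finset.sum_ite_eq Finset.univ (f a) (fun _ => 1), if_pos (Finset.mem_univ _)] at h1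
      omega) (by
      intro b
      have h1 : ∑ a, (m a b - if f a = b then 1 else 0) + ∑ a, (if f a = b then 1 else 0) = N + 1 := by
        rw [← Finset.sum_add_distrib, ← hc b]
        refine Finset.sum_congr rfl ?_
        intro a _
        by_cases h : f a = b
        · have := hfm a
          rw [h] at this
          rw [if_pos h]
          omega
        · rw [if_neg h]
          omega
      obtain ⟨a₀, ha₀⟩ := hbij.2 b
      have h2 : ∑ a, (if f a = b then 1 else 0) = 1 := by
        rw [Finset.sum_eq_single a₀]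
        · rw [if_pos ha₀]
        · intro a _ hne
          rw [if_neg]
          intro h
          exact hne (hf (h.trans ha₀.symm))
        · intro h
          exact absurd (Finset.mem_univ a₀) h
      rw [h2] at h1
      omega)
    refine ⟨Fin.cons f π, ?_, ?_⟩
    · intro c
      refine Fin.cases ?_ (fun i => ?_) c
      · rw [Fin.cons_zero]
        exact hbij
      · rw [Fin.cons_succ]
        exact hπ i
    · intro a b
      have h1 := hπc a b
      rw [Nat.card_eq_fintype_card, Fintype.card_subtype, Finset.card_filter] at h1 ⊢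
      rw [Fin.sum_univ_succ]
      simp only [Fin.cons_zero, Fin.cons_succ]
      rw [h1]
      by_cases h : f a = b
      · have := hfm a
        rw [h] at this
        rw [if_pos h]
        omega
      · rw [if_neg h]
        omega

end EntRF

end
end

section

/-!
# A2 : the symbol scheme

For every `z` apply `konig` to the matrix `(a, u) ↦ M a u z` on the subtypes
`A_z = {a // adjA a z}` and `U_z = {u // adjU u z}` (row and column sums `s z`, because `M a u z = 0`
outside). This gives bijections `π z c : A_z → U_z`, `c : Fin (s z)`. For `a, u` the set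
`S a u = {⟨z, c⟩ | ∃ h : adjA a z, (π z c ⟨a, h⟩ : U) = u}` has `∑ z, M a u z = N2` elements; let
`F a u` enumerate it. Row `a`: injective, since `⟨z, c⟩ ∈ S a u` determines `u = π z c a`;
surjective onto `{q | adjA a q.1}`: take `u = π z c a`. Column `u`: the same with the inverse of
`π z c`.
-/

noncomputable section

namespace EntRF

open Finset
open scoped Classical

theorem scheme {A U Z : Type} [Fintype A] [Fintype U] [Fintype Z]
    (adjA : A → Z → Prop) (adjU : U → Z → Prop) (N2 : ℕ) (s : Z → ℕ) (M : A → U → Z → ℕ)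
    (hs : ∀ a u z, M a u z ≠ 0 → adjA a z ∧ adjU u z)
    (h1 : ∀ a u, ∑ z, M a u z = N2)
    (h2 : ∀ a z, adjA a z → ∑ u, M a u z = s z)
    (h3 : ∀ u z, adjU u z → ∑ a, M a u z = s z) :
    ∃ F : A → U → Fin N2 → (Σ z, Fin (s z)),
      (∀ a, Set.BijOn (fun p : U × Fin N2 => F a p.1 p.2) Set.univ {q | adjA a q.1}) ∧
      (∀ u, Set.BijOn (fun p : A × Fin N2 => F p.1 u p.2) Set.univ {q | adjU u q.1}) := by
  have hk : ∀ z : Z, ∃ π : Fin (s z) → {a // adjA a z} → {u // adjU u z},
      (∀ c, Function.Bijective (π c)) ∧ ∀ a b, Nat.card {c // π c a = b} = M a.1 b.1 z := by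
    intro z
    refine konig (s z) (fun (a : {a // adjA a z}) (u : {u // adjU u z}) => M a.1 u.1 z) ?_ ?_
    · rintro ⟨a, ha⟩
      rw [← h2 a z ha]
      simp only
      rw [← Finset.sum_subtype (Finset.univ.filter fun u => adjU u z) (by simp) (fun u => M a u z)]
      refine Finset.sum_subset_zero_on_sdiff (Finset.subset_univ _) ?_ (fun _ _ => rfl)
      intro u hu
      by_contra hne
      have := (hs a u z hne).2
      simp [this] at hu
    · rintro ⟨u, hu⟩
      rw [← h3 u z hu]
      simp only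
      rw [← Finset.sum_subtype (Finset.univ.filter fun a => adjA a z) (by simp) (fun a => M a u z)]
      refine Finset.sum_subset_zero_on_sdiff (Finset.subset_univ _) ?_ (fun _ _ => rfl)
      intro a ha
      by_contra hne
      have := (hs a u z hne).1
      simp [this] at ha
  choose π hπ hπc using hk
  have hcard : ∀ a u, Fintype.card {q : (Σ z, Fin (s z)) // ∃ h : adjA a q.1, (π q.1 q.2 ⟨a, h⟩).1 = u} = N2 := by
    intro a u
    rw [← h1 a u, Fintype.card_subtype, Finset.card_filter, Fintype.sum_sigma]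
    refine Finset.sum_congr rfl ?_
    intro z _
    simp only
    by_cases ha : adjA a z
    · by_cases hu : adjU u z
      · rw [← hπc z ⟨a, ha⟩ ⟨u, hu⟩, Nat.card_eq_fintype_card, Fintype.card_subtype, Finset.card_filter]
        refine Finset.sum_congr rfl ?_
        intro c _
        have hiff : (∃ h : adjA a z, (π z c ⟨a, h⟩).1 = u) ↔ π z c ⟨a, ha⟩ = ⟨u, hu⟩ := by
          constructor
          · rintro ⟨h, hh⟩
            exact Subtype.ext hh
          · intro hh
            exact ⟨ha, by rw [hh]⟩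
        simp only [hiff]
      · have hM : M a u z = 0 := by
          by_contra hne
          exact hu (hs a u z hne).2
        rw [hM]
        refine Finset.sum_eq_zero ?_
        intro c _
        rw [if_neg]
        rintro ⟨h, hh⟩
        apply hu
        rw [← hh]
        exact (π z c ⟨a, h⟩).2
    · have hM : M a u z = 0 := by
        by_contra hne
        exact ha (hs a u z hne).1
      rw [hM]
      refine Finset.sum_eq_zero ?_
      intro c _
      rw [if_neg]
      rintro ⟨h, _⟩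
      exact ha h
  have eqv : ∀ a u, Nonempty (Fin N2 ≃ {q : (Σ z, Fin (s z)) // ∃ h : adjA a q.1, (π q.1 q.2 ⟨a, h⟩).1 = u}) := by
    intro a u
    exact ⟨(Fintype.equivFinOfCardEq (hcard a u)).symm⟩
  refine ⟨fun a u i => (Classical.choice (eqv a u) i).1, ?_, ?_⟩
  · intro a
    refine ⟨?_, ?_, ?_⟩
    · rintro ⟨u, i⟩ _
      exact (Classical.choice (eqv a u) i).2.1
    · rintro ⟨u, i⟩ _ ⟨u', i'⟩ _ h
      simp only at h
      obtain ⟨h1a, h1b⟩ := (Classical.choice (eqv a u) i).2
      obtain ⟨h2a, h2b⟩ := (Classical.choice (eqv a u') i').2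
      have huu : u = u' := by
        have key : ∀ q q' : (Σ z, Fin (s z)), q = q' → ∀ (hq : adjA a q.1) (hq' : adjA a q'.1),
            (π q.1 q.2 ⟨a, hq⟩).1 = (π q'.1 q'.2 ⟨a, hq'⟩).1 := by
          rintro q _ rfl hq hq'
          rfl
        rw [← h1b, ← h2b]
        exact key _ _ h _ _
      subst huu
      have hii : i = i' := (Classical.choice (eqv a u)).injective (Subtype.ext h)
      rw [hii]
    · intro q hq
      have hq' : adjA a q.1 := hq
      obtain ⟨i, hi⟩ := (Classical.choice (eqv a (π q.1 q.2 ⟨a, hq'⟩).1)).surjective ⟨q, hq', rfl⟩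
      refine ⟨((π q.1 q.2 ⟨a, hq'⟩).1, i), Set.mem_univ _, ?_⟩
      simp only
      rw [hi]
  · intro u
    refine ⟨?_, ?_, ?_⟩
    · rintro ⟨a, i⟩ _
      obtain ⟨h1a, h1b⟩ := (Classical.choice (eqv a u) i).2
      have key : ∀ q : (Σ z, Fin (s z)), ∀ hq : adjA a q.1, (π q.1 q.2 ⟨a, hq⟩).1 = u → adjU u q.1 := by
        intro q hq hh
        rw [← hh]
        exact (π q.1 q.2 ⟨a, hq⟩).2
      exact key _ h1a h1b
    · rintro ⟨a, i⟩ _ ⟨a', i'⟩ _ h
      simp only at h
      obtain ⟨h1a, h1b⟩ := (Classical.choice (eqv a u) i).2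
      obtain ⟨h2a, h2b⟩ := (Classical.choice (eqv a' u) i').2
      have haa : a = a' := by
        have key : ∀ q q' : (Σ z, Fin (s z)), q = q' → ∀ (hq : adjA a q.1) (hq' : adjA a' q'.1),
            (π q.1 q.2 ⟨a, hq⟩).1 = (π q'.1 q'.2 ⟨a', hq'⟩).1 → a = a' := by
          rintro q _ rfl hq hq' hh
          have := (hπ q.1 q.2).1 (Subtype.ext hh)
          exact congrArg Subtype.val this
        exact key _ _ h h1a h2a (h1b.trans h2b.symm)
      subst haa
      have hii : i = i' := (Classical.choice (eqv a u)).injective (Subtype.ext h)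
      rw [hii]
    · intro q hq
      have hq' : adjU u q.1 := hq
      obtain ⟨⟨a, ha⟩, hau⟩ := (hπ q.1 q.2).2 ⟨u, hq'⟩
      obtain ⟨i, hi⟩ := (Classical.choice (eqv a u)).surjective ⟨q, ha, by rw [hau]⟩
      refine ⟨(a, i), Set.mem_univ _, ?_⟩
      simp only
      rw [hi]

end EntRF

end
end

section

/-!
# B1 : first properties of `KHH4`

* nonnegativity: `p * (1/(p+2 n0)) ≤ p/(2 n0) ≤ 1/4`, `(p-1/2)/(3 n0) ≤ 1/6`, hence `mu2 ≥ 0`;
  `0 ≤ kap0 ≤ 1/3` (or just `kap0 ≤ 1/3`, as `p^2 - p/2 ≥ 0`), hence `mu3 ≥ 0`; `mu4 ≥ 0` since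
  `1 - 1/2 - 1/3 > 0`; `comN Γ x z ≤ p` gives `muz ≥ 0`; `muz Γ p n0 x x > 0`.
* symmetry: every condition is symmetric in `a`, `b`.
* support: by definition.
* positivity at `z = x`: `H4` is symmetric, so the outer condition holds.
-/

noncomputable section

namespace EntRF

open Finset
open scoped Classical

variable {Θ : Type} [Fintype Θ] {Γ E : Θ → Θ → Prop} {p n0 : ℚ}

theorem H4_symm (h : PartHyp Γ E p n0) (x y : Θ × Fin 4) (hxy : H4 Γ E x y) : H4 Γ E y x := by
  rcases hxy with ⟨h1, h2⟩ | ⟨h1, h2⟩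
  · exact Or.inl ⟨h1.symm, h.symm _ _ h2⟩
  · exact Or.inr ⟨fun e => h1 e.symm, h.esymm _ _ h2⟩

private lemma B1_comN_le (h : PartHyp Γ E p n0) (x z : Θ) : comN Γ x z ≤ p := by
  rw [← h.deg x]
  unfold comN
  apply Finset.sum_le_sum
  intro w _
  by_cases h1 : Γ x w
  · by_cases h2 : Γ z w
    · simp [h1, h2]
    · simp [h1, h2]
  · simp [h1]

private lemma B1_n0_pos (h : PartHyp Γ E p n0) : 0 < n0 := by
  have h1 := h.one_le
  have h2 := h.le
  linarith

private lemma B1_frac3 (h : PartHyp Γ E p n0) {c : ℚ} (hc : c ≤ p) :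
    c * (1 / (3 * n0)) ≤ 1 / 6 := by
  have hn := B1_n0_pos h
  have h2 := h.le
  rw [mul_one_div, div_le_iff₀ (by linarith)]
  linarith

private lemma B1_frac6 (h : PartHyp Γ E p n0) : p * (1 / (6 * n0)) ≤ 1 / 12 := by
  have hn := B1_n0_pos h
  have h2 := h.le
  rw [mul_one_div, div_le_iff₀ (by linarith)]
  linarith

private lemma B1_fracp (h : PartHyp Γ E p n0) : p * (1 / (p + 2 * n0)) ≤ 1 / 5 := by
  have hn := B1_n0_pos h
  have h1 := h.one_le
  have h2 := h.le
  rw [mul_one_div, div_le_iff₀ (by linarith)]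
  linarith

private lemma B1_muz_self (h : PartHyp Γ E p n0) (x : Θ) : 0 < muz Γ p n0 x x := by
  have hn := B1_n0_pos h
  unfold muz
  rw [if_pos rfl]
  apply div_pos
  · have := B1_frac6 h
    linarith
  · linarith

private lemma B1_muz_nonneg (h : PartHyp Γ E p n0) (x z : Θ) : 0 ≤ muz Γ p n0 x z := by
  have hn := B1_n0_pos h
  by_cases hzx : z = x
  · subst hzx
    exact (B1_muz_self h z).le
  · unfold muz
    rw [if_neg hzx]
    apply div_nonneg
    · have := B1_frac3 h (B1_comN_le h x z)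
      linarith
    · linarith

private lemma B1_mu2 (h : PartHyp Γ E p n0) : 0 ≤ mu2 p n0 := by
  have hn := B1_n0_pos h
  unfold mu2
  apply div_nonneg
  · have h1 := B1_fracp h
    have h2 := B1_frac3 h (c := p - 1 / 2) (by linarith)
    linarith
  · linarith

private lemma B1_kap0 (h : PartHyp Γ E p n0) : kap0 p n0 ≤ 1 / 3 := by
  have hn := B1_n0_pos h
  have h1 := h.one_le
  unfold kap0
  rw [div_le_iff₀ (by linarith)]
  have h3 : 0 ≤ 1 / (3 * n0) := by positivity
  have h4 : 0 ≤ p ^ 2 - p / 2 := by nlinarith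
  have h5 : 0 ≤ (1 / (3 * n0)) * (p ^ 2 - p / 2) := mul_nonneg h3 h4
  linarith

private lemma B1_mu3 (h : PartHyp Γ E p n0) : 0 ≤ mu3 p n0 := by
  have hn := B1_n0_pos h
  unfold mu3
  apply div_nonneg
  · have := B1_kap0 h
    linarith
  · linarith

private lemma B1_mu4 (h : PartHyp Γ E p n0) : 0 ≤ mu4 p n0 := by
  have hn := B1_n0_pos h
  unfold mu4
  apply div_nonneg
  · have h1 := B1_kap0 h
    have h2 := B1_fracp h
    linarith
  · linarith

private lemma B1_half (h : PartHyp Γ E p n0) : 0 ≤ (1 - 1 / (2 * p)) / (3 * n0) := by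
  have hn := B1_n0_pos h
  have h1 := h.one_le
  apply div_nonneg
  · have : 1 / (2 * p) ≤ 1 := by
      rw [div_le_iff₀ (by linarith)]
      linarith
    linarith
  · linarith

theorem KHH4_nonneg (h : PartHyp Γ E p n0) (x a b z : Θ × Fin 4) :
    0 ≤ KHH4 Γ E p n0 x a b z := by
  have hn := B1_n0_pos h
  have h1 := h.one_le
  have e1 : 0 ≤ 1 / (2 * p) := by positivity
  have e2 := B1_half h
  have e3 : 0 ≤ 1 / (6 * n0) := by positivity
  have e4 : 0 ≤ 1 / (3 * n0) := by positivity
  have e5 : 0 ≤ 1 / (p + 2 * n0) := by positivity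
  have e6 := B1_mu2 h
  have e7 := B1_muz_nonneg h x.1 z.1
  have e8 := B1_mu3 h
  have e9 := B1_mu4 h
  unfold KHH4
  repeat' split_ifs
  all_goals first | assumption | exact le_rfl

theorem KHH4_symm (h : PartHyp Γ E p n0) (x a b z : Θ × Fin 4) :
    KHH4 Γ E p n0 x a b z = KHH4 Γ E p n0 x b a z := by
  unfold KHH4
  have c1 : (H4 Γ E x a ∧ H4 Γ E x b ∧ H4 Γ E a z ∧ H4 Γ E b z) ↔
      (H4 Γ E x b ∧ H4 Γ E x a ∧ H4 Γ E b z ∧ H4 Γ E a z) := by tauto
  by_cases hc : H4 Γ E x a ∧ H4 Γ E x b ∧ H4 Γ E a z ∧ H4 Γ E b z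
  · rw [if_pos hc, if_pos (c1.mp hc)]
    by_cases h1 : a.2 = x.2
    · by_cases h2 : b.2 = x.2
      · simp only [h1, h2, and_self, if_true]
      · by_cases h3 : z.2 = x.2
        · simp [h1, h2, h3]
        · simp [h1, h2, h3, or_comm]
    · by_cases h2 : b.2 = x.2
      · by_cases h3 : z.2 = x.2
        · simp [h1, h2, h3]
        · simp [h1, h2, h3, or_comm]
      · by_cases h4 : a.2 = b.2
        · simp [h1, h2, h4]
        · have h4p : ¬ b.2 = a.2 := fun e => h4 e.symm
          simp [h1, h2, h4, h4p, or_comm]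
  · rw [if_neg hc, if_neg (fun h0 => hc (c1.mpr h0))]

theorem KHH4_supp (x a b z : Θ × Fin 4) (hne : KHH4 Γ E p n0 x a b z ≠ 0) :
    H4 Γ E x a ∧ H4 Γ E x b ∧ H4 Γ E a z ∧ H4 Γ E b z := by
  by_contra hc
  apply hne
  unfold KHH4
  rw [if_neg hc]

theorem KHH4_pos (h : PartHyp Γ E p n0) (x a b : Θ × Fin 4) (ha : H4 Γ E x a)
    (hb : H4 Γ E x b) : 0 < KHH4 Γ E p n0 x a b x := by
  have hn := B1_n0_pos h
  have h1 := h.one_le
  have e1 : 0 < 1 / (2 * p) := by positivity
  have e3 : 0 < 1 / (6 * n0) := by positivity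
  have e7 := B1_muz_self h x.1
  have hc : H4 Γ E x a ∧ H4 Γ E x b ∧ H4 Γ E a x ∧ H4 Γ E b x :=
    ⟨ha, hb, H4_symm h _ _ ha, H4_symm h _ _ hb⟩
  unfold KHH4
  rw [if_pos hc]
  by_cases c1 : a.2 = x.2 ∧ b.2 = x.2
  · rw [if_pos c1, if_pos rfl]
    exact e1
  · rw [if_neg c1]
    by_cases c2 : a.2 = x.2 ∨ b.2 = x.2
    · rw [if_pos c2, if_pos rfl, if_pos rfl]
      exact e3
    · rw [if_neg c2]
      by_cases c3 : a.2 = b.2
      · rw [if_pos c3, if_pos rfl]
        exact e7
      · rw [if_neg c3, if_pos rfl]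
        exact e7

end EntRF

end
end

section

/-!
# B2 : `∑ z, KHH4 x a b z = 1`, cases with a neighbour in the part of `x`

Write `∑ z : Θ × Fin 4` as `∑ γ : Fin 4, ∑ θ : Θ` (`Fintype.sum_prod_type_right` or so) and treat
each part separately; `E x a`, `E x b` hold in all cases, so for a part `γ ∉ {a.2, b.2}` the outer
condition on `z = (θ, γ)` is `E x.1 θ`, giving `n0` points; for `γ = a.2 ≠ b.2` it is `Γ a.1 θ`
(and `E b.1 θ`, automatic), giving `p` points.
* `kz_in_in` (`a.2 = b.2 = x.2`): only `z = x` counts in the part of `x`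
  (value `1/(2p)`, the outer condition holds by symmetry of `Γ`), and `3 n0` points with value
  `(1 - 1/(2p))/(3 n0)`.
* `kz_in_out` (`a.2 = x.2 ≠ b.2`): part `x.2`: `1/(6 n0) + (p-1)/(3 n0)`; part `b.2`: `p/(p+2 n0)`;
  two parts: `2 n0 mu2`. The sum is 1.
-/

noncomputable section

namespace EntRF

open Finset
open scoped Classical

variable {Θ : Type} [Fintype Θ] {Γ E : Θ → Θ → Prop} {p n0 : ℚ}

private lemma B2_sum3 (g : Fin 4) (A C : ℚ) :
    ∑ γ : Fin 4, (if γ = g then A else C) = A + 3 * C := by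
  fin_cases g <;> simp [Fin.sum_univ_four] <;> ring

private lemma B2_sum2 (g g' : Fin 4) (hg : g' ≠ g) (A B C : ℚ) :
    ∑ γ : Fin 4, (if γ = g then A else if γ = g' then B else C) = A + B + 2 * C := by
  fin_cases g <;> fin_cases g' <;> first | exact absurd rfl hg | (simp [Fin.sum_univ_four]; try ring)

private lemma B2_E (h : PartHyp Γ E p n0) (x : Θ) (c : ℚ) :
    ∑ θ, (if E x θ then c else 0) = n0 * c := by
  rw [← h.card x, Finset.sum_mul]
  apply Finset.sum_congr rfl
  intro θ _
  split_ifs <;> simp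

private lemma B2_G (h : PartHyp Γ E p n0) (x : Θ) (c : ℚ) :
    ∑ θ, (if Γ x θ then c else 0) = p * c := by
  rw [← h.deg x, Finset.sum_mul]
  apply Finset.sum_congr rfl
  intro θ _
  split_ifs <;> simp

private lemma B2_split (f : Θ × Fin 4 → ℚ) : ∑ z, f z = ∑ γ : Fin 4, ∑ θ : Θ, f (θ, γ) := by
  exact Fintype.sum_prod_type_right f

theorem kz_in_in (h : PartHyp Γ E p n0) (x a b : Θ × Fin 4) (ha : H4 Γ E x a) (hb : H4 Γ E x b)
    (h1 : a.2 = x.2) (h2 : b.2 = x.2) : ∑ z, KHH4 Γ E p n0 x a b z = 1 := by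
  have hp := h.one_le
  have hn : 0 < n0 := by have := h.le; linarith
  have ga : Γ x.1 a.1 := by
    rcases ha with ⟨_, h3⟩ | ⟨h3, _⟩
    · exact h3
    · exact absurd h1.symm h3
  have gb : Γ x.1 b.1 := by
    rcases hb with ⟨_, h3⟩ | ⟨h3, _⟩
    · exact h3
    · exact absurd h2.symm h3
  have ea : E x.1 a.1 := h.sub _ _ ga
  have eb : E x.1 b.1 := h.sub _ _ gb
  rw [B2_split]
  have key : ∀ γ : Fin 4, ∑ θ : Θ, KHH4 Γ E p n0 x a b (θ, γ) =
      if γ = x.2 then 1 / (2 * p) else n0 * ((1 - 1 / (2 * p)) / (3 * n0)) := by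
    intro γ
    by_cases hγ : γ = x.2
    · rw [if_pos hγ]
      have : ∀ θ : Θ, KHH4 Γ E p n0 x a b (θ, γ) = if θ = x.1 then 1 / (2 * p) else 0 := by
        intro θ
        by_cases hθ : θ = x.1
        · have hzx : (θ, γ) = x := by rw [hθ, hγ]
          have hc : H4 Γ E x a ∧ H4 Γ E x b ∧ H4 Γ E a (θ, γ) ∧ H4 Γ E b (θ, γ) := by
            rw [hzx]
            exact ⟨ha, hb, Or.inl ⟨h1, h.symm _ _ ga⟩, Or.inl ⟨h2, h.symm _ _ gb⟩⟩
          unfold KHH4
          rw [if_pos hc, if_pos ⟨h1, h2⟩, if_pos hzx, if_pos hθ]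
        · have hzx : (θ, γ) ≠ x := fun e => hθ (by rw [← e])
          unfold KHH4
          rw [if_pos (show a.2 = x.2 ∧ b.2 = x.2 from ⟨h1, h2⟩), if_neg hzx,
            if_pos (show ((θ, γ) : Θ × Fin 4).2 = x.2 from hγ), if_neg hθ]
          split_ifs <;> rfl
      rw [Finset.sum_congr rfl fun θ _ => this θ]
      simp
    · rw [if_neg hγ, ← B2_E h x.1]
      apply Finset.sum_congr rfl
      intro θ _
      have hzx : (θ, γ) ≠ x := fun e => hγ (by rw [← e])
      have c0 : (H4 Γ E x a ∧ H4 Γ E x b ∧ H4 Γ E a (θ, γ) ∧ H4 Γ E b (θ, γ)) ↔ E x.1 θ := by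
        constructor
        · rintro ⟨_, _, h3, _⟩
          rcases h3 with ⟨h4, _⟩ | ⟨_, h4⟩
          · exact absurd (h4.symm.trans h1) hγ
          · exact h.etrans _ _ _ ea h4
        · intro h3
          refine ⟨ha, hb, Or.inr ⟨?_, h.etrans _ _ _ (h.esymm _ _ ea) h3⟩,
            Or.inr ⟨?_, h.etrans _ _ _ (h.esymm _ _ eb) h3⟩⟩
          · intro e
            exact hγ (e.symm.trans h1)
          · intro e
            exact hγ (e.symm.trans h2)
      unfold KHH4
      rw [if_pos (show a.2 = x.2 ∧ b.2 = x.2 from ⟨h1, h2⟩), if_neg hzx,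
        if_neg (show ¬ ((θ, γ) : Θ × Fin 4).2 = x.2 from hγ)]
      by_cases h3 : E x.1 θ
      · rw [if_pos (c0.mpr h3), if_pos h3]
      · rw [if_neg (fun h4 => h3 (c0.mp h4)), if_neg h3]
  rw [Finset.sum_congr rfl fun γ _ => key γ, B2_sum3]
  have hp' : p ≠ 0 := by linarith
  have hn' : n0 ≠ 0 := hn.ne'
  field_simp
  ring

theorem kz_in_out (h : PartHyp Γ E p n0) (x a b : Θ × Fin 4) (ha : H4 Γ E x a) (hb : H4 Γ E x b)
    (h1 : a.2 = x.2) (h2 : b.2 ≠ x.2) : ∑ z, KHH4 Γ E p n0 x a b z = 1 := by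
  have hp := h.one_le
  have hn : 0 < n0 := by have := h.le; linarith
  have ga : Γ x.1 a.1 := by
    rcases ha with ⟨_, h3⟩ | ⟨h3, _⟩
    · exact h3
    · exact absurd h1.symm h3
  have ea : E x.1 a.1 := h.sub _ _ ga
  have eb : E x.1 b.1 := by
    rcases hb with ⟨h3, _⟩ | ⟨_, h3⟩
    · exact absurd h3.symm h2
    · exact h3
  have hnc : ¬ (a.2 = x.2 ∧ b.2 = x.2) := fun h3 => h2 h3.2
  rw [B2_split]
  have key : ∀ γ : Fin 4, ∑ θ : Θ, KHH4 Γ E p n0 x a b (θ, γ) =
      if γ = x.2 then p * (1 / (3 * n0)) - 1 / (6 * n0)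
      else if γ = b.2 then p * (1 / (p + 2 * n0)) else n0 * mu2 p n0 := by
    intro γ
    by_cases hγ : γ = x.2
    · rw [if_pos hγ]
      have c0 : ∀ θ, (H4 Γ E x a ∧ H4 Γ E x b ∧ H4 Γ E a (θ, γ) ∧ H4 Γ E b (θ, γ)) ↔
          Γ a.1 θ := by
        intro θ
        constructor
        · rintro ⟨_, _, h3, _⟩
          rcases h3 with ⟨_, h4⟩ | ⟨h4, _⟩
          · exact h4
          · exact absurd (h1.trans hγ.symm) h4
        · intro h3
          refine ⟨ha, hb, Or.inl ⟨h1.trans hγ.symm, h3⟩, Or.inr ⟨?_, ?_⟩⟩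
          · intro e
            exact h2 (e.trans hγ)
          · exact h.etrans _ _ _ (h.esymm _ _ eb) (h.etrans _ _ _ ea (h.sub _ _ h3))
      have : ∀ θ : Θ, KHH4 Γ E p n0 x a b (θ, γ) = (if Γ a.1 θ then 1 / (3 * n0) else 0) -
          (if θ = x.1 then 1 / (6 * n0) else 0) := by
        intro θ
        unfold KHH4
        rw [if_neg hnc, if_pos (show a.2 = x.2 ∨ b.2 = x.2 from Or.inl h1),
          if_pos (show ((θ, γ) : Θ × Fin 4).2 = x.2 from hγ)]
        by_cases hθ : θ = x.1
        · have hzx : (θ, γ) = x := by rw [hθ, hγ]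
          have g3 : Γ a.1 θ := by rw [hθ]; exact h.symm _ _ ga
          rw [if_pos ((c0 θ).mpr g3), if_pos hzx, if_pos g3, if_pos hθ]
          field_simp
          ring
        · have hzx : (θ, γ) ≠ x := fun e => hθ (by rw [← e])
          rw [if_neg hzx, if_neg hθ, sub_zero]
          by_cases g3 : Γ a.1 θ
          · rw [if_pos ((c0 θ).mpr g3), if_pos g3]
          · rw [if_neg (fun h4 => g3 ((c0 θ).mp h4)), if_neg g3]
      rw [Finset.sum_congr rfl fun θ _ => this θ, Finset.sum_sub_distrib, B2_G h]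
      simp
    · rw [if_neg hγ]
      by_cases hγb : γ = b.2
      · rw [if_pos hγb, ← B2_G h b.1]
        apply Finset.sum_congr rfl
        intro θ _
        have c0 : (H4 Γ E x a ∧ H4 Γ E x b ∧ H4 Γ E a (θ, γ) ∧ H4 Γ E b (θ, γ)) ↔
            Γ b.1 θ := by
          constructor
          · rintro ⟨_, _, _, h3⟩
            rcases h3 with ⟨_, h4⟩ | ⟨h4, _⟩
            · exact h4
            · exact absurd hγb.symm h4
          · intro h3
            refine ⟨ha, hb, Or.inr ⟨?_, ?_⟩, Or.inl ⟨hγb.symm, h3⟩⟩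
            · intro e
              exact hγ (e.symm.trans h1)
            · exact h.etrans _ _ _ (h.esymm _ _ ea) (h.etrans _ _ _ eb (h.sub _ _ h3))
        unfold KHH4
        rw [if_neg hnc, if_pos (show a.2 = x.2 ∨ b.2 = x.2 from Or.inl h1),
          if_neg (show ¬ ((θ, γ) : Θ × Fin 4).2 = x.2 from hγ),
          if_pos (show ((θ, γ) : Θ × Fin 4).2 = a.2 ∨ ((θ, γ) : Θ × Fin 4).2 = b.2 from
            Or.inr hγb)]
        by_cases g3 : Γ b.1 θ
        · rw [if_pos (c0.mpr g3), if_pos g3]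
        · rw [if_neg (fun h4 => g3 (c0.mp h4)), if_neg g3]
      · rw [if_neg hγb, ← B2_E h x.1]
        apply Finset.sum_congr rfl
        intro θ _
        have hγa : ¬ γ = a.2 := fun e => hγ (e.trans h1)
        have c0 : (H4 Γ E x a ∧ H4 Γ E x b ∧ H4 Γ E a (θ, γ) ∧ H4 Γ E b (θ, γ)) ↔
            E x.1 θ := by
          constructor
          · rintro ⟨_, _, h3, _⟩
            rcases h3 with ⟨h4, _⟩ | ⟨_, h4⟩
            · exact absurd h4.symm hγa
            · exact h.etrans _ _ _ ea h4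
          · intro h3
            refine ⟨ha, hb, Or.inr ⟨?_, h.etrans _ _ _ (h.esymm _ _ ea) h3⟩,
              Or.inr ⟨?_, h.etrans _ _ _ (h.esymm _ _ eb) h3⟩⟩
            · intro e
              exact hγa e.symm
            · intro e
              exact hγb e.symm
        unfold KHH4
        rw [if_neg hnc, if_pos (show a.2 = x.2 ∨ b.2 = x.2 from Or.inl h1),
          if_neg (show ¬ ((θ, γ) : Θ × Fin 4).2 = x.2 from hγ),
          if_neg (show ¬ (((θ, γ) : Θ × Fin 4).2 = a.2 ∨ ((θ, γ) : Θ × Fin 4).2 = b.2) from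
            fun h5 => h5.elim hγa hγb)]
        by_cases g3 : E x.1 θ
        · rw [if_pos (c0.mpr g3), if_pos g3]
        · rw [if_neg (fun h4 => g3 (c0.mp h4)), if_neg g3]
  rw [Finset.sum_congr rfl fun γ _ => key γ, B2_sum2 _ _ h2]
  have hn' : n0 ≠ 0 := hn.ne'
  have hq : p + 2 * n0 ≠ 0 := by positivity
  unfold mu2
  field_simp
  ring

end EntRF

end
end

section

/-!
# A7 : gluing the arrays of a blow-up

The neighbours of `(x, i)` in `blow G N` are the `(a, k)` with `H x a` or `W x a` (exactly one of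
the two holds). Define `T (a, k) (b, l)` as
* `THH (a, k) (b, l)` if `H x a`, `H x b`;
* `THV (a, k) (b, l)` if `H x a`, `W x b`;
* `THV (b, l) (a, k)` if `W x a`, `H x b`;
* `(TVV a b, k + l)` if `W x a`, `W x b` (addition in `Fin N`, `N > 0`).
Symmetric by construction. Row `(a, k)` with `H x a`: the `H`-part is a bijection onto the
`(z, c)` with `H a z`, the `W`-part one onto the `(z, c)` with `W a z`; these sets are disjoint with
union the neighbour set of `(a, k)`. Row `(u, k)` with `W x u`: the `H`-part is the column of `THV`,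
onto `(z, c)` with `H u z`; the `W`-part is `(b, l) ↦ (TVV u b, k + l)`, onto `(z, c)` with `W u z`.
-/

noncomputable section

namespace EntRF

open Finset
open scoped Classical

private lemma bijOn_union_disj {α β : Type} {f : α → β} {s₁ s₂ : Set α} {t₁ t₂ : Set β}
    (h1 : Set.BijOn f s₁ t₁) (h2 : Set.BijOn f s₂ t₂) (hd : ∀ z ∈ t₁, z ∉ t₂) :
    Set.BijOn f (s₁ ∪ s₂) (t₁ ∪ t₂) := by
  refine h1.union h2 ?_
  rintro a (ha | ha) b (hb | hb) hab
  · exact h1.injOn ha hb hab
  · exact absurd (h2.mapsTo hb) (hab ▸ hd _ (h1.mapsTo ha))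
  · exact absurd (h2.mapsTo ha) (hab.symm ▸ hd _ (h1.mapsTo hb))
  · exact h2.injOn ha hb hab

private lemma bijOn_transfer {α β γ : Type} {f : α → β} {e : γ → α} {g : γ → β} {s : Set α} {t : Set β}
    (he : ∀ r, e r ∈ s) (hs : ∀ q ∈ s, ∃ r, e r = q) (hg : Set.BijOn g Set.univ t)
    (hf : ∀ r, f (e r) = g r) : Set.BijOn f s t := by
  refine ⟨?_, ?_, ?_⟩
  · intro q hq
    obtain ⟨r, rfl⟩ := hs q hq
    rw [hf]
    exact hg.mapsTo (Set.mem_univ r)
  · intro q hq q' hq' h
    obtain ⟨r, rfl⟩ := hs q hq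
    obtain ⟨r', rfl⟩ := hs q' hq'
    rw [hf, hf] at h
    rw [hg.injOn (Set.mem_univ r) (Set.mem_univ r') h]
  · intro z hz
    obtain ⟨r, _, hr⟩ := hg.surjOn hz
    exact ⟨e r, he r, by rw [hf, hr]⟩

/-- the glued array -/
private def TT {V : Type} (H W : V → V → Prop) (N : ℕ) [NeZero N] (x : V)
    (THH : {a // H x a} × Fin N → {a // H x a} × Fin N → V × Fin N)
    (THV : {a // H x a} × Fin N → {u // W x u} × Fin N → V × Fin N)
    (TVV : V → V → V) (p q : V × Fin N) : V × Fin N :=
  if hp : H x p.1 then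
    if hq : H x q.1 then THH (⟨p.1, hp⟩, p.2) (⟨q.1, hq⟩, q.2)
    else if hq' : W x q.1 then THV (⟨p.1, hp⟩, p.2) (⟨q.1, hq'⟩, q.2)
    else p
  else if hp' : W x p.1 then
    if hq : H x q.1 then THV (⟨q.1, hq⟩, q.2) (⟨p.1, hp'⟩, p.2)
    else (TVV p.1 q.1, p.2 + q.2)
  else p

theorem blow_SArr {V : Type} [Fintype V] (G : SimpleGraph V) (H W : V → V → Prop)
    (hadj : ∀ a b, G.Adj a b ↔ H a b ∨ W a b) (hdis : ∀ a b, ¬ (H a b ∧ W a b))
    (N : ℕ) (hN : 0 < N) (x : V)
    (THH : {a // H x a} × Fin N → {a // H x a} × Fin N → V × Fin N)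
    (hHs : ∀ p q, THH p q = THH q p)
    (hHb : ∀ p, Set.BijOn (THH p) Set.univ {q | H p.1 q.1})
    (THV : {a // H x a} × Fin N → {u // W x u} × Fin N → V × Fin N)
    (hVr : ∀ p, Set.BijOn (THV p) Set.univ {q | W p.1 q.1})
    (hVc : ∀ r, Set.BijOn (fun p => THV p r) Set.univ {q | H r.1 q.1})
    (TVV : V → V → V)
    (hWs : ∀ a b, W x a → W x b → TVV a b = TVV b a)
    (hWb : ∀ a, W x a → Set.BijOn (TVV a) {b | W x b} {z | W a z}) (i : Fin N) :
    SArr (blow G N) (x, i) := by
  have : NeZero N := ⟨hN.ne'⟩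
  have hnb : ∀ (y : V) (k : Fin N), (blow G N).neighborSet (y, k) =
      {q : V × Fin N | H y q.1} ∪ {q : V × Fin N | W y q.1} := by
    intro y k
    ext q
    simp only [SimpleGraph.mem_neighborSet, blow, Set.mem_union, Set.mem_ofPred_eq]
    exact hadj y q.1
  have hdW : ∀ a, H x a → ¬ W x a := fun a h1 h2 => hdis x a ⟨h1, h2⟩
  have hdH : ∀ a, W x a → ¬ H x a := fun a h2 h1 => hdis x a ⟨h1, h2⟩
  refine ⟨TT H W N x THH THV TVV, ?_, ?_⟩
  · rintro ⟨a, k⟩ ⟨b, l⟩ ha hb
    have ha' : H x a ∨ W x a := (hadj x a).mp ha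
    have hb' : H x b ∨ W x b := (hadj x b).mp hb
    rcases ha' with ha' | ha' <;> rcases hb' with hb' | hb'
    · simp only [TT, ha', hb', dif_pos]
      exact hHs _ _
    · simp only [TT, ha', hb', hdH b hb', dif_pos, dif_neg, not_false_eq_true]
    · simp only [TT, ha', hb', hdH a ha', dif_pos, dif_neg, not_false_eq_true]
    · simp only [TT, ha', hb', hdH a ha', hdH b hb', dif_pos, dif_neg, not_false_eq_true]
      rw [hWs a b ha' hb', add_comm]
  · rintro ⟨a, k⟩ ha
    have ha' : H x a ∨ W x a := (hadj x a).mp ha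
    rw [hnb, hnb]
    refine bijOn_union_disj ?_ ?_ ?_
    · rcases ha' with ha' | ha'
      · refine bijOn_transfer (e := fun r : {a // H x a} × Fin N => (r.1.1, r.2)) (fun r => r.1.2)
          (fun q hq => ⟨(⟨q.1, hq⟩, q.2), rfl⟩) (hHb (⟨a, ha'⟩, k)) ?_
        rintro ⟨⟨b, hb⟩, l⟩
        simp only [TT, ha', hb, dif_pos]
      · refine bijOn_transfer (e := fun r : {a // H x a} × Fin N => (r.1.1, r.2)) (fun r => r.1.2)
          (fun q hq => ⟨(⟨q.1, hq⟩, q.2), rfl⟩) (hVc (⟨a, ha'⟩, k)) ?_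
        rintro ⟨⟨b, hb⟩, l⟩
        simp only [TT, ha', hb, hdH a ha', dif_pos, dif_neg, not_false_eq_true]
    · rcases ha' with ha' | ha'
      · refine bijOn_transfer (e := fun r : {a // W x a} × Fin N => (r.1.1, r.2)) (fun r => r.1.2)
          (fun q hq => ⟨(⟨q.1, hq⟩, q.2), rfl⟩) (hVr (⟨a, ha'⟩, k)) ?_
        rintro ⟨⟨b, hb⟩, l⟩
        simp only [TT, ha', hb, hdH b hb, dif_pos, dif_neg, not_false_eq_true]
      · have hval : ∀ q : V × Fin N, W x q.1 → TT H W N x THH THV TVV (a, k) q = (TVV a q.1, k + q.2) := by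
          intro q hq
          simp only [TT, ha', hdH a ha', hdH q.1 hq, dif_pos, dif_neg, not_false_eq_true]
        have hb := hWb a ha'
        refine ⟨?_, ?_, ?_⟩
        · intro q hq
          rw [hval q hq]
          exact hb.mapsTo hq
        · intro q hq q' hq' h
          rw [hval q hq, hval q' hq'] at h
          have h1 := congrArg Prod.fst h
          have h2 := congrArg Prod.snd h
          exact Prod.ext (hb.injOn hq hq' h1) (add_left_cancel h2)
        · rintro ⟨z, c⟩ hz
          obtain ⟨b, hb1, hb2⟩ := hb.surjOn hz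
          refine ⟨(b, c - k), hb1, ?_⟩
          rw [hval (b, c - k) hb1]
          exact Prod.ext hb2 (add_sub_cancel k c)
    · intro z hz hz'
      exact hdis a z.1 ⟨hz, hz'⟩

end EntRF

end
end
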