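import Pool.Agent.Lib.MP_a349aa_gt.A4

section

/-!
# B7 : couplings for labelled points

`card_lab`: for `m0 ≤ K`, `∑ κ' : ZMod K, if (κ + κ').val < m0 then 1 else 0 = m0`
(`κ' ↦ κ + κ'` is a bijection of `ZMod K`, and `val : ZMod K → {0..K-1}` is one).

`HV_P`: with `m x y = K * P x y` put
`k x a u z = if GLab m x a ∧ WLab R x u ∧ WLab R a z ∧ GLab m u z then
  c x.1 a.1 u.1 z.1 / (K * P x.1 a.1 * P u.1 z.1) else 0`.
Note: if `R x u` and `P u z = 0` then `c x a u z = 0` (`sum_y`, nonnegativity), and if `R x u` and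
`P x a = 0` then `c x a u z = 0` (`sum_z`).
* `sum_z`: given `GLab m x a`, `WLab R x u`: for each `ω_z` there are `m (u, ω_z)` labels `κ_z`
  (and `ε_z = ε_a`, `λ_z = λ_a` are determined), so the sum is
  `∑ ω_z, c / P x a = 1`, where `P x a ≠ 0` because `m x a > 0`.
* `sum_u`: given `GLab m x a`, `WLab R a z`: the same with `u` and `sum_u`.
* `sum_a`: given `WLab R x u`, `GLab m u z`: `m (x, ω_a)` labels `κ_a`, `ε_a = ε_z`, `λ_a = λ_z`;
  the sum is `∑ ω_a, c / P u z = 1`.

`HV_U`: `k x a u z = if B x a ∧ WLab R x u ∧ WLab R a z ∧ B u z then (b / K) * c x a u z else 0`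
(points of `Ω`), each sum has `K` labels `κ`.
-/

noncomputable section

namespace EntRF

open Finset
open scoped Classical

theorem card_lab (K : ℕ) [NeZero K] (m0 : ℕ) (hm : m0 ≤ K) (κ : ZMod K) :
    ∑ κ' : ZMod K, (if (κ + κ').val < m0 then (1 : ℚ) else 0) = m0 := by
  have h1 : ∑ κ' : ZMod K, (if (κ + κ').val < m0 then (1 : ℚ) else 0)
      = ∑ t : ZMod K, (if t.val < m0 then (1 : ℚ) else 0) :=
    Equiv.sum_comp (Equiv.addLeft κ) (fun t : ZMod K => if t.val < m0 then (1 : ℚ) else 0)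
  rw [h1, Finset.sum_boole]
  congr 1
  have h2 : (Finset.univ.filter (fun t : ZMod K => t.val < m0)).card = (Finset.range m0).card := by
    refine Finset.card_nbij' (fun t => t.val) (fun j => (j : ZMod K)) ?_ ?_ ?_ ?_
    · intro t ht
      simpa using ht
    · intro j hj
      have hj' : j < m0 := by simpa using hj
      have : ((j : ZMod K)).val = j := ZMod.val_cast_of_lt (lt_of_lt_of_le hj' hm)
      simp [this, hj']
    · intro t _
      exact ZMod.natCast_zmod_val t
    · intro j hj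
      have hj' : j < m0 := by simpa using hj
      exact ZMod.val_cast_of_lt (lt_of_lt_of_le hj' hm)
  rw [h2, Finset.card_range]

private theorem sum_coll {Ω : Type} [Fintype Ω] {K n : ℕ} [NeZero K]
    (f : Ω × Lab K n → ℚ) (g : Ω → ZMod K → ℚ) (ε0 : ZMod 2) (l0 : Fin n)
    (h : ∀ w κ ε l, f (w, κ, ε, l) = if ε = ε0 ∧ l = l0 then g w κ else 0) :
    ∑ z, f z = ∑ w, ∑ κ, g w κ := by
  rw [Fintype.sum_prod_type]
  refine Finset.sum_congr rfl fun w _ => ?_
  rw [Fintype.sum_prod_type]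
  refine Finset.sum_congr rfl fun κ _ => ?_
  rw [Fintype.sum_prod_type]
  rw [Finset.sum_eq_single ε0, Finset.sum_eq_single l0]
  · rw [h]; simp
  · intro l _ hl
    rw [h]; simp [hl]
  · intro h'; exact absurd (Finset.mem_univ _) h'
  · intro ε _ hε
    refine Finset.sum_eq_zero fun l _ => ?_
    rw [h]; simp [hε]
  · intro h'; exact absurd (Finset.mem_univ _) h'

private theorem card_lab' (K : ℕ) [NeZero K] (m0 : ℕ) (hm : m0 ≤ K) (κ : ZMod K) (w : ℚ) :
    ∑ κ' : ZMod K, (if (κ + κ').val < m0 then w else 0) = m0 * w := by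
  rw [← card_lab K m0 hm κ, Finset.sum_mul]
  refine Finset.sum_congr rfl fun t _ => ?_
  split_ifs <;> simp

private theorem card_lab'' (K : ℕ) [NeZero K] (m0 : ℕ) (hm : m0 ≤ K) (κ : ZMod K) (w : ℚ) :
    ∑ κ' : ZMod K, (if (κ' + κ).val < m0 then w else 0) = m0 * w := by
  rw [← card_lab' K m0 hm κ w]
  refine Finset.sum_congr rfl fun t _ => ?_
  rw [add_comm]

private theorem cpl_zero_y {Ω : Type} [Fintype Ω] {P : Ω → Ω → ℚ} {R : Ω → Ω → Prop}
    {c : Ω → Ω → Ω → Ω → ℚ} (hc : IsCpl R P c) {x a u z : Ω} (h : P u z = 0) :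
    c x a u z = 0 := by
  by_contra hne
  have hR := (hc.supp _ _ _ _ hne).1
  have hs := hc.sum_y x u z hR
  rw [h] at hs
  exact hne ((Finset.sum_eq_zero_iff_of_nonneg (fun y _ => hc.nonneg _ _ _ _)).1 hs a
    (Finset.mem_univ _))

private theorem cpl_zero_z {Ω : Type} [Fintype Ω] {P : Ω → Ω → ℚ} {R : Ω → Ω → Prop}
    {c : Ω → Ω → Ω → Ω → ℚ} (hc : IsCpl R P c) {x a u z : Ω} (h : P x a = 0) :
    c x a u z = 0 := by
  by_contra hne
  have hR := (hc.supp _ _ _ _ hne).1
  have hs := hc.sum_z x a u hR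
  rw [h] at hs
  exact hne ((Finset.sum_eq_zero_iff_of_nonneg (fun y _ => hc.nonneg _ _ _ _)).1 hs z
    (Finset.mem_univ _))

theorem HV_P {Ω : Type} [Fintype Ω] (P : Ω → Ω → ℚ) (R : Ω → Ω → Prop)
    (c : Ω → Ω → Ω → Ω → ℚ) (hc : IsCpl R P c) (hP1 : ∀ x y, P x y ≤ 1)
    (K n : ℕ) [NeZero K] (m : Ω → Ω → ℕ) (hm : ∀ x y, (m x y : ℚ) = K * P x y) :
    ∃ k, IsHV (GLab (K := K) (n := n) m) (WLab R) k := by
  have hK : (0 : ℚ) < K := by exact_mod_cast Nat.pos_of_ne_zero (NeZero.ne K)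
  have hmK : ∀ x y, m x y ≤ K := by
    intro x y
    have h1 : (m x y : ℚ) ≤ K := by
      rw [hm]
      calc (K : ℚ) * P x y ≤ K * 1 := mul_le_mul_of_nonneg_left (hP1 x y) hK.le
        _ = K := mul_one _
    exact_mod_cast h1
  have hPpos : ∀ x y, 0 < m x y → 0 < P x y := by
    intro x y h
    have h1 : (0 : ℚ) < K * P x y := by
      rw [← hm]; exact_mod_cast h
    exact (mul_pos_iff_of_pos_left hK).1 h1
  have hPnn : ∀ x y, 0 ≤ P x y := by
    intro x y
    have h1 : (0 : ℚ) ≤ K * P x y := by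
      rw [← hm]; positivity
    exact (mul_nonneg_iff_of_pos_left hK).1 h1
  refine ⟨fun x a u z => if GLab m x a ∧ WLab R x u ∧ WLab R a z ∧ GLab m u z then
      c x.1 a.1 u.1 z.1 / (K * P x.1 a.1 * P u.1 z.1) else 0, ?_, ?_, ?_, ?_, ?_⟩
  · intro x a u z
    split_ifs
    · exact div_nonneg (hc.nonneg _ _ _ _) (mul_nonneg (mul_nonneg hK.le (hPnn _ _)) (hPnn _ _))
    · exact le_rfl
  · intro x a u z h
    split_ifs at h with h'
    · exact h'
    · exact absurd rfl h
  · -- sum_z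
    intro x a u hxa hxu
    have hP : 0 < P x.1 a.1 := hPpos _ _ (lt_of_le_of_lt (Nat.zero_le _) hxa.1)
    rw [sum_coll _ (fun w κ => if (u.2.1 + κ).val < m u.1 w then
      (if R a.1 w then c x.1 a.1 u.1 w / (K * P x.1 a.1 * P u.1 w) else 0) else 0)
      a.2.2.1 a.2.2.2]
    · rw [← div_self hP.ne', ← hc.sum_z x.1 a.1 u.1 hxu.1, Finset.sum_div]
      refine Finset.sum_congr rfl fun w _ => ?_
      rw [card_lab' K _ (hmK _ _), hm]
      by_cases hPu : P u.1 w = 0
      · rw [hPu, cpl_zero_y hc hPu]; simp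
      · by_cases hR : R a.1 w
        · rw [if_pos hR]
          field_simp
        · rw [if_neg hR]
          have : c x.1 a.1 u.1 w = 0 := by
            by_contra hne
            exact hR (hc.supp _ _ _ _ hne).2
          rw [this]; simp
    · intro w κ ε l
      have hε : ε = u.2.2.1 + 1 ↔ ε = a.2.2.1 := by
        rw [hxu.2.1, ← hxa.2]
      simp only [GLab, WLab]
      by_cases h1 : ε = a.2.2.1 ∧ l = a.2.2.2
      · rw [if_pos h1]
        by_cases h2 : (u.2.1 + κ).val < m u.1 w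
        · rw [if_pos h2]
          by_cases h3 : R a.1 w
          · rw [if_pos h3, if_pos]
            exact ⟨hxa, hxu, ⟨h3, h1.1, h1.2⟩, h2, hε.2 h1.1⟩
          · rw [if_neg h3, if_neg]
            rintro ⟨-, -, ⟨h4, -, -⟩, -⟩
            exact h3 h4
        · rw [if_neg h2, if_neg]
          rintro ⟨-, -, -, h4, -⟩
          exact h2 h4
      · rw [if_neg h1, if_neg]
        rintro ⟨-, -, ⟨-, h4, h5⟩, -⟩
        exact h1 ⟨h4, h5⟩
  · -- sum_u
    intro x a z hxa haz
    have hP : 0 < P x.1 a.1 := hPpos _ _ (lt_of_le_of_lt (Nat.zero_le _) hxa.1)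
    rw [sum_coll _ (fun w κ => if (κ + z.2.1).val < m w z.1 then
      (if R x.1 w then c x.1 a.1 w z.1 / (K * P x.1 a.1 * P w z.1) else 0) else 0)
      x.2.2.1 x.2.2.2]
    · rw [← div_self hP.ne', ← hc.sum_u x.1 a.1 z.1 haz.1, Finset.sum_div]
      refine Finset.sum_congr rfl fun w _ => ?_
      rw [card_lab'' K _ (hmK _ _), hm]
      by_cases hPu : P w z.1 = 0
      · rw [hPu, cpl_zero_y hc hPu]; simp
      · by_cases hR : R x.1 w
        · rw [if_pos hR]
          field_simp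
        · rw [if_neg hR]
          have : c x.1 a.1 w z.1 = 0 := by
            by_contra hne
            exact hR (hc.supp _ _ _ _ hne).1
          rw [this]; simp
    · intro w κ ε l
      have hε : z.2.2.1 = x.2.2.1 + 1 := by
        rw [haz.2.1, hxa.2]
      simp only [GLab, WLab]
      by_cases h1 : ε = x.2.2.1 ∧ l = x.2.2.2
      · rw [if_pos h1]
        by_cases h2 : (κ + z.2.1).val < m w z.1
        · rw [if_pos h2]
          by_cases h3 : R x.1 w
          · rw [if_pos h3, if_pos]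
            refine ⟨hxa, ⟨h3, h1.1, h1.2⟩, haz, h2, ?_⟩
            rw [h1.1]; exact hε
          · rw [if_neg h3, if_neg]
            rintro ⟨-, ⟨h4, -, -⟩, -, -⟩
            exact h3 h4
        · rw [if_neg h2, if_neg]
          rintro ⟨-, -, -, h4, -⟩
          exact h2 h4
      · rw [if_neg h1, if_neg]
        rintro ⟨-, ⟨-, h4, h5⟩, -, -⟩
        exact h1 ⟨h4, h5⟩
  · -- sum_a
    intro x u z hxu huz
    have hP : 0 < P u.1 z.1 := hPpos _ _ (lt_of_le_of_lt (Nat.zero_le _) huz.1)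
    rw [sum_coll _ (fun w κ => if (x.2.1 + κ).val < m x.1 w then
      (if R w z.1 then c x.1 w u.1 z.1 / (K * P x.1 w * P u.1 z.1) else 0) else 0)
      z.2.2.1 z.2.2.2]
    · rw [← div_self hP.ne', ← hc.sum_y x.1 u.1 z.1 hxu.1, Finset.sum_div]
      refine Finset.sum_congr rfl fun w _ => ?_
      rw [card_lab' K _ (hmK _ _), hm]
      by_cases hPu : P x.1 w = 0
      · rw [hPu, cpl_zero_z hc hPu]; simp
      · by_cases hR : R w z.1
        · rw [if_pos hR]
          field_simp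
        · rw [if_neg hR]
          have : c x.1 w u.1 z.1 = 0 := by
            by_contra hne
            exact hR (hc.supp _ _ _ _ hne).2
          rw [this]; simp
    · intro w κ ε l
      have hε : z.2.2.1 = x.2.2.1 + 1 := by
        rw [huz.2, hxu.2.1]
      simp only [GLab, WLab]
      by_cases h1 : ε = z.2.2.1 ∧ l = z.2.2.2
      · rw [if_pos h1]
        by_cases h2 : (x.2.1 + κ).val < m x.1 w
        · rw [if_pos h2]
          by_cases h3 : R w z.1
          · rw [if_pos h3, if_pos]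
            refine ⟨⟨h2, ?_⟩, hxu, ⟨h3, h1.1.symm, h1.2.symm⟩, huz⟩
            rw [h1.1]; exact hε
          · rw [if_neg h3, if_neg]
            rintro ⟨-, -, ⟨h4, -, -⟩, -⟩
            exact h3 h4
        · rw [if_neg h2, if_neg]
          rintro ⟨⟨h4, -⟩, -, -, -⟩
          exact h2 h4
      · rw [if_neg h1, if_neg]
        rintro ⟨-, -, ⟨-, h4, h5⟩, -⟩
        exact h1 ⟨h4.symm, h5.symm⟩

private theorem sum_const_lab (K : ℕ) [NeZero K] (w : ℚ) :
    ∑ _κ : ZMod K, w = K * w := by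
  rw [Finset.sum_const, Finset.card_univ, ZMod.card, nsmul_eq_mul]

theorem HV_U {Ω : Type} [Fintype Ω] (B R : Ω → Ω → Prop) (b : ℕ) (hb : 0 < b)
    (c : Ω → Ω → Ω → Ω → ℚ) (hc : IsCpl R (UB B b) c)
    (K n : ℕ) [NeZero K] :
    ∃ k, IsHV (ELab (K := K) (n := n) B) (WLab R) k := by
  have hK : (0 : ℚ) < K := by exact_mod_cast Nat.pos_of_ne_zero (NeZero.ne K)
  have hb' : (0 : ℚ) < b := by exact_mod_cast hb
  refine ⟨fun x a u z => if B x.1 a.1 ∧ WLab R x u ∧ WLab R a z ∧ B u.1 z.1 then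
      (b / K) * c x.1 a.1 u.1 z.1 else 0, ?_, ?_, ?_, ?_, ?_⟩
  · intro x a u z
    split_ifs
    · exact mul_nonneg (div_nonneg hb'.le hK.le) (hc.nonneg _ _ _ _)
    · exact le_rfl
  · intro x a u z h
    split_ifs at h with h'
    · exact h'
    · exact absurd rfl h
  · intro x a u hxa hxu
    have hxa' : B x.1 a.1 := hxa
    rw [sum_coll _ (fun w _ => (b / K) * c x.1 a.1 u.1 w) a.2.2.1 a.2.2.2]
    · have h1 : ∑ w, ∑ _κ : ZMod K, (b / K : ℚ) * c x.1 a.1 u.1 w
          = b * ∑ w, c x.1 a.1 u.1 w := by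
        rw [Finset.mul_sum]
        refine Finset.sum_congr rfl fun w _ => ?_
        rw [sum_const_lab]
        field_simp
      rw [h1, hc.sum_z x.1 a.1 u.1 hxu.1, UB, if_pos hxa']
      field_simp
    · intro w κ ε l
      simp only [WLab]
      by_cases h1 : ε = a.2.2.1 ∧ l = a.2.2.2
      · rw [if_pos h1]
        by_cases h2 : c x.1 a.1 u.1 w = 0
        · rw [h2]; simp
        · have hR := (hc.supp _ _ _ _ h2).2
          have hBu : B u.1 w := by
            by_contra hB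
            exact h2 (cpl_zero_y hc (by rw [UB, if_neg hB]))
          rw [if_pos]
          exact ⟨hxa', hxu, ⟨hR, h1.1, h1.2⟩, hBu⟩
      · rw [if_neg h1, if_neg]
        rintro ⟨-, -, ⟨-, h4, h5⟩, -⟩
        exact h1 ⟨h4, h5⟩
  · intro x a z hxa haz
    have hxa' : B x.1 a.1 := hxa
    rw [sum_coll _ (fun w _ => (b / K) * c x.1 a.1 w z.1) x.2.2.1 x.2.2.2]
    · have h1 : ∑ w, ∑ _κ : ZMod K, (b / K : ℚ) * c x.1 a.1 w z.1
          = b * ∑ w, c x.1 a.1 w z.1 := by
        rw [Finset.mul_sum]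
        refine Finset.sum_congr rfl fun w _ => ?_
        rw [sum_const_lab]
        field_simp
      rw [h1, hc.sum_u x.1 a.1 z.1 haz.1, UB, if_pos hxa']
      field_simp
    · intro w κ ε l
      simp only [WLab]
      by_cases h1 : ε = x.2.2.1 ∧ l = x.2.2.2
      · rw [if_pos h1]
        by_cases h2 : c x.1 a.1 w z.1 = 0
        · rw [h2]; simp
        · have hR := (hc.supp _ _ _ _ h2).1
          have hBu : B w z.1 := by
            by_contra hB
            exact h2 (cpl_zero_y hc (by rw [UB, if_neg hB]))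
          rw [if_pos]
          exact ⟨hxa', ⟨hR, h1.1, h1.2⟩, haz, hBu⟩
      · rw [if_neg h1, if_neg]
        rintro ⟨-, ⟨-, h4, h5⟩, -, -⟩
        exact h1 ⟨h4, h5⟩
  · intro x u z hxu huz
    have huz' : B u.1 z.1 := huz
    rw [sum_coll _ (fun w _ => (b / K) * c x.1 w u.1 z.1) z.2.2.1 z.2.2.2]
    · have h1 : ∑ w, ∑ _κ : ZMod K, (b / K : ℚ) * c x.1 w u.1 z.1
          = b * ∑ w, c x.1 w u.1 z.1 := by
        rw [Finset.mul_sum]
        refine Finset.sum_congr rfl fun w _ => ?_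
        rw [sum_const_lab]
        field_simp
      rw [h1, hc.sum_y x.1 u.1 z.1 hxu.1, UB, if_pos huz']
      field_simp
    · intro w κ ε l
      simp only [WLab]
      by_cases h1 : ε = z.2.2.1 ∧ l = z.2.2.2
      · rw [if_pos h1]
        by_cases h2 : c x.1 w u.1 z.1 = 0
        · rw [h2]; simp
        · have hR := (hc.supp _ _ _ _ h2).2
          have hBu : B x.1 w := by
            by_contra hB
            exact h2 (cpl_zero_z hc (by rw [UB, if_neg hB]))
          rw [if_pos]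
          exact ⟨hBu, hxu, ⟨hR, h1.1.symm, h1.2.symm⟩, huz'⟩
      · rw [if_neg h1, if_neg]
        rintro ⟨-, -, ⟨-, h4, h5⟩, -⟩
        exact h1 ⟨h4.symm, h5.symm⟩

theorem VV_L {Ω : Type} [Fintype Ω] (R : Ω → Ω → Prop) (T : Ω → Ω → Ω → Ω) (hT : IsVV R T)
    (K n : ℕ) [NeZero K] : ∃ T', IsVV (WLab (K := K) (n := n) R) T' := by
  refine ⟨fun x a b => (T x.1 a.1 b.1, a.2.1 + b.2.1, x.2.2.1, x.2.2.2), ?_, ?_⟩
  · intro x a b hxa hxb
    rw [hT.symm x.1 a.1 b.1 hxa.1 hxb.1, add_comm]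
  · intro x a hxa
    obtain ⟨h1, h2, h3⟩ := hT.bij x.1 a.1 hxa.1
    refine ⟨?_, ?_, ?_⟩
    · intro b hb
      exact ⟨h1 hb.1, hxa.2.1.symm, hxa.2.2.symm⟩
    · intro b hb b' hb' h
      have e := Prod.mk.inj h
      have e1 : b.1 = b'.1 := h2 hb.1 hb'.1 e.1
      have e2 : b.2.1 = b'.2.1 := by
        have := (Prod.mk.inj e.2).1
        exact add_left_cancel this
      have e3 : b.2.2.1 = b'.2.2.1 := by rw [hb.2.1, hb'.2.1]
      have e4 : b.2.2.2 = b'.2.2.2 := by rw [hb.2.2, hb'.2.2]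
      exact Prod.ext e1 (Prod.ext e2 (Prod.ext e3 e4))
    · intro z hz
      obtain ⟨b1, hb1, hb2⟩ := h3 (show z.1 ∈ {z | R a.1 z} from hz.1)
      refine ⟨(b1, z.2.1 - a.2.1, x.2.2.1, x.2.2.2), ⟨hb1, rfl, rfl⟩, ?_⟩
      dsimp only
      refine Prod.ext hb2 (Prod.ext ?_ (Prod.ext ?_ ?_))
      · dsimp only
        abel
      · dsimp only
        rw [hz.2.1, hxa.2.1]
      · dsimp only
        rw [hz.2.2, hxa.2.2]

end EntRF

end
end

section

/-!
# B8 : the labelled points satisfy the hypotheses of the part construction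

`p = n K` (row sums of `P` are 1, `card_lab`, `ε` determined, `λ` free), `n0 = 2 b K n`.
`GLab` is symmetric because `m` is (from `P`), irreflexive because `ε` changes.
`2 p ≤ n0` because `b ≥ 1`.
-/

noncomputable section

namespace EntRF

open Finset
open scoped Classical

private theorem sum_lab_all {Ω : Type} [Fintype Ω] {K n : ℕ} [NeZero K]
    (f : Ω × Lab K n → ℚ) :
    ∑ z, f z = ∑ w, ∑ κ, ∑ ε, ∑ l, f (w, κ, ε, l) := by
  rw [Fintype.sum_prod_type]
  refine Finset.sum_congr rfl fun w _ => ?_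
  rw [Fintype.sum_prod_type]
  refine Finset.sum_congr rfl fun κ _ => ?_
  rw [Fintype.sum_prod_type]

theorem partHyp_lab {Ω : Type} [Fintype Ω] {P : Ω → Ω → ℚ} {B R : Ω → Ω → Prop} {b dV : ℕ}
    {cP cU : Ω → Ω → Ω → Ω → ℚ} {T : Ω → Ω → Ω → Ω} (h : KData P B R b dV cP cU T)
    (hb : 0 < b) (K n : ℕ) [NeZero K] (hn : 0 < n) (m : Ω → Ω → ℕ)
    (hm : ∀ x y, (m x y : ℚ) = K * P x y) :
    PartHyp (GLab (K := K) (n := n) m) (ELab B) ((n * K : ℕ) : ℚ) ((2 * b * K * n : ℕ) : ℚ) := by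
  have hK : (0 : ℚ) < K := by exact_mod_cast Nat.pos_of_ne_zero (NeZero.ne K)
  have hmsymm : ∀ x y, m x y = m y x := by
    intro x y
    have : (m x y : ℚ) = m y x := by rw [hm, hm, h.Psymm]
    exact_mod_cast this
  have hP1 : ∀ x y, P x y ≤ 1 := by
    intro x y
    rw [← h.Psum x]
    exact Finset.single_le_sum (f := fun y => P x y) (fun z _ => h.Pnonneg x z) (Finset.mem_univ y)
  have hmK : ∀ x y, m x y ≤ K := by
    intro x y
    have h1 : (m x y : ℚ) ≤ K := by
      rw [hm]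
      calc (K : ℚ) * P x y ≤ K * 1 := mul_le_mul_of_nonneg_left (hP1 x y) hK.le
        _ = K := mul_one _
    exact_mod_cast h1
  refine ⟨?_, ?_, ?_, ?_, ?_, ?_, ?_, ?_, ?_, ?_⟩
  · rintro x y ⟨h1, h2⟩
    refine ⟨?_, ?_⟩
    · rw [add_comm, hmsymm]; exact h1
    · rw [h2, add_assoc]
      have : (1 : ZMod 2) + 1 = 0 := by decide
      rw [this, add_zero]
  · rintro x ⟨-, h2⟩
    have : (1 : ZMod 2) = 0 := by
      have h3 : x.2.2.1 + 0 = x.2.2.1 + 1 := by rw [add_zero]; exact h2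
      exact (add_left_cancel h3).symm
    exact absurd this (by decide)
  · rintro x y ⟨h1, -⟩
    have hpos : 0 < m x.1 y.1 := lt_of_le_of_lt (Nat.zero_le _) h1
    have : P x.1 y.1 ≠ 0 := by
      intro h0
      have h2 := hm x.1 y.1
      rw [h0, mul_zero] at h2
      have : m x.1 y.1 = 0 := by exact_mod_cast h2
      omega
    exact h.PB _ _ this
  · intro x; exact h.Brefl _
  · intro x y hxy; exact h.Bsymm _ _ hxy
  · intro x y z hxy hyz; exact h.Btrans _ _ _ hxy hyz
  · intro x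
    rw [sum_lab_all]
    have h1 : ∀ w : Ω, ∀ κ : ZMod K, ∑ ε : ZMod 2, ∑ l : Fin n,
        (if GLab m x (w, κ, ε, l) then (1 : ℚ) else 0) =
        if (x.2.1 + κ).val < m x.1 w then (n : ℚ) else 0 := by
      intro w κ
      rw [Finset.sum_eq_single (x.2.2.1 + 1)]
      · simp only [GLab, and_true]
        split_ifs with h2 <;> simp
      · intro ε _ hε
        refine Finset.sum_eq_zero fun l _ => ?_
        simp [GLab, hε]
      · intro h'; exact absurd (Finset.mem_univ _) h'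
    simp only [h1]
    have h2 : ∀ w : Ω, ∑ κ : ZMod K, (if (x.2.1 + κ).val < m x.1 w then (n : ℚ) else 0) =
        K * n * P x.1 w := by
      intro w
      have h3 : ∑ κ : ZMod K, (if (x.2.1 + κ).val < m x.1 w then (n : ℚ) else 0) =
          n * ∑ κ : ZMod K, (if (x.2.1 + κ).val < m x.1 w then (1 : ℚ) else 0) := by
        rw [Finset.mul_sum]
        refine Finset.sum_congr rfl fun κ _ => ?_
        split_ifs <;> simp
      rw [h3, card_lab K _ (hmK _ _), hm]
      ring
    simp only [h2]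
    rw [← Finset.mul_sum, h.Psum]
    push_cast
    ring
  · intro x
    rw [sum_lab_all]
    have h1 : ∀ w : Ω, ∀ κ : ZMod K, ∑ ε : ZMod 2, ∑ l : Fin n,
        (if ELab B x (w, κ, ε, l) then (1 : ℚ) else 0) =
        if B x.1 w then (2 * n : ℚ) else 0 := by
      intro w κ
      by_cases hw : B x.1 w
      · simp [ELab, hw]
      · simp [ELab, hw]
    simp only [h1]
    have h2 : ∀ w : Ω, ∑ _κ : ZMod K, (if B x.1 w then (2 * n : ℚ) else 0) =
        (2 * n * K) * (if B x.1 w then (1 : ℚ) else 0) := by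
      intro w
      rw [Finset.sum_const, Finset.card_univ, ZMod.card, nsmul_eq_mul]
      split_ifs <;> ring
    simp only [h2]
    rw [← Finset.mul_sum, h.Bcard]
    push_cast
    ring
  · have h1 : 1 ≤ n * K := Nat.one_le_iff_ne_zero.2 (Nat.mul_ne_zero hn.ne' (NeZero.ne K))
    exact_mod_cast h1
  · have h1 : 2 * (n * K) ≤ 2 * b * K * n := by
      calc 2 * (n * K) = 2 * 1 * K * n := by ring
        _ ≤ 2 * b * K * n := by gcongr; exact hb
    exact_mod_cast h1

end EntRF

end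
end
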