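import Pool.Agent.Lib.MP_a349aa_gt.A4
import Pool.Agent.Lib.MP_a349aa_gt.A7
import Pool.Agent.Lib.MP_a349aa_gt.B8

section

/-!
# B3 : `∑ z, KHH4 x a b z = 1`, both neighbours outside the part of `x`

* `sum_muz`: `∑ z, if E x z then muz x z else 0 = kap0`. Here `comN x x = p`,
  `∑ z, comN x z = p^2` and `comN x z ≠ 0 → E x z`; so the sum is
  `(n0 - p/(6 n0) - (p^2 - p)/(3 n0)) / (3 n0)`.
* `kz_same` (`a.2 = b.2 ≠ x.2`): part `x.2` gives `kap0` (the outer condition on `z` is `E x.1 θ`),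
  part `a.2` gives `0`, the two other parts `2 n0 mu3`.
* `kz_diff` (`a.2 ≠ b.2`, both `≠ x.2`): part `x.2`: `kap0`; parts `a.2`, `b.2`: `p/(p+2 n0)` each;
  the remaining part: `n0 mu4`.
-/

noncomputable section

namespace EntRF

open Finset
open scoped Classical

variable {Θ : Type} [Fintype Θ] {Γ E : Θ → Θ → Prop} {p n0 : ℚ}

private theorem comN_self_B3 (h : PartHyp Γ E p n0) (x : Θ) : comN Γ x x = p := by
  unfold comN
  rw [← h.deg x]
  refine Finset.sum_congr rfl fun w _ => ?_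
  simp only [and_self]

private theorem comN_sum_B3 (h : PartHyp Γ E p n0) (x : Θ) : ∑ z, comN Γ x z = p * p := by
  unfold comN
  rw [Finset.sum_comm]
  have h1 : ∀ w, ∑ z, (if Γ x w ∧ Γ z w then (1 : ℚ) else 0) = (if Γ x w then 1 else 0) * p := by
    intro w
    by_cases hw : Γ x w
    · simp only [hw, true_and, if_true, one_mul]
      rw [← h.deg w]
      refine Finset.sum_congr rfl fun z _ => ?_
      by_cases hz : Γ z w
      · rw [if_pos hz, if_pos (h.symm _ _ hz)]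
      · rw [if_neg hz, if_neg (fun h' => hz (h.symm _ _ h'))]
    · simp [hw]
  rw [Finset.sum_congr rfl fun w _ => h1 w, ← Finset.sum_mul, h.deg]

private theorem comN_zero_B3 (h : PartHyp Γ E p n0) (x z : Θ) (hE : ¬ E x z) : comN Γ x z = 0 := by
  unfold comN
  refine Finset.sum_eq_zero fun w _ => ?_
  rw [if_neg]
  rintro ⟨h1, h2⟩
  exact hE (h.etrans _ _ _ (h.sub _ _ h1) (h.esymm _ _ (h.sub _ _ h2)))

private theorem n0_pos_B3 (h : PartHyp Γ E p n0) : 0 < n0 := by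
  have h1 := h.one_le
  have h2 := h.le
  linarith

theorem sum_muz (h : PartHyp Γ E p n0) (x : Θ) :
    ∑ z, (if E x z then muz Γ p n0 x z else 0) = kap0 p n0 := by
  have hn : n0 ≠ 0 := (n0_pos_B3 h).ne'
  have h1 : ∀ z, (if E x z then muz Γ p n0 x z else 0) =
      (if E x z then (1 : ℚ) else 0) * (1 / (3 * n0)) - comN Γ x z * (1 / (3 * n0) / (3 * n0)) +
        (if z = x then p * (1 / (6 * n0) / (3 * n0)) else 0) := by
    intro z
    by_cases hz : z = x
    · subst hz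
      rw [if_pos (h.erefl z), if_pos (h.erefl z), if_pos rfl, comN_self_B3 h]
      unfold muz
      rw [if_pos rfl]
      field_simp
      ring
    · by_cases hE : E x z
      · rw [if_pos hE, if_pos hE, if_neg hz]
        unfold muz
        rw [if_neg hz]
        field_simp
        ring
      · rw [if_neg hE, if_neg hE, if_neg hz, comN_zero_B3 h x z hE]
        ring
  rw [Finset.sum_congr rfl fun z _ => h1 z, Finset.sum_add_distrib, Finset.sum_sub_distrib,
    ← Finset.sum_mul, ← Finset.sum_mul, h.card, comN_sum_B3 h]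
  simp only [Finset.sum_ite_eq', Finset.mem_univ, if_true]
  unfold kap0
  field_simp
  ring

private theorem sum4_B3 (i j : Fin 4) (hij : j ≠ i) (A B c : ℚ) :
    ∑ k : Fin 4, (if k = i then A else if k = j then B else c) = A + B + 2 * c := by
  fin_cases i <;> fin_cases j <;> first | (exact absurd rfl hij) | (simp [Fin.sum_univ_four] <;> ring)

private theorem sum4'_B3 (i j l : Fin 4) (hij : j ≠ i) (hil : l ≠ i) (hjl : j ≠ l) (A B C c : ℚ) :
    ∑ k : Fin 4, (if k = i then A else if k = j then B else if k = l then C else c) =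
      A + B + C + c := by
  fin_cases i <;> fin_cases j <;> first | (exact absurd rfl hij) |
    (fin_cases l <;> first | (exact absurd rfl hil) | (exact absurd rfl hjl) |
      (simp [Fin.sum_univ_four] <;> ring))

private theorem cardE_B3 (h : PartHyp Γ E p n0) (x : Θ) (c : ℚ) :
    ∑ z, (if E x z then c else 0) = n0 * c := by
  rw [← h.card x, Finset.sum_mul]
  refine Finset.sum_congr rfl fun z _ => ?_
  split_ifs <;> ring

private theorem degG_B3 (h : PartHyp Γ E p n0) (x : Θ) (c : ℚ) :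
    ∑ z, (if Γ x z then c else 0) = p * c := by
  rw [← h.deg x, Finset.sum_mul]
  refine Finset.sum_congr rfl fun z _ => ?_
  split_ifs <;> ring

private theorem H4_ne_B3 {x a : Θ × Fin 4} (h1 : a.2 ≠ x.2) :
    H4 Γ E x a ↔ E x.1 a.1 := by
  unfold H4
  constructor
  · rintro (⟨h, _⟩ | ⟨_, h⟩)
    · exact absurd h.symm h1
    · exact h
  · intro h
    exact Or.inr ⟨fun h' => h1 h'.symm, h⟩

private theorem H4_eq_B3 {x a : Θ × Fin 4} (h1 : a.2 = x.2) :
    H4 Γ E x a ↔ Γ x.1 a.1 := by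
  unfold H4
  constructor
  · rintro (⟨_, h⟩ | ⟨h, _⟩)
    · exact h
    · exact absurd h1.symm h
  · intro h
    exact Or.inl ⟨h1.symm, h⟩

private theorem Ecomm_B3 (h : PartHyp Γ E p n0) {x a z : Θ} (hxa : E x a) : E a z ↔ E x z :=
  ⟨fun h' => h.etrans _ _ _ hxa h', fun h' => h.etrans _ _ _ (h.esymm _ _ hxa) h'⟩

theorem kz_same (h : PartHyp Γ E p n0) (x a b : Θ × Fin 4) (ha : H4 Γ E x a) (hb : H4 Γ E x b)
    (h1 : a.2 ≠ x.2) (h2 : b.2 = a.2) : ∑ z, KHH4 Γ E p n0 x a b z = 1 := by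
  have hn : n0 ≠ 0 := (n0_pos_B3 h).ne'
  have hbx : b.2 ≠ x.2 := fun h' => h1 (h2 ▸ h')
  have hEa : E x.1 a.1 := (H4_ne_B3 h1).1 ha
  have hEb : E x.1 b.1 := (H4_ne_B3 hbx).1 hb
  rw [Fintype.sum_prod_type_right]
  have key : ∀ k : Fin 4, ∑ θ : Θ, KHH4 Γ E p n0 x a b (θ, k) =
      (if k = x.2 then kap0 p n0 else if k = a.2 then 0 else n0 * mu3 p n0) := by
    intro k
    by_cases hk : k = x.2
    · rw [if_pos hk, ← sum_muz h x.1]
      refine Finset.sum_congr rfl fun θ _ => ?_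
      have e1 : H4 Γ E a (θ, k) ↔ E x.1 θ := by
        rw [H4_ne_B3 (show (θ, k).2 ≠ a.2 from fun h' => h1 (h'.symm.trans hk))]
        exact Ecomm_B3 h hEa
      have e2 : H4 Γ E b (θ, k) ↔ E x.1 θ := by
        rw [H4_ne_B3 (show (θ, k).2 ≠ b.2 from fun h' => hbx (h'.symm.trans hk))]
        exact Ecomm_B3 h hEb
      unfold KHH4
      rw [if_neg (show ¬ (a.2 = x.2 ∧ b.2 = x.2) from fun h' => h1 h'.1),
          if_neg (show ¬ (a.2 = x.2 ∨ b.2 = x.2) from fun h' => h'.elim h1 hbx),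
          if_pos (show a.2 = b.2 from h2.symm),
        if_pos (show (θ, k).2 = x.2 from hk)]
      simp only [ha, hb, e1, e2, true_and, and_self]
    · rw [if_neg hk]
      by_cases hk2 : k = a.2
      · rw [if_pos hk2]
        refine Finset.sum_eq_zero fun θ _ => ?_
        unfold KHH4
        rw [if_neg (show ¬ (a.2 = x.2 ∧ b.2 = x.2) from fun h' => h1 h'.1),
          if_neg (show ¬ (a.2 = x.2 ∨ b.2 = x.2) from fun h' => h'.elim h1 hbx),
          if_pos (show a.2 = b.2 from h2.symm),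
          if_neg (show ¬ (θ, k).2 = x.2 from hk), if_pos (show (θ, k).2 = a.2 from hk2)]
        simp
      · rw [if_neg hk2, ← cardE_B3 h x.1]
        refine Finset.sum_congr rfl fun θ _ => ?_
        have e1 : H4 Γ E a (θ, k) ↔ E x.1 θ := by
          rw [H4_ne_B3 (show (θ, k).2 ≠ a.2 from hk2)]
          exact Ecomm_B3 h hEa
        have e2 : H4 Γ E b (θ, k) ↔ E x.1 θ := by
          rw [H4_ne_B3 (show (θ, k).2 ≠ b.2 from fun h' => hk2 (h'.trans h2))]
          exact Ecomm_B3 h hEb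
        unfold KHH4
        rw [if_neg (show ¬ (a.2 = x.2 ∧ b.2 = x.2) from fun h' => h1 h'.1),
          if_neg (show ¬ (a.2 = x.2 ∨ b.2 = x.2) from fun h' => h'.elim h1 hbx),
          if_pos (show a.2 = b.2 from h2.symm),
          if_neg (show ¬ (θ, k).2 = x.2 from hk), if_neg (show ¬ (θ, k).2 = a.2 from hk2)]
        simp only [ha, hb, e1, e2, true_and, and_self]
  rw [Finset.sum_congr rfl fun k _ => key k, sum4_B3 _ _ h1]
  unfold mu3
  field_simp
  ring

theorem kz_diff (h : PartHyp Γ E p n0) (x a b : Θ × Fin 4) (ha : H4 Γ E x a) (hb : H4 Γ E x b)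
    (h1 : a.2 ≠ x.2) (h2 : b.2 ≠ x.2) (h3 : a.2 ≠ b.2) :
    ∑ z, KHH4 Γ E p n0 x a b z = 1 := by
  have hn : n0 ≠ 0 := (n0_pos_B3 h).ne'
  have hEa : E x.1 a.1 := (H4_ne_B3 h1).1 ha
  have hEb : E x.1 b.1 := (H4_ne_B3 h2).1 hb
  rw [Fintype.sum_prod_type_right]
  have key : ∀ k : Fin 4, ∑ θ : Θ, KHH4 Γ E p n0 x a b (θ, k) =
      (if k = x.2 then kap0 p n0 else if k = a.2 then p * (1 / (p + 2 * n0)) else
        if k = b.2 then p * (1 / (p + 2 * n0)) else n0 * mu4 p n0) := by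
    intro k
    by_cases hk : k = x.2
    · rw [if_pos hk, ← sum_muz h x.1]
      refine Finset.sum_congr rfl fun θ _ => ?_
      have e1 : H4 Γ E a (θ, k) ↔ E x.1 θ := by
        rw [H4_ne_B3 (show (θ, k).2 ≠ a.2 from fun h' => h1 (h'.symm.trans hk))]
        exact Ecomm_B3 h hEa
      have e2 : H4 Γ E b (θ, k) ↔ E x.1 θ := by
        rw [H4_ne_B3 (show (θ, k).2 ≠ b.2 from fun h' => h2 (h'.symm.trans hk))]
        exact Ecomm_B3 h hEb
      unfold KHH4
      rw [if_neg (show ¬ (a.2 = x.2 ∧ b.2 = x.2) from fun h' => h1 h'.1),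
          if_neg (show ¬ (a.2 = x.2 ∨ b.2 = x.2) from fun h' => h'.elim h1 h2),
          if_neg (show ¬ a.2 = b.2 from h3),
        if_pos (show (θ, k).2 = x.2 from hk)]
      simp only [ha, hb, e1, e2, true_and, and_self]
    · rw [if_neg hk]
      by_cases hk2 : k = a.2
      · rw [if_pos hk2, ← degG_B3 h a.1]
        refine Finset.sum_congr rfl fun θ _ => ?_
        have e1 : H4 Γ E a (θ, k) ↔ Γ a.1 θ := H4_eq_B3 (show (θ, k).2 = a.2 from hk2)
        have e2 : H4 Γ E b (θ, k) ↔ E x.1 θ := by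
          rw [H4_ne_B3 (show (θ, k).2 ≠ b.2 from fun h' => h3 (hk2.symm.trans h'))]
          exact Ecomm_B3 h hEb
        have e3 : (Γ a.1 θ ∧ E x.1 θ) ↔ Γ a.1 θ :=
          ⟨fun h' => h'.1, fun h' => ⟨h', (Ecomm_B3 h hEa).1 (h.sub _ _ h')⟩⟩
        unfold KHH4
        rw [if_neg (show ¬ (a.2 = x.2 ∧ b.2 = x.2) from fun h' => h1 h'.1),
          if_neg (show ¬ (a.2 = x.2 ∨ b.2 = x.2) from fun h' => h'.elim h1 h2),
          if_neg (show ¬ a.2 = b.2 from h3),
          if_neg (show ¬ (θ, k).2 = x.2 from hk), if_pos (show (θ, k).2 = a.2 ∨ (θ, k).2 = b.2 from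
            Or.inl hk2)]
        simp only [ha, hb, e1, e2, true_and, e3]
      · rw [if_neg hk2]
        by_cases hk3 : k = b.2
        · rw [if_pos hk3, ← degG_B3 h b.1]
          refine Finset.sum_congr rfl fun θ _ => ?_
          have e1 : H4 Γ E b (θ, k) ↔ Γ b.1 θ := H4_eq_B3 (show (θ, k).2 = b.2 from hk3)
          have e2 : H4 Γ E a (θ, k) ↔ E x.1 θ := by
            rw [H4_ne_B3 (show (θ, k).2 ≠ a.2 from hk2)]
            exact Ecomm_B3 h hEa
          have e3 : (E x.1 θ ∧ Γ b.1 θ) ↔ Γ b.1 θ :=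
            ⟨fun h' => h'.2, fun h' => ⟨(Ecomm_B3 h hEb).1 (h.sub _ _ h'), h'⟩⟩
          unfold KHH4
          rw [if_neg (show ¬ (a.2 = x.2 ∧ b.2 = x.2) from fun h' => h1 h'.1),
          if_neg (show ¬ (a.2 = x.2 ∨ b.2 = x.2) from fun h' => h'.elim h1 h2),
          if_neg (show ¬ a.2 = b.2 from h3),
            if_neg (show ¬ (θ, k).2 = x.2 from hk),
            if_pos (show (θ, k).2 = a.2 ∨ (θ, k).2 = b.2 from Or.inr hk3)]
          simp only [ha, hb, e1, e2, true_and, e3]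
        · rw [if_neg hk3, ← cardE_B3 h x.1]
          refine Finset.sum_congr rfl fun θ _ => ?_
          have e1 : H4 Γ E a (θ, k) ↔ E x.1 θ := by
            rw [H4_ne_B3 (show (θ, k).2 ≠ a.2 from hk2)]
            exact Ecomm_B3 h hEa
          have e2 : H4 Γ E b (θ, k) ↔ E x.1 θ := by
            rw [H4_ne_B3 (show (θ, k).2 ≠ b.2 from hk3)]
            exact Ecomm_B3 h hEb
          unfold KHH4
          rw [if_neg (show ¬ (a.2 = x.2 ∧ b.2 = x.2) from fun h' => h1 h'.1),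
          if_neg (show ¬ (a.2 = x.2 ∨ b.2 = x.2) from fun h' => h'.elim h1 h2),
          if_neg (show ¬ a.2 = b.2 from h3),
            if_neg (show ¬ (θ, k).2 = x.2 from hk),
            if_neg (show ¬ ((θ, k).2 = a.2 ∨ (θ, k).2 = b.2) from fun h' => h'.elim hk2 hk3)]
          simp only [ha, hb, e1, e2, true_and, and_self]
  rw [Finset.sum_congr rfl fun k _ => key k, sum4'_B3 _ _ _ h1 h2 h3]
  unfold mu4
  field_simp
  ring

end EntRF

end
end

section

/-!
# B4 : `∑ b, KHH4 x a b z = 1`, `z` in the part of `x`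

`b` runs over `Θ × Fin 4`; split into parts. In all cases `E x z`, `E x a`.
* `kb_in_x` (`a.2 = x.2`, `z = x`): `b` in part `x.2` with `Γ x b`: `p * 1/(2p)`; three other parts
  (condition `E x b`): `3 n0 * 1/(6 n0)`.
* `kb_in_in` (`a.2 = x.2`, `z.2 = x.2`, `z ≠ x`): part `x.2`: 0; others: `3 n0 * 1/(3 n0)`.
* `kb_out_x` (`a.2 ≠ x.2`, `z = x`): part `x.2`: `p/(6 n0)`; others: `3 n0 * muz x x`.
* `kb_out_in` (`a.2 ≠ x.2`, `z.2 = x.2`, `z ≠ x`): part `x.2`: `b` with `Γ x b` and `Γ b z`: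
  `comN x z * 1/(3 n0)`; others: `3 n0 * muz x z`.
-/

noncomputable section

namespace EntRF

open Finset
open scoped Classical

variable {Θ : Type} [Fintype Θ] {Γ E : Θ → Θ → Prop} {p n0 : ℚ}

private theorem sum_parts (j0 : Fin 4) (f : Θ × Fin 4 → ℚ) (S T : ℚ)
    (hS : ∑ w, f (w, j0) = S) (hT : ∀ j, j ≠ j0 → ∑ w, f (w, j) = T) :
    ∑ b, f b = S + 3 * T := by
  rw [Fintype.sum_prod_type_right]
  have h1 : ∀ j : Fin 4, ∑ w, f (w, j) = if j = j0 then S else T := by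
    intro j
    by_cases hj : j = j0
    · subst hj; simp [hS]
    · simp [hj, hT j hj]
  have h2 : ∑ j : Fin 4, ∑ w, f (w, j) = ∑ j : Fin 4, if j = j0 then S else T :=
    Finset.sum_congr rfl (fun j _ => h1 j)
  rw [h2]
  rw [Finset.sum_ite]
  have hc1 : (Finset.univ.filter (fun j : Fin 4 => j = j0)).card = 1 := by
    rw [Finset.filter_eq']
    simp
  have hc2 : (Finset.univ.filter (fun j : Fin 4 => ¬ j = j0)).card = 3 := by
    have := Finset.card_filter_add_card_filter_not (s := (Finset.univ : Finset (Fin 4)))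
      (fun j : Fin 4 => j = j0)
    simp only [Finset.card_univ, Fintype.card_fin] at this
    omega
  rw [Finset.sum_const, Finset.sum_const, hc1, hc2]
  simp

private theorem sum_if (c : ℚ) (P : Θ → Prop) (f : Θ → ℚ) (N : ℚ)
    (hN : ∑ w, (if P w then (1 : ℚ) else 0) = N)
    (h : ∀ w, f w = if P w then c else 0) : ∑ w, f w = N * c := by
  rw [← hN, Finset.sum_mul]
  refine Finset.sum_congr rfl (fun w _ => ?_)
  rw [h w]
  split_ifs <;> ring

theorem kb_in_x (h : PartHyp Γ E p n0) (x a : Θ × Fin 4) (ha : H4 Γ E x a)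
    (h1 : a.2 = x.2) : ∑ b, KHH4 Γ E p n0 x a b x = 1 := by
  have hp : 0 < p := lt_of_lt_of_le one_pos h.one_le
  have hn : 0 < n0 := by linarith [h.le]
  obtain ⟨x1, x2⟩ := x
  obtain ⟨a1, a2⟩ := a
  simp only at h1
  subst h1
  have haG : Γ x1 a1 := by
    rcases ha with ⟨_, h⟩ | ⟨h, _⟩
    · exact h
    · exact absurd rfl h
  have hax : H4 Γ E (a1, a2) (x1, a2) := Or.inl ⟨rfl, h.symm _ _ haG⟩
  rw [sum_parts a2 _ (p * (1 / (2 * p))) (n0 * (1 / (6 * n0)))]
  · field_simp; norm_num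
  · refine sum_if _ (fun w => Γ x1 w) _ _ (h.deg x1) (fun w => ?_)
    by_cases hw : Γ x1 w
    · have hb : H4 Γ E (x1, a2) (w, a2) := Or.inl ⟨rfl, hw⟩
      have hb' : H4 Γ E (w, a2) (x1, a2) := Or.inl ⟨rfl, h.symm _ _ hw⟩
      simp [KHH4, ha, hax, hb, hb', hw]
    · have hb : ¬ H4 Γ E (x1, a2) (w, a2) := by
        rintro (⟨_, h'⟩ | ⟨h', _⟩)
        · exact hw h'
        · exact h' rfl
      simp [KHH4, hb, hw]
  · intro j hj
    refine sum_if _ (fun w => E x1 w) _ _ (h.card x1) (fun w => ?_)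
    by_cases hw : E x1 w
    · have hb : H4 Γ E (x1, a2) (w, j) := Or.inr ⟨fun h => hj h.symm, hw⟩
      have hb' : H4 Γ E (w, j) (x1, a2) := Or.inr ⟨hj, h.esymm _ _ hw⟩
      simp [KHH4, ha, hax, hb, hb', hw, hj]
    · have hb : ¬ H4 Γ E (x1, a2) (w, j) := by
        rintro (⟨h', _⟩ | ⟨_, h'⟩)
        · exact hj h'.symm
        · exact hw h'
      simp [KHH4, hb, hw]

theorem kb_in_in (h : PartHyp Γ E p n0) (x a z : Θ × Fin 4) (ha : H4 Γ E x a) (hz : H4 Γ E a z)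
    (h1 : a.2 = x.2) (h2 : z.2 = x.2) (h3 : z ≠ x) : ∑ b, KHH4 Γ E p n0 x a b z = 1 := by
  have hp : 0 < p := lt_of_lt_of_le one_pos h.one_le
  have hn : 0 < n0 := by linarith [h.le]
  obtain ⟨x1, x2⟩ := x
  obtain ⟨a1, a2⟩ := a
  obtain ⟨z1, z2⟩ := z
  simp only at h1 h2
  subst h1
  subst h2
  have haG : Γ x1 a1 := by
    rcases ha with ⟨_, h⟩ | ⟨h, _⟩
    · exact h
    · exact absurd rfl h
  have hzG : Γ a1 z1 := by
    rcases hz with ⟨_, h⟩ | ⟨h, _⟩
    · exact h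
    · exact absurd rfl h
  have hExz : E x1 z1 := h.etrans _ _ _ (h.sub _ _ haG) (h.sub _ _ hzG)
  rw [sum_parts z2 _ 0 (n0 * (1 / (3 * n0)))]
  · field_simp; norm_num
  · refine Finset.sum_eq_zero (fun w _ => ?_)
    simp [KHH4, h3]
  · intro j hj
    refine sum_if _ (fun w => E x1 w) _ _ (h.card x1) (fun w => ?_)
    by_cases hw : E x1 w
    · have hb : H4 Γ E (x1, z2) (w, j) := Or.inr ⟨fun h => hj h.symm, hw⟩
      have hb' : H4 Γ E (w, j) (z1, z2) :=
        Or.inr ⟨hj, h.etrans _ _ _ (h.esymm _ _ hw) hExz⟩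
      simp [KHH4, ha, hz, hb, hb', hw, hj, h3]
    · have hb : ¬ H4 Γ E (x1, z2) (w, j) := by
        rintro (⟨h', _⟩ | ⟨_, h'⟩)
        · exact hj h'.symm
        · exact hw h'
      simp [KHH4, hb, hw]

theorem kb_out_x (h : PartHyp Γ E p n0) (x a : Θ × Fin 4) (ha : H4 Γ E x a)
    (h1 : a.2 ≠ x.2) : ∑ b, KHH4 Γ E p n0 x a b x = 1 := by
  have hp : 0 < p := lt_of_lt_of_le one_pos h.one_le
  have hn : 0 < n0 := by linarith [h.le]
  obtain ⟨x1, x2⟩ := x
  obtain ⟨a1, a2⟩ := a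
  simp only at h1
  have haE : E x1 a1 := by
    rcases ha with ⟨h, _⟩ | ⟨_, h⟩
    · exact absurd h.symm h1
    · exact h
  have hax : H4 Γ E (a1, a2) (x1, x2) := Or.inr ⟨h1, h.esymm _ _ haE⟩
  rw [sum_parts x2 _ (p * (1 / (6 * n0))) (n0 * muz Γ p n0 x1 x1)]
  · simp only [muz, if_true]
    field_simp
    ring
  · refine sum_if _ (fun w => Γ x1 w) _ _ (h.deg x1) (fun w => ?_)
    by_cases hw : Γ x1 w
    · have hb : H4 Γ E (x1, x2) (w, x2) := Or.inl ⟨rfl, hw⟩
      have hb' : H4 Γ E (w, x2) (x1, x2) := Or.inl ⟨rfl, h.symm _ _ hw⟩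
      simp [KHH4, ha, hax, hb, hb', hw, h1]
    · have hb : ¬ H4 Γ E (x1, x2) (w, x2) := by
        rintro (⟨_, h'⟩ | ⟨h', _⟩)
        · exact hw h'
        · exact h' rfl
      simp [KHH4, hb, hw]
  · intro j hj
    refine sum_if _ (fun w => E x1 w) _ _ (h.card x1) (fun w => ?_)
    by_cases hw : E x1 w
    · have hb : H4 Γ E (x1, x2) (w, j) := Or.inr ⟨fun h => hj h.symm, hw⟩
      have hb' : H4 Γ E (w, j) (x1, x2) := Or.inr ⟨hj, h.esymm _ _ hw⟩
      simp [KHH4, ha, hax, hb, hb', hw, hj, h1]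
    · have hb : ¬ H4 Γ E (x1, x2) (w, j) := by
        rintro (⟨h', _⟩ | ⟨_, h'⟩)
        · exact hj h'.symm
        · exact hw h'
      simp [KHH4, hb, hw]

theorem kb_out_in (h : PartHyp Γ E p n0) (x a z : Θ × Fin 4) (ha : H4 Γ E x a) (hz : H4 Γ E a z)
    (h1 : a.2 ≠ x.2) (h2 : z.2 = x.2) (h3 : z ≠ x) : ∑ b, KHH4 Γ E p n0 x a b z = 1 := by
  have hp : 0 < p := lt_of_lt_of_le one_pos h.one_le
  have hn : 0 < n0 := by linarith [h.le]
  obtain ⟨x1, x2⟩ := x
  obtain ⟨a1, a2⟩ := a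
  obtain ⟨z1, z2⟩ := z
  simp only at h1 h2
  subst h2
  have h3' : z1 ≠ x1 := fun h => h3 (by rw [h])
  have haE : E x1 a1 := by
    rcases ha with ⟨h, _⟩ | ⟨_, h⟩
    · exact absurd h.symm h1
    · exact h
  have hzE : E a1 z1 := by
    rcases hz with ⟨h, _⟩ | ⟨_, h⟩
    · exact absurd h h1
    · exact h
  have hExz : E x1 z1 := h.etrans _ _ _ haE hzE
  rw [sum_parts z2 _ (comN Γ x1 z1 * (1 / (3 * n0))) (n0 * muz Γ p n0 x1 z1)]
  · simp only [muz, if_neg h3']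
    field_simp
    ring
  · refine sum_if _ (fun w => Γ x1 w ∧ Γ z1 w) _ _ ?_ (fun w => ?_)
    · unfold comN
      refine Finset.sum_congr rfl (fun w _ => ?_)
      by_cases hw : Γ x1 w ∧ Γ z1 w
      · rw [if_pos hw, if_pos hw]
      · rw [if_neg hw, if_neg hw]
    by_cases hw : Γ x1 w ∧ Γ z1 w
    · have hb : H4 Γ E (x1, z2) (w, z2) := Or.inl ⟨rfl, hw.1⟩
      have hb' : H4 Γ E (w, z2) (z1, z2) := Or.inl ⟨rfl, h.symm _ _ hw.2⟩
      simp [KHH4, ha, hz, hb, hb', hw, h1, h3]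
    · have hb : ¬ (H4 Γ E (x1, z2) (w, z2) ∧ H4 Γ E (w, z2) (z1, z2)) := by
        rintro ⟨hb1, hb2⟩
        apply hw
        constructor
        · rcases hb1 with ⟨_, h'⟩ | ⟨h', _⟩
          · exact h'
          · exact absurd rfl h'
        · rcases hb2 with ⟨_, h'⟩ | ⟨h', _⟩
          · exact h.symm _ _ h'
          · exact absurd rfl h'
      have hb2 : ¬ (H4 Γ E (x1, z2) (a1, a2) ∧ H4 Γ E (x1, z2) (w, z2) ∧
          H4 Γ E (a1, a2) (z1, z2) ∧ H4 Γ E (w, z2) (z1, z2)) :=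
        fun h' => hb ⟨h'.2.1, h'.2.2.2⟩
      rw [KHH4, if_neg hb2, if_neg hw]
  · intro j hj
    refine sum_if _ (fun w => E x1 w) _ _ (h.card x1) (fun w => ?_)
    by_cases hw : E x1 w
    · have hb : H4 Γ E (x1, z2) (w, j) := Or.inr ⟨fun h => hj h.symm, hw⟩
      have hb' : H4 Γ E (w, j) (z1, z2) :=
        Or.inr ⟨hj, h.etrans _ _ _ (h.esymm _ _ hw) hExz⟩
      simp [KHH4, ha, hz, hb, hb', hw, hj, h1]
    · have hb : ¬ H4 Γ E (x1, z2) (w, j) := by
        rintro (⟨h', _⟩ | ⟨_, h'⟩)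
        · exact hj h'.symm
        · exact hw h'
      simp [KHH4, hb, hw]

end EntRF

end
end

section

/-!
# B5 : `∑ b, KHH4 x a b z = 1`, `z` outside the part of `x`

* `kb_in_out` (`a.2 = x.2 ≠ z.2`): part `x.2` (`Γ x b`): `p (1 - 1/(2p))/(3 n0)`; part `z.2`
  (`Γ b z`): `p/(p+2 n0)`; two other parts: `2 n0 mu2`.
* `kb_out_same` (`a.2 ≠ x.2`, `z.2 = a.2`, so `Γ a z`): part `x.2` (`Γ x b`): `p/(p+2 n0)`; part
  `a.2`: 0; two other parts: `2 n0/(p+2 n0)`.
* `kb_out_diff` (`a.2 ≠ x.2`, `z.2 ∉ {x.2, a.2}`): part `x.2`: `p mu2`; part `a.2`: `n0 mu3`; part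
  `z.2` (`Γ b z`): `p/(p+2 n0)`; the remaining part: `n0 mu4`. The sum is 1:
  with `λ = 1/(p+2 n0)` and `p λ + 2 n0 λ = 1` this is an identity (`field_simp; ring`).
-/

noncomputable section

namespace EntRF

open Finset
open scoped Classical

variable {Θ : Type} [Fintype Θ] {Γ E : Θ → Θ → Prop} {p n0 : ℚ}

private theorem b5_sum2 (i j : Fin 4) (hij : i ≠ j) (A B C : ℚ) :
    ∑ k : Fin 4, (if k = i then A else if k = j then B else C) = A + B + 2 * C := by
  fin_cases i <;> fin_cases j <;> simp_all [Fin.sum_univ_four] <;> ring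

private theorem b5_sum3 (i j l : Fin 4) (hij : i ≠ j) (hil : l ≠ i) (hjl : l ≠ j) (A B C D : ℚ) :
    ∑ k : Fin 4, (if k = i then A else if k = j then B else if k = l then C else D)
      = A + B + C + D := by
  fin_cases i <;> fin_cases j <;> fin_cases l <;> simp_all [Fin.sum_univ_four] <;> ring

private theorem b5_deg (h : PartHyp Γ E p n0) (x : Θ) (c : ℚ) (f : Θ → ℚ)
    (hf : ∀ θ, f θ = if Γ x θ then c else 0) : ∑ θ, f θ = p * c := by
  rw [← h.deg x, Finset.sum_mul]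
  refine Finset.sum_congr rfl fun θ _ => ?_
  rw [hf]; split_ifs <;> simp

private theorem b5_card (h : PartHyp Γ E p n0) (x : Θ) (c : ℚ) (f : Θ → ℚ)
    (hf : ∀ θ, f θ = if E x θ then c else 0) : ∑ θ, f θ = n0 * c := by
  rw [← h.card x, Finset.sum_mul]
  refine Finset.sum_congr rfl fun θ _ => ?_
  rw [hf]; split_ifs <;> simp

theorem kb_in_out (h : PartHyp Γ E p n0) (x a z : Θ × Fin 4) (ha : H4 Γ E x a) (hz : H4 Γ E a z)
    (h1 : a.2 = x.2) (h2 : z.2 ≠ x.2) : ∑ b, KHH4 Γ E p n0 x a b z = 1 := by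
  have hp : (0:ℚ) < p := by linarith [h.one_le]
  have hn : (0:ℚ) < n0 := by linarith [h.one_le, h.le]
  have hxa : Γ x.1 a.1 := by
    rcases ha with ⟨_, h'⟩ | ⟨h', _⟩
    · exact h'
    · exact absurd h1.symm h'
  have haz : E a.1 z.1 := by
    rcases hz with ⟨h', _⟩ | ⟨_, h'⟩
    · exact absurd (h'.symm.trans h1) h2
    · exact h'
  have hxz : E x.1 z.1 := h.etrans _ _ _ (h.sub _ _ hxa) haz
  have hza : z ≠ x := fun h' => h2 (by rw [h'])
  rw [Fintype.sum_prod_type_right]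
  have key : ∀ k : Fin 4, ∑ θ, KHH4 Γ E p n0 x a (θ, k) z =
      if k = x.2 then p * ((1 - 1 / (2 * p)) / (3 * n0)) else
        if k = z.2 then p * (1 / (p + 2 * n0)) else n0 * mu2 p n0 := by
    intro k
    split_ifs with hk1 hk2
    · refine b5_deg h x.1 _ _ fun θ => ?_
      have e1 : H4 Γ E x (θ, k) ↔ Γ x.1 θ := by simp [H4, hk1]
      have e2 : Γ x.1 θ → H4 Γ E (θ, k) z := fun hθ =>
        Or.inr ⟨by rw [hk1]; exact h2.symm, h.etrans _ _ _ (h.esymm _ _ (h.sub _ _ hθ)) hxz⟩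
      by_cases hθ : Γ x.1 θ
      · rw [KHH4, if_pos ⟨ha, e1.2 hθ, hz, e2 hθ⟩, if_pos hθ, if_pos ⟨h1, hk1⟩, if_neg hza,
          if_neg h2]
      · rw [KHH4, if_neg (fun hh => hθ (e1.1 hh.2.1)), if_neg hθ]
    · refine b5_deg h z.1 _ _ fun θ => ?_
      have e1 : H4 Γ E (θ, k) z ↔ Γ z.1 θ := by
        constructor
        · rintro (⟨_, h'⟩ | ⟨h', _⟩)
          · exact h.symm _ _ h'
          · exact absurd hk2 h'
        · exact fun h' => Or.inl ⟨hk2, h.symm _ _ h'⟩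
      have e2 : Γ z.1 θ → H4 Γ E x (θ, k) := fun hθ =>
        Or.inr ⟨fun h' => hk1 h'.symm, h.etrans _ _ _ hxz (h.sub _ _ hθ)⟩
      by_cases hθ : Γ z.1 θ
      · rw [KHH4, if_pos ⟨ha, e2 hθ, hz, e1.2 hθ⟩, if_pos hθ, if_neg (fun hh => hk1 hh.2),
          if_pos (Or.inl h1), if_neg h2, if_pos (Or.inr hk2.symm)]
      · rw [KHH4, if_neg (fun hh => hθ (e1.1 hh.2.2.2)), if_neg hθ]
    · refine b5_card h x.1 _ _ fun θ => ?_
      have e1 : H4 Γ E x (θ, k) ↔ E x.1 θ := by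
        constructor
        · rintro (⟨h', _⟩ | ⟨_, h'⟩)
          · exact absurd h'.symm hk1
          · exact h'
        · exact fun h' => Or.inr ⟨fun h'' => hk1 h''.symm, h'⟩
      have e2 : E x.1 θ → H4 Γ E (θ, k) z := fun hθ =>
        Or.inr ⟨hk2, h.etrans _ _ _ (h.esymm _ _ hθ) hxz⟩
      by_cases hθ : E x.1 θ
      · rw [KHH4, if_pos ⟨ha, e1.2 hθ, hz, e2 hθ⟩, if_pos hθ, if_neg (fun hh => hk1 hh.2),
          if_pos (Or.inl h1), if_neg h2, if_neg ?_]
        rintro (h' | h')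
        · exact h2 (h'.trans h1)
        · exact hk2 h'.symm
      · rw [KHH4, if_neg (fun hh => hθ (e1.1 hh.2.1)), if_neg hθ]
  rw [Finset.sum_congr rfl fun k _ => key k, b5_sum2 _ _ h2.symm, mu2]
  have h3 : p + 2 * n0 ≠ 0 := by positivity
  field_simp
  ring

theorem kb_out_same (h : PartHyp Γ E p n0) (x a z : Θ × Fin 4) (ha : H4 Γ E x a)
    (hz : H4 Γ E a z) (h1 : a.2 ≠ x.2) (h2 : z.2 = a.2) :
    ∑ b, KHH4 Γ E p n0 x a b z = 1 := by
  have hp : (0:ℚ) < p := by linarith [h.one_le]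
  have hn : (0:ℚ) < n0 := by linarith [h.one_le, h.le]
  have hxa : E x.1 a.1 := by
    rcases ha with ⟨h', _⟩ | ⟨_, h'⟩
    · exact absurd h'.symm h1
    · exact h'
  have haz : Γ a.1 z.1 := by
    rcases hz with ⟨_, h'⟩ | ⟨h', _⟩
    · exact h'
    · exact absurd h2.symm h'
  have hxz : E x.1 z.1 := h.etrans _ _ _ hxa (h.sub _ _ haz)
  have hzx : z.2 ≠ x.2 := by rw [h2]; exact h1
  rw [Fintype.sum_prod_type_right]
  have key : ∀ k : Fin 4, ∑ θ, KHH4 Γ E p n0 x a (θ, k) z =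
      if k = x.2 then p * (1 / (p + 2 * n0)) else
        if k = a.2 then 0 else n0 * (1 / (p + 2 * n0)) := by
    intro k
    split_ifs with hk1 hk2
    · refine b5_deg h x.1 _ _ fun θ => ?_
      have e1 : H4 Γ E x (θ, k) ↔ Γ x.1 θ := by simp [H4, hk1]
      have e2 : Γ x.1 θ → H4 Γ E (θ, k) z := fun hθ =>
        Or.inr ⟨by rw [hk1]; exact hzx.symm, h.etrans _ _ _ (h.esymm _ _ (h.sub _ _ hθ)) hxz⟩
      by_cases hθ : Γ x.1 θ
      · rw [KHH4, if_pos ⟨ha, e1.2 hθ, hz, e2 hθ⟩, if_pos hθ, if_neg (fun hh => h1 hh.1),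
          if_pos (Or.inr hk1), if_neg hzx, if_pos (Or.inl h2)]
      · rw [KHH4, if_neg (fun hh => hθ (e1.1 hh.2.1)), if_neg hθ]
    · refine Finset.sum_eq_zero fun θ _ => ?_
      rw [KHH4]
      by_cases hh : H4 Γ E x a ∧ H4 Γ E x (θ, k) ∧ H4 Γ E a z ∧ H4 Γ E (θ, k) z
      · rw [if_pos hh, if_neg (fun hh => h1 hh.1), if_neg ?_, if_pos hk2.symm, if_neg hzx,
          if_pos h2]
        rintro (h' | h')
        · exact h1 h'
        · exact hk1 h'
      · rw [if_neg hh]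
    · refine b5_card h x.1 _ _ fun θ => ?_
      have e1 : H4 Γ E x (θ, k) ↔ E x.1 θ := by
        constructor
        · rintro (⟨h', _⟩ | ⟨_, h'⟩)
          · exact absurd h'.symm hk1
          · exact h'
        · exact fun h' => Or.inr ⟨fun h'' => hk1 h''.symm, h'⟩
      have e2 : E x.1 θ → H4 Γ E (θ, k) z := fun hθ =>
        Or.inr ⟨fun h' => hk2 (h'.trans h2), h.etrans _ _ _ (h.esymm _ _ hθ) hxz⟩
      by_cases hθ : E x.1 θ
      · rw [KHH4, if_pos ⟨ha, e1.2 hθ, hz, e2 hθ⟩, if_pos hθ, if_neg (fun hh => hk1 hh.2),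
          if_neg ?_, if_neg (fun hh => hk2 hh.symm), if_neg hzx, if_pos (Or.inl h2)]
        rintro (h' | h')
        · exact h1 h'
        · exact hk1 h'
      · rw [KHH4, if_neg (fun hh => hθ (e1.1 hh.2.1)), if_neg hθ]
  rw [Finset.sum_congr rfl fun k _ => key k, b5_sum2 _ _ h1.symm]
  have h3 : p + 2 * n0 ≠ 0 := by positivity
  field_simp
  ring

theorem kb_out_diff (h : PartHyp Γ E p n0) (x a z : Θ × Fin 4) (ha : H4 Γ E x a)
    (hz : H4 Γ E a z) (h1 : a.2 ≠ x.2) (h2 : z.2 ≠ x.2) (h3 : z.2 ≠ a.2) :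
    ∑ b, KHH4 Γ E p n0 x a b z = 1 := by
  have hp : (0:ℚ) < p := by linarith [h.one_le]
  have hn : (0:ℚ) < n0 := by linarith [h.one_le, h.le]
  have hxa : E x.1 a.1 := by
    rcases ha with ⟨h', _⟩ | ⟨_, h'⟩
    · exact absurd h'.symm h1
    · exact h'
  have haz : E a.1 z.1 := by
    rcases hz with ⟨h', _⟩ | ⟨_, h'⟩
    · exact absurd h'.symm h3
    · exact h'
  have hxz : E x.1 z.1 := h.etrans _ _ _ hxa haz
  rw [Fintype.sum_prod_type_right]
  have key : ∀ k : Fin 4, ∑ θ, KHH4 Γ E p n0 x a (θ, k) z =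
      if k = x.2 then p * mu2 p n0 else
        if k = a.2 then n0 * mu3 p n0 else
          if k = z.2 then p * (1 / (p + 2 * n0)) else n0 * mu4 p n0 := by
    intro k
    split_ifs with hk1 hk2 hk3
    · refine b5_deg h x.1 _ _ fun θ => ?_
      have e1 : H4 Γ E x (θ, k) ↔ Γ x.1 θ := by simp [H4, hk1]
      have e2 : Γ x.1 θ → H4 Γ E (θ, k) z := fun hθ =>
        Or.inr ⟨by rw [hk1]; exact h2.symm, h.etrans _ _ _ (h.esymm _ _ (h.sub _ _ hθ)) hxz⟩
      by_cases hθ : Γ x.1 θ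
      · rw [KHH4, if_pos ⟨ha, e1.2 hθ, hz, e2 hθ⟩, if_pos hθ, if_neg (fun hh => h1 hh.1),
          if_pos (Or.inr hk1), if_neg h2, if_neg ?_]
        rintro (h' | h')
        · exact h3 h'
        · exact h2 (h'.trans hk1)
      · rw [KHH4, if_neg (fun hh => hθ (e1.1 hh.2.1)), if_neg hθ]
    · refine b5_card h x.1 _ _ fun θ => ?_
      have e1 : H4 Γ E x (θ, k) ↔ E x.1 θ := by
        constructor
        · rintro (⟨h', _⟩ | ⟨_, h'⟩)
          · exact absurd h'.symm hk1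
          · exact h'
        · exact fun h' => Or.inr ⟨fun h'' => hk1 h''.symm, h'⟩
      have e2 : E x.1 θ → H4 Γ E (θ, k) z := fun hθ =>
        Or.inr ⟨fun h' => h3 (h'.symm.trans hk2), h.etrans _ _ _ (h.esymm _ _ hθ) hxz⟩
      by_cases hθ : E x.1 θ
      · rw [KHH4, if_pos ⟨ha, e1.2 hθ, hz, e2 hθ⟩, if_pos hθ, if_neg (fun hh => hk1 hh.2),
          if_neg ?_, if_pos hk2.symm, if_neg h2, if_neg h3]
        rintro (h' | h')
        · exact h1 h'
        · exact hk1 h'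
      · rw [KHH4, if_neg (fun hh => hθ (e1.1 hh.2.1)), if_neg hθ]
    · refine b5_deg h z.1 _ _ fun θ => ?_
      have e1 : H4 Γ E (θ, k) z ↔ Γ z.1 θ := by
        constructor
        · rintro (⟨_, h'⟩ | ⟨h', _⟩)
          · exact h.symm _ _ h'
          · exact absurd hk3 h'
        · exact fun h' => Or.inl ⟨hk3, h.symm _ _ h'⟩
      have e2 : Γ z.1 θ → H4 Γ E x (θ, k) := fun hθ =>
        Or.inr ⟨fun h' => hk1 h'.symm, h.etrans _ _ _ hxz (h.sub _ _ hθ)⟩
      by_cases hθ : Γ z.1 θ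
      · rw [KHH4, if_pos ⟨ha, e2 hθ, hz, e1.2 hθ⟩, if_pos hθ, if_neg (fun hh => hk1 hh.2),
          if_neg ?_, if_neg (fun hh => hk2 hh.symm), if_neg h2, if_pos (Or.inr hk3.symm)]
        rintro (h' | h')
        · exact h1 h'
        · exact hk1 h'
      · rw [KHH4, if_neg (fun hh => hθ (e1.1 hh.2.2.2)), if_neg hθ]
    · refine b5_card h x.1 _ _ fun θ => ?_
      have e1 : H4 Γ E x (θ, k) ↔ E x.1 θ := by
        constructor
        · rintro (⟨h', _⟩ | ⟨_, h'⟩)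
          · exact absurd h'.symm hk1
          · exact h'
        · exact fun h' => Or.inr ⟨fun h'' => hk1 h''.symm, h'⟩
      have e2 : E x.1 θ → H4 Γ E (θ, k) z := fun hθ =>
        Or.inr ⟨hk3, h.etrans _ _ _ (h.esymm _ _ hθ) hxz⟩
      by_cases hθ : E x.1 θ
      · rw [KHH4, if_pos ⟨ha, e1.2 hθ, hz, e2 hθ⟩, if_pos hθ, if_neg (fun hh => hk1 hh.2),
          if_neg ?_, if_neg (fun hh => hk2 hh.symm), if_neg h2, if_neg ?_]
        · rintro (h' | h')
          · exact h3 h'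
          · exact hk3 h'.symm
        · rintro (h' | h')
          · exact h1 h'
          · exact hk1 h'
      · rw [KHH4, if_neg (fun hh => hθ (e1.1 hh.2.1)), if_neg hθ]
  rw [Finset.sum_congr rfl fun k _ => key k, b5_sum3 _ _ _ h1.symm h2 h3, mu2, mu3, mu4, kap0]
  have h3 : p + 2 * n0 ≠ 0 := by positivity
  field_simp
  ring

end EntRF

end
end

section

/-!
# A3 : integral arrays for pairs of different type

Apply `scheme` with `N2 = N`, `s z = N`, `M = m` (the sums of `m` follow from those of `K` by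
multiplication with `N`, cast to `ℚ`). Put `T (a, i) (u, j) = F a u (i + j)` (addition in `Fin N`,
`N > 0`), read as an element of `Z × Fin N`. For fixed `(a, i)` the map `(u, j) ↦ (u, i + j)` is a
bijection of `U × Fin N`, so the row is a bijection onto `{q | adjA a q.1}`; columns alike.
-/

noncomputable section

namespace EntRF

open Finset
open scoped Classical

theorem hv_array {A U Z : Type} [Fintype A] [Fintype U] [Fintype Z]
    (adjA : A → Z → Prop) (adjU : U → Z → Prop) (K : A → U → Z → ℚ)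
    (hs : ∀ a u z, K a u z ≠ 0 → adjA a z ∧ adjU u z)
    (h1 : ∀ a u, ∑ z, K a u z = 1)
    (h2 : ∀ a z, adjA a z → ∑ u, K a u z = 1)
    (h3 : ∀ u z, adjU u z → ∑ a, K a u z = 1)
    (N : ℕ) (hN : 0 < N) (m : A → U → Z → ℕ) (hm : ∀ a u z, (m a u z : ℚ) = N * K a u z) :
    ∃ T : A × Fin N → U × Fin N → Z × Fin N,
      (∀ p, Set.BijOn (T p) Set.univ {q | adjA p.1 q.1}) ∧
      (∀ r, Set.BijOn (fun p => T p r) Set.univ {q | adjU r.1 q.1}) := by
  have : NeZero N := ⟨hN.ne'⟩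
  have hNq : (N : ℚ) ≠ 0 := by
    exact_mod_cast hN.ne'
  obtain ⟨F, hF1, hF2⟩ := scheme adjA adjU N (fun _ => N) m
    (by
      intro a u z h
      apply hs a u z
      intro hK
      apply h
      have := hm a u z
      rw [hK, mul_zero] at this
      exact_mod_cast this)
    (by
      intro a u
      have h : ((∑ z, m a u z : ℕ) : ℚ) = N := by
        push_cast
        rw [Finset.sum_congr rfl (fun z _ => hm a u z), ← Finset.mul_sum, h1 a u, mul_one]
      exact_mod_cast h)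
    (by
      intro a z haz
      have h : ((∑ u, m a u z : ℕ) : ℚ) = N := by
        push_cast
        rw [Finset.sum_congr rfl (fun u _ => hm a u z), ← Finset.mul_sum, h2 a z haz, mul_one]
      exact_mod_cast h)
    (by
      intro u z huz
      have h : ((∑ a, m a u z : ℕ) : ℚ) = N := by
        push_cast
        rw [Finset.sum_congr rfl (fun a _ => hm a u z), ← Finset.mul_sum, h3 u z huz, mul_one]
      exact_mod_cast h)
  refine ⟨fun p r => ((F p.1 r.1 (p.2 + r.2)).1, (F p.1 r.1 (p.2 + r.2)).2), ?_, ?_⟩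
  · rintro ⟨a, i⟩
    obtain ⟨hmap, hinj, hsurj⟩ := hF1 a
    refine ⟨?_, ?_, ?_⟩
    · rintro ⟨u, j⟩ _
      exact hmap (Set.mem_univ (u, i + j))
    · rintro ⟨u, j⟩ _ ⟨u', j'⟩ _ h
      simp only [Prod.mk.injEq] at h
      have h' : F a u (i + j) = F a u' (i + j') := by
        refine Sigma.ext h.1 (heq_of_eq h.2)
      have := hinj (Set.mem_univ (u, i + j)) (Set.mem_univ (u', i + j')) h'
      rw [Prod.mk.injEq] at this
      rw [this.1, add_left_cancel this.2]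
    · rintro ⟨z, k⟩ hz
      have hz' : (⟨z, k⟩ : (Σ _ : Z, Fin N)) ∈ {q : (Σ _ : Z, Fin N) | adjA a q.1} := hz
      obtain ⟨⟨u, l⟩, _, hul⟩ := hsurj hz'
      refine ⟨(u, l - i), Set.mem_univ _, ?_⟩
      simp only at hul ⊢
      have hli : i + (l - i) = l := by
        rw [add_comm, sub_add_cancel]
      rw [hli, hul]
  · rintro ⟨u, j⟩
    obtain ⟨hmap, hinj, hsurj⟩ := hF2 u
    refine ⟨?_, ?_, ?_⟩
    · rintro ⟨a, i⟩ _
      exact hmap (Set.mem_univ (a, i + j))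
    · rintro ⟨a, i⟩ _ ⟨a', i'⟩ _ h
      simp only [Prod.mk.injEq] at h
      have h' : F a u (i + j) = F a' u (i' + j) := by
        refine Sigma.ext h.1 (heq_of_eq h.2)
      have := hinj (Set.mem_univ (a, i + j)) (Set.mem_univ (a', i' + j)) h'
      rw [Prod.mk.injEq] at this
      rw [this.1, add_right_cancel this.2]
    · rintro ⟨z, k⟩ hz
      have hz' : (⟨z, k⟩ : (Σ _ : Z, Fin N)) ∈ {q : (Σ _ : Z, Fin N) | adjU u q.1} := hz
      obtain ⟨⟨a, l⟩, _, hul⟩ := hsurj hz'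
      refine ⟨(a, l - j), Set.mem_univ _, ?_⟩
      simp only at hul ⊢
      rw [sub_add_cancel, hul]

end EntRF

end
end

section

/-!
# A5 : integral symmetric arrays for pairs of `H`-neighbours

Put `N1 = 2^r`, `N2 = (N1 - 1) * N3`, `M y u z = N1 * m y u z - N3 * [z = z0]` (natural numbers; by
`hpos`, `N1 * m y u z0 = N1 * N3 * K y u z0 ≥ N3`), `s z = N1 * N3` for `z ≠ z0` and
`s z0 = N3 * (N1 - card Y)`. Note `card Y ≤ N1`: if `Y` is nonempty, `1 = ∑ u, K y u z0 ≥ card Y / N1`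
(`h2` with `hz0`). If `Y` is empty then `card Y = 0`.
Then `∑ z, M y u z = N1 * N3 - N3 = N2`, `∑ u, M y u z = s z` if `adj y z`, and by symmetry of `K`
also the column sums. `scheme` (with `A = U = Y`) gives `F`; then
`hh_core` applies: `(N1 - 1) * s z = N1 * N2` for `z ≠ z0` and
`(N1 - 1) * N3 * (N1 - d) + d * N2 = N1 * N2`. (If `Y` is empty, take `T` by `Y.elim`-type
arguments.)
-/

noncomputable section

namespace EntRF

open Finset
open scoped Classical

theorem hh_array {Y Z : Type} [Fintype Y] [Fintype Z] (adj : Y → Z → Prop) (z0 : Z)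
    (hz0 : ∀ y, adj y z0) (K : Y → Y → Z → ℚ)
    (hsym : ∀ y u z, K y u z = K u y z)
    (hs : ∀ y u z, K y u z ≠ 0 → adj y z ∧ adj u z)
    (h1 : ∀ y u, ∑ z, K y u z = 1)
    (h2 : ∀ y z, adj y z → ∑ u, K y u z = 1)
    (r N3 : ℕ) (m : Y → Y → Z → ℕ)
    (hm : ∀ y u z, (m y u z : ℚ) = N3 * K y u z)
    (hpos : ∀ y u, 1 ≤ (2 : ℚ) ^ r * K y u z0) :
    ∃ T : Y × Fin (2 ^ r * ((2 ^ r - 1) * N3)) → Y × Fin (2 ^ r * ((2 ^ r - 1) * N3)) →
        Z × Fin (2 ^ r * ((2 ^ r - 1) * N3)),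
      (∀ p q, T p q = T q p) ∧
      ∀ p, Set.BijOn (T p) Set.univ {q | adj p.1 q.1} := by
  rcases isEmpty_or_nonempty Y with hY | ⟨⟨y0⟩⟩
  · exact ⟨fun p => (hY.false p.1).elim, fun p => (hY.false p.1).elim,
      fun p => (hY.false p.1).elim⟩
  -- `card Y ≤ 2 ^ r`
  have hN1pos : 1 ≤ 2 ^ r := Nat.one_le_two_pow
  have hcardY : Fintype.card Y ≤ 2 ^ r := by
    have h := h2 y0 z0 (hz0 y0)
    have h' : (Fintype.card Y : ℚ) ≤ 2 ^ r := by
      calc (Fintype.card Y : ℚ) = ∑ _u : Y, (1 : ℚ) := by simp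
        _ ≤ ∑ u, (2 : ℚ) ^ r * K y0 u z0 := Finset.sum_le_sum fun u _ => hpos y0 u
        _ = 2 ^ r := by rw [← Finset.mul_sum, h, mul_one]
    exact_mod_cast h'
  obtain ⟨k, hk⟩ : ∃ k, 2 ^ r = Fintype.card Y + k := ⟨2 ^ r - Fintype.card Y, by omega⟩
  obtain ⟨n, hn⟩ : ∃ n, 2 ^ r = n + 1 := ⟨2 ^ r - 1, by omega⟩
  -- the natural matrices
  have hle : ∀ y u z, (if z = z0 then N3 else 0) ≤ 2 ^ r * m y u z := by
    intro y u z
    split_ifs with hz
    · subst hz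
      have : (N3 : ℚ) ≤ 2 ^ r * m y u z := by
        rw [hm]
        have h0 : (0 : ℚ) ≤ N3 := Nat.cast_nonneg _
        nlinarith [hpos y u, mul_le_mul_of_nonneg_left (hpos y u) h0]
      exact_mod_cast this
    · exact Nat.zero_le _
  set M : Y → Y → Z → ℕ := fun y u z => 2 ^ r * m y u z - (if z = z0 then N3 else 0) with hMdef
  have hM : ∀ y u z, (M y u z : ℚ) = 2 ^ r * N3 * K y u z - (if z = z0 then (N3 : ℚ) else 0) := by
    intro y u z
    simp only [hMdef]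
    rw [Nat.cast_sub (hle y u z)]
    push_cast
    rw [hm]
    ring
  set s : Z → ℕ := fun z => if z = z0 then N3 * k else 2 ^ r * N3 with hsdef
  have hMs : ∀ y u z, M y u z ≠ 0 → adj y z ∧ adj u z := by
    intro y u z h
    by_cases hz : z = z0
    · subst hz
      exact ⟨hz0 y, hz0 u⟩
    · apply hs
      intro hK
      apply h
      have := hM y u z
      rw [if_neg hz, hK] at this
      have h' : (M y u z : ℚ) = 0 := by rw [this]; ring
      exact_mod_cast h'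
  have hM1 : ∀ y u, ∑ z, M y u z = (2 ^ r - 1) * N3 := by
    intro y u
    have h : ((∑ z, M y u z : ℕ) : ℚ) = (((2 ^ r - 1) * N3 : ℕ) : ℚ) := by
      push_cast
      rw [Finset.sum_congr rfl fun z _ => hM y u z, Finset.sum_sub_distrib, ← Finset.mul_sum, h1,
        Finset.sum_ite_eq' Finset.univ z0 (fun _ => (N3 : ℚ)), if_pos (Finset.mem_univ _),
        Nat.cast_sub hN1pos]
      push_cast
      ring
    exact_mod_cast h
  have hM2 : ∀ y z, adj y z → ∑ u, M y u z = s z := by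
    intro y z hyz
    have h : ((∑ u, M y u z : ℕ) : ℚ) = ((s z : ℕ) : ℚ) := by
      push_cast
      rw [Finset.sum_congr rfl fun u _ => hM y u z, Finset.sum_sub_distrib, ← Finset.mul_sum,
        h2 y z hyz]
      by_cases hz : z = z0
      · simp only [hsdef, if_pos hz, Finset.sum_const, Finset.card_univ, nsmul_eq_mul]
        have hk' : (2 : ℚ) ^ r = Fintype.card Y + k := by exact_mod_cast hk
        push_cast
        rw [hk']
        ring
      · simp only [hsdef, if_neg hz, Finset.sum_const_zero]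
        push_cast
        ring
    exact_mod_cast h
  have hMsym : ∀ y u z, M y u z = M u y z := by
    intro y u z
    have h : (M y u z : ℚ) = (M u y z : ℚ) := by rw [hM, hM, hsym]
    exact_mod_cast h
  have hM3 : ∀ u z, adj u z → ∑ y, M y u z = s z := by
    intro u z huz
    rw [← hM2 u z huz]
    exact Finset.sum_congr rfl fun y _ => hMsym y u z
  obtain ⟨F, hF1, hF2⟩ := scheme adj adj ((2 ^ r - 1) * N3) s M hMs hM1 hM2 hM3
  refine hh_core adj z0 hz0 r ((2 ^ r - 1) * N3) s F hF1 hF2 ?_ ?_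
  · intro z hz
    simp only [hsdef, if_neg hz]
    ring
  · simp only [hsdef, if_true]
    have e1 : (2 ^ r - 1) * (N3 * k) + Fintype.card Y * ((2 ^ r - 1) * N3)
        = (Fintype.card Y + k) * ((2 ^ r - 1) * N3) := by ring
    rw [e1, ← hk]

end EntRF

end
end

section

/-!
# A8 : fractionally flat graphs have (S)-flat blow-ups

Choose `r ≥ 1` with `1 ≤ 2^r * KHH x a b x` for all `x, a, b` with `H x a`, `H x b` (finitely many
positive rationals) and `N3 > 0` such that `N3 * KHH x a b z` and `N3 * KHV x a u z` are natural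
numbers for all arguments (common denominator of finitely many nonnegative rationals,
`exists_common_den` below). Put `N = 2^r * ((2^r - 1) * N3)`. For every `x` apply `hh_array` with
`Y = {a // H x a}`, `Z = V`, `adj a z = H a z`, `z0 = x` (`H` is symmetric by `hsymm`), apply
`hv_array` with `A = {a // H x a}`, `U = {u // W x u}`, `Z = V`, `adjA a z = W a z`,
`adjU u z = H u z` and `m = 2^r * (2^r - 1) * (N3 * KHV)`, and glue with `blow_SArr`.
(Sums over the subtypes equal the sums over `V` because of `supp`.)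
-/

noncomputable section

namespace EntRF

open Finset
open scoped Classical

theorem exists_common_den {I : Type} [Fintype I] (q : I → ℚ) (hq : ∀ i, 0 ≤ q i) :
    ∃ D : ℕ, 0 < D ∧ ∀ i, ∃ m : ℕ, (m : ℚ) = D * q i := by
  refine ⟨∏ i, (q i).den, Finset.prod_pos fun i _ => (q i).pos, fun i => ?_⟩
  obtain ⟨k, hk⟩ : (q i).den ∣ ∏ i, (q i).den := Finset.dvd_prod_of_mem _ (Finset.mem_univ i)
  refine ⟨k * (q i).num.toNat, ?_⟩
  have h0 : 0 ≤ (q i).num := Rat.num_nonneg.2 (hq i)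
  have h1 : (((q i).num.toNat : ℕ) : ℚ) = ((q i).num : ℚ) := by
    have : (((q i).num.toNat : ℕ) : ℤ) = (q i).num := Int.toNat_of_nonneg h0
    exact_mod_cast congrArg (fun z : ℤ => (z : ℚ)) this
  have h2 : ((q i).den : ℚ) * q i = (q i).num := by
    rw [mul_comm]
    exact Rat.mul_den_eq_num (q i)
  rw [hk]
  push_cast
  rw [h1]
  linear_combination (-(k : ℚ)) * h2

private theorem sum_sub8 {V : Type} [Fintype V] (P : V → Prop) (f : V → ℚ)
    (h : ∀ b, f b ≠ 0 → P b) : ∑ b : {b // P b}, f b = ∑ b, f b := by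
  rw [← Fintype.sum_subtype_add_sum_subtype P f]
  have h0 : ∑ i : {x // ¬ P x}, f i = 0 := by
    refine Finset.sum_eq_zero fun i _ => ?_
    by_contra hc
    exact i.2 (h _ hc)
  rw [h0, add_zero]

private theorem exists_r8 {I : Type} [Fintype I] (P : I → Prop) (f : I → ℚ)
    (h : ∀ i, P i → 0 < f i) : ∃ r : ℕ, 1 ≤ r ∧ ∀ i, P i → 1 ≤ (2 : ℚ) ^ r * f i := by
  have h1 : ∀ i, ∃ r : ℕ, P i → 1 ≤ (2 : ℚ) ^ r * f i := by
    intro i
    by_cases hi : P i
    · have hp := h i hi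
      obtain ⟨r, hr⟩ := pow_unbounded_of_one_lt (1 / f i) (by norm_num : (1 : ℚ) < 2)
      refine ⟨r, fun _ => ?_⟩
      rw [div_lt_iff₀ hp] at hr
      exact hr.le
    · exact ⟨0, fun hc => absurd hc hi⟩
  choose g hg using h1
  refine ⟨1 + ∑ i, g i, Nat.le_add_right _ _, fun i hi => ?_⟩
  have h2 := hg i hi
  have h3 : g i ≤ 1 + ∑ i, g i :=
    (Finset.single_le_sum (fun j _ => Nat.zero_le (g j)) (Finset.mem_univ i)).trans
      (Nat.le_add_left _ _)
  have h4 : (2 : ℚ) ^ g i ≤ 2 ^ (1 + ∑ i, g i) := pow_le_pow_right₀ (by norm_num) h3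
  exact h2.trans (mul_le_mul_of_nonneg_right h4 (h i hi).le)

theorem exists_blow {V : Type} [Fintype V] (G : SimpleGraph V) (H W : V → V → Prop)
    (hsymm : ∀ a b, H a b → H b a)
    (hadj : ∀ a b, G.Adj a b ↔ H a b ∨ W a b) (hdis : ∀ a b, ¬ (H a b ∧ W a b))
    (KHH : V → V → V → V → ℚ) (hHH : IsHH H KHH)
    (KHV : V → V → V → V → ℚ) (hHV : IsHV H W KHV)
    (TVV : V → V → V → V) (hVV : IsVV W TVV) :
    ∃ N : ℕ, 0 < N ∧ ∀ p, SArr (blow G N) p := by
  obtain ⟨r, hr1, hr⟩ := exists_r8 (I := V × V × V)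
    (fun t => H t.1 t.2.1 ∧ H t.1 t.2.2) (fun t => KHH t.1 t.2.1 t.2.2 t.1)
    (fun t ht => hHH.pos _ _ _ ht.1 ht.2)
  obtain ⟨D, hD, hm⟩ := exists_common_den
    (fun t : (V × V × V × V) ⊕ (V × V × V × V) =>
      Sum.elim (fun s => KHH s.1 s.2.1 s.2.2.1 s.2.2.2) (fun s => KHV s.1 s.2.1 s.2.2.1 s.2.2.2) t)
    (by
      rintro (s | s)
      · exact hHH.nonneg _ _ _ _
      · exact hHV.nonneg _ _ _ _)
  choose m hm using hm
  have hmH : ∀ x a b z, (m (Sum.inl (x, a, b, z)) : ℚ) = D * KHH x a b z :=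
    fun x a b z => hm (Sum.inl (x, a, b, z))
  have hmV : ∀ x a u z, (m (Sum.inr (x, a, u, z)) : ℚ) = D * KHV x a u z :=
    fun x a u z => hm (Sum.inr (x, a, u, z))
  have h2r : 2 ≤ 2 ^ r := by
    calc 2 = 2 ^ 1 := (pow_one 2).symm
      _ ≤ 2 ^ r := Nat.pow_le_pow_right (by norm_num) hr1
  have hN : 0 < 2 ^ r * ((2 ^ r - 1) * D) :=
    Nat.mul_pos (by positivity) (Nat.mul_pos (by omega) hD)
  refine ⟨2 ^ r * ((2 ^ r - 1) * D), hN, ?_⟩
  rintro ⟨x, i⟩
  obtain ⟨THH, hHs, hHb⟩ := hh_array (Y := {a // H x a}) (Z := V) (fun a z => H a.1 z) x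
    (fun y => hsymm _ _ y.2) (fun y u z => KHH x y.1 u.1 z)
    (fun y u z => hHH.symm _ _ _ _)
    (fun y u z hne => ⟨(hHH.supp _ _ _ _ hne).2.2.1, (hHH.supp _ _ _ _ hne).2.2.2⟩)
    (fun y u => hHH.sum_z _ _ _ y.2 u.2)
    (fun y z hyz => by
      rw [sum_sub8 (fun b => H x b) (fun b => KHH x y.1 b z)
        (fun b hb => (hHH.supp _ _ _ _ hb).2.1)]
      exact hHH.sum_b _ _ _ y.2 hyz)
    r D (fun y u z => m (Sum.inl (x, y.1, u.1, z))) (fun y u z => hmH _ _ _ _)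
    (fun y u => hr (x, y.1, u.1) ⟨y.2, u.2⟩)
  obtain ⟨THV, hVr, hVc⟩ := hv_array (A := {a // H x a}) (U := {u // W x u}) (Z := V)
    (fun a z => W a.1 z) (fun u z => H u.1 z) (fun a u z => KHV x a.1 u.1 z)
    (fun a u z hne => ⟨(hHV.supp _ _ _ _ hne).2.2.1, (hHV.supp _ _ _ _ hne).2.2.2⟩)
    (fun a u => hHV.sum_z _ _ _ a.2 u.2)
    (fun a z haz => by
      rw [sum_sub8 (fun b => W x b) (fun b => KHV x a.1 b z)
        (fun b hb => (hHV.supp _ _ _ _ hb).2.1)]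
      exact hHV.sum_u _ _ _ a.2 haz)
    (fun u z huz => by
      rw [sum_sub8 (fun b => H x b) (fun b => KHV x b u.1 z)
        (fun b hb => (hHV.supp _ _ _ _ hb).1)]
      exact hHV.sum_a _ _ _ u.2 huz)
    (2 ^ r * ((2 ^ r - 1) * D)) hN
    (fun a u z => 2 ^ r * ((2 ^ r - 1) * m (Sum.inr (x, a.1, u.1, z))))
    (fun a u z => by
      rw [Nat.cast_mul, Nat.cast_mul, hmV, Nat.cast_mul, Nat.cast_mul]
      ring)
  exact blow_SArr G H W hadj hdis _ hN x THH hHs hHb THV hVr hVc (TVV x)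
    (fun a b ha hb => hVV.symm _ _ _ ha hb) (fun a ha => hVV.bij _ _ ha) i

end EntRF

end
end

section

/-!
# B6 : `KHH4` is a fractional symmetric array; extension of `HV` and `VV` arrays to four parts

`HH4`: collect B1-B5 (use `KHH4_symm` for `b.2 = x.2 ≠ a.2` in `sum_z`).

`HV4`: `K x a u z = if u.2 = x.2 ∧ z.2 = a.2 then (if a.2 = x.2 then kΓ x.1 a.1 u.1 z.1 else
kE x.1 a.1 u.1 z.1) else 0`.

`VV4`: `T' x a b = (T x.1 a.1 b.1, x.2)`.
-/

noncomputable section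

namespace EntRF

open Finset
open scoped Classical

variable {Θ : Type} [Fintype Θ] {Γ E : Θ → Θ → Prop} {p n0 : ℚ}

theorem HH4 (h : PartHyp Γ E p n0) : IsHH (H4 Γ E) (KHH4 Γ E p n0) where
  nonneg := KHH4_nonneg h
  symm := KHH4_symm h
  supp := fun x a b z hne => KHH4_supp x a b z hne
  pos := fun x a b ha hb => KHH4_pos h x a b ha hb
  sum_z := by
    intro x a b ha hb
    by_cases h1 : a.2 = x.2
    · by_cases h2 : b.2 = x.2
      · exact kz_in_in h x a b ha hb h1 h2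
      · exact kz_in_out h x a b ha hb h1 h2
    · by_cases h2 : b.2 = x.2
      · rw [Finset.sum_congr rfl fun z _ => KHH4_symm h x a b z]
        exact kz_in_out h x b a hb ha h2 h1
      · by_cases h3 : a.2 = b.2
        · exact kz_same h x a b ha hb h1 h3.symm
        · exact kz_diff h x a b ha hb h1 h2 h3
  sum_b := by
    intro x a z ha hz
    by_cases h1 : a.2 = x.2
    · by_cases h0 : z = x
      · rw [h0]
        exact kb_in_x h x a ha h1
      · by_cases h2 : z.2 = x.2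
        · exact kb_in_in h x a z ha hz h1 h2 h0
        · exact kb_in_out h x a z ha hz h1 h2
    · by_cases h0 : z = x
      · rw [h0]
        exact kb_out_x h x a ha h1
      · by_cases h2 : z.2 = x.2
        · exact kb_out_in h x a z ha hz h1 h2 h0
        · by_cases h3 : z.2 = a.2
          · exact kb_out_same h x a z ha hz h1 h3
          · exact kb_out_diff h x a z ha hz h1 h2 h3

/-- A sum over `Θ × Fin 4` of a function supported on one part. -/
private theorem sum_one_part (j0 : Fin 4) (f : Θ × Fin 4 → ℚ)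
    (h0 : ∀ w : Θ × Fin 4, w.2 ≠ j0 → f w = 0) : ∑ w, f w = ∑ w, f (w, j0) := by
  rw [Fintype.sum_prod_type_right]
  refine Fintype.sum_eq_single j0 fun j hj => ?_
  exact Finset.sum_eq_zero fun w _ => h0 (w, j) hj

theorem HV4 {W : Θ → Θ → Prop} {kG kE : Θ → Θ → Θ → Θ → ℚ} (hG : IsHV Γ W kG)
    (hE : IsHV E W kE) : ∃ K, IsHV (H4 Γ E) (W4 W) K := by
  refine ⟨fun x a u z => if u.2 = x.2 ∧ z.2 = a.2 then (if a.2 = x.2 then kG x.1 a.1 u.1 z.1 else
    kE x.1 a.1 u.1 z.1) else 0, ?_, ?_, ?_, ?_, ?_⟩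
  · intro x a u z
    show 0 ≤ ite _ _ _
    split_ifs
    · exact hG.nonneg _ _ _ _
    · exact hE.nonneg _ _ _ _
    · exact le_rfl
  · intro x a u z hne
    by_cases h1 : u.2 = x.2 ∧ z.2 = a.2
    · by_cases h2 : a.2 = x.2
      · simp only [if_pos h1, if_pos h2] at hne
        obtain ⟨e1, e2, e3, e4⟩ := hG.supp _ _ _ _ hne
        exact ⟨Or.inl ⟨h2.symm, e1⟩, ⟨h1.1.symm, e2⟩, ⟨h1.2.symm, e3⟩,
          Or.inl ⟨(h1.1.trans h2.symm).trans h1.2.symm, e4⟩⟩
      · simp only [if_pos h1, if_neg h2] at hne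
        obtain ⟨e1, e2, e3, e4⟩ := hE.supp _ _ _ _ hne
        exact ⟨Or.inr ⟨fun h => h2 h.symm, e1⟩, ⟨h1.1.symm, e2⟩, ⟨h1.2.symm, e3⟩,
          Or.inr ⟨fun h => h2 ((h1.2.symm.trans h.symm).trans h1.1), e4⟩⟩
    · simp only [if_neg h1] at hne
      exact absurd rfl hne
  · intro x a u ha hu
    rw [sum_one_part a.2 _ fun w hw => if_neg fun h => hw h.2]
    by_cases h2 : a.2 = x.2
    · have ha' : Γ x.1 a.1 := by
        rcases ha with ⟨_, h⟩ | ⟨h, _⟩
        · exact h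
        · exact absurd h2.symm h
      rw [← hG.sum_z x.1 a.1 u.1 ha' hu.2]
      refine Finset.sum_congr rfl fun w _ => ?_
      show ite _ _ _ = _
      rw [if_pos ⟨hu.1.symm, rfl⟩, if_pos h2]
    · have ha' : E x.1 a.1 := by
        rcases ha with ⟨h, _⟩ | ⟨_, h⟩
        · exact absurd h.symm h2
        · exact h
      rw [← hE.sum_z x.1 a.1 u.1 ha' hu.2]
      refine Finset.sum_congr rfl fun w _ => ?_
      show ite _ _ _ = _
      rw [if_pos ⟨hu.1.symm, rfl⟩, if_neg h2]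
  · intro x a z ha hz
    rw [sum_one_part x.2 _ fun w hw => if_neg fun h => hw h.1]
    by_cases h2 : a.2 = x.2
    · have ha' : Γ x.1 a.1 := by
        rcases ha with ⟨_, h⟩ | ⟨h, _⟩
        · exact h
        · exact absurd h2.symm h
      rw [← hG.sum_u x.1 a.1 z.1 ha' hz.2]
      refine Finset.sum_congr rfl fun w _ => ?_
      show ite _ _ _ = _
      rw [if_pos ⟨rfl, hz.1.symm⟩, if_pos h2]
    · have ha' : E x.1 a.1 := by
        rcases ha with ⟨h, _⟩ | ⟨_, h⟩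
        · exact absurd h.symm h2
        · exact h
      rw [← hE.sum_u x.1 a.1 z.1 ha' hz.2]
      refine Finset.sum_congr rfl fun w _ => ?_
      show ite _ _ _ = _
      rw [if_pos ⟨rfl, hz.1.symm⟩, if_neg h2]
  · intro x u z hu hz
    rw [sum_one_part z.2 _ fun w hw => if_neg fun h => hw h.2.symm]
    by_cases h2 : z.2 = x.2
    · have hz' : Γ u.1 z.1 := by
        rcases hz with ⟨_, h⟩ | ⟨h, _⟩
        · exact h
        · exact absurd (hu.1.symm.trans h2.symm) h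
      rw [← hG.sum_a x.1 u.1 z.1 hu.2 hz']
      refine Finset.sum_congr rfl fun w _ => ?_
      show ite _ _ _ = _
      rw [if_pos ⟨hu.1.symm, rfl⟩, if_pos h2]
    · have hz' : E u.1 z.1 := by
        rcases hz with ⟨h, _⟩ | ⟨_, h⟩
        · exact absurd (h.symm.trans hu.1.symm) h2
        · exact h
      rw [← hE.sum_a x.1 u.1 z.1 hu.2 hz']
      refine Finset.sum_congr rfl fun w _ => ?_
      show ite _ _ _ = _
      rw [if_pos ⟨hu.1.symm, rfl⟩, if_neg h2]

theorem VV4 {W : Θ → Θ → Prop} {T : Θ → Θ → Θ → Θ} (hT : IsVV W T) :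
    ∃ T', IsVV (W4 W) T' := by
  refine ⟨fun x a b => (T x.1 a.1 b.1, x.2), ?_, ?_⟩
  · intro x a b ha hb
    exact Prod.ext (hT.symm x.1 a.1 b.1 ha.2 hb.2) rfl
  · intro x a ha
    have hb := hT.bij x.1 a.1 ha.2
    refine ⟨?_, ?_, ?_⟩
    · intro b hb'
      exact ⟨ha.1.symm, hb.mapsTo hb'.2⟩
    · intro b hb1 c hc1 hbc
      have e1 : T x.1 a.1 b.1 = T x.1 a.1 c.1 := congrArg Prod.fst hbc
      exact Prod.ext (hb.injOn hb1.2 hc1.2 e1) (hb1.1.symm.trans hc1.1)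
    · intro z hz
      obtain ⟨w, hw1, hw2⟩ := hb.surjOn (show z.1 ∈ {z | W a.1 z} from hz.2)
      exact ⟨(w, x.2), ⟨rfl, hw1⟩, Prod.ext hw2 (ha.1.trans hz.1)⟩

end EntRF

end
end

section

/-!
# B9 : the labelled graph and its flat blow-up

`adj0` is symmetric and irreflexive (`GLab` changes `ε`; `R` is irreflexive). `H4 (GLab m) (ELab B)`
and `W4 (WLab R)` are disjoint (`W4` keeps the part and `ε`; `H4` changes one of them). Then
`exists_blow` with `HH4 (partHyp_lab ..)`, `HV4 (HV_P ..) (HV_U ..)`, `VV4 (VV_L ..)`.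
-/

noncomputable section

namespace EntRF

open Finset
open scoped Classical

/-- The labelled graph. -/
def G0 {Ω : Type} {K n : ℕ} (m : Ω → Ω → ℕ) (B R : Ω → Ω → Prop) :
    SimpleGraph ((Ω × Lab K n) × Fin 4) :=
  SimpleGraph.fromRel (adj0 m B R)

theorem m_symm' {Ω : Type} [Fintype Ω] {P : Ω → Ω → ℚ} {B R : Ω → Ω → Prop} {b dV : ℕ}
    {cP cU : Ω → Ω → Ω → Ω → ℚ} {T : Ω → Ω → Ω → Ω} (h : KData P B R b dV cP cU T)
    (K : ℕ) (m : Ω → Ω → ℕ)
    (hm : ∀ x y, (m x y : ℚ) = K * P x y) (x y : Ω) : m x y = m y x := by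
  have h1 : (m x y : ℚ) = m y x := by rw [hm x y, hm y x, h.Psymm x y]
  exact_mod_cast h1

theorem zmod2_ne (e : ZMod 2) : ¬ (e = e + 1) := by
  intro h
  have : (1 : ZMod 2) = 0 := by
    have h2 : e + 0 = e + 1 := by rw [add_zero]; exact h
    exact (add_left_cancel h2).symm
  exact absurd this (by decide)

theorem zmod2_symm (e f : ZMod 2) (h : f = e + 1) : e = f + 1 := by
  rw [h, add_assoc]
  have : (1 : ZMod 2) + 1 = 0 := by decide
  rw [this, add_zero]

theorem GLab_symm' {Ω : Type} [Fintype Ω] {P : Ω → Ω → ℚ} {B R : Ω → Ω → Prop} {b dV : ℕ}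
    {cP cU : Ω → Ω → Ω → Ω → ℚ} {T : Ω → Ω → Ω → Ω} (h : KData P B R b dV cP cU T)
    (K n : ℕ) (m : Ω → Ω → ℕ)
    (hm : ∀ x y, (m x y : ℚ) = K * P x y) (x y : Ω × Lab K n) (hxy : GLab m x y) :
    GLab m y x := by
  obtain ⟨h1, h2⟩ := hxy
  refine ⟨?_, zmod2_symm _ _ h2⟩
  rw [add_comm, m_symm' h K m hm y.1 x.1]
  exact h1

theorem adj0_symm {Ω : Type} [Fintype Ω] {P : Ω → Ω → ℚ} {B R : Ω → Ω → Prop} {b dV : ℕ}
    {cP cU : Ω → Ω → Ω → Ω → ℚ} {T : Ω → Ω → Ω → Ω} (h : KData P B R b dV cP cU T)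
    (K n : ℕ) (m : Ω → Ω → ℕ)
    (hm : ∀ x y, (m x y : ℚ) = K * P x y) (x y : (Ω × Lab K n) × Fin 4) (hxy : adj0 m B R x y) :
    adj0 m B R y x := by
  rcases hxy with (⟨h1, h2⟩ | ⟨h1, h2⟩) | ⟨h1, h2, h3, h4⟩
  · exact Or.inl (Or.inl ⟨h1.symm, GLab_symm' h K n m hm _ _ h2⟩)
  · exact Or.inl (Or.inr ⟨fun h5 => h1 h5.symm, h.Bsymm _ _ h2⟩)
  · exact Or.inr ⟨h1.symm, h.Rsymm _ _ h2, h3.symm, h4.symm⟩

theorem adj0_irr {Ω : Type} [Fintype Ω] {P : Ω → Ω → ℚ} {B R : Ω → Ω → Prop} {b dV : ℕ}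
    {cP cU : Ω → Ω → Ω → Ω → ℚ} {T : Ω → Ω → Ω → Ω} (h : KData P B R b dV cP cU T)
    (K n : ℕ) (m : Ω → Ω → ℕ) (x : (Ω × Lab K n) × Fin 4) : ¬ adj0 m B R x x := by
  rintro ((⟨h1, h2⟩ | ⟨h1, h2⟩) | ⟨h1, h2, h3, h4⟩)
  · exact zmod2_ne _ h2.2
  · exact h1 rfl
  · exact h.Rirr _ h2

theorem G0_adj {Ω : Type} [Fintype Ω] {P : Ω → Ω → ℚ} {B R : Ω → Ω → Prop} {b dV : ℕ}
    {cP cU : Ω → Ω → Ω → Ω → ℚ} {T : Ω → Ω → Ω → Ω} (h : KData P B R b dV cP cU T)
    (K n : ℕ) [NeZero K] (m : Ω → Ω → ℕ)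
    (hm : ∀ x y, (m x y : ℚ) = K * P x y) (x y : (Ω × Lab K n) × Fin 4) :
    (G0 m B R).Adj x y ↔ adj0 m B R x y := by
  unfold G0
  rw [SimpleGraph.fromRel_adj]
  constructor
  · rintro ⟨_, h1 | h1⟩
    · exact h1
    · exact adj0_symm h K n m hm _ _ h1
  · intro h1
    refine ⟨?_, Or.inl h1⟩
    rintro rfl
    exact adj0_irr h K n m _ h1

theorem G0_blow {Ω : Type} [Fintype Ω] {P : Ω → Ω → ℚ} {B R : Ω → Ω → Prop} {b dV : ℕ}
    {cP cU : Ω → Ω → Ω → Ω → ℚ} {T : Ω → Ω → Ω → Ω} (h : KData P B R b dV cP cU T)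
    (hb : 0 < b) (K n : ℕ) [NeZero K] (hn : 0 < n) (m : Ω → Ω → ℕ)
    (hm : ∀ x y, (m x y : ℚ) = K * P x y) :
    ∃ N : ℕ, 0 < N ∧ ∀ p, SArr (blow (G0 (K := K) (n := n) m B R) N) p := by
  have HP := partHyp_lab h hb K n hn m hm
  have hP1 : ∀ x y, P x y ≤ 1 := by
    intro x y
    rw [← h.Psum x]
    exact Finset.single_le_sum (f := fun y => P x y) (fun i _ => h.Pnonneg x i)
      (Finset.mem_univ y)
  obtain ⟨kG, hG⟩ := HV_P P R cP h.cplP hP1 K n m hm
  obtain ⟨kE, hE⟩ := HV_U B R b hb cU h.cplU K n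
  obtain ⟨kHV, hHV⟩ := HV4 hG hE
  obtain ⟨T1, hT1⟩ := VV_L R T h.vv K n
  obtain ⟨T2, hT2⟩ := VV4 hT1
  exact exists_blow (G0 (K := K) (n := n) m B R) (H4 (GLab m) (ELab B)) (W4 (WLab R))
    (fun a b hab => H4_symm HP a b hab)
    (fun a b => G0_adj h K n m hm a b)
    (by
      rintro a b ⟨h1 | h1, h2⟩
      · apply zmod2_ne a.1.2.2.1
        rw [← h1.2.2]
        exact h2.2.2.1.symm
      · exact h1.1 h2.1)
    _ (HH4 HP) kHV hHV T2 hT2

end EntRF

end
end
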