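import Pool.Agent.Lib.MP_a349aa_gt.DDefs

/-!
# D5 : the site kernel

`a = 1/(4 k^2)`, `dgA = 1/(2k)`, `dgB = (k+1)/(4k^2) ≤ 1/2`, `dgC = (1 + 1/k)/4 ≤ 1/2` for `k ≥ 1`;
`0 ≤ bet ≤ (k+2)/wN = 1/2`. Row sums: e.g. `∑ qs A = k a + k a + wN * (1 - dgA)/wN = 1`;
row `W`: `bet + wN (1 - bet)/wN = 1`.
`DSt (qP k)`: `comp`: `addL ℓ i ∈ {none, some i} ↔ ℓ ∈ {none, some i}` (cases, `decide`).
-/

noncomputable section

namespace EntRF

open Finset
open scoped Classical

/-- Sites as a sum type. -/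
private def siteEquiv (k : ℕ) : Site k ≃ (Unit ⊕ Unit) ⊕ (Fin k ⊕ Fin (2 * (k + 2))) where
  toFun
    | .A => .inl (.inl ())
    | .C => .inl (.inr ())
    | .B j => .inr (.inl j)
    | .W w => .inr (.inr w)
  invFun
    | .inl (.inl _) => .A
    | .inl (.inr _) => .C
    | .inr (.inl j) => .B j
    | .inr (.inr w) => .W w
  left_inv x := by cases x <;> rfl
  right_inv x := by rcases x with (x | x) | (x | x) <;> rfl

theorem sum_site {M : Type} [AddCommMonoid M] (k : ℕ) (f : Site k → M) :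
    ∑ s, f s = f .A + f .C + (∑ j, f (.B j) + ∑ w, f (.W w)) := by
  rw [← Equiv.sum_comp (siteEquiv k).symm f, Fintype.sum_sum_type, Fintype.sum_sum_type,
    Fintype.sum_sum_type]
  simp only [Finset.univ_unique, Finset.sum_singleton]
  rfl

theorem card_site (k : ℕ) : Fintype.card (Site k) = 3 * (k + 2) := by
  rw [← Finset.card_univ, Finset.card_eq_sum_ones, sum_site]
  simp only [Finset.sum_const, Finset.card_univ, Fintype.card_fin, smul_eq_mul, mul_one]
  ring

theorem qs_symm (k : ℕ) (a b : Site k) : qs k a b = qs k b a := by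
  cases a <;> cases b <;> rfl

private theorem wN_pos (k : ℕ) : 0 < wN k := by
  unfold wN; positivity

private theorem aa_pos {k : ℕ} (hk : 1 ≤ k) : 0 < aa k := by
  have : (1 : ℚ) ≤ k := by exact_mod_cast hk
  unfold aa; positivity

private theorem dgA_le {k : ℕ} (hk : 1 ≤ k) : dgA k ≤ 1 / 2 := by
  have h : (1 : ℚ) ≤ k := by exact_mod_cast hk
  unfold dgA aa
  rw [mul_one_div, div_le_iff₀ (by positivity)]
  nlinarith

private theorem dgB_le {k : ℕ} (hk : 1 ≤ k) : dgB k ≤ 1 / 2 := by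
  have h : (1 : ℚ) ≤ k := by exact_mod_cast hk
  unfold dgB aa
  rw [mul_one_div, div_le_iff₀ (by positivity)]
  nlinarith

private theorem dgC_le {k : ℕ} (hk : 1 ≤ k) : dgC k ≤ 1 / 2 := by
  have h : (1 : ℚ) ≤ k := by exact_mod_cast hk
  unfold dgC aa
  rw [mul_one_div, div_le_iff₀ (by positivity)]
  nlinarith

private theorem dgA_nonneg {k : ℕ} (hk : 1 ≤ k) : 0 ≤ dgA k := by
  have := aa_pos hk
  unfold dgA; positivity

private theorem dgB_nonneg {k : ℕ} (hk : 1 ≤ k) : 0 ≤ dgB k := by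
  have := aa_pos hk
  unfold dgB; positivity

private theorem dgC_nonneg {k : ℕ} (hk : 1 ≤ k) : 0 ≤ dgC k := by
  have := aa_pos hk
  unfold dgC; positivity

private theorem bet_le {k : ℕ} (hk : 1 ≤ k) : bet k ≤ 1 / 2 := by
  have h : (1 : ℚ) ≤ k := by exact_mod_cast hk
  have hA := dgA_nonneg hk
  have hB := dgB_nonneg hk
  have hC := dgC_nonneg hk
  unfold bet
  rw [div_le_iff₀ (wN_pos k)]
  unfold wN
  nlinarith [mul_nonneg (by linarith : (0 : ℚ) ≤ k) hB]

private theorem bet_nonneg {k : ℕ} (hk : 1 ≤ k) : 0 ≤ bet k := by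
  have h : (1 : ℚ) ≤ k := by exact_mod_cast hk
  have hA := dgA_le hk
  have hB := dgB_le hk
  have hC := dgC_le hk
  unfold bet
  apply div_nonneg _ (wN_pos k).le
  have : 0 ≤ (k : ℚ) * (1 - dgB k) := mul_nonneg (by linarith) (by linarith)
  linarith

theorem qs_nonneg {k : ℕ} (hk : 1 ≤ k) (a b : Site k) : 0 ≤ qs k a b := by
  have h : (1 : ℚ) ≤ k := by exact_mod_cast hk
  have ha := (aa_pos hk).le
  have hA := dgA_le hk
  have hB := dgB_le hk
  have hC := dgC_le hk
  have hb := bet_le hk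
  have hw := (wN_pos k).le
  have h1 : 0 ≤ (1 - dgA k) / wN k := div_nonneg (by linarith) hw
  have h2 : 0 ≤ (1 - dgB k) / wN k := div_nonneg (by linarith) hw
  have h3 : 0 ≤ (1 - dgC k) / wN k := div_nonneg (by linarith) hw
  have h4 : 0 ≤ (1 - bet k) / wN k := div_nonneg (by linarith) hw
  have h5 : 0 ≤ (k : ℚ) * aa k := mul_nonneg (by linarith) ha
  cases a <;> cases b <;> simp only [qs, le_refl] <;> assumption

theorem qs_sum {k : ℕ} (hk : 1 ≤ k) (a : Site k) : ∑ b, qs k a b = 1 := by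
  have hw : wN k ≠ 0 := (wN_pos k).ne'
  have hwc : (((2 * (k + 2) : ℕ) : ℚ)) = wN k := by unfold wN; push_cast; ring
  rw [sum_site]
  cases a with
  | A =>
    simp only [qs, Finset.sum_const, Finset.card_univ, Fintype.card_fin, nsmul_eq_mul, hwc]
    rw [mul_div_cancel₀ _ hw]
    unfold dgA
    ring
  | C =>
    simp only [qs, Finset.sum_const, Finset.card_univ, Fintype.card_fin, nsmul_eq_mul, hwc]
    rw [mul_div_cancel₀ _ hw]
    unfold dgC
    ring
  | B j =>
    simp only [qs, Finset.sum_const, Finset.card_univ, Fintype.card_fin, nsmul_eq_mul, hwc]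
    rw [mul_div_cancel₀ _ hw]
    unfold dgB
    ring
  | W w =>
    simp only [qs, Finset.sum_const, Finset.card_univ, Fintype.card_fin, nsmul_eq_mul, hwc]
    rw [mul_div_cancel₀ _ hw]
    unfold bet
    field_simp
    ring

theorem qs_W_ge {k : ℕ} (hk : 1 ≤ k) (a : Site k) (w : Fin (2 * (k + 2))) :
    1 / (2 * wN k) ≤ qs k a (.W w) := by
  have hA := dgA_le hk
  have hB := dgB_le hk
  have hC := dgC_le hk
  have hb := bet_le hk
  have hw := wN_pos k
  have key : ∀ t : ℚ, t ≤ 1 / 2 → 1 / (2 * wN k) ≤ (1 - t) / wN k := by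
    intro t ht
    rw [div_le_div_iff₀ (by positivity) hw]
    nlinarith
  cases a <;> simp only [qs] <;> apply key <;> assumption

private theorem cond_comp (ℓ : Option (ZMod 3)) (i : ZMod 3) :
    (addL ℓ i = none ∨ addL ℓ i = some i) ↔ (ℓ = none ∨ ℓ = some i) := by
  revert ℓ i; decide

private theorem cond_rot (ℓ : Option (ZMod 3)) (l σ : ZMod 3) :
    (ℓ.map (· + σ) = none ∨ ℓ.map (· + σ) = some (l + σ)) ↔ (ℓ = none ∨ ℓ = some l) := by
  revert ℓ l σ; decide

theorem dst_qP {k : ℕ} (hk : 1 ≤ k) : DSt (qP k) := by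
  refine ⟨fun ℓ l a b => ?_, fun ℓ l a b => ?_, fun ℓ l a => ?_, fun ℓ i => ?_, fun ℓ l σ => ?_⟩
  · unfold qP
    split_ifs
    · exact qs_nonneg hk a b
    · exact zero_le_one
    · exact le_refl _
  · unfold qP
    by_cases h : ℓ = none ∨ ℓ = some l
    · rw [if_pos h, if_pos h, qs_symm]
    · rw [if_neg h, if_neg h]
      by_cases h' : a = b
      · rw [if_pos h', if_pos h'.symm]
      · rw [if_neg h', if_neg (Ne.symm h')]
  · unfold qP
    by_cases h : ℓ = none ∨ ℓ = some l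
    · simp only [if_pos h]
      exact qs_sum hk a
    · simp only [if_neg h]
      rw [Finset.sum_ite_eq]
      simp
  · funext a b
    unfold qP
    simp only [cond_comp]
  · funext a b
    unfold qP
    simp only [cond_rot]

theorem dst_qU (S : Type) [Fintype S] [Nonempty S] : DSt (qU S) := by
  refine ⟨fun ℓ l a b => ?_, fun ℓ l a b => rfl, fun ℓ l a => ?_, fun ℓ i => rfl,
    fun ℓ l σ => rfl⟩
  · unfold qU; positivity
  · unfold qU
    rw [Finset.sum_const, Finset.card_univ, nsmul_eq_mul, mul_one_div, div_self]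
    exact_mod_cast Fintype.card_ne_zero

end EntRF

end
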