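import Pool.Agent.Lib.MP_a349aa_gt.A4

/-!
# Definitions for the concrete kernel

Points of `Om J S`: `(level, tag, colours, sites)` with level in `Option (ZMod 3)` (the group `F_2^2`,
`none = 0`, `some i = c_i`), tag in `ZMod 3`, colours `ZMod 3 → J`, sites `ZMod 3 → S`.
-/

noncomputable section

namespace EntRF

open Finset
open scoped Classical

/-- Points. -/
abbrev Om (J S : Type) : Type := Option (ZMod 3) × ZMod 3 × (ZMod 3 → J) × (ZMod 3 → S)

/-- `ℓ ↦ ℓ + c_i` on levels. -/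
def addL (l : Option (ZMod 3)) (i : ZMod 3) : Option (ZMod 3) :=
  match l with
  | none => some i
  | some i' => if i' = i then none else some (-(i + i'))

section

variable {J S : Type}

/-- Adjacency of kind `i`: the level changes by `c_i`, colour and site at position `i` are kept. -/
def VK (i : ZMod 3) (x y : Om J S) : Prop :=
  y.1 = addL x.1 i ∧ y.2.2.1 i = x.2.2.1 i ∧ y.2.2.2 i = x.2.2.2 i

/-- The relation `R` of the construction. -/
def VA (x y : Om J S) : Prop := ∃ i, VK i x y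

/-- Same level, tag and colours. -/
def Sm (x y : Om J S) : Prop := y.1 = x.1 ∧ y.2.1 = x.2.1 ∧ y.2.2.1 = x.2.2.1

/-- Rotation of levels, tags and positions. -/
def rotO (σ : ZMod 3) : Om J S ≃ Om J S where
  toFun x := (x.1.map (· + σ), x.2.1 + σ, fun l => x.2.2.1 (l - σ), fun l => x.2.2.2 (l - σ))
  invFun x := (x.1.map (· - σ), x.2.1 - σ, fun l => x.2.2.1 (l + σ), fun l => x.2.2.2 (l + σ))
  left_inv x := by
    obtain ⟨l, t, j, s⟩ := x
    simp [Option.map_map, Function.comp_def]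
  right_inv x := by
    obtain ⟨l, t, j, s⟩ := x
    simp [Option.map_map, Function.comp_def]

/-- Same block: same level, tag and colours up to a rotation. -/
def Bk (x y : Om J S) : Prop := ∃ σ : ZMod 3, Sm (rotO σ x) y

/-- Change the site at position `i`. -/
def upd (u : Om J S) (i : ZMod 3) (a : S) : Om J S :=
  (u.1, u.2.1, u.2.2.1, Function.update u.2.2.2 i a)

/-- The special blocks: level `0` and all colours `0`. -/
def Sp [Zero J] (x : Om J S) : Prop := x.1 = none ∧ ∀ l, x.2.2.1 l = 0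

/-- Shift of the tag on special points, identity elsewhere. -/
def tsO [Zero J] (ρ : ZMod 3) : Om J S ≃ Om J S where
  toFun x := if Sp x then (x.1, x.2.1 + ρ, x.2.2.1, x.2.2.2) else x
  invFun x := if Sp x then (x.1, x.2.1 - ρ, x.2.2.1, x.2.2.2) else x
  left_inv x := by
    by_cases h : Sp x
    · have h' : Sp ((x.1, x.2.1 + ρ, x.2.2.1, x.2.2.2) : Om J S) := h
      simp [h, h']
    · simp [h]
  right_inv x := by
    by_cases h : Sp x
    · have h' : Sp ((x.1, x.2.1 - ρ, x.2.2.1, x.2.2.2) : Om J S) := h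
      simp [h, h']
    · simp [h]

/-- The combined automorphism. -/
def phi [Zero J] (σ ρ : ZMod 3) : Om J S ≃ Om J S := (rotO σ).trans (tsO ρ)

/-- Product kernel: level, tag, colours are kept, site `l` moves by `qq level l`. -/
def Pr (qq : Option (ZMod 3) → ZMod 3 → S → S → ℚ) (x y : Om J S) : ℚ :=
  if Sm x y then ∏ l, qq x.1 l (x.2.2.2 l) (y.2.2.2 l) else 0

/-- Its coupling with `VA`. -/
def cpr (qq : Option (ZMod 3) → ZMod 3 → S → S → ℚ) (x y u z : Om J S) : ℚ :=
  ∑ i, if VK i x u ∧ VK i y z ∧ Sm x y ∧ Sm u z then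
    (∏ l, qq x.1 l (x.2.2.2 l) (y.2.2.2 l)) *
      ∏ l, (if l = i then 1 else qq u.1 l (u.2.2.2 l) (z.2.2.2 l)) else 0

/-- Doubly stochastic family, compatible with the kinds. -/
structure DSt [Fintype S] (qq : Option (ZMod 3) → ZMod 3 → S → S → ℚ) : Prop where
  nonneg : ∀ ℓ l a b, 0 ≤ qq ℓ l a b
  symm : ∀ ℓ l a b, qq ℓ l a b = qq ℓ l b a
  sum : ∀ ℓ l a, ∑ b, qq ℓ l a b = 1
  comp : ∀ ℓ i, qq (addL ℓ i) i = qq ℓ i
  rot : ∀ ℓ l σ, qq (ℓ.map (· + σ)) (l + σ) = qq ℓ l

end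

/-- Signed coupling with a modified third sum. -/
structure SCpl {Ω : Type} [Fintype Ω] (R : Ω → Ω → Prop) (P : Ω → Ω → ℚ)
    (P' : Ω → Ω → Ω → ℚ) (c : Ω → Ω → Ω → Ω → ℚ) : Prop where
  supp : ∀ x y u z, c x y u z ≠ 0 → R x u ∧ R y z
  sum_z : ∀ x y u, R x u → ∑ z, c x y u z = P x y
  sum_u : ∀ x y z, R y z → ∑ u, c x y u z = P x y
  sum_y : ∀ x u z, R x u → ∑ y, c x y u z = P' x u z

/-! ## Sites -/

/-- The sites: `A`, `C`, `k` sites `B j`, `2 (k + 2)` sites `W w`. -/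
inductive Site (k : ℕ) : Type
  | A : Site k
  | C : Site k
  | B : Fin k → Site k
  | W : Fin (2 * (k + 2)) → Site k
  deriving DecidableEq, Fintype

/-- The number `2 (k + 2)` of `W`-sites, as a rational. -/
def wN (k : ℕ) : ℚ := 2 * (k + 2)

/-- The rate `a = 1 / (4 k^2)`. -/
def aa (k : ℕ) : ℚ := 1 / (4 * k ^ 2)

/-- `τ' = a / 100`. -/
def tau (k : ℕ) : ℚ := aa k / 100

/-- `deg s = ∑_{s' ≠ W} q(s, s')` for the sites `A`, `B`, `C`. -/
def dgA (k : ℕ) : ℚ := 2 * k * aa k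
def dgB (k : ℕ) : ℚ := (k + 1) * aa k
def dgC (k : ℕ) : ℚ := (k + k ^ 2) * aa k

/-- `∑_{s ≠ W} q(W, s)`. -/
def bet (k : ℕ) : ℚ := ((1 - dgA k) + k * (1 - dgB k) + (1 - dgC k)) / wN k

/-- The site kernel. -/
def qs (k : ℕ) : Site k → Site k → ℚ
  | .A, .A => 0
  | .A, .B _ => aa k
  | .A, .C => k * aa k
  | .A, .W _ => (1 - dgA k) / wN k
  | .B _, .A => aa k
  | .B _, .B _ => 0
  | .B _, .C => k * aa k
  | .B _, .W _ => (1 - dgB k) / wN k
  | .C, .A => k * aa k
  | .C, .B _ => k * aa k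
  | .C, .C => 0
  | .C, .W _ => (1 - dgC k) / wN k
  | .W _, .A => (1 - dgA k) / wN k
  | .W _, .B _ => (1 - dgB k) / wN k
  | .W _, .C => (1 - dgC k) / wN k
  | .W _, .W _ => (1 - bet k) / wN k

/-- The function `v` on triples of sites. -/
def v3 (k : ℕ) : Site k → Site k → Site k → ℚ
  | .A, .B _, .C => 1
  | .A, .W _, .W _ => - k / wN k ^ 2
  | .W _, .B _, .W _ => - 1 / wN k ^ 2
  | .W _, .W _, .C => - k / wN k ^ 2
  | .W _, .W _, .W _ => 2 * k / wN k ^ 3
  | _, _, _ => 0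

/-- The part `v''` (the `A W W` terms and half of the `W W W` terms). -/
def v3b (k : ℕ) : Site k → Site k → Site k → ℚ
  | .A, .W _, .W _ => - k / wN k ^ 2
  | .W _, .W _, .W _ => k / wN k ^ 3
  | _, _, _ => 0

/-- The part `v' = v - v''`. -/
def v3a (k : ℕ) (a b c : Site k) : ℚ := v3 k a b c - v3b k a b c

/-- `v_m(s) = v(s_m, s_{m+1}, s_{m+2})`. -/
def vm (k : ℕ) (m : ZMod 3) (s : ZMod 3 → Site k) : ℚ := v3 k (s m) (s (m + 1)) (s (m + 2))
def vma (k : ℕ) (m : ZMod 3) (s : ZMod 3 → Site k) : ℚ := v3a k (s m) (s (m + 1)) (s (m + 2))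
def vmb (k : ℕ) (m : ZMod 3) (s : ZMod 3 → Site k) : ℚ := v3b k (s m) (s (m + 1)) (s (m + 2))

/-- `v̄ = ∑_m v_m`. -/
def vbar (k : ℕ) (s : ZMod 3 → Site k) : ℚ := ∑ m, vm k m s

/-- Is `(a, b, c)` of the form `(A, B_j, C)`? -/
def isABC (k : ℕ) : Site k → Site k → Site k → Prop
  | .A, .B _, .C => True
  | _, _, _ => False

/-- Shift used for special bases. -/
def chi0 (k : ℕ) (a b c : Site k) : ZMod 3 := if isABC k a b c then 1 else -1

/-- Shifts used for bases of level `c_i`: `p` is the position (relative to `m`) of the site `a`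
seen by the base. -/
def chi1 (k : ℕ) (a : Site k) (p : ZMod 3) : ZMod 3 :=
  if p = 0 then (match a with | .A => -1 | _ => 1)
  else (match a with | .W _ => -1 | _ => 1)
def chi2 (k : ℕ) (a : Site k) (p : ZMod 3) : ZMod 3 :=
  if p = 0 then 1 else (match a with | .W _ => -1 | _ => 1)

/-- The family of site kernels of `P`: at level `none` all sites move, at level `some i` only the
site `i`. -/
def qP (k : ℕ) (ℓ : Option (ZMod 3)) (l : ZMod 3) (a b : Site k) : ℚ :=
  if ℓ = none ∨ ℓ = some l then qs k a b else (if a = b then 1 else 0)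

/-- The uniform family. -/
def qU (S : Type) [Fintype S] (_ : Option (ZMod 3)) (_ : ZMod 3) (_ _ : S) : ℚ :=
  1 / (Fintype.card S : ℚ)

section

variable {J : Type} [Zero J] {k : ℕ}

/-- `e_s(s') = 3 ∑_m v_m(s) v_{m - χ}(s')`, special base. -/
def ee0 (k : ℕ) (s s' : ZMod 3 → Site k) : ℚ :=
  3 * ∑ m, vm k m s * vm k (m - chi0 k (s m) (s (m + 1)) (s (m + 2))) s'

/-- The same for a base of level `c_i` seeing the site `s i`. -/
def ee1 (k : ℕ) (i : ZMod 3) (s s' : ZMod 3 → Site k) : ℚ :=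
  3 * ∑ m, vm k m s * (vma k (m - chi1 k (s i) (i - m)) s' + vmb k (m - chi2 k (s i) (i - m)) s')

/-- The extra kernel on special points. -/
def E0 (x y : Om J (Site k)) : ℚ :=
  if Sp x ∧ Sm x y then ee0 k x.2.2.2 y.2.2.2 else 0

/-- The third marginal of the coupling of the extra kernel. -/
def E0' (x u z : Om J (Site k)) : ℚ :=
  match x.1 with
  | some i => if VK i x u ∧ Sp u ∧ Sm u z then ee1 k i u.2.2.2 z.2.2.2 else 0
  | none => 0

/-- Coupling of the extra kernel, special base. -/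
def ca (x y u z : Om J (Site k)) : ℚ :=
  ∑ i, if VK i x u ∧ z = upd u i (y.2.2.2 i) then E0 x y else 0

/-- Coupling of the extra kernel, base of level `c_i`. -/
def cb (x y u z : Om J (Site k)) : ℚ :=
  match x.1 with
  | some i => if y = upd x i (z.2.2.2 i) then E0' x u z else 0
  | none => 0

/-- The coupling before averaging. -/
def c00 (x y u z : Om J (Site k)) : ℚ :=
  cpr (qP k) x y u z + tau k * (ca x y u z + cb x y u z)

/-- The kernel `P`. -/
def PP (x y : Om J (Site k)) : ℚ :=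
  1 / 9 * ∑ σ, ∑ ρ, (Pr (qP k) x (phi σ ρ y) + tau k * E0 x (phi σ ρ y))

/-- Its coupling. -/
def cPP (x y u z : Om J (Site k)) : ℚ :=
  1 / 9 * ∑ σ, ∑ ρ, c00 x (phi σ ρ y) u (phi σ ρ z)

end

end EntRF

end
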