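import Pool.Agent.Lib.MP_a349aa_gt.DDefs

/-!
# D3 : rotations and tag shifts

`addL (ℓ.map (· + σ)) (i + σ) = (addL ℓ i).map (· + σ)` (cases, `decide`), hence
`VK (i + σ) (rotO σ x) (rotO σ y) ↔ VK i x y`. `tsO ρ` only changes tags, which `VA` ignores.
`Sp (rotO σ x) ↔ Sp x`, `Sp (tsO ρ x) ↔ Sp x`; `Sm x y → (Sp x ↔ Sp y)`.
-/

noncomputable section

namespace EntRF

open Finset
open scoped Classical

variable {J S : Type} [Zero J]

theorem addL_rot (ℓ : Option (ZMod 3)) (i σ : ZMod 3) :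
    addL (ℓ.map (· + σ)) (i + σ) = (addL ℓ i).map (· + σ) := by
  revert ℓ i σ
  decide

theorem addL_inj (ℓ : Option (ZMod 3)) (i i' : ZMod 3) (h : addL ℓ i = addL ℓ i') : i = i' := by
  revert ℓ i i'
  decide

theorem addL_addL (ℓ : Option (ZMod 3)) (i : ZMod 3) : addL (addL ℓ i) i = ℓ := by
  revert ℓ i
  decide

omit [Zero J] in
private theorem rotO_apply (σ : ZMod 3) (x : Om J S) : rotO σ x =
    (x.1.map (· + σ), x.2.1 + σ, fun l => x.2.2.1 (l - σ), fun l => x.2.2.2 (l - σ)) := rfl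

private theorem tsO_apply (ρ : ZMod 3) (x : Om J S) :
    tsO ρ x = if Sp x then (x.1, x.2.1 + ρ, x.2.2.1, x.2.2.2) else x := rfl

private theorem tsO_lev (ρ : ZMod 3) (x : Om J S) : (tsO ρ x).1 = x.1 := by
  rw [tsO_apply]; split_ifs <;> rfl

private theorem tsO_tag (ρ : ZMod 3) (x : Om J S) :
    (tsO ρ x).2.1 = if Sp x then x.2.1 + ρ else x.2.1 := by
  rw [tsO_apply]; split_ifs <;> rfl

private theorem tsO_col (ρ : ZMod 3) (x : Om J S) : (tsO ρ x).2.2.1 = x.2.2.1 := by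
  rw [tsO_apply]; split_ifs <;> rfl

private theorem tsO_sit (ρ : ZMod 3) (x : Om J S) : (tsO ρ x).2.2.2 = x.2.2.2 := by
  rw [tsO_apply]; split_ifs <;> rfl

private theorem map_add_inj (σ : ZMod 3) (a b : Option (ZMod 3)) :
    a.map (· + σ) = b.map (· + σ) ↔ a = b :=
  ⟨fun h => Option.map_injective (fun _ _ h => add_right_cancel h) h, fun h => by rw [h]⟩

private theorem shift_inj {T : Type} (σ : ZMod 3) (f g : ZMod 3 → T) :
    ((fun l => f (l - σ)) = fun l => g (l - σ)) ↔ f = g := by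
  constructor
  · intro h
    funext l
    have := congrFun h (l + σ)
    simpa using this
  · intro h; rw [h]

omit [Zero J] in
private theorem VK_rotO (i σ : ZMod 3) (x y : Om J S) :
    VK (i + σ) (rotO σ x) (rotO σ y) ↔ VK i x y := by
  simp only [VK, rotO_apply, addL_rot, map_add_inj, add_sub_cancel_right]

theorem VA_rotO (σ : ZMod 3) (x y : Om J S) : VA (rotO σ x) (rotO σ y) ↔ VA x y := by
  constructor
  · rintro ⟨i, hi⟩
    refine ⟨i - σ, (VK_rotO (i - σ) σ x y).1 ?_⟩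
    rw [sub_add_cancel]
    exact hi
  · rintro ⟨i, hi⟩
    exact ⟨i + σ, (VK_rotO i σ x y).2 hi⟩

theorem VA_tsO (ρ : ZMod 3) (x y : Om J S) : VA (tsO ρ x) (tsO ρ y) ↔ VA x y := by
  simp only [VA, VK, tsO_lev, tsO_col, tsO_sit]

theorem VA_phi (σ ρ : ZMod 3) (x y : Om J S) : VA (phi σ ρ x) (phi σ ρ y) ↔ VA x y := by
  show VA (tsO ρ (rotO σ x)) (tsO ρ (rotO σ y)) ↔ VA x y
  rw [VA_tsO, VA_rotO]

theorem Sp_rotO (σ : ZMod 3) (x : Om J S) : Sp (rotO σ x) ↔ Sp x := by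
  simp only [Sp, rotO_apply, Option.map_eq_none_iff]
  refine and_congr_right fun _ => ?_
  constructor
  · intro h l
    have := h (l + σ)
    simpa using this
  · intro h l
    exact h _

theorem Sp_tsO (ρ : ZMod 3) (x : Om J S) : Sp (tsO ρ x) ↔ Sp x := by
  simp only [Sp, tsO_lev, tsO_col]

theorem Sp_of_Sm {x y : Om J S} (h : Sm x y) : Sp x ↔ Sp y := by
  obtain ⟨h1, -, h3⟩ := h
  simp only [Sp, h1, h3]

theorem Sm_rotO (σ : ZMod 3) (x y : Om J S) : Sm (rotO σ x) (rotO σ y) ↔ Sm x y := by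
  simp only [Sm, rotO_apply, map_add_inj, shift_inj, add_left_inj]

theorem Sm_tsO (ρ : ZMod 3) (x y : Om J S) : Sm (tsO ρ x) (tsO ρ y) ↔ Sm x y := by
  simp only [Sm, tsO_lev, tsO_col, tsO_tag]
  constructor
  · rintro ⟨h1, h2, h3⟩
    have hS : Sp x ↔ Sp y := by simp only [Sp, h1, h3]
    refine ⟨h1, ?_, h3⟩
    by_cases hx : Sp x
    · rw [if_pos hx, if_pos (hS.1 hx)] at h2
      exact add_right_cancel h2
    · rw [if_neg hx, if_neg (fun h => hx (hS.2 h))] at h2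
      exact h2
  · rintro ⟨h1, h2, h3⟩
    have hS : Sp x ↔ Sp y := by simp only [Sp, h1, h3]
    refine ⟨h1, ?_, h3⟩
    by_cases hx : Sp x
    · rw [if_pos hx, if_pos (hS.1 hx), h2]
    · rw [if_neg hx, if_neg (fun h => hx (hS.2 h)), h2]

theorem tsO_rotO (σ ρ : ZMod 3) (x : Om J S) : tsO ρ (rotO σ x) = rotO σ (tsO ρ x) := by
  by_cases hx : Sp x
  · rw [tsO_apply, if_pos ((Sp_rotO σ x).2 hx), tsO_apply, if_pos hx]
    simp only [rotO_apply, add_right_comm]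
  · rw [tsO_apply, if_neg (fun h => hx ((Sp_rotO σ x).1 h)), tsO_apply, if_neg hx]

theorem Pr_rotO [Fintype S] {qq : Option (ZMod 3) → ZMod 3 → S → S → ℚ} (h : DSt qq)
    (σ : ZMod 3) (x y : Om J S) : Pr qq (rotO σ x) (rotO σ y) = Pr qq x y := by
  by_cases hS : Sm x y
  · rw [Pr, if_pos ((Sm_rotO σ x y).2 hS), Pr, if_pos hS]
    rw [← Equiv.prod_comp (Equiv.addRight σ)]
    refine Finset.prod_congr rfl fun l _ => ?_
    simp only [rotO_apply, Equiv.coe_addRight, add_sub_cancel_right, h.rot]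
  · rw [Pr, if_neg (fun h' => hS ((Sm_rotO σ x y).1 h')), Pr, if_neg hS]

theorem Pr_tsO (qq : Option (ZMod 3) → ZMod 3 → S → S → ℚ)
    (ρ : ZMod 3) (x y : Om J S) : Pr qq (tsO ρ x) (tsO ρ y) = Pr qq x y := by
  by_cases hS : Sm x y
  · rw [Pr, if_pos ((Sm_tsO ρ x y).2 hS), Pr, if_pos hS]
    simp only [tsO_lev, tsO_sit]
  · rw [Pr, if_neg (fun h' => hS ((Sm_tsO ρ x y).1 h')), Pr, if_neg hS]

end EntRF

end
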