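import Pool.Agent.Lib.MP_a349aa_gt.EDefs
import Pool.Agent.Lib.MP_a349aa_gt.D3

/-!
# E2 : classes and `H`-type (`P`, `U`) transitions

`blk`: the three groups of classes `{X, N}`, `{A, B, C, D}`, `{O}`. `hP x y ≠ 0` or `hU x y ≠ 0` imply
`Bk x.1 y.1` (`PP_block`), and `Bk` preserves special and, for level `some i`, whether the colour
at position `i` is 0; so `blk` is preserved.
`hU` changes the part, `X`, `A`, `B`, `C` have part 0.
`hP` between points of level `some i`: `PP x y = 1/3 ∑ σ, Pr (qP k) x (rotO σ y)` and only the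
site at the position of the level moves, by `qs`; `qs A A = qs (B j) (B j') = qs C C = 0`.
-/

noncomputable section

namespace EntRF

open Finset
open scoped Classical

variable {k m : ℕ}

/-- groups of classes -/
def blk : Cls → Fin 3
  | .X => 0
  | .N => 0
  | .A => 1
  | .B => 1
  | .C => 1
  | .D => 1
  | .O => 2

private theorem cls_sp {x : XX k m} (h : Sp x.1) :
    cls x = if x.2.2 = 0 ∧ rABC k x.1.2.2.2 then Cls.X else Cls.N := by
  unfold cls
  rw [if_pos h]

private theorem cls_some {x : XX k m} {i : ZMod 3} (h : x.1.1 = some i) :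
    cls x = if x.1.2.2.1 i = 0 then (if x.2.2 = 0 then clsS (x.1.2.2.2 i) else Cls.D)
      else Cls.O := by
  have hS : ¬ Sp x.1 := by
    intro hS
    rw [hS.1] at h
    exact absurd h (by simp)
  obtain ⟨⟨l, t, c, s⟩, e, f⟩ := x
  simp only at h
  subst h
  unfold cls
  rw [if_neg hS]

private theorem cls_nsp {x : XX k m} (h : x.1.1 = none) (hS : ¬ Sp x.1) :
    cls x = Cls.O := by
  obtain ⟨⟨l, t, c, s⟩, e, f⟩ := x
  simp only at h
  subst h
  unfold cls
  rw [if_neg hS]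

private theorem clsS_ne (s : Site k) : clsS s ≠ Cls.X ∧ clsS s ≠ Cls.N ∧ clsS s ≠ Cls.O := by
  cases s <;> simp [clsS]

private theorem nsp_some {x : XX k m} {i : ZMod 3} (h : x.1.1 = some i) : ¬ Sp x.1 := by
  intro hS
  rw [hS.1] at h
  exact absurd h (by simp)

private theorem lev_cases (x : XX k m) : Sp x.1 ∨ (x.1.1 = none ∧ ¬ Sp x.1) ∨
    ∃ i, x.1.1 = some i := by
  by_cases h : Sp x.1
  · exact Or.inl h
  · right
    rcases ho : x.1.1 with _ | i
    · exact Or.inl ⟨rfl, h⟩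
    · exact Or.inr ⟨i, rfl⟩

theorem cls_X_iff (x : XX k m) :
    cls x = Cls.X ↔ Sp x.1 ∧ x.2.2 = 0 ∧ rABC k x.1.2.2.2 := by
  rcases lev_cases x with h | ⟨h, hS⟩ | ⟨i, h⟩
  · rw [cls_sp h]
    by_cases h2 : x.2.2 = 0 ∧ rABC k x.1.2.2.2
    · rw [if_pos h2]
      exact ⟨fun _ => ⟨h, h2⟩, fun _ => rfl⟩
    · rw [if_neg h2]
      constructor
      · intro h3; exact absurd h3 (by decide)
      · intro h3; exact absurd h3.2 h2
  · rw [cls_nsp h hS]
    constructor
    · intro h3; exact absurd h3 (by decide)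
    · intro h3; exact absurd h3.1 hS
  · rw [cls_some h]
    constructor
    · intro h3
      split_ifs at h3
      exact absurd h3 (clsS_ne _).1
    · intro h3; exact absurd h3.1 (nsp_some h)

theorem cls_N_iff (x : XX k m) :
    cls x = Cls.N ↔ Sp x.1 ∧ ¬ (x.2.2 = 0 ∧ rABC k x.1.2.2.2) := by
  rcases lev_cases x with h | ⟨h, hS⟩ | ⟨i, h⟩
  · rw [cls_sp h]
    by_cases h2 : x.2.2 = 0 ∧ rABC k x.1.2.2.2
    · rw [if_pos h2]
      constructor
      · intro h3; exact absurd h3 (by decide)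
      · intro h3; exact absurd h2 h3.2
    · rw [if_neg h2]
      exact ⟨fun _ => ⟨h, h2⟩, fun _ => rfl⟩
  · rw [cls_nsp h hS]
    constructor
    · intro h3; exact absurd h3 (by decide)
    · intro h3; exact absurd h3.1 hS
  · rw [cls_some h]
    constructor
    · intro h3
      split_ifs at h3
      exact absurd h3 (clsS_ne _).2.1
    · intro h3; exact absurd h3.1 (nsp_some h)

private theorem cls_abc_iff (x : XX k m) (c : Cls) (P : Site k → Prop)
    (hc : c ≠ Cls.X ∧ c ≠ Cls.N ∧ c ≠ Cls.O ∧ c ≠ Cls.D)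
    (hP : ∀ s, clsS s = c ↔ P s) :
    cls x = c ↔ ∃ i, x.1.1 = some i ∧ x.1.2.2.1 i = 0 ∧ x.2.2 = 0 ∧ P (x.1.2.2.2 i) := by
  rcases lev_cases x with h | ⟨h, hS⟩ | ⟨i, h⟩
  · rw [cls_sp h]
    constructor
    · intro h3
      split_ifs at h3
      · exact absurd h3.symm hc.1
      · exact absurd h3.symm hc.2.1
    · rintro ⟨i, hi, -⟩
      exact absurd h (nsp_some hi)
  · rw [cls_nsp h hS]
    constructor
    · intro h3; exact absurd h3.symm hc.2.2.1
    · rintro ⟨i, hi, -⟩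
      rw [h] at hi
      exact absurd hi (by simp)
  · rw [cls_some h]
    constructor
    · intro h3
      by_cases h1 : x.1.2.2.1 i = 0
      · rw [if_pos h1] at h3
        by_cases h2 : x.2.2 = 0
        · rw [if_pos h2] at h3
          exact ⟨i, h, h1, h2, (hP _).1 h3⟩
        · rw [if_neg h2] at h3
          exact absurd h3.symm hc.2.2.2
      · rw [if_neg h1] at h3
        exact absurd h3.symm hc.2.2.1
    · rintro ⟨i', hi', h1, h2, h3⟩
      have : i = i' := by
        rw [h] at hi'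
        exact Option.some.inj hi'
      subst this
      rw [if_pos h1, if_pos h2]
      exact (hP _).2 h3

theorem cls_A_iff (x : XX k m) :
    cls x = Cls.A ↔ ∃ i, x.1.1 = some i ∧ x.1.2.2.1 i = 0 ∧ x.2.2 = 0 ∧
      x.1.2.2.2 i = Site.A := by
  refine cls_abc_iff x Cls.A (fun s => s = Site.A) (by decide) ?_
  intro s
  cases s <;> simp [clsS]

theorem cls_B_iff (x : XX k m) :
    cls x = Cls.B ↔ ∃ i, x.1.1 = some i ∧ x.1.2.2.1 i = 0 ∧ x.2.2 = 0 ∧
      ∃ j, x.1.2.2.2 i = Site.B j := by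
  refine cls_abc_iff x Cls.B (fun s => ∃ j, s = Site.B j) (by decide) ?_
  intro s
  cases s <;> simp [clsS]

theorem cls_C_iff (x : XX k m) :
    cls x = Cls.C ↔ ∃ i, x.1.1 = some i ∧ x.1.2.2.1 i = 0 ∧ x.2.2 = 0 ∧
      x.1.2.2.2 i = Site.C := by
  refine cls_abc_iff x Cls.C (fun s => s = Site.C) (by decide) ?_
  intro s
  cases s <;> simp [clsS]

theorem cls_ABCD_iff (x : XX k m) :
    (cls x = Cls.A ∨ cls x = Cls.B ∨ cls x = Cls.C ∨ cls x = Cls.D) ↔
      ∃ i, x.1.1 = some i ∧ x.1.2.2.1 i = 0 := by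
  rcases lev_cases x with h | ⟨h, hS⟩ | ⟨i, h⟩
  · rw [cls_sp h]
    constructor
    · intro h3
      split_ifs at h3 <;> exact absurd h3 (by decide)
    · rintro ⟨i, hi, -⟩
      exact absurd h (nsp_some hi)
  · rw [cls_nsp h hS]
    constructor
    · intro h3; exact absurd h3 (by decide)
    · rintro ⟨i, hi, -⟩
      rw [h] at hi
      exact absurd hi (by simp)
  · rw [cls_some h]
    constructor
    · intro h3
      by_cases h1 : x.1.2.2.1 i = 0
      · exact ⟨i, h, h1⟩
      · rw [if_neg h1] at h3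
        exact absurd h3 (by decide)
    · rintro ⟨i', hi', h1⟩
      have : i = i' := by
        rw [h] at hi'
        exact Option.some.inj hi'
      subst this
      rw [if_pos h1]
      split_ifs
      · cases x.1.2.2.2 i <;> simp [clsS]
      · simp

theorem hP_bk {x y : XX k m} (h : hP x y ≠ 0) : Bk x.1 y.1 := by
  apply PP_block
  intro h0
  apply h
  unfold hP
  rw [h0]
  simp

private theorem blk_sp {x : XX k m} (h : Sp x.1) : blk (cls x) = 0 := by
  rw [cls_sp h]
  split_ifs <;> rfl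

private theorem blk_nsp {x : XX k m} (h : x.1.1 = none) (hS : ¬ Sp x.1) : blk (cls x) = 2 := by
  rw [cls_nsp h hS]
  rfl

private theorem blk_some {x : XX k m} {i : ZMod 3} (h : x.1.1 = some i) :
    blk (cls x) = if x.1.2.2.1 i = 0 then 1 else 2 := by
  rw [cls_some h]
  split_ifs
  · cases x.1.2.2.2 i <;> rfl
  · rfl
  · rfl

theorem blk_of_bk {x y : XX k m} (h : Bk x.1 y.1) : blk (cls x) = blk (cls y) := by
  obtain ⟨σ, hσ⟩ := h
  have hsp : Sp x.1 ↔ Sp y.1 := by
    rw [← Sp_of_Sm hσ, Sp_rotO]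
  have hl : y.1.1 = x.1.1.map (· + σ) := hσ.1
  have hc : y.1.2.2.1 = fun l => x.1.2.2.1 (l - σ) := hσ.2.2
  rcases lev_cases x with h | ⟨h, hS⟩ | ⟨i, h⟩
  · rw [blk_sp h, blk_sp (hsp.1 h)]
  · have h' : y.1.1 = none := by rw [hl, h]; rfl
    rw [blk_nsp h hS, blk_nsp h' (fun h0 => hS (hsp.2 h0))]
  · have h' : y.1.1 = some (i + σ) := by rw [hl, h]; rfl
    rw [blk_some h, blk_some h', hc]
    simp only [add_sub_cancel_right]

theorem hU_XX {x y : XX k m} (hx : cls x = Cls.X) (hy : cls y = Cls.X) : hU x y = 0 := by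
  have h1 := ((cls_X_iff x).1 hx).2.1
  have h2 := ((cls_X_iff y).1 hy).2.1
  unfold hU
  rw [if_neg]
  rintro ⟨-, h⟩
  exact h (h2.trans h1.symm)

private theorem part_ABC {x : XX k m} (hx : cls x = Cls.A ∨ cls x = Cls.B ∨ cls x = Cls.C) :
    x.2.2 = 0 := by
  rcases hx with h | h | h
  · obtain ⟨i, -, -, h, -⟩ := (cls_A_iff x).1 h
    exact h
  · obtain ⟨i, -, -, h, -⟩ := (cls_B_iff x).1 h
    exact h
  · obtain ⟨i, -, -, h, -⟩ := (cls_C_iff x).1 h
    exact h

theorem hU_ABC {x y : XX k m} (hx : cls x = Cls.A ∨ cls x = Cls.B ∨ cls x = Cls.C)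
    (hy : cls y = Cls.A ∨ cls y = Cls.B ∨ cls y = Cls.C) : hU x y = 0 := by
  unfold hU
  rw [if_neg]
  rintro ⟨-, h⟩
  exact h ((part_ABC hy).trans (part_ABC hx).symm)

private theorem PP_zero {J : Type} [Zero J] {x y : Om J (Site k)} {i i' : ZMod 3}
    (hx : x.1 = some i) (hy : y.1 = some i')
    (h0 : qs k (x.2.2.2 i) (y.2.2.2 i') = 0) : PP x y = 0 := by
  have hS : ¬ Sp x := by
    intro hS
    rw [hS.1] at hx
    exact absurd hx (by simp)
  have hSy : ¬ Sp y := by
    intro hS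
    rw [hS.1] at hy
    exact absurd hy (by simp)
  unfold PP
  rw [Finset.sum_eq_zero, mul_zero]
  intro σ _
  apply Finset.sum_eq_zero
  intro ρ _
  have hphi : phi σ ρ y = rotO σ y := by
    show tsO ρ (rotO σ y) = rotO σ y
    show (if Sp (rotO σ y) then _ else rotO σ y) = rotO σ y
    rw [if_neg (fun h => hSy ((Sp_rotO σ y).1 h))]
  rw [hphi]
  have hE : E0 x (rotO σ y) = 0 := by
    unfold E0
    rw [if_neg (fun h => hS h.1)]
  rw [hE, mul_zero, add_zero]
  unfold Pr
  by_cases hSm : Sm x (rotO σ y)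
  · rw [if_pos hSm]
    have hlev : (rotO σ y).1 = x.1 := hSm.1
    have hlev' : (rotO σ y).1 = some (i' + σ) := by
      show y.1.map (· + σ) = _
      rw [hy]
      rfl
    have hi : i' + σ = i := by
      rw [hlev', hx] at hlev
      exact Option.some.inj hlev
    apply Finset.prod_eq_zero (Finset.mem_univ i)
    unfold qP
    rw [if_pos (Or.inr hx)]
    have hs : (rotO σ y).2.2.2 i = y.2.2.2 i' := by
      show y.2.2.2 (i - σ) = _
      rw [← hi, add_sub_cancel_right]
    rw [hs]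
    exact h0
  · rw [if_neg hSm]

private theorem hP_zero {x y : XX k m} {i i' : ZMod 3}
    (hx : x.1.1 = some i) (hy : y.1.1 = some i')
    (h0 : qs k (x.1.2.2.2 i) (y.1.2.2.2 i') = 0) : hP x y = 0 := by
  unfold hP
  rw [PP_zero hx hy h0]
  simp

theorem hP_AA {x y : XX k m} (hx : cls x = Cls.A) (hy : cls y = Cls.A) : hP x y = 0 := by
  obtain ⟨i, hi, -, -, hs⟩ := (cls_A_iff x).1 hx
  obtain ⟨i', hi', -, -, hs'⟩ := (cls_A_iff y).1 hy
  apply hP_zero hi hi'
  rw [hs, hs']
  rfl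

theorem hP_BB {x y : XX k m} (hx : cls x = Cls.B) (hy : cls y = Cls.B) : hP x y = 0 := by
  obtain ⟨i, hi, -, -, j, hs⟩ := (cls_B_iff x).1 hx
  obtain ⟨i', hi', -, -, j', hs'⟩ := (cls_B_iff y).1 hy
  apply hP_zero hi hi'
  rw [hs, hs']
  rfl

theorem hP_CC {x y : XX k m} (hx : cls x = Cls.C) (hy : cls y = Cls.C) : hP x y = 0 := by
  obtain ⟨i, hi, -, -, hs⟩ := (cls_C_iff x).1 hx
  obtain ⟨i', hi', -, -, hs'⟩ := (cls_C_iff y).1 hy
  apply hP_zero hi hi'
  rw [hs, hs']
  rfl

end EntRF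

end
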