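import Pool.Agent.Lib.MP_a349aa_gt.DDefs
import Pool.Agent.Lib.MP_a349aa_gt.D5

section

/-!
# D1 : product kernels and their couplings

Levels: `VK i x u` determines `i` from the levels (`addL ℓ i = addL ℓ i' → i = i'`, `decide`-able after
cases), so in `cpr` at most one `i` contributes.
`sum_z` (`VK i x u`): if `Sm x y` fails both sides are 0. Otherwise the `z` with `Sm u z`
are given by their sites, `VK i y z` means `z.site i = y.site i` (levels and colours match
automatically), and `∑_{z} ∏_{l ≠ i} qq u.1 l (u l) (z l) = 1` (product of sums,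
`Finset.prod_univ_sum` / `Fintype.piFinset_univ`; insert the factor `[z i = y i]` at `l = i`).
`sum_u` (`VK i y z`): the same, `u` has level, tag, colours of `z`, `u.site i = x.site i`, column
sums are 1 by symmetry; note `z.1 = addL y.1 i = addL x.1 i`.
`sum_y` (`VK i x u`): need `Sm u z`; then `y` has level, tag, colours of `x` and `y.site i =
z.site i`; the sum of `∏ l, qq x.1 l (x l) (y l)` over such `y` is `qq x.1 i (x i) (z i)`, and
`qq x.1 i = qq u.1 i` (`comp`), `x i = u i`, so one gets `Pr qq u z`.
-/

noncomputable section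

namespace EntRF

open Finset
open scoped Classical

variable {J S : Type} [Fintype J] [Fintype S] {qq : Option (ZMod 3) → ZMod 3 → S → S → ℚ}

private theorem addL_inj (ℓ : Option (ZMod 3)) (i i' : ZMod 3) (h : addL ℓ i = addL ℓ i') :
    i = i' := by
  revert ℓ i i'
  unfold addL
  decide

private theorem VK_inj {x u : Om J S} {i i' : ZMod 3} (h : VK i x u) (h' : VK i' x u) :
    i' = i :=
  addL_inj x.1 i' i (h'.1.symm.trans h.1)

private theorem sm_sum (u : Om J S) (g : (ZMod 3 → S) → ℚ) :
    ∑ z : Om J S, (if Sm u z then g z.2.2.2 else 0) = ∑ s, g s := by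
  rw [← Finset.sum_filter]
  refine Finset.sum_nbij' (fun z => z.2.2.2) (fun s => (u.1, u.2.1, u.2.2.1, s)) ?_ ?_ ?_ ?_ ?_
  · intro z _
    exact mem_univ _
  · intro s _
    rw [mem_filter]
    exact ⟨mem_univ _, rfl, rfl, rfl⟩
  · intro z hz
    rw [mem_filter] at hz
    obtain ⟨-, h1, h2, h3⟩ := hz
    rw [← h1, ← h2, ← h3]
  · intro s _
    rfl
  · intro z _
    rfl

private theorem site_sum (i : ZMod 3) (a : S) (q : ZMod 3 → S → ℚ)
    (hq : ∀ l, l ≠ i → ∑ b, q l b = 1) :
    ∑ s : ZMod 3 → S, (if s i = a then ∏ l, q l (s l) else 0) = q i a := by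
  have h1 : ∀ s : ZMod 3 → S, (if s i = a then ∏ l, q l (s l) else 0) =
      ∏ l, (if l = i ∧ s l ≠ a then 0 else q l (s l)) := by
    intro s
    by_cases hs : s i = a
    · rw [if_pos hs]
      refine prod_congr rfl (fun l _ => ?_)
      rw [if_neg]
      rintro ⟨rfl, h2⟩
      exact h2 hs
    · rw [if_neg hs]
      symm
      apply prod_eq_zero (mem_univ i)
      rw [if_pos ⟨rfl, hs⟩]
  rw [sum_congr rfl (fun s _ => h1 s)]
  have h2 : ∑ s : ZMod 3 → S, ∏ l, (if l = i ∧ s l ≠ a then 0 else q l (s l)) =
      ∏ l, ∑ b, (if l = i ∧ b ≠ a then 0 else q l b) := by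
    rw [Finset.prod_univ_sum, Fintype.piFinset_univ]
  rw [h2, Fintype.prod_eq_single i]
  · rw [Fintype.sum_eq_single a]
    · simp
    · intro b hb
      rw [if_pos ⟨rfl, hb⟩]
  · intro l hl
    rw [← hq l hl]
    refine sum_congr rfl (fun b _ => ?_)
    rw [if_neg]
    rintro ⟨h3, -⟩
    exact hl h3

/-- only one kind contributes -/
private theorem cpr_eq (i : ZMod 3) (x y u z : Om J S)
    (h : ∀ i', VK i' x u → VK i' y z → i' = i) :
    cpr qq x y u z = if VK i x u ∧ VK i y z ∧ Sm x y ∧ Sm u z then
      (∏ l, qq x.1 l (x.2.2.2 l) (y.2.2.2 l)) *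
        ∏ l, (if l = i then 1 else qq u.1 l (u.2.2.2 l) (z.2.2.2 l)) else 0 := by
  unfold cpr
  refine Fintype.sum_eq_single i (fun i' hi' => ?_)
  rw [if_neg]
  rintro ⟨h1, h2, -, -⟩
  exact hi' (h i' h1 h2)

theorem cpr_nonneg (h : DSt qq) (x y u z : Om J S) : 0 ≤ cpr qq x y u z := by
  unfold cpr
  refine sum_nonneg (fun i _ => ?_)
  split_ifs
  · refine mul_nonneg (prod_nonneg (fun l _ => h.nonneg _ _ _ _)) (prod_nonneg (fun l _ => ?_))
    split_ifs
    · exact zero_le_one
    · exact h.nonneg _ _ _ _
  · exact le_rfl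

theorem cpr_scpl (h : DSt qq) :
    SCpl (VA (J := J)) (Pr qq) (fun _ u z => Pr qq u z) (cpr qq) := by
  have hcol : ∀ (ℓ : Option (ZMod 3)) (l : ZMod 3) (a : S), ∑ b, qq ℓ l b a = 1 := by
    intro ℓ l a
    rw [← h.sum ℓ l a]
    exact sum_congr rfl (fun b _ => h.symm _ _ _ _)
  constructor
  · intro x y u z hne
    by_contra hcon
    apply hne
    unfold cpr
    refine sum_eq_zero (fun i _ => ?_)
    rw [if_neg]
    rintro ⟨h1, h2, -, -⟩
    exact hcon ⟨⟨i, h1⟩, ⟨i, h2⟩⟩
  · rintro x y u ⟨i, hi⟩
    have h1 : ∀ z, cpr qq x y u z = Pr qq x y * (if Sm u z then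
        (if z.2.2.2 i = y.2.2.2 i then
          ∏ l, (if l = i then 1 else qq u.1 l (u.2.2.2 l) (z.2.2.2 l)) else 0) else 0) := by
      intro z
      rw [cpr_eq i x y u z (fun i' h2 _ => VK_inj hi h2)]
      unfold Pr
      by_cases hxy : Sm x y
      · by_cases huz : Sm u z
        · by_cases hs : z.2.2.2 i = y.2.2.2 i
          · have hv : VK i y z := by
              refine ⟨?_, ?_, hs⟩
              · rw [huz.1, hi.1, hxy.1]
              · rw [huz.2.2, hi.2.1, hxy.2.2]
            rw [if_pos ⟨hi, hv, hxy, huz⟩, if_pos hxy, if_pos huz, if_pos hs]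
          · rw [if_neg (fun hh => hs hh.2.1.2.2), if_pos huz, if_neg hs, mul_zero]
        · rw [if_neg (fun hh => huz hh.2.2.2), if_neg huz, mul_zero]
      · rw [if_neg (fun hh => hxy hh.2.2.1), if_neg hxy, zero_mul]
    rw [sum_congr rfl (fun z _ => h1 z), ← mul_sum,
      sm_sum u (fun s => if s i = y.2.2.2 i then
          ∏ l, (if l = i then 1 else qq u.1 l (u.2.2.2 l) (s l)) else 0),
      site_sum i (y.2.2.2 i) (fun l b => if l = i then 1 else qq u.1 l (u.2.2.2 l) b) (by
        intro l hl
        simp only [if_neg hl]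
        exact h.sum _ _ _)]
    simp
  · rintro x y z ⟨i, hi⟩
    have h1 : ∀ u, cpr qq x y u z = Pr qq x y * (if Sm z u then
        (if u.2.2.2 i = x.2.2.2 i then
          ∏ l, (if l = i then 1 else qq z.1 l (u.2.2.2 l) (z.2.2.2 l)) else 0) else 0) := by
      intro u
      rw [cpr_eq i x y u z (fun i' _ h2 => VK_inj hi h2)]
      unfold Pr
      by_cases hxy : Sm x y
      · by_cases huz : Sm z u
        · have hzu : Sm u z := ⟨huz.1.symm, huz.2.1.symm, huz.2.2.symm⟩
          by_cases hs : u.2.2.2 i = x.2.2.2 i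
          · have hv : VK i x u := by
              refine ⟨?_, ?_, hs⟩
              · rw [huz.1, hi.1, hxy.1]
              · rw [huz.2.2, hi.2.1, hxy.2.2]
            rw [if_pos ⟨hv, hi, hxy, hzu⟩, if_pos hxy, if_pos huz, if_pos hs, huz.1]
          · rw [if_neg (fun hh => hs hh.1.2.2), if_pos huz, if_neg hs, mul_zero]
        · rw [if_neg (fun hh => huz ⟨hh.2.2.2.1.symm, hh.2.2.2.2.1.symm, hh.2.2.2.2.2.symm⟩),
            if_neg huz, mul_zero]
      · rw [if_neg (fun hh => hxy hh.2.2.1), if_neg hxy, zero_mul]
    rw [sum_congr rfl (fun u _ => h1 u), ← mul_sum,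
      sm_sum z (fun s => if s i = x.2.2.2 i then
          ∏ l, (if l = i then 1 else qq z.1 l (s l) (z.2.2.2 l)) else 0),
      site_sum i (x.2.2.2 i) (fun l b => if l = i then 1 else qq z.1 l b (z.2.2.2 l)) (by
        intro l hl
        simp only [if_neg hl]
        exact hcol _ _ _)]
    simp
  · rintro x u z ⟨i, hi⟩
    by_cases huz : Sm u z
    · have h1 : ∀ y, cpr qq x y u z =
          (∏ l, (if l = i then 1 else qq u.1 l (u.2.2.2 l) (z.2.2.2 l))) * (if Sm x y then
          (if y.2.2.2 i = z.2.2.2 i then
            ∏ l, qq x.1 l (x.2.2.2 l) (y.2.2.2 l) else 0) else 0) := by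
        intro y
        rw [cpr_eq i x y u z (fun i' h2 _ => VK_inj hi h2)]
        by_cases hxy : Sm x y
        · by_cases hs : y.2.2.2 i = z.2.2.2 i
          · have hv : VK i y z := by
              refine ⟨?_, ?_, hs.symm⟩
              · rw [huz.1, hi.1, hxy.1]
              · rw [huz.2.2, hi.2.1, hxy.2.2]
            rw [if_pos ⟨hi, hv, hxy, huz⟩, if_pos hxy, if_pos hs, mul_comm]
          · rw [if_neg (fun hh => hs hh.2.1.2.2.symm), if_pos hxy, if_neg hs, mul_zero]
        · rw [if_neg (fun hh => hxy hh.2.2.1), if_neg hxy, mul_zero]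
      rw [sum_congr rfl (fun y _ => h1 y), ← mul_sum,
        sm_sum x (fun s => if s i = z.2.2.2 i then
            ∏ l, qq x.1 l (x.2.2.2 l) (s l) else 0),
        site_sum i (z.2.2.2 i) (fun l b => qq x.1 l (x.2.2.2 l) b) (fun l _ => h.sum _ _ _)]
      unfold Pr
      rw [if_pos huz]
      have h2 : qq x.1 i (x.2.2.2 i) (z.2.2.2 i) = qq u.1 i (u.2.2.2 i) (z.2.2.2 i) := by
        rw [hi.1, h.comp, hi.2.2]
      rw [h2]
      have h3 : ∏ l, (if l = i then 1 else qq u.1 l (u.2.2.2 l) (z.2.2.2 l)) =
          ∏ l ∈ univ.erase i, qq u.1 l (u.2.2.2 l) (z.2.2.2 l) := by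
        rw [← Finset.mul_prod_erase univ _ (mem_univ i)]
        simp only [if_true, one_mul]
        refine prod_congr rfl (fun l hl => ?_)
        rw [if_neg (ne_of_mem_erase hl)]
      rw [h3, mul_comm]
      exact Finset.mul_prod_erase univ (fun l => qq u.1 l (u.2.2.2 l) (z.2.2.2 l)) (mem_univ i)
    · have h1 : ∀ y, cpr qq x y u z = 0 := by
        intro y
        unfold cpr
        refine sum_eq_zero (fun i' _ => ?_)
        rw [if_neg (fun hh => huz hh.2.2.2)]
      rw [sum_congr rfl (fun y _ => h1 y), sum_const_zero]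
      simp only [Pr, if_neg huz]

end EntRF

end
end

section

/-!
# D7 : the key inequality

For triples `a`, `b` of sites and a shift `χ` put `prs χ a b = ∏ l, qs (a l) (b (l + χ))`.
`key0`, `key1`, `key2`: `- τ v(a) v(b) ≤ prs / 18`. Only the pairs of patterns with
opposite signs matter (`ABC`, `WWW` positive; `AWW`, `WBW`, `WWC` negative), otherwise the left side
is `≤ 0`. Lower bounds: `qs (·) W, qs W (·) ≥ 1/(2 wN)`, `qs A B = a`, `qs A C = qs B C = k a`
(symmetric), `τ = a/100`.
* `ABC → AWW` (`χ = 1`): `qs A W * qs B W * qs C A ≥ k a/(4 wN^2)`, left side `τ k/wN^2`: `1/100 ≤ 1/72`.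
* `ABC → WBW` (`χ = 1`: `A ↦ B`, `B ↦ W`, `C ↦ W`; `χ = -1`: `A ↦ W`, `B ↦ W`, `C ↦ B`), left `τ/wN^2`.
* `ABC → WWC` (`χ = 1`: `B ↦ C`; `χ = -1`: `A ↦ C`): `k a/(4 wN^2)`, left `τ k/wN^2`.
* `AWW → ABC` (`χ = -1`: `A ↦ C`, `W ↦ A`, `W ↦ B`).
* `WBW → ABC` (`χ = 1`: `B ↦ C`; `χ = -1`: `B ↦ A`, left `τ/wN^2`).
* `WWC → ABC` (`χ = 1`: `C ↦ A`; `χ = -1`: `C ↦ B`).
* `WWW` with `AWW`, `WBW`, `WWC` (both directions, any shift): `prs ≥ 1/(8 wN^3)`, left
  `≤ τ * 2k/wN^3 * k/wN^2 = 1/(200 wN^5)`.
(These shifts are exactly those prescribed by `chi0`, `chi1`, `chi2`; it has been checked by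
computer that all cases hold.)

`Kin0`: in `ee0` each of the three terms satisfies, with `a l = s (l + m)`,
`b l = s' (l + m - χ)`, `prs χ a b = ∏ l, qs (s l) (s' l)`, `τ v_m(s) v_{m-χ}(s') ≥ - ∏/18`; total
`≥ - 9/18 ∏`. `Kin1`: six terms, total `≥ - 18/18 ∏`.
-/

noncomputable section

namespace EntRF

open Finset
open scoped Classical

/-- product of transition probabilities with a shift of positions -/
def prs (k : ℕ) (χ : ZMod 3) (a b : ZMod 3 → Site k) : ℚ := ∏ l, qs k (a l) (b (l + χ))

/-! ### auxiliary facts -/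

private def tt (k : ℕ) : ℚ := 1 / wN k

private theorem wN_ge (k : ℕ) (hk : 1 ≤ k) : (6 : ℚ) ≤ wN k := by
  have h : (1 : ℚ) ≤ k := by exact_mod_cast hk
  unfold wN
  linarith

private theorem tt_pos (k : ℕ) (hk : 1 ≤ k) : 0 < tt k := by
  have := wN_ge k hk
  unfold tt
  positivity

private theorem tt_le (k : ℕ) (hk : 1 ≤ k) : tt k ≤ 1 := by
  have h := wN_ge k hk
  unfold tt
  rw [div_le_one (by linarith)]
  linarith

private theorem aa_pos (k : ℕ) (hk : 1 ≤ k) : 0 < aa k := by
  have h : (1 : ℚ) ≤ k := by exact_mod_cast hk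
  unfold aa
  positivity

private theorem aa_sq (k : ℕ) (hk : 1 ≤ k) : aa k * k ^ 2 = 1 / 4 := by
  have h : (1 : ℚ) ≤ k := by exact_mod_cast hk
  unfold aa
  field_simp

private theorem pat_cases (k : ℕ) (x y z : Site k) :
    (x = .A ∧ (∃ j, y = .B j) ∧ z = .C) ∨
    (x = .A ∧ (∃ w, y = .W w) ∧ ∃ w, z = .W w) ∨
    ((∃ w, x = .W w) ∧ (∃ j, y = .B j) ∧ ∃ w, z = .W w) ∨
    ((∃ w, x = .W w) ∧ (∃ w, y = .W w) ∧ z = .C) ∨
    ((∃ w, x = .W w) ∧ (∃ w, y = .W w) ∧ ∃ w, z = .W w) ∨
    (v3 k x y z = 0 ∧ v3b k x y z = 0) := by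
  cases x <;> cases y <;> cases z <;> simp [v3, v3b]

private theorem prs1 (k : ℕ) (a b : ZMod 3 → Site k) :
    prs k 1 a b = qs k (a 0) (b 1) * qs k (a 1) (b 2) * qs k (a 2) (b 0) := by
  have h : (univ : Finset (ZMod 3)) = {0, 1, 2} := by decide
  unfold prs
  rw [h, Finset.prod_insert (by decide), Finset.prod_insert (by decide), Finset.prod_singleton,
    show (0 : ZMod 3) + 1 = 1 by decide, show (1 : ZMod 3) + 1 = 2 by decide,
    show (2 : ZMod 3) + 1 = 0 by decide, mul_assoc]

private theorem prs2 (k : ℕ) (a b : ZMod 3 → Site k) :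
    prs k (-1) a b = qs k (a 0) (b 2) * qs k (a 1) (b 0) * qs k (a 2) (b 1) := by
  have h : (univ : Finset (ZMod 3)) = {0, 1, 2} := by decide
  unfold prs
  rw [h, Finset.prod_insert (by decide), Finset.prod_insert (by decide), Finset.prod_singleton,
    show (0 : ZMod 3) + -1 = 2 by decide, show (1 : ZMod 3) + -1 = 0 by decide,
    show (2 : ZMod 3) + -1 = 1 by decide, mul_assoc]

private theorem prs_nonneg {k : ℕ} (hk : 1 ≤ k) (χ : ZMod 3) (a b : ZMod 3 → Site k) :
    0 ≤ prs k χ a b := Finset.prod_nonneg fun _ _ => qs_nonneg hk _ _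

private theorem hW {k : ℕ} (hk : 1 ≤ k) (a : Site k) (w : Fin (2 * (k + 2))) :
    tt k / 2 ≤ qs k a (.W w) := by
  have h := qs_W_ge hk a w
  have e : 1 / (2 * wN k) = tt k / 2 := by
    unfold tt
    rw [div_div, mul_comm]
  rwa [e] at h

private theorem hW' {k : ℕ} (hk : 1 ≤ k) (a : Site k) (w : Fin (2 * (k + 2))) :
    tt k / 2 ≤ qs k (.W w) a := by
  rw [qs_symm]
  exact hW hk a w

private theorem lb3 {x y z l m n : ℚ} (hl : 0 ≤ l) (hm : 0 ≤ m) (hn : 0 ≤ n) (hx : l ≤ x) (hy : m ≤ y)
    (hz : n ≤ z) : l * m * n ≤ x * y * z :=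
  mul_le_mul (mul_le_mul hx hy hm (hl.trans hx)) hz hn (mul_nonneg (hl.trans hx) (hm.trans hy))

/-- the values of `v` on the patterns -/
private theorem v_ABC (k : ℕ) (j : Fin k) : v3 k .A (.B j) .C = 1 := rfl
private theorem v_AWW (k : ℕ) (w w' : Fin (2 * (k + 2))) : v3 k .A (.W w) (.W w') = -(k * tt k ^ 2) := by
  show - k / wN k ^ 2 = _
  unfold tt
  rw [div_pow, one_pow, mul_one_div, neg_div]
private theorem v_WBW (k : ℕ) (w w' : Fin (2 * (k + 2))) (j : Fin k) :
    v3 k (.W w) (.B j) (.W w') = -(tt k ^ 2) := by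
  show - 1 / wN k ^ 2 = _
  unfold tt
  rw [div_pow, one_pow, neg_div]
private theorem v_WWC (k : ℕ) (w w' : Fin (2 * (k + 2))) : v3 k (.W w) (.W w') .C = -(k * tt k ^ 2) := by
  show - k / wN k ^ 2 = _
  unfold tt
  rw [div_pow, one_pow, mul_one_div, neg_div]
private theorem v_WWW (k : ℕ) (w w' w'' : Fin (2 * (k + 2))) :
    v3 k (.W w) (.W w') (.W w'') = 2 * k * tt k ^ 3 := by
  show 2 * k / wN k ^ 3 = _
  unfold tt
  rw [div_pow, one_pow, mul_one_div]

private theorem vb_ABC (k : ℕ) (j : Fin k) : v3b k .A (.B j) .C = 0 := rfl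
private theorem vb_AWW (k : ℕ) (w w' : Fin (2 * (k + 2))) :
    v3b k .A (.W w) (.W w') = -(k * tt k ^ 2) := v_AWW k w w'
private theorem vb_WBW (k : ℕ) (w w' : Fin (2 * (k + 2))) (j : Fin k) :
    v3b k (.W w) (.B j) (.W w') = 0 := rfl
private theorem vb_WWC (k : ℕ) (w w' : Fin (2 * (k + 2))) : v3b k (.W w) (.W w') .C = 0 := rfl
private theorem vb_WWW (k : ℕ) (w w' w'' : Fin (2 * (k + 2))) :
    v3b k (.W w) (.W w') (.W w'') = k * tt k ^ 3 := by
  show k / wN k ^ 3 = _
  unfold tt
  rw [div_pow, one_pow, mul_one_div]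

/-- equal signs -/
private theorem cpos {k : ℕ} (hk : 1 ≤ k) {u v P : ℚ} (huv : 0 ≤ u * v) (hP : 0 ≤ P) :
    -(tau k * u * v) ≤ 1 / 18 * P := by
  have h1 : 0 ≤ tau k := by
    have := aa_pos k hk
    unfold tau
    positivity
  have h2 : 0 ≤ tau k * u * v := by
    rw [mul_assoc]
    exact mul_nonneg h1 huv
  linarith

private theorem cN {k : ℕ} (hk : 1 ≤ k) {u v c P : ℚ} (hc : 0 ≤ c) (huv : -(u * v) ≤ c * tt k ^ 2)
    (hP : aa k * c * (tt k / 2) ^ 2 ≤ P) : -(tau k * u * v) ≤ 1 / 18 * P := by
  have h1 := aa_pos k hk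
  have h2 : 0 ≤ aa k * (c * tt k ^ 2) := by positivity
  have h3 : aa k * -(u * v) ≤ aa k * (c * tt k ^ 2) := mul_le_mul_of_nonneg_left huv h1.le
  have h4 : -(tau k * u * v) = aa k * -(u * v) / 100 := by
    unfold tau
    ring
  have h5 : aa k * c * (tt k / 2) ^ 2 = aa k * (c * tt k ^ 2) / 4 := by ring
  rw [h4]
  rw [h5] at hP
  linarith

private theorem cW {k : ℕ} (hk : 1 ≤ k) {u v P : ℚ} (huv : -(u * v) ≤ 2 * k ^ 2 * tt k ^ 5)
    (hP : (tt k / 2) * (tt k / 2) * (tt k / 2) ≤ P) : -(tau k * u * v) ≤ 1 / 18 * P := by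
  have h1 := aa_pos k hk
  have h3 : aa k * -(u * v) ≤ aa k * (2 * k ^ 2 * tt k ^ 5) := mul_le_mul_of_nonneg_left huv h1.le
  have h4 : -(tau k * u * v) = aa k * -(u * v) / 100 := by
    unfold tau
    ring
  have h5 : aa k * (2 * k ^ 2 * tt k ^ 5) = (1 / 2) * tt k ^ 5 := by
    have h6 : aa k * (2 * k ^ 2 * tt k ^ 5) = 2 * (aa k * k ^ 2) * tt k ^ 5 := by ring
    rw [h6, aa_sq k hk]
    ring
  have h7 : tt k ^ 5 ≤ tt k ^ 3 := pow_le_pow_of_le_one (tt_pos k hk).le (tt_le k hk) (by norm_num)
  have h8 : 0 < tt k ^ 3 := pow_pos (tt_pos k hk) 3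
  have h9 : (tt k / 2) * (tt k / 2) * (tt k / 2) = tt k ^ 3 / 8 := by ring
  rw [h4]
  rw [h5] at h3
  rw [h9] at hP
  linarith

private theorem allW {k : ℕ} (hk : 1 ≤ k) (χ : ZMod 3) (a b : ZMod 3 → Site k)
    (h : (∀ l, ∃ w, a l = .W w) ∨ ∀ l, ∃ w, b l = .W w) :
    (tt k / 2) * (tt k / 2) * (tt k / 2) ≤ prs k χ a b := by
  have ht := tt_pos k hk
  have h1 : ∀ l, tt k / 2 ≤ qs k (a l) (b (l + χ)) := by
    intro l
    rcases h with h | h
    · obtain ⟨w, hw⟩ := h l
      rw [hw]
      exact hW' hk _ w
    · obtain ⟨w, hw⟩ := h (l + χ)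
      rw [hw]
      exact hW hk _ w
  have hu : (univ : Finset (ZMod 3)) = {0, 1, 2} := by decide
  unfold prs
  rw [hu, Finset.prod_insert (by decide), Finset.prod_insert (by decide), Finset.prod_singleton, ← mul_assoc]
  exact lb3 (by positivity) (by positivity) (by positivity) (h1 0) (h1 1) (h1 2)

private theorem allW_of {k : ℕ} {a : ZMod 3 → Site k} {w0 w1 w2 : Fin (2 * (k + 2))}
    (h0 : a 0 = .W w0) (h1 : a 1 = .W w1) (h2 : a 2 = .W w2) : ∀ l, ∃ w, a l = .W w := by
  have h : ∀ l : ZMod 3, l = 0 ∨ l = 1 ∨ l = 2 := by decide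
  intro l
  rcases h l with rfl | rfl | rfl
  · exact ⟨w0, h0⟩
  · exact ⟨w1, h1⟩
  · exact ⟨w2, h2⟩

private theorem lbx {k : ℕ} (hk : 1 ≤ k) {c x y z : ℚ} (hc : 0 ≤ c) (hx : c * aa k ≤ x) (hy : tt k / 2 ≤ y)
    (hz : tt k / 2 ≤ z) : aa k * c * (tt k / 2) ^ 2 ≤ x * y * z := by
  have h1 := aa_pos k hk
  have h2 := tt_pos k hk
  have h := lb3 (l := c * aa k) (by positivity) (by positivity) (by positivity) hx hy hz
  have e : aa k * c * (tt k / 2) ^ 2 = c * aa k * (tt k / 2) * (tt k / 2) := by ring
  rwa [e]

private theorem lby {k : ℕ} (hk : 1 ≤ k) {c x y z : ℚ} (hc : 0 ≤ c) (hx : tt k / 2 ≤ x) (hy : c * aa k ≤ y)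
    (hz : tt k / 2 ≤ z) : aa k * c * (tt k / 2) ^ 2 ≤ x * y * z := by
  have h1 := aa_pos k hk
  have h2 := tt_pos k hk
  have h := lb3 (m := c * aa k) (by positivity) (by positivity) (by positivity) hx hy hz
  have e : aa k * c * (tt k / 2) ^ 2 = tt k / 2 * (c * aa k) * (tt k / 2) := by ring
  rwa [e]

private theorem lbz {k : ℕ} (hk : 1 ≤ k) {c x y z : ℚ} (hc : 0 ≤ c) (hx : tt k / 2 ≤ x) (hy : tt k / 2 ≤ y)
    (hz : c * aa k ≤ z) : aa k * c * (tt k / 2) ^ 2 ≤ x * y * z := by
  have h1 := aa_pos k hk
  have h2 := tt_pos k hk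
  have h := lb3 (n := c * aa k) (by positivity) (by positivity) (by positivity) hx hy hz
  have e : aa k * c * (tt k / 2) ^ 2 = tt k / 2 * (tt k / 2) * (c * aa k) := by ring
  rwa [e]

private theorem one_aa {k : ℕ} : (1 : ℚ) * aa k ≤ aa k := (one_mul _).le

private theorem one_kaa {k : ℕ} (hk : 1 ≤ k) : (1 : ℚ) * aa k ≤ k * aa k :=
  mul_le_mul_of_nonneg_right (by exact_mod_cast hk) (aa_pos k hk).le

private theorem three (p : ZMod 3) : p = 0 ∨ p = 1 ∨ p = 2 := by
  revert p
  decide

private theorem zero_l {k : ℕ} (hk : 1 ≤ k) {v P : ℚ} (hP : 0 ≤ P) :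
    -(tau k * 0 * v) ≤ 1 / 18 * P := cpos hk (by rw [zero_mul]) hP

private theorem zero_r {k : ℕ} (hk : 1 ≤ k) {v P : ℚ} (hP : 0 ≤ P) :
    -(tau k * v * 0) ≤ 1 / 18 * P := cpos hk (by rw [mul_zero]) hP

theorem key0 {k : ℕ} (hk : 1 ≤ k) (a b : ZMod 3 → Site k) :
    - (tau k * v3 k (a 0) (a 1) (a 2) * v3 k (b 0) (b 1) (b 2)) ≤
      1 / 18 * prs k (chi0 k (a 0) (a 1) (a 2)) a b := by
  have hn : ∀ χ, 0 ≤ prs k χ a b := fun χ => prs_nonneg hk χ a b
  have ht := tt_pos k hk
  have hk' : (1 : ℚ) ≤ k := by exact_mod_cast hk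
  have hkk : (k : ℚ) ≤ k ^ 2 := by nlinarith
  rcases pat_cases k (a 0) (a 1) (a 2) with ⟨h0, ⟨j, h1⟩, h2⟩ | ⟨h0, ⟨w, h1⟩, w', h2⟩ |
    ⟨⟨w, h0⟩, ⟨j, h1⟩, w', h2⟩ | ⟨⟨w, h0⟩, ⟨w', h1⟩, h2⟩ | ⟨⟨w, h0⟩, ⟨w', h1⟩, w'', h2⟩ | ⟨h0, _⟩
  · -- `ABC`
    have hχ : chi0 k (a 0) (a 1) (a 2) = 1 := by
      rw [h0, h1, h2]
      simp [chi0, isABC]
    rw [hχ, h0, h1, h2, v_ABC]
    rcases pat_cases k (b 0) (b 1) (b 2) with ⟨g0, ⟨j', g1⟩, g2⟩ | ⟨g0, ⟨x, g1⟩, x', g2⟩ |
      ⟨⟨x, g0⟩, ⟨j', g1⟩, x', g2⟩ | ⟨⟨x, g0⟩, ⟨x', g1⟩, g2⟩ | ⟨⟨x, g0⟩, ⟨x', g1⟩, x'', g2⟩ | ⟨g0, _⟩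
    · rw [g0, g1, g2, v_ABC]
      exact cpos hk (by norm_num) (hn _)
    · rw [g0, g1, g2, v_AWW, prs1, h0, h1, h2, g0, g1, g2]
      exact cN hk (c := k) (by positivity) (le_of_eq (by ring)) (by
        first
        | exact lbx (by assumption) (by positivity)
              (by first | exact le_rfl | exact one_aa | exact one_kaa (by assumption))
              (by first | exact hW (by assumption) _ _ | exact hW' (by assumption) _ _)
              (by first | exact hW (by assumption) _ _ | exact hW' (by assumption) _ _)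
        | exact lby (by assumption) (by positivity)
              (by first | exact hW (by assumption) _ _ | exact hW' (by assumption) _ _)
              (by first | exact le_rfl | exact one_aa | exact one_kaa (by assumption))
              (by first | exact hW (by assumption) _ _ | exact hW' (by assumption) _ _)
        | exact lbz (by assumption) (by positivity)
              (by first | exact hW (by assumption) _ _ | exact hW' (by assumption) _ _)
              (by first | exact hW (by assumption) _ _ | exact hW' (by assumption) _ _)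
              (by first | exact le_rfl | exact one_aa | exact one_kaa (by assumption)))
    · rw [g0, g1, g2, v_WBW, prs1, h0, h1, h2, g0, g1, g2]
      exact cN hk (c := 1) (by positivity) (le_of_eq (by ring)) (by
        first
        | exact lbx (by assumption) (by positivity)
              (by first | exact le_rfl | exact one_aa | exact one_kaa (by assumption))
              (by first | exact hW (by assumption) _ _ | exact hW' (by assumption) _ _)
              (by first | exact hW (by assumption) _ _ | exact hW' (by assumption) _ _)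
        | exact lby (by assumption) (by positivity)
              (by first | exact hW (by assumption) _ _ | exact hW' (by assumption) _ _)
              (by first | exact le_rfl | exact one_aa | exact one_kaa (by assumption))
              (by first | exact hW (by assumption) _ _ | exact hW' (by assumption) _ _)
        | exact lbz (by assumption) (by positivity)
              (by first | exact hW (by assumption) _ _ | exact hW' (by assumption) _ _)
              (by first | exact hW (by assumption) _ _ | exact hW' (by assumption) _ _)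
              (by first | exact le_rfl | exact one_aa | exact one_kaa (by assumption)))
    · rw [g0, g1, g2, v_WWC, prs1, h0, h1, h2, g0, g1, g2]
      exact cN hk (c := k) (by positivity) (le_of_eq (by ring)) (by
        first
        | exact lbx (by assumption) (by positivity)
              (by first | exact le_rfl | exact one_aa | exact one_kaa (by assumption))
              (by first | exact hW (by assumption) _ _ | exact hW' (by assumption) _ _)
              (by first | exact hW (by assumption) _ _ | exact hW' (by assumption) _ _)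
        | exact lby (by assumption) (by positivity)
              (by first | exact hW (by assumption) _ _ | exact hW' (by assumption) _ _)
              (by first | exact le_rfl | exact one_aa | exact one_kaa (by assumption))
              (by first | exact hW (by assumption) _ _ | exact hW' (by assumption) _ _)
        | exact lbz (by assumption) (by positivity)
              (by first | exact hW (by assumption) _ _ | exact hW' (by assumption) _ _)
              (by first | exact hW (by assumption) _ _ | exact hW' (by assumption) _ _)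
              (by first | exact le_rfl | exact one_aa | exact one_kaa (by assumption)))
    · rw [g0, g1, g2, v_WWW]
      exact cpos hk (by positivity) (hn _)
    · rw [g0]
      exact zero_r hk (hn _)
  · -- `AWW`
    have hχ : chi0 k (a 0) (a 1) (a 2) = -1 := by
      rw [h0, h1, h2]
      simp [chi0, isABC]
    rw [hχ, h0, h1, h2, v_AWW]
    rcases pat_cases k (b 0) (b 1) (b 2) with ⟨g0, ⟨j', g1⟩, g2⟩ | ⟨g0, ⟨x, g1⟩, x', g2⟩ |
      ⟨⟨x, g0⟩, ⟨j', g1⟩, x', g2⟩ | ⟨⟨x, g0⟩, ⟨x', g1⟩, g2⟩ | ⟨⟨x, g0⟩, ⟨x', g1⟩, x'', g2⟩ | ⟨g0, _⟩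
    · rw [g0, g1, g2, v_ABC, prs2, h0, h1, h2, g0, g1, g2]
      exact cN hk (c := k) (by positivity) (le_of_eq (by ring)) (by
        first
        | exact lbx (by assumption) (by positivity)
              (by first | exact le_rfl | exact one_aa | exact one_kaa (by assumption))
              (by first | exact hW (by assumption) _ _ | exact hW' (by assumption) _ _)
              (by first | exact hW (by assumption) _ _ | exact hW' (by assumption) _ _)
        | exact lby (by assumption) (by positivity)
              (by first | exact hW (by assumption) _ _ | exact hW' (by assumption) _ _)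
              (by first | exact le_rfl | exact one_aa | exact one_kaa (by assumption))
              (by first | exact hW (by assumption) _ _ | exact hW' (by assumption) _ _)
        | exact lbz (by assumption) (by positivity)
              (by first | exact hW (by assumption) _ _ | exact hW' (by assumption) _ _)
              (by first | exact hW (by assumption) _ _ | exact hW' (by assumption) _ _)
              (by first | exact le_rfl | exact one_aa | exact one_kaa (by assumption)))
    · rw [g0, g1, g2, v_AWW]
      exact cpos hk (by rw [neg_mul_neg]; positivity) (hn _)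
    · rw [g0, g1, g2, v_WBW]
      exact cpos hk (by rw [neg_mul_neg]; positivity) (hn _)
    · rw [g0, g1, g2, v_WWC]
      exact cpos hk (by rw [neg_mul_neg]; positivity) (hn _)
    · rw [g0, g1, g2, v_WWW]
      exact cW hk (le_of_eq (by ring)) (allW hk _ a b (Or.inr (allW_of g0 g1 g2)))
    · rw [g0]
      exact zero_r hk (hn _)
  · -- `WBW`
    have hχ : chi0 k (a 0) (a 1) (a 2) = -1 := by
      rw [h0, h1, h2]
      simp [chi0, isABC]
    rw [hχ, h0, h1, h2, v_WBW]
    rcases pat_cases k (b 0) (b 1) (b 2) with ⟨g0, ⟨j', g1⟩, g2⟩ | ⟨g0, ⟨x, g1⟩, x', g2⟩ |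
      ⟨⟨x, g0⟩, ⟨j', g1⟩, x', g2⟩ | ⟨⟨x, g0⟩, ⟨x', g1⟩, g2⟩ | ⟨⟨x, g0⟩, ⟨x', g1⟩, x'', g2⟩ | ⟨g0, _⟩
    · rw [g0, g1, g2, v_ABC, prs2, h0, h1, h2, g0, g1, g2]
      exact cN hk (c := 1) (by positivity) (le_of_eq (by ring)) (by
        first
        | exact lbx (by assumption) (by positivity)
              (by first | exact le_rfl | exact one_aa | exact one_kaa (by assumption))
              (by first | exact hW (by assumption) _ _ | exact hW' (by assumption) _ _)
              (by first | exact hW (by assumption) _ _ | exact hW' (by assumption) _ _)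
        | exact lby (by assumption) (by positivity)
              (by first | exact hW (by assumption) _ _ | exact hW' (by assumption) _ _)
              (by first | exact le_rfl | exact one_aa | exact one_kaa (by assumption))
              (by first | exact hW (by assumption) _ _ | exact hW' (by assumption) _ _)
        | exact lbz (by assumption) (by positivity)
              (by first | exact hW (by assumption) _ _ | exact hW' (by assumption) _ _)
              (by first | exact hW (by assumption) _ _ | exact hW' (by assumption) _ _)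
              (by first | exact le_rfl | exact one_aa | exact one_kaa (by assumption)))
    · rw [g0, g1, g2, v_AWW]
      exact cpos hk (by rw [neg_mul_neg]; positivity) (hn _)
    · rw [g0, g1, g2, v_WBW]
      exact cpos hk (by rw [neg_mul_neg]; positivity) (hn _)
    · rw [g0, g1, g2, v_WWC]
      exact cpos hk (by rw [neg_mul_neg]; positivity) (hn _)
    · rw [g0, g1, g2, v_WWW]
      refine cW hk ?_ (allW hk _ a b (Or.inr (allW_of g0 g1 g2)))
      have h5 : 0 < tt k ^ 5 := pow_pos ht 5
      have e1 : -(-tt k ^ 2 * (2 * (k : ℚ) * tt k ^ 3)) = 2 * k * tt k ^ 5 := by ring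
      rw [e1]
      exact mul_le_mul_of_nonneg_right (by linarith) h5.le
    · rw [g0]
      exact zero_r hk (hn _)
  · -- `WWC`
    have hχ : chi0 k (a 0) (a 1) (a 2) = -1 := by
      rw [h0, h1, h2]
      simp [chi0, isABC]
    rw [hχ, h0, h1, h2, v_WWC]
    rcases pat_cases k (b 0) (b 1) (b 2) with ⟨g0, ⟨j', g1⟩, g2⟩ | ⟨g0, ⟨x, g1⟩, x', g2⟩ |
      ⟨⟨x, g0⟩, ⟨j', g1⟩, x', g2⟩ | ⟨⟨x, g0⟩, ⟨x', g1⟩, g2⟩ | ⟨⟨x, g0⟩, ⟨x', g1⟩, x'', g2⟩ | ⟨g0, _⟩
    · rw [g0, g1, g2, v_ABC, prs2, h0, h1, h2, g0, g1, g2]
      exact cN hk (c := k) (by positivity) (le_of_eq (by ring)) (by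
        first
        | exact lbx (by assumption) (by positivity)
              (by first | exact le_rfl | exact one_aa | exact one_kaa (by assumption))
              (by first | exact hW (by assumption) _ _ | exact hW' (by assumption) _ _)
              (by first | exact hW (by assumption) _ _ | exact hW' (by assumption) _ _)
        | exact lby (by assumption) (by positivity)
              (by first | exact hW (by assumption) _ _ | exact hW' (by assumption) _ _)
              (by first | exact le_rfl | exact one_aa | exact one_kaa (by assumption))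
              (by first | exact hW (by assumption) _ _ | exact hW' (by assumption) _ _)
        | exact lbz (by assumption) (by positivity)
              (by first | exact hW (by assumption) _ _ | exact hW' (by assumption) _ _)
              (by first | exact hW (by assumption) _ _ | exact hW' (by assumption) _ _)
              (by first | exact le_rfl | exact one_aa | exact one_kaa (by assumption)))
    · rw [g0, g1, g2, v_AWW]
      exact cpos hk (by rw [neg_mul_neg]; positivity) (hn _)
    · rw [g0, g1, g2, v_WBW]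
      exact cpos hk (by rw [neg_mul_neg]; positivity) (hn _)
    · rw [g0, g1, g2, v_WWC]
      exact cpos hk (by rw [neg_mul_neg]; positivity) (hn _)
    · rw [g0, g1, g2, v_WWW]
      exact cW hk (le_of_eq (by ring)) (allW hk _ a b (Or.inr (allW_of g0 g1 g2)))
    · rw [g0]
      exact zero_r hk (hn _)
  · -- `WWW`
    rw [h0, h1, h2, v_WWW]
    rcases pat_cases k (b 0) (b 1) (b 2) with ⟨g0, ⟨j', g1⟩, g2⟩ | ⟨g0, ⟨x, g1⟩, x', g2⟩ |
      ⟨⟨x, g0⟩, ⟨j', g1⟩, x', g2⟩ | ⟨⟨x, g0⟩, ⟨x', g1⟩, g2⟩ | ⟨⟨x, g0⟩, ⟨x', g1⟩, x'', g2⟩ | ⟨g0, _⟩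
    · rw [g0, g1, g2, v_ABC]
      exact cpos hk (by positivity) (hn _)
    · rw [g0, g1, g2, v_AWW]
      exact cW hk (le_of_eq (by ring)) (allW hk _ a b (Or.inl (allW_of h0 h1 h2)))
    · rw [g0, g1, g2, v_WBW]
      refine cW hk ?_ (allW hk _ a b (Or.inl (allW_of h0 h1 h2)))
      have h5 : 0 < tt k ^ 5 := pow_pos ht 5
      have e1 : -(2 * (k : ℚ) * tt k ^ 3 * -tt k ^ 2) = 2 * k * tt k ^ 5 := by ring
      rw [e1]
      exact mul_le_mul_of_nonneg_right (by linarith) h5.le
    · rw [g0, g1, g2, v_WWC]
      exact cW hk (le_of_eq (by ring)) (allW hk _ a b (Or.inl (allW_of h0 h1 h2)))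
    · rw [g0, g1, g2, v_WWW]
      exact cpos hk (by positivity) (hn _)
    · rw [g0]
      exact zero_r hk (hn _)
  · rw [h0]
    exact zero_l hk (hn _)

private theorem va_ABC (k : ℕ) (j : Fin k) : v3a k .A (.B j) .C = 1 := by
  unfold v3a
  rw [v_ABC, vb_ABC, sub_zero]
private theorem va_AWW (k : ℕ) (w w' : Fin (2 * (k + 2))) : v3a k .A (.W w) (.W w') = 0 := by
  unfold v3a
  rw [v_AWW, vb_AWW, sub_self]
private theorem va_WBW (k : ℕ) (w w' : Fin (2 * (k + 2))) (j : Fin k) :
    v3a k (.W w) (.B j) (.W w') = -(tt k ^ 2) := by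
  unfold v3a
  rw [v_WBW, vb_WBW, sub_zero]
private theorem va_WWC (k : ℕ) (w w' : Fin (2 * (k + 2))) :
    v3a k (.W w) (.W w') .C = -(k * tt k ^ 2) := by
  unfold v3a
  rw [v_WWC, vb_WWC, sub_zero]
private theorem va_WWW (k : ℕ) (w w' w'' : Fin (2 * (k + 2))) :
    v3a k (.W w) (.W w') (.W w'') = k * tt k ^ 3 := by
  unfold v3a
  rw [v_WWW, vb_WWW]
  ring

private theorem c10A (k : ℕ) : chi1 k .A 0 = -1 := by simp [chi1]
private theorem c10W (k : ℕ) (w : Fin (2 * (k + 2))) : chi1 k (.W w) 0 = 1 := by simp [chi1]
private theorem c11B (k : ℕ) (j : Fin k) : chi1 k (.B j) 1 = 1 := by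
  simp [chi1]
private theorem c11W (k : ℕ) (w : Fin (2 * (k + 2))) : chi1 k (.W w) 1 = -1 := by
  have h : (1 : ZMod 3) ≠ 0 := by decide
  simp only [chi1, if_neg h]
private theorem c12C (k : ℕ) : chi1 k .C 2 = 1 := by
  simp [chi1]
private theorem c12W (k : ℕ) (w : Fin (2 * (k + 2))) : chi1 k (.W w) 2 = -1 := by
  have h : (2 : ZMod 3) ≠ 0 := by decide
  simp only [chi1, if_neg h]
private theorem c20 (k : ℕ) (s : Site k) : chi2 k s 0 = 1 := by simp [chi2]
private theorem c21B (k : ℕ) (j : Fin k) : chi2 k (.B j) 1 = 1 := by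
  simp [chi2]
private theorem c22C (k : ℕ) : chi2 k .C 2 = 1 := by
  simp [chi2]

theorem key1 {k : ℕ} (hk : 1 ≤ k) (a b : ZMod 3 → Site k) (p : ZMod 3) :
    - (tau k * v3 k (a 0) (a 1) (a 2) * v3a k (b 0) (b 1) (b 2)) ≤
      1 / 18 * prs k (chi1 k (a p) p) a b := by
  have hn : ∀ χ, 0 ≤ prs k χ a b := fun χ => prs_nonneg hk χ a b
  have ht := tt_pos k hk
  have hk' : (1 : ℚ) ≤ k := by exact_mod_cast hk
  have hkk : (k : ℚ) ≤ k ^ 2 := by nlinarith
  have h5 : 0 < tt k ^ 5 := pow_pos ht 5
  have hk2 : (0 : ℚ) ≤ k ^ 2 * tt k ^ 5 := by positivity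
  have hk1 : (k : ℚ) * tt k ^ 5 ≤ k ^ 2 * tt k ^ 5 := mul_le_mul_of_nonneg_right hkk h5.le
  rcases pat_cases k (b 0) (b 1) (b 2) with ⟨g0, ⟨j', g1⟩, g2⟩ | ⟨g0, ⟨x, g1⟩, x', g2⟩ |
    ⟨⟨x, g0⟩, ⟨j', g1⟩, x', g2⟩ | ⟨⟨x, g0⟩, ⟨x', g1⟩, g2⟩ | ⟨⟨x, g0⟩, ⟨x', g1⟩, x'', g2⟩ | ⟨g0, g0'⟩
  · -- `ABC`
    rw [g0, g1, g2, va_ABC]
    rcases pat_cases k (a 0) (a 1) (a 2) with ⟨h0, ⟨j, h1⟩, h2⟩ | ⟨h0, ⟨w, h1⟩, w', h2⟩ |
      ⟨⟨w, h0⟩, ⟨j, h1⟩, w', h2⟩ | ⟨⟨w, h0⟩, ⟨w', h1⟩, h2⟩ | ⟨⟨w, h0⟩, ⟨w', h1⟩, w'', h2⟩ | ⟨h0, _⟩
    · rw [h0, h1, h2, v_ABC]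
      exact cpos hk (by norm_num) (hn _)
    · have hχ : chi1 k (a p) p = -1 := by
        rcases three p with rfl | rfl | rfl
        · rw [h0, c10A]
        · rw [h1, c11W]
        · rw [h2, c12W]
      rw [hχ, prs2, h0, h1, h2, v_AWW, g0, g1, g2]
      exact cN hk (c := k) (by positivity) (le_of_eq (by ring)) (by
        first
        | exact lbx (by assumption) (by positivity)
              (by first | exact le_rfl | exact one_aa | exact one_kaa (by assumption))
              (by first | exact hW (by assumption) _ _ | exact hW' (by assumption) _ _)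
              (by first | exact hW (by assumption) _ _ | exact hW' (by assumption) _ _)
        | exact lby (by assumption) (by positivity)
              (by first | exact hW (by assumption) _ _ | exact hW' (by assumption) _ _)
              (by first | exact le_rfl | exact one_aa | exact one_kaa (by assumption))
              (by first | exact hW (by assumption) _ _ | exact hW' (by assumption) _ _)
        | exact lbz (by assumption) (by positivity)
              (by first | exact hW (by assumption) _ _ | exact hW' (by assumption) _ _)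
              (by first | exact hW (by assumption) _ _ | exact hW' (by assumption) _ _)
              (by first | exact le_rfl | exact one_aa | exact one_kaa (by assumption)))
    · rcases three p with rfl | rfl | rfl
      · rw [h0, h1, h2, c10W, prs1, h0, h1, h2, v_WBW, g0, g1, g2]
        exact cN hk (c := 1) (by positivity) (le_of_eq (by ring)) (by
        first
        | exact lbx (by assumption) (by positivity)
              (by first | exact le_rfl | exact one_aa | exact one_kaa (by assumption))
              (by first | exact hW (by assumption) _ _ | exact hW' (by assumption) _ _)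
              (by first | exact hW (by assumption) _ _ | exact hW' (by assumption) _ _)
        | exact lby (by assumption) (by positivity)
              (by first | exact hW (by assumption) _ _ | exact hW' (by assumption) _ _)
              (by first | exact le_rfl | exact one_aa | exact one_kaa (by assumption))
              (by first | exact hW (by assumption) _ _ | exact hW' (by assumption) _ _)
        | exact lbz (by assumption) (by positivity)
              (by first | exact hW (by assumption) _ _ | exact hW' (by assumption) _ _)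
              (by first | exact hW (by assumption) _ _ | exact hW' (by assumption) _ _)
              (by first | exact le_rfl | exact one_aa | exact one_kaa (by assumption)))
      · rw [h0, h1, h2, c11B, prs1, h0, h1, h2, v_WBW, g0, g1, g2]
        exact cN hk (c := 1) (by positivity) (le_of_eq (by ring)) (by
        first
        | exact lbx (by assumption) (by positivity)
              (by first | exact le_rfl | exact one_aa | exact one_kaa (by assumption))
              (by first | exact hW (by assumption) _ _ | exact hW' (by assumption) _ _)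
              (by first | exact hW (by assumption) _ _ | exact hW' (by assumption) _ _)
        | exact lby (by assumption) (by positivity)
              (by first | exact hW (by assumption) _ _ | exact hW' (by assumption) _ _)
              (by first | exact le_rfl | exact one_aa | exact one_kaa (by assumption))
              (by first | exact hW (by assumption) _ _ | exact hW' (by assumption) _ _)
        | exact lbz (by assumption) (by positivity)
              (by first | exact hW (by assumption) _ _ | exact hW' (by assumption) _ _)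
              (by first | exact hW (by assumption) _ _ | exact hW' (by assumption) _ _)
              (by first | exact le_rfl | exact one_aa | exact one_kaa (by assumption)))
      · rw [h0, h1, h2, c12W, prs2, h0, h1, h2, v_WBW, g0, g1, g2]
        exact cN hk (c := 1) (by positivity) (le_of_eq (by ring)) (by
        first
        | exact lbx (by assumption) (by positivity)
              (by first | exact le_rfl | exact one_aa | exact one_kaa (by assumption))
              (by first | exact hW (by assumption) _ _ | exact hW' (by assumption) _ _)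
              (by first | exact hW (by assumption) _ _ | exact hW' (by assumption) _ _)
        | exact lby (by assumption) (by positivity)
              (by first | exact hW (by assumption) _ _ | exact hW' (by assumption) _ _)
              (by first | exact le_rfl | exact one_aa | exact one_kaa (by assumption))
              (by first | exact hW (by assumption) _ _ | exact hW' (by assumption) _ _)
        | exact lbz (by assumption) (by positivity)
              (by first | exact hW (by assumption) _ _ | exact hW' (by assumption) _ _)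
              (by first | exact hW (by assumption) _ _ | exact hW' (by assumption) _ _)
              (by first | exact le_rfl | exact one_aa | exact one_kaa (by assumption)))
    · rcases three p with rfl | rfl | rfl
      · rw [h0, h1, h2, c10W, prs1, h0, h1, h2, v_WWC, g0, g1, g2]
        exact cN hk (c := k) (by positivity) (le_of_eq (by ring)) (by
        first
        | exact lbx (by assumption) (by positivity)
              (by first | exact le_rfl | exact one_aa | exact one_kaa (by assumption))
              (by first | exact hW (by assumption) _ _ | exact hW' (by assumption) _ _)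
              (by first | exact hW (by assumption) _ _ | exact hW' (by assumption) _ _)
        | exact lby (by assumption) (by positivity)
              (by first | exact hW (by assumption) _ _ | exact hW' (by assumption) _ _)
              (by first | exact le_rfl | exact one_aa | exact one_kaa (by assumption))
              (by first | exact hW (by assumption) _ _ | exact hW' (by assumption) _ _)
        | exact lbz (by assumption) (by positivity)
              (by first | exact hW (by assumption) _ _ | exact hW' (by assumption) _ _)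
              (by first | exact hW (by assumption) _ _ | exact hW' (by assumption) _ _)
              (by first | exact le_rfl | exact one_aa | exact one_kaa (by assumption)))
      · rw [h0, h1, h2, c11W, prs2, h0, h1, h2, v_WWC, g0, g1, g2]
        exact cN hk (c := k) (by positivity) (le_of_eq (by ring)) (by
        first
        | exact lbx (by assumption) (by positivity)
              (by first | exact le_rfl | exact one_aa | exact one_kaa (by assumption))
              (by first | exact hW (by assumption) _ _ | exact hW' (by assumption) _ _)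
              (by first | exact hW (by assumption) _ _ | exact hW' (by assumption) _ _)
        | exact lby (by assumption) (by positivity)
              (by first | exact hW (by assumption) _ _ | exact hW' (by assumption) _ _)
              (by first | exact le_rfl | exact one_aa | exact one_kaa (by assumption))
              (by first | exact hW (by assumption) _ _ | exact hW' (by assumption) _ _)
        | exact lbz (by assumption) (by positivity)
              (by first | exact hW (by assumption) _ _ | exact hW' (by assumption) _ _)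
              (by first | exact hW (by assumption) _ _ | exact hW' (by assumption) _ _)
              (by first | exact le_rfl | exact one_aa | exact one_kaa (by assumption)))
      · rw [h0, h1, h2, c12C, prs1, h0, h1, h2, v_WWC, g0, g1, g2]
        exact cN hk (c := k) (by positivity) (le_of_eq (by ring)) (by
        first
        | exact lbx (by assumption) (by positivity)
              (by first | exact le_rfl | exact one_aa | exact one_kaa (by assumption))
              (by first | exact hW (by assumption) _ _ | exact hW' (by assumption) _ _)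
              (by first | exact hW (by assumption) _ _ | exact hW' (by assumption) _ _)
        | exact lby (by assumption) (by positivity)
              (by first | exact hW (by assumption) _ _ | exact hW' (by assumption) _ _)
              (by first | exact le_rfl | exact one_aa | exact one_kaa (by assumption))
              (by first | exact hW (by assumption) _ _ | exact hW' (by assumption) _ _)
        | exact lbz (by assumption) (by positivity)
              (by first | exact hW (by assumption) _ _ | exact hW' (by assumption) _ _)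
              (by first | exact hW (by assumption) _ _ | exact hW' (by assumption) _ _)
              (by first | exact le_rfl | exact one_aa | exact one_kaa (by assumption)))
    · rw [h0, h1, h2, v_WWW]
      exact cpos hk (by positivity) (hn _)
    · rw [h0]
      exact zero_l hk (hn _)
  · -- `AWW`
    rw [g0, g1, g2, va_AWW]
    exact zero_r hk (hn _)
  · -- `WBW`
    rw [g0, g1, g2, va_WBW]
    rcases pat_cases k (a 0) (a 1) (a 2) with ⟨h0, ⟨j, h1⟩, h2⟩ | ⟨h0, ⟨w, h1⟩, w', h2⟩ |
      ⟨⟨w, h0⟩, ⟨j, h1⟩, w', h2⟩ | ⟨⟨w, h0⟩, ⟨w', h1⟩, h2⟩ | ⟨⟨w, h0⟩, ⟨w', h1⟩, w'', h2⟩ | ⟨h0, _⟩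
    · rcases three p with rfl | rfl | rfl
      · rw [h0, h1, h2, c10A, prs2, h0, h1, h2, v_ABC, g0, g1, g2]
        exact cN hk (c := 1) (by positivity) (le_of_eq (by ring)) (by
        first
        | exact lbx (by assumption) (by positivity)
              (by first | exact le_rfl | exact one_aa | exact one_kaa (by assumption))
              (by first | exact hW (by assumption) _ _ | exact hW' (by assumption) _ _)
              (by first | exact hW (by assumption) _ _ | exact hW' (by assumption) _ _)
        | exact lby (by assumption) (by positivity)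
              (by first | exact hW (by assumption) _ _ | exact hW' (by assumption) _ _)
              (by first | exact le_rfl | exact one_aa | exact one_kaa (by assumption))
              (by first | exact hW (by assumption) _ _ | exact hW' (by assumption) _ _)
        | exact lbz (by assumption) (by positivity)
              (by first | exact hW (by assumption) _ _ | exact hW' (by assumption) _ _)
              (by first | exact hW (by assumption) _ _ | exact hW' (by assumption) _ _)
              (by first | exact le_rfl | exact one_aa | exact one_kaa (by assumption)))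
      · rw [h0, h1, h2, c11B, prs1, h0, h1, h2, v_ABC, g0, g1, g2]
        exact cN hk (c := 1) (by positivity) (le_of_eq (by ring)) (by
        first
        | exact lbx (by assumption) (by positivity)
              (by first | exact le_rfl | exact one_aa | exact one_kaa (by assumption))
              (by first | exact hW (by assumption) _ _ | exact hW' (by assumption) _ _)
              (by first | exact hW (by assumption) _ _ | exact hW' (by assumption) _ _)
        | exact lby (by assumption) (by positivity)
              (by first | exact hW (by assumption) _ _ | exact hW' (by assumption) _ _)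
              (by first | exact le_rfl | exact one_aa | exact one_kaa (by assumption))
              (by first | exact hW (by assumption) _ _ | exact hW' (by assumption) _ _)
        | exact lbz (by assumption) (by positivity)
              (by first | exact hW (by assumption) _ _ | exact hW' (by assumption) _ _)
              (by first | exact hW (by assumption) _ _ | exact hW' (by assumption) _ _)
              (by first | exact le_rfl | exact one_aa | exact one_kaa (by assumption)))
      · rw [h0, h1, h2, c12C, prs1, h0, h1, h2, v_ABC, g0, g1, g2]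
        exact cN hk (c := 1) (by positivity) (le_of_eq (by ring)) (by
        first
        | exact lbx (by assumption) (by positivity)
              (by first | exact le_rfl | exact one_aa | exact one_kaa (by assumption))
              (by first | exact hW (by assumption) _ _ | exact hW' (by assumption) _ _)
              (by first | exact hW (by assumption) _ _ | exact hW' (by assumption) _ _)
        | exact lby (by assumption) (by positivity)
              (by first | exact hW (by assumption) _ _ | exact hW' (by assumption) _ _)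
              (by first | exact le_rfl | exact one_aa | exact one_kaa (by assumption))
              (by first | exact hW (by assumption) _ _ | exact hW' (by assumption) _ _)
        | exact lbz (by assumption) (by positivity)
              (by first | exact hW (by assumption) _ _ | exact hW' (by assumption) _ _)
              (by first | exact hW (by assumption) _ _ | exact hW' (by assumption) _ _)
              (by first | exact le_rfl | exact one_aa | exact one_kaa (by assumption)))
    · rw [h0, h1, h2, v_AWW]
      exact cpos hk (by rw [neg_mul_neg]; positivity) (hn _)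
    · rw [h0, h1, h2, v_WBW]
      exact cpos hk (by rw [neg_mul_neg]; positivity) (hn _)
    · rw [h0, h1, h2, v_WWC]
      exact cpos hk (by rw [neg_mul_neg]; positivity) (hn _)
    · rw [h0, h1, h2, v_WWW]
      refine cW hk ?_ (allW hk _ a b (Or.inl (allW_of h0 h1 h2)))
      have e1 : -(2 * (k : ℚ) * tt k ^ 3 * -tt k ^ 2) = 2 * (k * tt k ^ 5) := by ring
      rw [e1]
      linarith
    · rw [h0]
      exact zero_l hk (hn _)
  · -- `WWC`
    rw [g0, g1, g2, va_WWC]
    rcases pat_cases k (a 0) (a 1) (a 2) with ⟨h0, ⟨j, h1⟩, h2⟩ | ⟨h0, ⟨w, h1⟩, w', h2⟩ |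
      ⟨⟨w, h0⟩, ⟨j, h1⟩, w', h2⟩ | ⟨⟨w, h0⟩, ⟨w', h1⟩, h2⟩ | ⟨⟨w, h0⟩, ⟨w', h1⟩, w'', h2⟩ | ⟨h0, _⟩
    · rcases three p with rfl | rfl | rfl
      · rw [h0, h1, h2, c10A, prs2, h0, h1, h2, v_ABC, g0, g1, g2]
        exact cN hk (c := k) (by positivity) (le_of_eq (by ring)) (by
        first
        | exact lbx (by assumption) (by positivity)
              (by first | exact le_rfl | exact one_aa | exact one_kaa (by assumption))
              (by first | exact hW (by assumption) _ _ | exact hW' (by assumption) _ _)
              (by first | exact hW (by assumption) _ _ | exact hW' (by assumption) _ _)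
        | exact lby (by assumption) (by positivity)
              (by first | exact hW (by assumption) _ _ | exact hW' (by assumption) _ _)
              (by first | exact le_rfl | exact one_aa | exact one_kaa (by assumption))
              (by first | exact hW (by assumption) _ _ | exact hW' (by assumption) _ _)
        | exact lbz (by assumption) (by positivity)
              (by first | exact hW (by assumption) _ _ | exact hW' (by assumption) _ _)
              (by first | exact hW (by assumption) _ _ | exact hW' (by assumption) _ _)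
              (by first | exact le_rfl | exact one_aa | exact one_kaa (by assumption)))
      · rw [h0, h1, h2, c11B, prs1, h0, h1, h2, v_ABC, g0, g1, g2]
        exact cN hk (c := k) (by positivity) (le_of_eq (by ring)) (by
        first
        | exact lbx (by assumption) (by positivity)
              (by first | exact le_rfl | exact one_aa | exact one_kaa (by assumption))
              (by first | exact hW (by assumption) _ _ | exact hW' (by assumption) _ _)
              (by first | exact hW (by assumption) _ _ | exact hW' (by assumption) _ _)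
        | exact lby (by assumption) (by positivity)
              (by first | exact hW (by assumption) _ _ | exact hW' (by assumption) _ _)
              (by first | exact le_rfl | exact one_aa | exact one_kaa (by assumption))
              (by first | exact hW (by assumption) _ _ | exact hW' (by assumption) _ _)
        | exact lbz (by assumption) (by positivity)
              (by first | exact hW (by assumption) _ _ | exact hW' (by assumption) _ _)
              (by first | exact hW (by assumption) _ _ | exact hW' (by assumption) _ _)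
              (by first | exact le_rfl | exact one_aa | exact one_kaa (by assumption)))
      · rw [h0, h1, h2, c12C, prs1, h0, h1, h2, v_ABC, g0, g1, g2]
        exact cN hk (c := k) (by positivity) (le_of_eq (by ring)) (by
        first
        | exact lbx (by assumption) (by positivity)
              (by first | exact le_rfl | exact one_aa | exact one_kaa (by assumption))
              (by first | exact hW (by assumption) _ _ | exact hW' (by assumption) _ _)
              (by first | exact hW (by assumption) _ _ | exact hW' (by assumption) _ _)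
        | exact lby (by assumption) (by positivity)
              (by first | exact hW (by assumption) _ _ | exact hW' (by assumption) _ _)
              (by first | exact le_rfl | exact one_aa | exact one_kaa (by assumption))
              (by first | exact hW (by assumption) _ _ | exact hW' (by assumption) _ _)
        | exact lbz (by assumption) (by positivity)
              (by first | exact hW (by assumption) _ _ | exact hW' (by assumption) _ _)
              (by first | exact hW (by assumption) _ _ | exact hW' (by assumption) _ _)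
              (by first | exact le_rfl | exact one_aa | exact one_kaa (by assumption)))
    · rw [h0, h1, h2, v_AWW]
      exact cpos hk (by rw [neg_mul_neg]; positivity) (hn _)
    · rw [h0, h1, h2, v_WBW]
      exact cpos hk (by rw [neg_mul_neg]; positivity) (hn _)
    · rw [h0, h1, h2, v_WWC]
      exact cpos hk (by rw [neg_mul_neg]; positivity) (hn _)
    · rw [h0, h1, h2, v_WWW]
      exact cW hk (le_of_eq (by ring)) (allW hk _ a b (Or.inl (allW_of h0 h1 h2)))
    · rw [h0]
      exact zero_l hk (hn _)
  · -- `WWW`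
    rw [g0, g1, g2, va_WWW]
    rcases pat_cases k (a 0) (a 1) (a 2) with ⟨h0, ⟨j, h1⟩, h2⟩ | ⟨h0, ⟨w, h1⟩, w', h2⟩ |
      ⟨⟨w, h0⟩, ⟨j, h1⟩, w', h2⟩ | ⟨⟨w, h0⟩, ⟨w', h1⟩, h2⟩ | ⟨⟨w, h0⟩, ⟨w', h1⟩, w'', h2⟩ | ⟨h0, _⟩
    · rw [h0, h1, h2, v_ABC]
      exact cpos hk (by positivity) (hn _)
    · rw [h0, h1, h2, v_AWW]
      refine cW hk ?_ (allW hk _ a b (Or.inr (allW_of g0 g1 g2)))
      have e1 : -(-((k : ℚ) * tt k ^ 2) * (k * tt k ^ 3)) = k ^ 2 * tt k ^ 5 := by ring
      rw [e1]
      linarith
    · rw [h0, h1, h2, v_WBW]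
      refine cW hk ?_ (allW hk _ a b (Or.inr (allW_of g0 g1 g2)))
      have e1 : -(-tt k ^ 2 * ((k : ℚ) * tt k ^ 3)) = k * tt k ^ 5 := by ring
      rw [e1]
      linarith
    · rw [h0, h1, h2, v_WWC]
      refine cW hk ?_ (allW hk _ a b (Or.inr (allW_of g0 g1 g2)))
      have e1 : -(-((k : ℚ) * tt k ^ 2) * (k * tt k ^ 3)) = k ^ 2 * tt k ^ 5 := by ring
      rw [e1]
      linarith
    · rw [h0, h1, h2, v_WWW]
      exact cpos hk (by positivity) (hn _)
    · rw [h0]
      exact zero_l hk (hn _)
  · have e : v3a k (b 0) (b 1) (b 2) = 0 := by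
      unfold v3a
      rw [g0, g0', sub_self]
    rw [e]
    exact zero_r hk (hn _)

theorem key2 {k : ℕ} (hk : 1 ≤ k) (a b : ZMod 3 → Site k) (p : ZMod 3) :
    - (tau k * v3 k (a 0) (a 1) (a 2) * v3b k (b 0) (b 1) (b 2)) ≤
      1 / 18 * prs k (chi2 k (a p) p) a b := by
  have hn : ∀ χ, 0 ≤ prs k χ a b := fun χ => prs_nonneg hk χ a b
  have ht := tt_pos k hk
  have hk' : (1 : ℚ) ≤ k := by exact_mod_cast hk
  have hkk : (k : ℚ) ≤ k ^ 2 := by nlinarith
  have h5 : 0 < tt k ^ 5 := pow_pos ht 5
  have hk2 : (0 : ℚ) ≤ k ^ 2 * tt k ^ 5 := by positivity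
  have hk1 : (k : ℚ) * tt k ^ 5 ≤ k ^ 2 * tt k ^ 5 := mul_le_mul_of_nonneg_right hkk h5.le
  rcases pat_cases k (b 0) (b 1) (b 2) with ⟨g0, ⟨j', g1⟩, g2⟩ | ⟨g0, ⟨x, g1⟩, x', g2⟩ |
    ⟨⟨x, g0⟩, ⟨j', g1⟩, x', g2⟩ | ⟨⟨x, g0⟩, ⟨x', g1⟩, g2⟩ | ⟨⟨x, g0⟩, ⟨x', g1⟩, x'', g2⟩ | ⟨_, g0'⟩
  · rw [g0, g1, g2, vb_ABC]
    exact zero_r hk (hn _)
  · -- `AWW`
    rw [g0, g1, g2, vb_AWW]
    rcases pat_cases k (a 0) (a 1) (a 2) with ⟨h0, ⟨j, h1⟩, h2⟩ | ⟨h0, ⟨w, h1⟩, w', h2⟩ |
      ⟨⟨w, h0⟩, ⟨j, h1⟩, w', h2⟩ | ⟨⟨w, h0⟩, ⟨w', h1⟩, h2⟩ | ⟨⟨w, h0⟩, ⟨w', h1⟩, w'', h2⟩ | ⟨h0, _⟩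
    · have hχ : chi2 k (a p) p = 1 := by
        rcases three p with rfl | rfl | rfl
        · rw [c20]
        · rw [h1, c21B]
        · rw [h2, c22C]
      rw [hχ, prs1, h0, h1, h2, v_ABC, g0, g1, g2]
      exact cN hk (c := k) (by positivity) (le_of_eq (by ring)) (by
        first
        | exact lbx (by assumption) (by positivity)
              (by first | exact le_rfl | exact one_aa | exact one_kaa (by assumption))
              (by first | exact hW (by assumption) _ _ | exact hW' (by assumption) _ _)
              (by first | exact hW (by assumption) _ _ | exact hW' (by assumption) _ _)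
        | exact lby (by assumption) (by positivity)
              (by first | exact hW (by assumption) _ _ | exact hW' (by assumption) _ _)
              (by first | exact le_rfl | exact one_aa | exact one_kaa (by assumption))
              (by first | exact hW (by assumption) _ _ | exact hW' (by assumption) _ _)
        | exact lbz (by assumption) (by positivity)
              (by first | exact hW (by assumption) _ _ | exact hW' (by assumption) _ _)
              (by first | exact hW (by assumption) _ _ | exact hW' (by assumption) _ _)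
              (by first | exact le_rfl | exact one_aa | exact one_kaa (by assumption)))
    · rw [h0, h1, h2, v_AWW]
      exact cpos hk (by rw [neg_mul_neg]; positivity) (hn _)
    · rw [h0, h1, h2, v_WBW]
      exact cpos hk (by rw [neg_mul_neg]; positivity) (hn _)
    · rw [h0, h1, h2, v_WWC]
      exact cpos hk (by rw [neg_mul_neg]; positivity) (hn _)
    · rw [h0, h1, h2, v_WWW]
      exact cW hk (le_of_eq (by ring)) (allW hk _ a b (Or.inl (allW_of h0 h1 h2)))
    · rw [h0]
      exact zero_l hk (hn _)
  · rw [g0, g1, g2, vb_WBW]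
    exact zero_r hk (hn _)
  · rw [g0, g1, g2, vb_WWC]
    exact zero_r hk (hn _)
  · -- `WWW`
    rw [g0, g1, g2, vb_WWW]
    rcases pat_cases k (a 0) (a 1) (a 2) with ⟨h0, ⟨j, h1⟩, h2⟩ | ⟨h0, ⟨w, h1⟩, w', h2⟩ |
      ⟨⟨w, h0⟩, ⟨j, h1⟩, w', h2⟩ | ⟨⟨w, h0⟩, ⟨w', h1⟩, h2⟩ | ⟨⟨w, h0⟩, ⟨w', h1⟩, w'', h2⟩ | ⟨h0, _⟩
    · rw [h0, h1, h2, v_ABC]
      exact cpos hk (by positivity) (hn _)
    · rw [h0, h1, h2, v_AWW]
      refine cW hk ?_ (allW hk _ a b (Or.inr (allW_of g0 g1 g2)))
      have e1 : -(-((k : ℚ) * tt k ^ 2) * (k * tt k ^ 3)) = k ^ 2 * tt k ^ 5 := by ring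
      rw [e1]
      linarith
    · rw [h0, h1, h2, v_WBW]
      refine cW hk ?_ (allW hk _ a b (Or.inr (allW_of g0 g1 g2)))
      have e1 : -(-tt k ^ 2 * ((k : ℚ) * tt k ^ 3)) = k * tt k ^ 5 := by ring
      rw [e1]
      linarith
    · rw [h0, h1, h2, v_WWC]
      refine cW hk ?_ (allW hk _ a b (Or.inr (allW_of g0 g1 g2)))
      have e1 : -(-((k : ℚ) * tt k ^ 2) * (k * tt k ^ 3)) = k ^ 2 * tt k ^ 5 := by ring
      rw [e1]
      linarith
    · rw [h0, h1, h2, v_WWW]
      exact cpos hk (by positivity) (hn _)
    · rw [h0]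
      exact zero_l hk (hn _)
  · rw [g0']
    exact zero_r hk (hn _)

private theorem prs_shift (k : ℕ) (m χ : ZMod 3) (s s' : ZMod 3 → Site k) :
    prs k χ (fun l => s (l + m)) (fun l => s' (l + m - χ)) = ∏ l, qs k (s l) (s' l) := by
  unfold prs
  have h : ∀ l : ZMod 3, l + χ + m - χ = l + m := fun l => by ring
  simp only [h]
  exact Fintype.prod_equiv (Equiv.addRight m) _ _ fun l => rfl

private theorem sum_three (f : ZMod 3 → ℚ) : ∑ m, f m = f 0 + f 1 + f 2 := by
  have h : (univ : Finset (ZMod 3)) = {0, 1, 2} := by decide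
  rw [h, Finset.sum_insert (by decide), Finset.sum_insert (by decide), Finset.sum_singleton, add_assoc]

theorem Kin0 {k : ℕ} (hk : 1 ≤ k) (s s' : ZMod 3 → Site k) :
    0 ≤ (∏ l, qs k (s l) (s' l)) + tau k * ee0 k s s' := by
  have hP : 0 ≤ ∏ l, qs k (s l) (s' l) := Finset.prod_nonneg fun _ _ => qs_nonneg hk _ _
  have key : ∀ m, -(tau k * (vm k m s * vm k (m - chi0 k (s m) (s (m + 1)) (s (m + 2))) s')) ≤
      1 / 18 * ∏ l, qs k (s l) (s' l) := by
    intro m
    have h := key0 hk (fun l => s (l + m))
      (fun l => s' (l + m - chi0 k (s m) (s (m + 1)) (s (m + 2))))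
    simp only [zero_add, add_comm (1 : ZMod 3) m, add_comm (2 : ZMod 3) m] at h
    rw [prs_shift] at h
    have e1 : m + 1 - chi0 k (s m) (s (m + 1)) (s (m + 2)) =
        m - chi0 k (s m) (s (m + 1)) (s (m + 2)) + 1 := by ring
    have e2 : m + 2 - chi0 k (s m) (s (m + 1)) (s (m + 2)) =
        m - chi0 k (s m) (s (m + 1)) (s (m + 2)) + 2 := by ring
    rw [e1, e2] at h
    unfold vm
    rw [← mul_assoc]
    exact h
  unfold ee0
  rw [sum_three]
  have h0 := key 0
  have h1 := key 1
  have h2 := key 2
  rw [show ∀ x y z : ℚ, tau k * (3 * (x + y + z)) = 3 * (tau k * x) + 3 * (tau k * y) + 3 * (tau k * z)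
    from fun x y z => by ring]
  have fin3 : ∀ P A B C : ℚ, 0 ≤ P → -A ≤ 1 / 18 * P → -B ≤ 1 / 18 * P → -C ≤ 1 / 18 * P →
      0 ≤ P + (3 * A + 3 * B + 3 * C) := by
    intro P A B C e0 e1 e2 e3
    linarith
  exact fin3 _ _ _ _ hP h0 h1 h2

theorem Kin1 {k : ℕ} (hk : 1 ≤ k) (i : ZMod 3) (s s' : ZMod 3 → Site k) :
    0 ≤ (∏ l, qs k (s l) (s' l)) + tau k * ee1 k i s s' := by
  have hP : 0 ≤ ∏ l, qs k (s l) (s' l) := Finset.prod_nonneg fun _ _ => qs_nonneg hk _ _
  have keya : ∀ m, -(tau k * (vm k m s * vma k (m - chi1 k (s i) (i - m)) s')) ≤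
      1 / 18 * ∏ l, qs k (s l) (s' l) := by
    intro m
    have h := key1 hk (fun l => s (l + m)) (fun l => s' (l + m - chi1 k (s i) (i - m))) (i - m)
    simp only [zero_add, add_comm (1 : ZMod 3) m, add_comm (2 : ZMod 3) m, sub_add_cancel] at h
    rw [prs_shift] at h
    have e1 : m + 1 - chi1 k (s i) (i - m) = m - chi1 k (s i) (i - m) + 1 := by ring
    have e2 : m + 2 - chi1 k (s i) (i - m) = m - chi1 k (s i) (i - m) + 2 := by ring
    rw [e1, e2] at h
    unfold vm vma
    rw [← mul_assoc]
    exact h
  have keyb : ∀ m, -(tau k * (vm k m s * vmb k (m - chi2 k (s i) (i - m)) s')) ≤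
      1 / 18 * ∏ l, qs k (s l) (s' l) := by
    intro m
    have h := key2 hk (fun l => s (l + m)) (fun l => s' (l + m - chi2 k (s i) (i - m))) (i - m)
    simp only [zero_add, add_comm (1 : ZMod 3) m, add_comm (2 : ZMod 3) m, sub_add_cancel] at h
    rw [prs_shift] at h
    have e1 : m + 1 - chi2 k (s i) (i - m) = m - chi2 k (s i) (i - m) + 1 := by ring
    have e2 : m + 2 - chi2 k (s i) (i - m) = m - chi2 k (s i) (i - m) + 2 := by ring
    rw [e1, e2] at h
    unfold vm vmb
    rw [← mul_assoc]
    exact h
  unfold ee1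
  rw [sum_three]
  have a0 := keya 0
  have a1 := keya 1
  have a2 := keya 2
  have b0 := keyb 0
  have b1 := keyb 1
  have b2 := keyb 2
  rw [show ∀ x x' x'' y y' y'' z z' z'' : ℚ,
    tau k * (3 * (x * (x' + x'') + y * (y' + y'') + z * (z' + z''))) =
      3 * (tau k * (x * x')) + 3 * (tau k * (x * x'')) + 3 * (tau k * (y * y')) +
      3 * (tau k * (y * y'')) + 3 * (tau k * (z * z')) + 3 * (tau k * (z * z''))
    from fun _ _ _ _ _ _ _ _ _ => by ring]
  linarith

end EntRF

end
end

section

/-!
# D2 : operations on signed couplings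

`aut`: if `φ` is an automorphism of `R` then composing all second arguments with `φ` keeps the
coupling property (`Equiv.sum_comp`).
-/

noncomputable section

namespace EntRF

open Finset
open scoped Classical

variable {Ω : Type} [Fintype Ω] {R : Ω → Ω → Prop}

theorem SCpl.add {P Q : Ω → Ω → ℚ} {P' Q' : Ω → Ω → Ω → ℚ} {c d : Ω → Ω → Ω → Ω → ℚ}
    (hc : SCpl R P P' c) (hd : SCpl R Q Q' d) :
    SCpl R (fun x y => P x y + Q x y) (fun x u z => P' x u z + Q' x u z)
      (fun x y u z => c x y u z + d x y u z) := by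
  refine ⟨fun x y u z h => ?_, fun x y u h => ?_, fun x y z h => ?_, fun x u z h => ?_⟩
  · by_cases h1 : c x y u z = 0
    · by_cases h2 : d x y u z = 0
      · exact absurd (by simp only [h1, h2, add_zero]) h
      · exact hd.supp x y u z h2
    · exact hc.supp x y u z h1
  · rw [Finset.sum_add_distrib, hc.sum_z x y u h, hd.sum_z x y u h]
  · rw [Finset.sum_add_distrib, hc.sum_u x y z h, hd.sum_u x y z h]
  · rw [Finset.sum_add_distrib, hc.sum_y x u z h, hd.sum_y x u z h]

theorem SCpl.smul {P : Ω → Ω → ℚ} {P' : Ω → Ω → Ω → ℚ} {c : Ω → Ω → Ω → Ω → ℚ} (r : ℚ)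
    (hc : SCpl R P P' c) :
    SCpl R (fun x y => r * P x y) (fun x u z => r * P' x u z)
      (fun x y u z => r * c x y u z) := by
  refine ⟨fun x y u z h => ?_, fun x y u h => ?_, fun x y z h => ?_, fun x u z h => ?_⟩
  · exact hc.supp x y u z (right_ne_zero_of_mul h)
  · rw [← Finset.mul_sum, hc.sum_z x y u h]
  · rw [← Finset.mul_sum, hc.sum_u x y z h]
  · rw [← Finset.mul_sum, hc.sum_y x u z h]

theorem SCpl.sum {ι : Type} (s : Finset ι) {P : ι → Ω → Ω → ℚ} {P' : ι → Ω → Ω → Ω → ℚ}
    {c : ι → Ω → Ω → Ω → Ω → ℚ} (hc : ∀ i, SCpl R (P i) (P' i) (c i)) :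
    SCpl R (fun x y => ∑ i ∈ s, P i x y) (fun x u z => ∑ i ∈ s, P' i x u z)
      (fun x y u z => ∑ i ∈ s, c i x y u z) := by
  refine ⟨fun x y u z h => ?_, fun x y u h => ?_, fun x y z h => ?_, fun x u z h => ?_⟩
  · obtain ⟨i, _, hi⟩ := Finset.exists_ne_zero_of_sum_ne_zero h
    exact (hc i).supp x y u z hi
  · rw [Finset.sum_comm]
    exact Finset.sum_congr rfl fun i _ => (hc i).sum_z x y u h
  · rw [Finset.sum_comm]
    exact Finset.sum_congr rfl fun i _ => (hc i).sum_u x y z h
  · rw [Finset.sum_comm]
    exact Finset.sum_congr rfl fun i _ => (hc i).sum_y x u z h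

theorem SCpl.aut {P : Ω → Ω → ℚ} {P' : Ω → Ω → Ω → ℚ} {c : Ω → Ω → Ω → Ω → ℚ} (φ : Ω ≃ Ω)
    (hφ : ∀ x y, R (φ x) (φ y) ↔ R x y) (hc : SCpl R P P' c) :
    SCpl R (fun x y => P x (φ y)) (fun x u z => P' x u (φ z))
      (fun x y u z => c x (φ y) u (φ z)) := by
  refine ⟨fun x y u z h => ?_, fun x y u h => ?_, fun x y z h => ?_, fun x u z h => ?_⟩
  · obtain ⟨h1, h2⟩ := hc.supp x (φ y) u (φ z) h
    exact ⟨h1, (hφ y z).1 h2⟩
  · rw [← hc.sum_z x (φ y) u h]
    exact Equiv.sum_comp φ (fun z => c x (φ y) u z)
  · exact hc.sum_u x (φ y) (φ z) ((hφ y z).2 h)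
  · rw [← hc.sum_y x u (φ z) h]
    exact Equiv.sum_comp φ (fun y => c x y u (φ z))

theorem SCpl.toCpl {P : Ω → Ω → ℚ} {P' : Ω → Ω → Ω → ℚ} {c : Ω → Ω → Ω → Ω → ℚ}
    (hc : SCpl R P P' c) (hn : ∀ x y u z, 0 ≤ c x y u z)
    (hP : ∀ x u z, R x u → P' x u z = P u z) : IsCpl R P c := by
  refine ⟨hn, hc.supp, hc.sum_z, hc.sum_u, fun x u z h => ?_⟩
  rw [hc.sum_y x u z h, hP x u z h]

end EntRF

end
end
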