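import Pool.Agent.Lib.MP_a349aa_gt.D3
import Pool.Agent.Lib.MP_a349aa_gt.D5
import Pool.Agent.Lib.MP_a349aa_gt.D2
import Pool.Agent.Lib.MP_a349aa_gt.DDefs

section

section

/-!
# D4 : averaging the extra kernel

For `Sp x`, `Sp y`: `phi σ ρ y` is special with tag `y.tag + σ + ρ` and sites `l ↦ y.site (l - σ)`.
For each `σ` exactly one `ρ` gives `Sm x (phi σ ρ y)`. And
`vm m (fun l => s (l - σ)) = vm (m - σ) s`, so
`∑ σ, ee0 s (rot σ s') = 3 ∑ m, vm m s * ∑ σ, vm (m - χ - σ) s' = 3 * vbar s * vbar s'`.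
If `Sp y` fails then `Sm x (phi σ ρ y)`, `Sp x` is impossible.
For `E0'`: if `VA x u` and `Sp u` then `x.1 = some i` with `VK i x u` (levels); again for each `σ`
exactly one `ρ` with `Sm u (phi σ ρ z)`, and `∑ σ, (vma .. + vmb ..) = vbar z`.
(`vm = vma + vmb` by definition.)
-/

noncomputable section

namespace EntRF

open Finset
open scoped Classical

variable {J : Type} [Fintype J] [Zero J] {k : ℕ}

omit [Fintype J] in
private lemma D4_phi_sp {y : Om J (Site k)} (hy : Sp y) (σ ρ : ZMod 3) :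
    phi σ ρ y = (none, y.2.1 + σ + ρ, fun l => y.2.2.1 (l - σ), fun l => y.2.2.2 (l - σ)) := by
  have h1 : Sp (rotO σ y) := (Sp_rotO σ y).mpr hy
  have h2 : phi σ ρ y = tsO ρ (rotO σ y) := rfl
  rw [h2]
  have h3 : tsO ρ (rotO σ y) = ((rotO σ y).1, (rotO σ y).2.1 + ρ, (rotO σ y).2.2.1,
      (rotO σ y).2.2.2) := by
    show (if Sp (rotO σ y) then _ else _) = _
    rw [if_pos h1]
  rw [h3]
  have h4 : (rotO σ y).1 = none := by
    show y.1.map (· + σ) = none
    rw [hy.1]
    rfl
  rw [h4]
  rfl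

omit [Fintype J] in
private lemma D4_sm {a y : Om J (Site k)} (ha : Sp a) (hy : Sp y) (σ ρ : ZMod 3) :
    Sm a (phi σ ρ y) ↔ ρ = a.2.1 - y.2.1 - σ := by
  rw [D4_phi_sp hy]
  constructor
  · intro h
    have h2 : y.2.1 + σ + ρ = a.2.1 := h.2.1
    rw [← h2]
    ring
  · intro h
    refine ⟨ha.1.symm, ?_, ?_⟩
    · show y.2.1 + σ + ρ = a.2.1
      rw [h]
      ring
    · show (fun l => y.2.2.1 (l - σ)) = a.2.2.1
      funext l
      rw [ha.2 l, hy.2 (l - σ)]

omit [Fintype J] in
private lemma D4_sum {a y : Om J (Site k)} (ha : Sp a) (hy : Sp y)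
    (F : (ZMod 3 → Site k) → ℚ) :
    ∑ σ, ∑ ρ, (if Sm a (phi σ ρ y) then F (phi σ ρ y).2.2.2 else 0) =
      ∑ σ, F (fun l => y.2.2.2 (l - σ)) := by
  apply Finset.sum_congr rfl
  intro σ _
  rw [Finset.sum_eq_single (a.2.1 - y.2.1 - σ)]
  · rw [if_pos ((D4_sm ha hy σ _).mpr rfl), D4_phi_sp hy]
  · intro ρ _ hρ
    rw [if_neg (fun h => hρ ((D4_sm ha hy σ ρ).mp h))]
  · intro h
    exact absurd (Finset.mem_univ _) h

omit [Fintype J] in
private lemma D4_not {a y : Om J (Site k)} (ha : Sp a) (hy : ¬ Sp y) (σ ρ : ZMod 3) :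
    ¬ Sm a (phi σ ρ y) := by
  intro h
  have h1 : Sp (phi σ ρ y) := (Sp_of_Sm h).mp ha
  have h2 : phi σ ρ y = tsO ρ (rotO σ y) := rfl
  rw [h2, Sp_tsO, Sp_rotO] at h1
  exact hy h1

private lemma D4_vma (m σ : ZMod 3) (s : ZMod 3 → Site k) :
    vma k m (fun l => s (l - σ)) = vma k (m - σ) s := by
  unfold vma
  have e1 : m + 1 - σ = m - σ + 1 := by ring
  have e2 : m + 2 - σ = m - σ + 2 := by ring
  simp only [e1, e2]

private lemma D4_vmb (m σ : ZMod 3) (s : ZMod 3 → Site k) :
    vmb k m (fun l => s (l - σ)) = vmb k (m - σ) s := by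
  unfold vmb
  have e1 : m + 1 - σ = m - σ + 1 := by ring
  have e2 : m + 2 - σ = m - σ + 2 := by ring
  simp only [e1, e2]

private lemma D4_vm (m σ : ZMod 3) (s : ZMod 3 → Site k) :
    vm k m (fun l => s (l - σ)) = vm k (m - σ) s := by
  unfold vm
  have e1 : m + 1 - σ = m - σ + 1 := by ring
  have e2 : m + 2 - σ = m - σ + 2 := by ring
  simp only [e1, e2]

private lemma D4_shift (f : ZMod 3 → ℚ) (c : ZMod 3) : ∑ σ, f (c - σ) = ∑ σ, f σ :=
  Equiv.sum_comp (Equiv.subLeft c) f

private lemma D4_split (s : ZMod 3 → Site k) : (∑ m, vma k m s) + ∑ m, vmb k m s = vbar k s := by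
  unfold vbar
  rw [← Finset.sum_add_distrib]
  apply Finset.sum_congr rfl
  intro m _
  unfold vma vmb vm v3a
  ring

theorem sum_E0 (x y : Om J (Site k)) :
    ∑ σ, ∑ ρ, E0 x (phi σ ρ y) =
      if Sp x ∧ Sp y then 3 * vbar k x.2.2.2 * vbar k y.2.2.2 else 0 := by
  by_cases hx : Sp x
  · by_cases hy : Sp y
    · rw [if_pos ⟨hx, hy⟩]
      have h1 : ∀ σ ρ : ZMod 3, E0 x (phi σ ρ y) =
          (if Sm x (phi σ ρ y) then ee0 k x.2.2.2 (phi σ ρ y).2.2.2 else 0) := by
        intro σ ρ
        unfold E0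
        by_cases h : Sm x (phi σ ρ y)
        · rw [if_pos ⟨hx, h⟩, if_pos h]
        · rw [if_neg (fun h0 => h h0.2), if_neg h]
      simp only [h1]
      rw [D4_sum hx hy (fun s' => ee0 k x.2.2.2 s')]
      unfold ee0
      rw [← Finset.mul_sum, Finset.sum_comm, mul_assoc]
      congr 1
      have h2 : ∀ m : ZMod 3, ∑ σ : ZMod 3, vm k m x.2.2.2 *
          vm k (m - chi0 k (x.2.2.2 m) (x.2.2.2 (m + 1)) (x.2.2.2 (m + 2)))
            (fun l => y.2.2.2 (l - σ)) = vm k m x.2.2.2 * vbar k y.2.2.2 := by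
        intro m
        rw [← Finset.mul_sum]
        congr 1
        simp only [D4_vm]
        exact D4_shift (fun t => vm k t y.2.2.2) _
      simp only [h2]
      rw [← Finset.sum_mul]
      rfl
    · rw [if_neg (fun h => hy h.2)]
      apply Finset.sum_eq_zero
      intro σ _
      apply Finset.sum_eq_zero
      intro ρ _
      unfold E0
      rw [if_neg (fun h => D4_not hx hy σ ρ h.2)]
  · rw [if_neg (fun h => hx h.1)]
    apply Finset.sum_eq_zero
    intro σ _
    apply Finset.sum_eq_zero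
    intro ρ _
    unfold E0
    rw [if_neg (fun h => hx h.1)]

theorem sum_E0' (x u z : Om J (Site k)) (h : VA x u) :
    ∑ σ, ∑ ρ, E0' x u (phi σ ρ z) =
      if Sp u ∧ Sp z then 3 * vbar k u.2.2.2 * vbar k z.2.2.2 else 0 := by
  by_cases hu : Sp u
  · obtain ⟨i, hi⟩ := h
    have hx : x.1 = some i := by
      have h1 : u.1 = addL x.1 i := hi.1
      rw [hu.1] at h1
      rcases hx0 : x.1 with _ | j
      · rw [hx0] at h1
        simp [addL] at h1
      · rw [hx0] at h1
        by_cases hji : j = i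
        · rw [hji]
        · simp [addL, hji] at h1
    have hE : ∀ w : Om J (Site k), E0' x u w =
        (if Sm u w then ee1 k i u.2.2.2 w.2.2.2 else 0) := by
      intro w
      unfold E0'
      rw [hx]
      by_cases h2 : Sm u w
      · simp only [if_pos h2]
        rw [if_pos ⟨hi, hu, h2⟩]
      · simp only [if_neg h2]
        rw [if_neg (fun h0 => h2 h0.2.2)]
    simp only [hE]
    by_cases hz : Sp z
    · rw [if_pos ⟨hu, hz⟩]
      rw [D4_sum hu hz (fun s' => ee1 k i u.2.2.2 s')]
      unfold ee1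
      rw [← Finset.mul_sum, Finset.sum_comm, mul_assoc]
      congr 1
      have h2 : ∀ m : ZMod 3, ∑ σ : ZMod 3, vm k m u.2.2.2 *
          (vma k (m - chi1 k (u.2.2.2 i) (i - m)) (fun l => z.2.2.2 (l - σ)) +
            vmb k (m - chi2 k (u.2.2.2 i) (i - m)) (fun l => z.2.2.2 (l - σ))) =
            vm k m u.2.2.2 * vbar k z.2.2.2 := by
        intro m
        rw [← Finset.mul_sum]
        congr 1
        rw [Finset.sum_add_distrib, ← D4_split]
        simp only [D4_vma, D4_vmb]
        congr 1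
        · exact D4_shift (fun t => vma k t z.2.2.2) _
        · exact D4_shift (fun t => vmb k t z.2.2.2) _
      simp only [h2]
      rw [← Finset.sum_mul]
      rfl
    · rw [if_neg (fun h => hz h.2)]
      apply Finset.sum_eq_zero
      intro σ _
      apply Finset.sum_eq_zero
      intro ρ _
      rw [if_neg (D4_not hu hz σ ρ)]
  · rw [if_neg (fun h => hu h.1)]
    apply Finset.sum_eq_zero
    intro σ _
    apply Finset.sum_eq_zero
    intro ρ _
    unfold E0'
    rcases hx0 : x.1 with _ | j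
    · rfl
    · show (if VK j x u ∧ Sp u ∧ Sm u (phi σ ρ z) then _ else _) = _
      rw [if_neg (fun h0 => hu h0.2.1)]

end EntRF

end
end

section

/-!
# D6 : zero marginals

`v3` has zero sums when one argument is fixed (positions 0, 1, 2); `v3b` and `v3a` when the argument
at position 1 or 2 is fixed. E.g. position 0, `a = A`: `k * 1 + wN^2 * (-k/wN^2) = 0`;
`a = W`: `k wN (-1/wN^2) + wN (-k/wN^2) + wN^2 (2k/wN^3) = 0`.
`vm_marg`: the position `i` of `s` is the argument `i - m ∈ {0,1,2}` of `v3`; transport the sum over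
`s : ZMod 3 → Site k` to a sum over triples (e.g. `s ↦ (s m, s (m+1), s (m+2))` is a bijection).
`ee0_marg`: from `vm_marg`. `ee1_marg_right` (fixed `s' i = r`): position `i` is the argument
`i - (m - χ) = (i - m) + χ` of `vma (m - χ1)` and `vmb (m - χ2)`; if `χ1 = χ2` use `vma + vmb = vm`;
`χ1 ≠ χ2` only for `i - m = 0`, `s i = A`, then `χ1 = -1` (argument 2), `χ2 = 1` (argument 1).
`ee1_marg_left` (fixed `s i = r`): the bracket does not depend on `s`, use `vm_marg`.
-/

noncomputable section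

namespace EntRF

open Finset
open scoped Classical

private theorem d6_ne (m : ZMod 3) : m + 1 ≠ m ∧ m + 2 ≠ m ∧ m + 2 ≠ m + 1 := by
  revert m; decide

private def d6E {α : Type} (m : ZMod 3) : (ZMod 3 → α) ≃ α × α × α where
  toFun s := (s m, s (m + 1), s (m + 2))
  invFun t l := if l = m then t.1 else if l = m + 1 then t.2.1 else t.2.2
  left_inv s := by
    funext l
    have h : l = m ∨ l = m + 1 ∨ l = m + 2 := by revert l m; decide
    obtain ⟨h1, h2, h3⟩ := d6_ne m
    rcases h with h | h | h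
    · simp [h]
    · simp [h]
    · simp [h, h2, h3]
  right_inv t := by
    obtain ⟨h1, h2, h3⟩ := d6_ne m
    obtain ⟨a, b, c⟩ := t
    simp only [if_true, if_neg h1, if_neg h2, if_neg h3]

private theorem d6_trip {α : Type} [Fintype α] (m : ZMod 3) (G : α → α → α → ℚ) :
    ∑ s : ZMod 3 → α, G (s m) (s (m + 1)) (s (m + 2)) = ∑ a, ∑ b, ∑ c, G a b c := by
  have h := (d6E (α := α) m).sum_comp (fun t : α × α × α => G t.1 t.2.1 t.2.2)
  refine Eq.trans h ?_
  rw [Fintype.sum_prod_type]
  exact Finset.sum_congr rfl fun a _ => Fintype.sum_prod_type _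

private theorem d6_gen {α : Type} [Fintype α] [DecidableEq α] (F : α → α → α → ℚ) (m i : ZMod 3) (r : α)
    (h0 : i - m = 0 → ∑ b, ∑ c, F r b c = 0) (h1 : i - m = 1 → ∑ a, ∑ c, F a r c = 0)
    (h2 : i - m = 2 → ∑ a, ∑ b, F a b r = 0) :
    ∑ s : ZMod 3 → α, (if s i = r then F (s m) (s (m + 1)) (s (m + 2)) else 0) = 0 := by
  have h : i = m ∨ i = m + 1 ∨ i = m + 2 := by
    clear h0 h1 h2
    revert i m; decide
  rcases h with h | h | h
  · subst h
    rw [d6_trip i (fun a b c => if a = r then F a b c else 0)]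
    rw [Finset.sum_eq_single r]
    · simpa using h0 (by simp)
    · intro a _ ha
      simp [ha]
    · intro hr; exact absurd (Finset.mem_univ _) hr
  · subst h
    rw [d6_trip m (fun a b c => if b = r then F a b c else 0)]
    refine Eq.trans (Finset.sum_congr rfl fun a _ => ?_) (h1 (by ring))
    rw [Finset.sum_eq_single r]
    · simp
    · intro b _ hb
      simp [hb]
    · intro hr; exact absurd (Finset.mem_univ _) hr
  · subst h
    rw [d6_trip m (fun a b c => if c = r then F a b c else 0)]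
    refine Eq.trans (Finset.sum_congr rfl fun a _ => Finset.sum_congr rfl fun b _ => ?_)
      (h2 (by ring))
    rw [Finset.sum_eq_single r]
    · simp
    · intro c _ hc
      simp [hc]
    · intro hr; exact absurd (Finset.mem_univ _) hr

private theorem d6_v0 (k : ℕ) (r : Site k) : ∑ b, ∑ c, v3 k r b c = 0 := by
  have hk : (k : ℚ) + 2 ≠ 0 := by positivity
  cases r <;> simp [sum_site, v3, wN] <;> field_simp <;> ring

private theorem d6_v1 (k : ℕ) (r : Site k) : ∑ a, ∑ c, v3 k a r c = 0 := by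
  have hk : (k : ℚ) + 2 ≠ 0 := by positivity
  cases r <;> simp [sum_site, v3, wN] <;> field_simp <;> ring

private theorem d6_v2 (k : ℕ) (r : Site k) : ∑ a, ∑ b, v3 k a b r = 0 := by
  have hk : (k : ℚ) + 2 ≠ 0 := by positivity
  cases r <;> simp [sum_site, v3, wN] <;> field_simp <;> ring

private theorem d6_b1 (k : ℕ) (r : Site k) : ∑ a, ∑ c, v3b k a r c = 0 := by
  have hk : (k : ℚ) + 2 ≠ 0 := by positivity
  cases r <;> simp [sum_site, v3b, wN] <;> field_simp <;> ring

private theorem d6_b2 (k : ℕ) (r : Site k) : ∑ a, ∑ b, v3b k a b r = 0 := by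
  have hk : (k : ℚ) + 2 ≠ 0 := by positivity
  cases r <;> simp [sum_site, v3b, wN] <;> field_simp <;> ring

theorem vm_marg (k : ℕ) (m i : ZMod 3) (r : Site k) :
    ∑ s : ZMod 3 → Site k, (if s i = r then vm k m s else 0) = 0 := by
  exact d6_gen (v3 k) m i r (fun _ => d6_v0 k r) (fun _ => d6_v1 k r) (fun _ => d6_v2 k r)

theorem vma_marg (k : ℕ) (m i : ZMod 3) (hi : i - m ≠ 0) (r : Site k) :
    ∑ s : ZMod 3 → Site k, (if s i = r then vma k m s else 0) = 0 := by
  refine d6_gen (v3a k) m i r (fun h => absurd h hi) (fun _ => ?_) (fun _ => ?_)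
  · simp only [v3a, Finset.sum_sub_distrib]
    rw [d6_v1, d6_b1, sub_zero]
  · simp only [v3a, Finset.sum_sub_distrib]
    rw [d6_v2, d6_b2, sub_zero]

theorem vmb_marg (k : ℕ) (m i : ZMod 3) (hi : i - m ≠ 0) (r : Site k) :
    ∑ s : ZMod 3 → Site k, (if s i = r then vmb k m s else 0) = 0 := by
  exact d6_gen (v3b k) m i r (fun h => absurd h hi) (fun _ => d6_b1 k r) (fun _ => d6_b2 k r)

theorem ee0_marg (k : ℕ) (s : ZMod 3 → Site k) (i : ZMod 3) (r : Site k) :
    ∑ s' : ZMod 3 → Site k, (if s' i = r then ee0 k s s' else 0) = 0 := by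
  have h : ∀ s' : ZMod 3 → Site k, (if s' i = r then ee0 k s s' else 0) =
      ∑ m, 3 * vm k m s * (if s' i = r then
        vm k (m - chi0 k (s m) (s (m + 1)) (s (m + 2))) s' else 0) := by
    intro s'
    split_ifs
    · rw [ee0, Finset.mul_sum]
      exact Finset.sum_congr rfl fun m _ => by ring
    · simp
  rw [Finset.sum_congr rfl fun s' _ => h s', Finset.sum_comm]
  refine Finset.sum_eq_zero fun m _ => ?_
  rw [← Finset.mul_sum, vm_marg, mul_zero]

theorem ee1_marg_right (k : ℕ) (s : ZMod 3 → Site k) (i : ZMod 3) (r : Site k) :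
    ∑ s' : ZMod 3 → Site k, (if s' i = r then ee1 k i s s' else 0) = 0 := by
  have h : ∀ s' : ZMod 3 → Site k, (if s' i = r then ee1 k i s s' else 0) =
      ∑ m, 3 * vm k m s * (if s' i = r then (vma k (m - chi1 k (s i) (i - m)) s' +
        vmb k (m - chi2 k (s i) (i - m)) s') else 0) := by
    intro s'
    split_ifs
    · rw [ee1, Finset.mul_sum]
      exact Finset.sum_congr rfl fun m _ => by ring
    · simp
  rw [Finset.sum_congr rfl fun s' _ => h s', Finset.sum_comm]
  refine Finset.sum_eq_zero fun m _ => ?_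
  rw [← Finset.mul_sum]
  have key : ∑ s' : ZMod 3 → Site k, (if s' i = r then (vma k (m - chi1 k (s i) (i - m)) s' +
        vmb k (m - chi2 k (s i) (i - m)) s') else 0) = 0 := by
    by_cases hp : i - m = 0
    · have e1 : i - (m - chi1 k (s i) (i - m)) ≠ 0 := by
        have : i - (m - chi1 k (s i) (i - m)) = chi1 k (s i) (i - m) := by
          rw [← sub_add, hp, zero_add]
        rw [this, hp]
        generalize s i = t
        have hh : (1 : ZMod 3) ≠ 0 ∧ (-1 : ZMod 3) ≠ 0 := by decide
        cases t <;> simp [chi1, chi2, hh]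
      have e2 : i - (m - chi2 k (s i) (i - m)) ≠ 0 := by
        have : i - (m - chi2 k (s i) (i - m)) = chi2 k (s i) (i - m) := by
          rw [← sub_add, hp, zero_add]
        rw [this, hp]
        generalize s i = t
        have hh : (1 : ZMod 3) ≠ 0 ∧ (-1 : ZMod 3) ≠ 0 := by decide
        cases t <;> simp [chi1, chi2, hh]
      have e3 := vma_marg k (m - chi1 k (s i) (i - m)) i e1 r
      have e4 := vmb_marg k (m - chi2 k (s i) (i - m)) i e2 r
      refine Eq.trans ?_ ((congrArg₂ (· + ·) e3 e4).trans (add_zero 0))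
      rw [← Finset.sum_add_distrib]
      refine Finset.sum_congr rfl fun s' _ => ?_
      split_ifs
      · rfl
      · rw [add_zero]
    · have e : chi1 k (s i) (i - m) = chi2 k (s i) (i - m) := by
        unfold chi1 chi2
        rw [if_neg hp, if_neg hp]
      rw [e]
      have e5 := vm_marg k (m - chi2 k (s i) (i - m)) i r
      refine Eq.trans (Finset.sum_congr rfl fun s' _ => ?_) e5
      split_ifs
      · rw [vma, vmb, vm, v3a]; ring
      · rfl
  rw [key, mul_zero]

theorem ee1_marg_left (k : ℕ) (s' : ZMod 3 → Site k) (i : ZMod 3) (r : Site k) :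
    ∑ s : ZMod 3 → Site k, (if s i = r then ee1 k i s s' else 0) = 0 := by
  have h : ∀ s : ZMod 3 → Site k, (if s i = r then ee1 k i s s' else 0) =
      ∑ m, 3 * (vma k (m - chi1 k r (i - m)) s' +
        vmb k (m - chi2 k r (i - m)) s') * (if s i = r then vm k m s else 0) := by
    intro s
    split_ifs with hs
    · rw [ee1, Finset.mul_sum, hs]
      exact Finset.sum_congr rfl fun m _ => by ring
    · simp
  rw [Finset.sum_congr rfl fun s _ => h s, Finset.sum_comm]
  refine Finset.sum_eq_zero fun m _ => ?_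
  rw [← Finset.mul_sum, vm_marg, mul_zero]

end EntRF

end
end

section

/-!
# D8 : the signed couplings of the extra kernel

`ca_scpl`. Support: if `VK i x u`, `z = upd u i (y.site i)`, `Sm x y` then `VK i y z`.
`sum_z` (`VK i x u`, `i` unique by `addL_inj`): exactly one `z`. `sum_u` (`VK i y z`): if `E0 x y ≠ 0`
then `Sm x y`, and exactly one `u` satisfies `VK i x u`, `z = upd u i (y.site i)`, namely
`u = upd z i (x.site i)`. `sum_y` (`VK i x u`): `z = upd u i r` with `r = z.site i` must hold, then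
`y` runs over the `y` with `Sm x y`, `y.site i = r`: `ee0_marg` gives 0.

`cb_scpl` (`x.1 = some i`). Support: `y = upd x i (z.site i)`, `VK i x u`, `Sm u z` imply `VK i y z`.
`sum_z` (`VA x u`): `z` with `Sm u z` and `z.site i = r`: `ee1_marg_right` gives 0.
`sum_u`: `u` with `Sm u z` and `u.site i = x.site i` (`VK i x u` is otherwise determined by `z`):
`ee1_marg_left` gives 0. `sum_y`: exactly one `y`, gives `E0' x u z`.
-/

noncomputable section

namespace EntRF

open Finset
open scoped Classical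

variable {J : Type} [Fintype J] [Zero J] {k : ℕ}

omit [Fintype J] [Zero J] in
private theorem VK_unique {S : Type} {x u : Om J S} {i i' : ZMod 3} (h : VK i x u)
    (h' : VK i' x u) : i' = i :=
  addL_inj x.1 i' i (h'.1.symm.trans h.1)

omit [Fintype J] in
private theorem E0_ne {x y : Om J (Site k)} (h : E0 x y ≠ 0) : Sm x y := by
  unfold E0 at h
  split_ifs at h with h'
  · exact h'.2
  · exact absurd rfl h

omit [Fintype J] in
/-- For `VK i x u` the sum over the kinds reduces to one term. -/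
private theorem ca_eq {x u : Om J (Site k)} {i : ZMod 3} (h : VK i x u) (y z : Om J (Site k)) :
    ca x y u z = if z = upd u i (y.2.2.2 i) then E0 x y else 0 := by
  unfold ca
  rw [Finset.sum_eq_single i]
  · simp [h]
  · intro i' _ hi'
    rw [if_neg]
    rintro ⟨h1, -⟩
    exact hi' (VK_unique h h1)
  · intro h'; exact absurd (Finset.mem_univ _) h'

omit [Fintype J] in
private theorem ca_ne {x y u z : Om J (Site k)} (h : ca x y u z ≠ 0) :
    ∃ i, VK i x u ∧ z = upd u i (y.2.2.2 i) ∧ E0 x y ≠ 0 := by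
  unfold ca at h
  obtain ⟨i, -, hi⟩ := Finset.exists_ne_zero_of_sum_ne_zero h
  split_ifs at hi with h'
  · exact ⟨i, h'.1, h'.2, hi⟩
  · exact absurd rfl hi

omit [Fintype J] [Zero J] in
private theorem VK_of_upd {x y u z : Om J (Site k)} {i : ZMod 3} (h : VK i x u)
    (hz : z = upd u i (y.2.2.2 i)) (hS : Sm x y) : VK i y z := by
  subst hz
  refine ⟨?_, ?_, ?_⟩
  · show u.1 = addL y.1 i
    rw [h.1, hS.1]
  · show u.2.2.1 i = y.2.2.1 i
    rw [h.2.1, hS.2.2]
  · show Function.update u.2.2.2 i (y.2.2.2 i) i = y.2.2.2 i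
    simp

theorem ca_scpl : SCpl (VA (J := J) (S := Site k)) E0 (fun _ _ _ => 0) ca := by
  refine ⟨?_, ?_, ?_, ?_⟩
  · intro x y u z h
    obtain ⟨i, h1, h2, h3⟩ := ca_ne h
    exact ⟨⟨i, h1⟩, ⟨i, VK_of_upd h1 h2 (E0_ne h3)⟩⟩
  · rintro x y u ⟨i, hi⟩
    simp only [ca_eq hi]
    simp
  · rintro x y z ⟨i, hi⟩
    by_cases h0 : E0 x y = 0
    · rw [h0]
      refine Finset.sum_eq_zero fun u _ => ?_
      unfold ca
      refine Finset.sum_eq_zero fun j _ => ?_
      simp [h0]
    · have hS : Sm x y := E0_ne h0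
      have hu : VK i x (upd z i (x.2.2.2 i)) := by
        refine ⟨?_, ?_, ?_⟩
        · show z.1 = addL x.1 i
          rw [hi.1, hS.1]
        · show z.2.2.1 i = x.2.2.1 i
          rw [hi.2.1, hS.2.2]
        · show Function.update z.2.2.2 i (x.2.2.2 i) i = x.2.2.2 i
          simp
      rw [Finset.sum_eq_single (upd z i (x.2.2.2 i))]
      · rw [ca_eq hu, if_pos]
        show z = (z.1, z.2.1, z.2.2.1,
          Function.update (Function.update z.2.2.2 i (x.2.2.2 i)) i (y.2.2.2 i))
        rw [Function.update_idem, ← hi.2.2, Function.update_eq_self]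
      · intro u _ hne
        by_contra hca
        obtain ⟨j, h1, h2, -⟩ := ca_ne hca
        have hj := VK_of_upd h1 h2 hS
        have hji : j = i := VK_unique hi hj
        subst hji
        apply hne
        rw [h2]
        show u = (u.1, u.2.1, u.2.2.1,
          Function.update (Function.update u.2.2.2 j (y.2.2.2 j)) j (x.2.2.2 j))
        rw [Function.update_idem, ← h1.2.2, Function.update_eq_self]
      · intro h'; exact absurd (Finset.mem_univ _) h'
  · rintro x u z ⟨i, hi⟩
    simp only [ca_eq hi]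
    by_cases hz : z = upd u i (z.2.2.2 i)
    · have h1 : ∀ y : Om J (Site k), (if z = upd u i (y.2.2.2 i) then E0 x y else 0) =
          if y.2.2.2 i = z.2.2.2 i then E0 x y else 0 := by
        intro y
        have : z = upd u i (y.2.2.2 i) ↔ y.2.2.2 i = z.2.2.2 i := by
          constructor
          · intro h
            have h2 := congrArg (fun w : Om J (Site k) => w.2.2.2 i) h
            simp only [upd, Function.update_self] at h2
            exact h2.symm
          · intro h
            rw [h]; exact hz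
        by_cases h : y.2.2.2 i = z.2.2.2 i
        · rw [if_pos (this.2 h), if_pos h]
        · rw [if_neg (fun h' => h (this.1 h')), if_neg h]
      simp only [h1]
      generalize z.2.2.2 i = r
      by_cases hSp : Sp x
      · refine Eq.trans ?_ (ee0_marg k x.2.2.2 i r)
        rw [Fintype.sum_prod_type, Finset.sum_eq_single x.1]
        · rw [Fintype.sum_prod_type, Finset.sum_eq_single x.2.1]
          · rw [Fintype.sum_prod_type, Finset.sum_eq_single x.2.2.1]
            · refine Finset.sum_congr rfl fun s _ => ?_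
              simp only [E0]
              rw [if_pos (show Sp x ∧ Sm x (x.1, x.2.1, x.2.2.1, s) from ⟨hSp, rfl, rfl, rfl⟩)]
            · intro j _ hj
              refine Finset.sum_eq_zero fun s _ => ?_
              have : E0 x ((x.1, x.2.1, j, s) : Om J (Site k)) = 0 := by
                by_contra hne
                exact hj (E0_ne hne).2.2
              simp [this]
            · intro h'; exact absurd (Finset.mem_univ _) h'
          · intro t _ ht
            refine Finset.sum_eq_zero fun w _ => ?_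
            have : E0 x ((x.1, t, w) : Om J (Site k)) = 0 := by
              by_contra hne
              exact ht (E0_ne hne).2.1
            simp [this]
          · intro h'; exact absurd (Finset.mem_univ _) h'
        · intro ℓ _ hℓ
          refine Finset.sum_eq_zero fun w _ => ?_
          have : E0 x ((ℓ, w) : Om J (Site k)) = 0 := by
            by_contra hne
            exact hℓ (E0_ne hne).1
          simp [this]
        · intro h'; exact absurd (Finset.mem_univ _) h'
      · refine Finset.sum_eq_zero fun y _ => ?_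
        have : E0 x y = 0 := by
          unfold E0
          rw [if_neg (fun h => hSp h.1)]
        simp [this]
    · refine Finset.sum_eq_zero fun y _ => ?_
      rw [if_neg]
      intro h
      apply hz
      have h2 := congrArg (fun w : Om J (Site k) => w.2.2.2 i) h
      simp only [upd, Function.update_self] at h2
      rw [h2]; exact h

end EntRF

end
end

section

/-!
# D9 : the second signed coupling of the extra kernel

`cb_scpl` (`x.1 = some i`; for `x.1 = none` everything is 0). Support: `y = upd x i (z.site i)`,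
`VK i x u`, `Sm u z` imply `VK i y z`.
`sum_z` (`VA x u`): let `r = y.site i`; if `y ≠ upd x i r` the sum is 0; otherwise `z` runs over the
`z` with `Sm u z` and `z.site i = r`: `ee1_marg_right` gives 0.
`sum_u` (`VA y z`): if `y = upd x i (z.site i)` and `z` special, `u` runs over the `u` with `Sm u z`
and `u.site i = x.site i` (level and colours of `VK i x u` follow from `VA y z`: as `z.1 = none`, the
kind is `i`): `ee1_marg_left` gives 0. `sum_y`: exactly one `y`, gives `E0' x u z`.
-/

noncomputable section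

namespace EntRF

open Finset
open scoped Classical

variable {J : Type} [Fintype J] [Zero J] {k : ℕ}

private theorem d9_sum_right (u : Om J (Site k)) (g : (ZMod 3 → Site k) → ℚ) :
    ∑ z : Om J (Site k), (if Sm u z then g z.2.2.2 else 0) = ∑ s, g s := by
  rw [← Finset.sum_filter]
  refine Finset.sum_nbij' (fun z => z.2.2.2) (fun s => (u.1, u.2.1, u.2.2.1, s)) ?_ ?_ ?_ ?_ ?_
  · intro z _
    exact mem_univ _
  · intro s _
    rw [mem_filter]
    exact ⟨mem_univ _, rfl, rfl, rfl⟩
  · intro z hz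
    rw [mem_filter] at hz
    obtain ⟨-, h1, h2, h3⟩ := hz
    obtain ⟨z1, z2, z3, z4⟩ := z
    simp only at h1 h2 h3
    rw [h1, h2, h3]
  · intro s _
    rfl
  · intro z _
    rfl

private theorem d9_sum_left (z : Om J (Site k)) (g : (ZMod 3 → Site k) → ℚ) :
    ∑ u : Om J (Site k), (if Sm u z then g u.2.2.2 else 0) = ∑ s, g s := by
  rw [← Finset.sum_filter]
  refine Finset.sum_nbij' (fun u => u.2.2.2) (fun s => (z.1, z.2.1, z.2.2.1, s)) ?_ ?_ ?_ ?_ ?_
  · intro u _
    exact mem_univ _
  · intro s _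
    rw [mem_filter]
    exact ⟨mem_univ _, rfl, rfl, rfl⟩
  · intro u hu
    rw [mem_filter] at hu
    obtain ⟨-, h1, h2, h3⟩ := hu
    obtain ⟨u1, u2, u3, u4⟩ := u
    simp only at h1 h2 h3
    rw [h1, h2, h3]
  · intro s _
    rfl
  · intro u _
    rfl

omit [Fintype J] [Zero J] in
private theorem d9_upd_site (x : Om J (Site k)) (i : ZMod 3) (a : Site k) :
    (upd x i a).2.2.2 i = a := by
  show Function.update x.2.2.2 i a i = a
  exact Function.update_self _ _ _

private theorem d9_E0' (x u z : Om J (Site k)) (i : ZMod 3) (hx : x.1 = some i) :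
    E0' x u z = if VK i x u ∧ Sp u ∧ Sm u z then ee1 k i u.2.2.2 z.2.2.2 else 0 := by
  unfold E0'
  rw [hx]

private theorem d9_cb (x y u z : Om J (Site k)) (i : ZMod 3) (hx : x.1 = some i) :
    cb x y u z = if y = upd x i (z.2.2.2 i) then
      (if VK i x u ∧ Sp u ∧ Sm u z then ee1 k i u.2.2.2 z.2.2.2 else 0) else 0 := by
  rw [← d9_E0' x u z i hx]
  unfold cb
  rw [hx]

private theorem d9_cb_none (x y u z : Om J (Site k)) (hx : x.1 = none) :
    cb x y u z = 0 := by
  unfold cb
  rw [hx]

private theorem d9_E0'_none (x u z : Om J (Site k)) (hx : x.1 = none) :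
    E0' x u z = 0 := by
  unfold E0'
  rw [hx]

theorem cb_scpl : SCpl (VA (J := J) (S := Site k)) (fun _ _ => 0) E0' cb := by
  constructor
  · intro x y u z hne
    rcases hx : x.1 with _ | i
    · exact absurd (d9_cb_none x y u z hx) hne
    · rw [d9_cb x y u z i hx] at hne
      by_cases h1 : y = upd x i (z.2.2.2 i)
      · rw [if_pos h1] at hne
        by_cases h2 : VK i x u ∧ Sp u ∧ Sm u z
        · obtain ⟨⟨ha, hb, hc⟩, hSp, hm1, hm2, hm3⟩ := h2
          refine ⟨⟨i, ha, hb, hc⟩, ⟨i, ?_, ?_, ?_⟩⟩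
          · rw [h1, hm1, ha]
            rfl
          · rw [hm3, hb, h1]
            rfl
          · conv_rhs => rw [h1]
            exact (d9_upd_site x i _).symm
        · rw [if_neg h2] at hne
          exact absurd rfl hne
      · rw [if_neg h1] at hne
        exact absurd rfl hne
  · intro x y u _
    rcases hx : x.1 with _ | i
    · exact Finset.sum_eq_zero fun z _ => d9_cb_none x y u z hx
    · by_cases h0 : (y = upd x i (y.2.2.2 i)) ∧ VK i x u ∧ Sp u
      · obtain ⟨h1, h2, h3⟩ := h0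
        have h : ∀ z : Om J (Site k), cb x y u z =
            if Sm u z then (if z.2.2.2 i = y.2.2.2 i then ee1 k i u.2.2.2 z.2.2.2 else 0) else 0 := by
          intro z
          rw [d9_cb x y u z i hx]
          by_cases hz : z.2.2.2 i = y.2.2.2 i
          · have : y = upd x i (z.2.2.2 i) := by rw [hz]; exact h1
            rw [if_pos this]
            by_cases hS : Sm u z
            · rw [if_pos ⟨h2, h3, hS⟩, if_pos hS, if_pos hz]
            · rw [if_neg (fun h => hS h.2.2), if_neg hS]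
          · have : ¬ y = upd x i (z.2.2.2 i) := by
              intro hy
              apply hz
              conv_rhs => rw [hy]
              exact (d9_upd_site x i _).symm
            rw [if_neg this, if_neg hz, ite_self]
        rw [Finset.sum_congr rfl fun z _ => h z,
          d9_sum_right u (fun s => if s i = y.2.2.2 i then ee1 k i u.2.2.2 s else 0)]
        exact ee1_marg_right k u.2.2.2 i (y.2.2.2 i)
      · refine Finset.sum_eq_zero fun z _ => ?_
        rw [d9_cb x y u z i hx]
        by_cases h1 : y = upd x i (z.2.2.2 i)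
        · rw [if_pos h1]
          apply if_neg
          rintro ⟨h2, h3, -⟩
          apply h0
          refine ⟨?_, h2, h3⟩
          have : y.2.2.2 i = z.2.2.2 i := by
            conv_lhs => rw [h1]
            exact d9_upd_site x i _
          rw [this]
          exact h1
        · rw [if_neg h1]
  · intro x y z hyz
    rcases hx : x.1 with _ | i
    · exact Finset.sum_eq_zero fun u _ => d9_cb_none x y u z hx
    · by_cases h0 : (y = upd x i (z.2.2.2 i)) ∧ Sp z
      · obtain ⟨h1, h3⟩ := h0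
        obtain ⟨i', hi1, hi2, hi3⟩ := hyz
        have hy1 : y.1 = x.1 := by rw [h1]; rfl
        have hi' : i' = i := by
          rw [hy1, hx, h3.1] at hi1
          by_contra hne
          have h4 : addL (some i) i' = some (-(i' + i)) := by
            show (if i = i' then none else some (-(i' + i))) = _
            rw [if_neg (fun h => hne h.symm)]
          rw [h4] at hi1
          exact absurd hi1 (by simp)
        subst hi'
        have h : ∀ u : Om J (Site k), cb x y u z =
            if Sm u z then (if u.2.2.2 i' = x.2.2.2 i' then ee1 k i' u.2.2.2 z.2.2.2 else 0)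
              else 0 := by
          intro u
          rw [d9_cb x y u z i' hx, if_pos h1]
          by_cases hS : Sm u z
          · rw [if_pos hS]
            obtain ⟨hm1, hm2, hm3⟩ := hS
            by_cases hu : u.2.2.2 i' = x.2.2.2 i'
            · rw [if_pos hu]
              apply if_pos
              refine ⟨⟨?_, ?_, hu⟩, (Sp_of_Sm ⟨hm1, hm2, hm3⟩).2 h3, hm1, hm2, hm3⟩
              · rw [← hm1, hi1, hy1]
              · rw [← hm3, hi2, h1]
                rfl
            · rw [if_neg hu]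
              apply if_neg
              rintro ⟨⟨-, -, hc⟩, -⟩
              exact hu hc
          · rw [if_neg hS]
            apply if_neg
            rintro ⟨-, -, hc⟩
            exact hS hc
        rw [Finset.sum_congr rfl fun u _ => h u,
          d9_sum_left z (fun s => if s i' = x.2.2.2 i' then ee1 k i' s z.2.2.2 else 0)]
        exact ee1_marg_left k z.2.2.2 i' (x.2.2.2 i')
      · refine Finset.sum_eq_zero fun u _ => ?_
        rw [d9_cb x y u z i hx]
        by_cases h1 : y = upd x i (z.2.2.2 i)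
        · rw [if_pos h1]
          apply if_neg
          rintro ⟨-, h2, h3⟩
          exact h0 ⟨h1, (Sp_of_Sm h3).1 h2⟩
        · rw [if_neg h1]
  · intro x u z _
    rcases hx : x.1 with _ | i
    · rw [d9_E0'_none x u z hx]
      exact Finset.sum_eq_zero fun y _ => d9_cb_none x y u z hx
    · rw [d9_E0' x u z i hx, Finset.sum_congr rfl fun y _ => d9_cb x y u z i hx]
      rw [Finset.sum_ite_eq' Finset.univ (upd x i (z.2.2.2 i))]
      rw [if_pos (Finset.mem_univ _)]

end EntRF

end
end

section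

/-!
# D10 : nonnegativity of `c00`

If `ca x y u z ≠ 0`: `Sp x`, `Sm x y`, `VK i x u` (so `u.1 = some i`), `z = upd u i (y.site i)`; then
`cb x y u z = 0` (`x.1 = none`) and `cpr (qP k) x y u z ≥` its `i`-th term
`= ∏ l, qs (x l) (y l)` (the second product is 1 because for `l ≠ i` the kernel `qP (some i) l` is
the identity kernel and `z l = u l`). Use `Kin0`.
If `cb x y u z ≠ 0`: `x.1 = some i`, `VK i x u`, `Sp u`, `Sm u z`, `y = upd x i (z.site i)`;
`ca x y u z = 0` (`x` not special); `VK i y z` holds and the `i`-th term of `cpr` is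
`qs (x i) (z i) * ∏_{l ≠ i} qs (u l) (z l) = ∏ l, qs (u l) (z l)` (`x i = u i`). Use `Kin1`.
-/

noncomputable section

namespace EntRF

open Finset
open scoped Classical

variable {J : Type} [Fintype J] [Zero J] {k : ℕ}

omit [Fintype J] [Zero J] in
/-- `cpr` is at least each of its terms. -/
private theorem cpr_ge {qq : Option (ZMod 3) → ZMod 3 → Site k → Site k → ℚ} (h : DSt qq)
    {x y u z : Om J (Site k)} (i : ZMod 3) (hc : VK i x u ∧ VK i y z ∧ Sm x y ∧ Sm u z) :
    (∏ l, qq x.1 l (x.2.2.2 l) (y.2.2.2 l)) *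
      ∏ l, (if l = i then 1 else qq u.1 l (u.2.2.2 l) (z.2.2.2 l)) ≤ cpr qq x y u z := by
  have h1 := Finset.single_le_sum (f := fun i => if VK i x u ∧ VK i y z ∧ Sm x y ∧ Sm u z then
    (∏ l, qq x.1 l (x.2.2.2 l) (y.2.2.2 l)) *
      ∏ l, (if l = i then 1 else qq u.1 l (u.2.2.2 l) (z.2.2.2 l)) else 0)
    (s := Finset.univ) (fun j _ => ?_) (Finset.mem_univ i)
  · simp only [if_pos hc] at h1
    exact h1
  · show 0 ≤ ite _ _ _
    split_ifs
    · refine mul_nonneg (prod_nonneg fun l _ => h.nonneg _ _ _ _) (prod_nonneg fun l _ => ?_)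
      split_ifs
      · exact zero_le_one
      · exact h.nonneg _ _ _ _
    · exact le_rfl

theorem c00_nonneg (hk : 1 ≤ k) (x y u z : Om J (Site k)) : 0 ≤ c00 x y u z := by
  have hD := dst_qP hk
  have hcpr : 0 ≤ cpr (qP k) x y u z := cpr_nonneg hD x y u z
  unfold c00
  rcases hx : x.1 with _ | i
  · -- the base has level `none`
    have hcb : cb x y u z = 0 := by
      unfold cb
      rw [hx]
    by_cases hi : ∃ i, VK i x u ∧ z = upd u i (y.2.2.2 i)
    · obtain ⟨i, hi, hz⟩ := hi
      have hca : ca x y u z = E0 x y := by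
        unfold ca
        rw [Fintype.sum_eq_single i fun j hj => ?_]
        · rw [if_pos ⟨hi, hz⟩]
        · rw [if_neg]
          rintro ⟨hj', -⟩
          exact hj (addL_inj x.1 j i (hj'.1.symm.trans hi.1))
      by_cases hS : Sp x ∧ Sm x y
      · have hE : E0 x y = ee0 k x.2.2.2 y.2.2.2 := by
          unfold E0
          rw [if_pos hS]
        obtain ⟨-, hxy⟩ := hS
        have hu1 : u.1 = some i := by
          rw [hi.1, hx]
          rfl
        have hyz : VK i y z := by
          refine ⟨?_, ?_, ?_⟩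
          · rw [hz, hxy.1]
            exact hi.1
          · rw [hz, hxy.2.2]
            exact hi.2.1
          · rw [hz]
            exact Function.update_self i (y.2.2.2 i) u.2.2.2
        have huz : Sm u z := by
          rw [hz]
          exact ⟨rfl, rfl, rfl⟩
        have h1 := cpr_ge hD i ⟨hi, hyz, hxy, huz⟩
        have e1 : (∏ l, qP k x.1 l (x.2.2.2 l) (y.2.2.2 l)) =
            ∏ l, qs k (x.2.2.2 l) (y.2.2.2 l) := by
          refine prod_congr rfl fun l _ => ?_
          unfold qP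
          rw [if_pos (Or.inl hx)]
        have e2 : (∏ l, (if l = i then 1 else qP k u.1 l (u.2.2.2 l) (z.2.2.2 l))) = 1 := by
          refine prod_eq_one fun l _ => ?_
          by_cases hl : l = i
          · rw [if_pos hl]
          · have hzl : z.2.2.2 l = u.2.2.2 l := by
              rw [hz]
              exact Function.update_of_ne hl (y.2.2.2 i) u.2.2.2
            rw [if_neg hl, hzl]
            unfold qP
            rw [if_neg, if_pos rfl]
            rw [hu1]
            rintro (h | h)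
            · cases h
            · exact hl (Option.some.inj h).symm
        rw [e1, e2, mul_one] at h1
        have h2 := Kin0 hk x.2.2.2 y.2.2.2
        rw [hca, hcb, hE, add_zero]
        linarith
      · have hE : E0 x y = 0 := by
          unfold E0
          rw [if_neg hS]
        rw [hca, hcb, hE, add_zero, mul_zero, add_zero]
        exact hcpr
    · have hca : ca x y u z = 0 := by
        unfold ca
        refine sum_eq_zero fun i _ => ?_
        rw [if_neg fun h => hi ⟨i, h⟩]
      rw [hca, hcb, add_zero, mul_zero, add_zero]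
      exact hcpr
  · -- the base has level `some i`
    have hca : ca x y u z = 0 := by
      unfold ca
      refine sum_eq_zero fun j _ => ?_
      have hE : E0 x y = 0 := by
        unfold E0
        rw [if_neg]
        rintro ⟨h, -⟩
        have := h.1
        rw [hx] at this
        cases this
      rw [hE, ite_self]
    have hcb : cb x y u z = if y = upd x i (z.2.2.2 i) then E0' x u z else 0 := by
      unfold cb
      rw [hx]
    have hE' : E0' x u z = if VK i x u ∧ Sp u ∧ Sm u z then ee1 k i u.2.2.2 z.2.2.2 else 0 := by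
      unfold E0'
      rw [hx]
    by_cases hy : y = upd x i (z.2.2.2 i)
    · by_cases hc : VK i x u ∧ Sp u ∧ Sm u z
      · obtain ⟨hi, hu, huz⟩ := hc
        have hyz : VK i y z := by
          refine ⟨?_, ?_, ?_⟩
          · rw [hy, huz.1]
            exact hi.1
          · rw [hy, huz.2.2]
            exact hi.2.1
          · rw [hy]
            exact (Function.update_self i (z.2.2.2 i) x.2.2.2).symm
        have hxy : Sm x y := by
          rw [hy]
          exact ⟨rfl, rfl, rfl⟩
        have h1 := cpr_ge hD i ⟨hi, hyz, hxy, huz⟩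
        have e1 : (∏ l, qP k x.1 l (x.2.2.2 l) (y.2.2.2 l)) *
            ∏ l, (if l = i then 1 else qP k u.1 l (u.2.2.2 l) (z.2.2.2 l)) =
            ∏ l, qs k (u.2.2.2 l) (z.2.2.2 l) := by
          rw [← prod_mul_distrib]
          refine prod_congr rfl fun l _ => ?_
          by_cases hl : l = i
          · have hyl : y.2.2.2 l = z.2.2.2 l := by
              rw [hy, hl]
              exact Function.update_self i (z.2.2.2 i) x.2.2.2
            have hxl : x.2.2.2 l = u.2.2.2 l := by
              rw [hl]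
              exact hi.2.2.symm
            rw [if_pos hl, mul_one, hyl, hxl]
            unfold qP
            rw [if_pos]
            right
            rw [hx, hl]
          · have hyl : y.2.2.2 l = x.2.2.2 l := by
              rw [hy]
              exact Function.update_of_ne hl (z.2.2.2 i) x.2.2.2
            rw [if_neg hl, hyl]
            unfold qP
            rw [if_neg, if_pos rfl, one_mul, if_pos (Or.inl hu.1)]
            rw [hx]
            rintro (h | h)
            · cases h
            · exact hl (Option.some.inj h).symm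
        rw [e1] at h1
        have h2 := Kin1 hk i u.2.2.2 z.2.2.2
        rw [hca, hcb, if_pos hy, hE', if_pos ⟨hi, hu, huz⟩, zero_add]
        linarith
      · rw [hca, hcb, if_pos hy, hE', if_neg hc, add_zero, mul_zero, add_zero]
        exact hcpr
    · rw [hca, hcb, if_neg hy, add_zero, mul_zero, add_zero]
      exact hcpr

end EntRF

end
end

section

/-!
# D11 : the kernel `PP`

`cPP_cpl`: `c00` is a signed coupling with `P x y = Pr x y + τ E0 x y` and
`P' x u z = Pr u z + τ E0' x u z` (`cpr_scpl`, `ca_scpl`, `cb_scpl`, `SCpl.add`, `SCpl.smul`);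
compose with the automorphisms `phi σ ρ` (`SCpl.aut`, `VA_phi`) and average (`SCpl.sum`, `SCpl.smul`).
For `VA x u`, `∑∑ E0' x u (phi z) = ∑∑ E0 u (phi z)` by D4. Nonnegativity: `c00_nonneg`.

`PP_nonneg`: every `x` has some `u` with `VA x u`; `PP x y = ∑ z, cPP x y u z ≥ 0`.
`PP_symm`: for the main part `Pr x (phi σ ρ y) = Pr y (phi (-σ) (-ρ) x)` (invariance under `phi`,
symmetry of `Pr`, `tsO_rotO`); for the extra part `sum_E0`.
`PP_sum`: `∑ y, Pr x (phi σ ρ y) = ∑ y, Pr x y = 1`; the extra part sums to 0 (`∑ s, vm k m s = 0` from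
`vm_marg`).
`PP_block`: `Pr x (phi σ ρ y) ≠ 0` or `E0 x (phi σ ρ y) ≠ 0` give `Sm x (phi σ ρ y)`, so `Bk x y`
(for special points all tags are in the block).
-/

noncomputable section

namespace EntRF

open Finset
open scoped Classical

variable {J : Type} [Fintype J] [Zero J] {k : ℕ}

private lemma D11_c00 (hk : 1 ≤ k) : SCpl (VA (J := J) (S := Site k))
    (fun x y => Pr (qP k) x y + tau k * E0 x y)
    (fun x u z => Pr (qP k) u z + tau k * E0' x u z) c00 := by
  have h1 := cpr_scpl (J := J) (dst_qP hk)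
  have h2 := (SCpl.add (ca_scpl (J := J) (k := k)) (cb_scpl (J := J) (k := k))).smul (tau k)
  have h3 := h1.add h2
  have e1 : (fun x y : Om J (Site k) => Pr (qP k) x y + tau k * (E0 x y + 0)) =
      (fun x y => Pr (qP k) x y + tau k * E0 x y) := by
    funext x y
    rw [add_zero]
  have e2 : (fun x u z : Om J (Site k) => Pr (qP k) u z + tau k * (0 + E0' x u z)) =
      (fun x u z => Pr (qP k) u z + tau k * E0' x u z) := by
    funext x u z
    rw [zero_add]
  have e3 : (fun x y u z : Om J (Site k) => cpr (qP k) x y u z +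
      tau k * (ca x y u z + cb x y u z)) = c00 := rfl
  rw [← e1, ← e2, ← e3]
  exact h3

private lemma D11_scpl (hk : 1 ≤ k) : SCpl (VA (J := J) (S := Site k)) PP
    (fun x u z => 1 / 9 * ∑ σ, ∑ ρ, (Pr (qP k) u (phi σ ρ z) + tau k * E0' x u (phi σ ρ z)))
    cPP := by
  have h0 := D11_c00 (J := J) hk
  have h1 : ∀ σ ρ : ZMod 3, SCpl (VA (J := J) (S := Site k)) _ _ _ :=
    fun σ ρ => SCpl.aut (phi σ ρ) (VA_phi σ ρ) h0
  have h2 := fun σ : ZMod 3 => SCpl.sum (Finset.univ : Finset (ZMod 3)) (fun ρ => h1 σ ρ)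
  have h3 := SCpl.sum (Finset.univ : Finset (ZMod 3)) h2
  exact h3.smul (1 / 9)

private lemma D11_sum_main (x : Om J (Site k)) (F : (ZMod 3 → Site k) → ℚ) :
    ∑ y : Om J (Site k), (if Sm x y then F y.2.2.2 else 0) = ∑ s, F s := by
  rw [Fintype.sum_prod_type]
  rw [Finset.sum_eq_single x.1]
  · rw [Fintype.sum_prod_type]
    rw [Finset.sum_eq_single x.2.1]
    · rw [Fintype.sum_prod_type]
      rw [Finset.sum_eq_single x.2.2.1]
      · apply Finset.sum_congr rfl
        intro s _
        rw [if_pos ⟨rfl, rfl, rfl⟩]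
      · intro c _ hc
        apply Finset.sum_eq_zero
        intro s _
        rw [if_neg (fun h => hc h.2.2)]
      · intro h
        exact absurd (Finset.mem_univ _) h
    · intro t _ ht
      apply Finset.sum_eq_zero
      intro w _
      rw [if_neg (fun h => ht h.2.1)]
    · intro h
      exact absurd (Finset.mem_univ _) h
  · intro l _ hl
    apply Finset.sum_eq_zero
    intro w _
    rw [if_neg (fun h => hl h.1)]
  · intro h
    exact absurd (Finset.mem_univ _) h

private lemma D11_Pr_sum (hk : 1 ≤ k) (x : Om J (Site k)) : ∑ y, Pr (qP k) x y = 1 := by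
  unfold Pr
  rw [D11_sum_main x (fun s => ∏ l, qP k x.1 l (x.2.2.2 l) (s l))]
  have h1 := Finset.prod_univ_sum (fun _ : ZMod 3 => (Finset.univ : Finset (Site k)))
    (fun l r => qP k x.1 l (x.2.2.2 l) r)
  rw [Fintype.piFinset_univ] at h1
  rw [← h1]
  exact Finset.prod_eq_one (fun l _ => (dst_qP hk).sum x.1 l (x.2.2.2 l))

private lemma D11_E0_sum (x : Om J (Site k)) : ∑ y, E0 x y = 0 := by
  by_cases hx : Sp x
  · have h1 : ∀ y : Om J (Site k), E0 x y =
        (if Sm x y then ee0 k x.2.2.2 y.2.2.2 else 0) := by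
      intro y
      unfold E0
      by_cases h : Sm x y
      · rw [if_pos ⟨hx, h⟩, if_pos h]
      · rw [if_neg (fun h0 => h h0.2), if_neg h]
    simp only [h1]
    rw [D11_sum_main x (fun s => ee0 k x.2.2.2 s)]
    have h2 : ∀ s' : ZMod 3 → Site k, ee0 k x.2.2.2 s' =
        ∑ r : Site k, (if s' 0 = r then ee0 k x.2.2.2 s' else 0) := by
      intro s'
      rw [Finset.sum_ite_eq]
      simp
    rw [Finset.sum_congr rfl (fun s' _ => h2 s'), Finset.sum_comm]
    exact Finset.sum_eq_zero (fun r _ => ee0_marg k x.2.2.2 0 r)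
  · apply Finset.sum_eq_zero
    intro y _
    unfold E0
    rw [if_neg (fun h => hx h.1)]

omit [Fintype J] [Zero J] in
private lemma D11_rot_symm (σ : ZMod 3) (x : Om J (Site k)) : rotO (-σ) (rotO σ x) = x := by
  have h : rotO (-σ) (rotO σ x) = (rotO σ).symm (rotO σ x) := by
    show ((rotO σ x).1.map (· + -σ), (rotO σ x).2.1 + -σ, fun l => (rotO σ x).2.2.1 (l - -σ),
      fun l => (rotO σ x).2.2.2 (l - -σ)) =
      ((rotO σ x).1.map (· - σ), (rotO σ x).2.1 - σ, fun l => (rotO σ x).2.2.1 (l + σ),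
      fun l => (rotO σ x).2.2.2 (l + σ))
    simp only [sub_eq_add_neg, neg_neg]
  rw [h, Equiv.symm_apply_apply]

omit [Fintype J] in
private lemma D11_ts_symm (ρ : ZMod 3) (x : Om J (Site k)) : tsO (-ρ) (tsO ρ x) = x := by
  have h : tsO (-ρ) (tsO ρ x) = (tsO ρ).symm (tsO ρ x) := by
    show (if Sp (tsO ρ x) then ((tsO ρ x).1, (tsO ρ x).2.1 + -ρ, (tsO ρ x).2.2.1,
      (tsO ρ x).2.2.2) else tsO ρ x) = (if Sp (tsO ρ x) then ((tsO ρ x).1, (tsO ρ x).2.1 - ρ,
      (tsO ρ x).2.2.1, (tsO ρ x).2.2.2) else tsO ρ x)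
    simp only [sub_eq_add_neg]
  rw [h, Equiv.symm_apply_apply]

omit [Fintype J] in
private lemma D11_phi_symm (σ ρ : ZMod 3) (x : Om J (Site k)) :
    phi (-σ) (-ρ) (phi σ ρ x) = x := by
  show tsO (-ρ) (rotO (-σ) (tsO ρ (rotO σ x))) = x
  rw [tsO_rotO σ ρ x, D11_rot_symm, D11_ts_symm]

omit [Fintype J] [Zero J] in
private lemma D11_Sm_symm {x y : Om J (Site k)} (h : Sm x y) : Sm y x :=
  ⟨h.1.symm, h.2.1.symm, h.2.2.symm⟩

private lemma D11_Pr_symm (hk : 1 ≤ k) (x y : Om J (Site k)) :
    Pr (qP k) x y = Pr (qP k) y x := by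
  unfold Pr
  by_cases h : Sm x y
  · rw [if_pos h, if_pos (D11_Sm_symm h), h.1]
    apply Finset.prod_congr rfl
    intro l _
    exact (dst_qP hk).symm _ _ _ _
  · rw [if_neg h, if_neg (fun h0 => h (D11_Sm_symm h0))]

private lemma D11_Pr_phi (hk : 1 ≤ k) (σ ρ : ZMod 3) (x y : Om J (Site k)) :
    Pr (qP k) (phi σ ρ x) (phi σ ρ y) = Pr (qP k) x y := by
  show Pr (qP k) (tsO ρ (rotO σ x)) (tsO ρ (rotO σ y)) = _
  rw [Pr_tsO, Pr_rotO (dst_qP hk)]

private lemma D11_Pr_swap (hk : 1 ≤ k) (σ ρ : ZMod 3) (x y : Om J (Site k)) :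
    Pr (qP k) x (phi σ ρ y) = Pr (qP k) y (phi (-σ) (-ρ) x) := by
  rw [← D11_Pr_phi hk (-σ) (-ρ) x (phi σ ρ y), D11_phi_symm, D11_Pr_symm hk]

theorem cPP_cpl (hk : 1 ≤ k) : IsCpl (VA (J := J) (S := Site k)) PP cPP := by
  apply SCpl.toCpl (D11_scpl hk)
  · intro x y u z
    unfold cPP
    apply mul_nonneg (by norm_num)
    apply Finset.sum_nonneg
    intro σ _
    apply Finset.sum_nonneg
    intro ρ _
    exact c00_nonneg hk _ _ _ _
  · intro x u z h
    unfold PP
    congr 1
    simp only [Finset.sum_add_distrib, ← Finset.mul_sum]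
    rw [sum_E0' x u z h, sum_E0 u z]

theorem PP_nonneg (hk : 1 ≤ k) (x y : Om J (Site k)) : 0 ≤ PP x y := by
  have hVA : VA x ((addL x.1 0, 0, x.2.2.1, x.2.2.2) : Om J (Site k)) :=
    ⟨0, rfl, rfl, rfl⟩
  have h := cPP_cpl (J := J) hk
  rw [← h.sum_z x y _ hVA]
  exact Finset.sum_nonneg (fun z _ => h.nonneg _ _ _ _)

theorem PP_symm (hk : 1 ≤ k) (x y : Om J (Site k)) : PP x y = PP y x := by
  unfold PP
  congr 1
  simp only [Finset.sum_add_distrib, ← Finset.mul_sum]
  congr 1
  · rw [← Equiv.sum_comp (Equiv.neg (ZMod 3)) (fun σ => ∑ ρ, Pr (qP k) y (phi σ ρ x))]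
    apply Finset.sum_congr rfl
    intro σ _
    rw [← Equiv.sum_comp (Equiv.neg (ZMod 3)) (fun ρ => Pr (qP k) y
      (phi ((Equiv.neg (ZMod 3)) σ) ρ x))]
    apply Finset.sum_congr rfl
    intro ρ _
    exact D11_Pr_swap hk σ ρ x y
  · rw [sum_E0, sum_E0]
    congr 1
    by_cases hx : Sp x
    · by_cases hy : Sp y
      · rw [if_pos ⟨hx, hy⟩, if_pos ⟨hy, hx⟩]
        ring
      · rw [if_neg (fun h => hy h.2), if_neg (fun h => hy h.1)]
    · rw [if_neg (fun h => hx h.1), if_neg (fun h => hx h.2)]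

theorem PP_sum (hk : 1 ≤ k) (x : Om J (Site k)) : ∑ y, PP x y = 1 := by
  unfold PP
  rw [← Finset.mul_sum, Finset.sum_comm]
  have h1 : ∀ σ : ZMod 3, ∑ y : Om J (Site k), ∑ ρ,
      (Pr (qP k) x (phi σ ρ y) + tau k * E0 x (phi σ ρ y)) = 3 := by
    intro σ
    rw [Finset.sum_comm]
    have h2 : ∀ ρ : ZMod 3, ∑ y : Om J (Site k),
        (Pr (qP k) x (phi σ ρ y) + tau k * E0 x (phi σ ρ y)) = 1 := by
      intro ρ
      rw [Finset.sum_add_distrib, ← Finset.mul_sum]
      rw [Equiv.sum_comp (phi σ ρ) (fun y => Pr (qP k) x y),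
        Equiv.sum_comp (phi σ ρ) (fun y => E0 x y), D11_Pr_sum hk, D11_E0_sum]
      ring
    simp [h2]
  rw [Finset.sum_congr rfl (fun σ _ => h1 σ)]
  simp
  norm_num

theorem PP_block (x y : Om J (Site k)) (h : PP x y ≠ 0) : Bk x y := by
  have h1 : ∃ σ ρ : ZMod 3, Pr (qP k) x (phi σ ρ y) + tau k * E0 x (phi σ ρ y) ≠ 0 := by
    by_contra hcon
    push Not at hcon
    apply h
    unfold PP
    rw [Finset.sum_eq_zero (fun σ _ => Finset.sum_eq_zero (fun ρ _ => hcon σ ρ)), mul_zero]
  obtain ⟨σ, ρ, h2⟩ := h1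
  have h3 : Sm x (phi σ ρ y) := by
    by_contra hS
    apply h2
    unfold Pr E0
    rw [if_neg hS, if_neg (fun h0 => hS h0.2)]
    ring
  have h4 : Sm x (tsO ρ (rotO σ y)) := h3
  by_cases hy : Sp y
  · have hx : Sp x := by
      rw [Sp_of_Sm h4, Sp_tsO, Sp_rotO]
      exact hy
    refine ⟨y.2.1 - x.2.1, ?_, ?_, ?_⟩
    · show y.1 = x.1.map (· + (y.2.1 - x.2.1))
      rw [hy.1, hx.1]
      rfl
    · show y.2.1 = x.2.1 + (y.2.1 - x.2.1)
      ring
    · show y.2.2.1 = fun l => x.2.2.1 (l - (y.2.1 - x.2.1))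
      funext l
      rw [hy.2 l, hx.2]
  · have h5 : tsO ρ (rotO σ y) = rotO σ y := by
      have h6 : ¬ Sp (rotO σ y) := fun h0 => hy ((Sp_rotO σ y).mp h0)
      show (if Sp (rotO σ y) then _ else rotO σ y) = rotO σ y
      rw [if_neg h6]
    rw [h5] at h4
    refine ⟨-σ, ?_⟩
    rw [← Sm_rotO σ]
    have h7 : rotO σ (rotO (-σ) x) = x := by
      have h8 := D11_rot_symm (-σ) x
      rw [neg_neg] at h8
      exact h8
    rw [h7]
    exact h4

end EntRF

end
end

section

/-!
# D12 : blocks

`Bk x y` iff `Sm (rotO σ x) y` with `σ = y.tag - x.tag`; so a block has `3 |S|^3` points (choose `σ`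
and the three sites). Equivalence relation: `rotO` is a group action and `Sm` is invariant.
`UB Bk b x y = 1/3 ∑ σ, Pr (qU S) x (rotO σ y)` with `b = 3 |S|^3`
(`Pr (qU S) x y = [Sm x y] / |S|^3`; `Sm x (rotO σ y)` for at most one `σ`). Coupling: average
`cpr (qU S)` over the automorphisms `rotO σ` (`cpr_scpl`, `SCpl.aut`, `SCpl.sum`, `SCpl.smul`,
`SCpl.toCpl`).
-/

noncomputable section

namespace EntRF

open Finset
open scoped Classical

variable {J S : Type} [Fintype J] [Fintype S]

omit [Fintype J] [Fintype S] in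
private theorem rot_apply (σ : ZMod 3) (x : Om J S) : rotO σ x =
    (x.1.map (· + σ), x.2.1 + σ, fun l => x.2.2.1 (l - σ), fun l => x.2.2.2 (l - σ)) := rfl

omit [Fintype J] [Fintype S] in
private theorem rot_zero (x : Om J S) : rotO 0 x = x := by
  obtain ⟨l, t, j, s⟩ := x
  simp [rot_apply]

omit [Fintype J] [Fintype S] in
private theorem rot_add (σ τ : ZMod 3) (x : Om J S) :
    rotO σ (rotO τ x) = rotO (τ + σ) x := by
  obtain ⟨l, t, j, s⟩ := x
  simp only [rot_apply, Option.map_map, Function.comp_def, add_assoc, Prod.mk.injEq, true_and]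
  refine ⟨?_, ?_⟩
  · funext l
    congr 1
    ring
  · funext l
    congr 1
    ring

omit [Fintype J] [Fintype S] in
private theorem sm_symm {x y : Om J S} (h : Sm x y) : Sm y x :=
  ⟨h.1.symm, h.2.1.symm, h.2.2.symm⟩

omit [Fintype J] [Fintype S] in
private theorem sm_trans {x y z : Om J S} (h : Sm x y) (h' : Sm y z) : Sm x z :=
  ⟨h'.1.trans h.1, h'.2.1.trans h.2.1, h'.2.2.trans h.2.2⟩

omit [Fintype J] [Fintype S] in
private theorem sm_rot (σ : ZMod 3) {x y : Om J S} (h : Sm x y) :
    Sm (rotO σ x) (rotO σ y) := by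
  obtain ⟨h1, h2, h3⟩ := h
  simp only [Sm, rot_apply, h1, h2, h3, and_self]

omit [Fintype J] [Fintype S] in
private theorem sm_rot_left {σ : ZMod 3} {x y : Om J S} (h : Sm (rotO σ x) y) :
    Sm x (rotO (-σ) y) := by
  have := sm_rot (-σ) h
  rw [rot_add, add_neg_cancel, rot_zero] at this
  exact this

theorem Bk_refl (x : Om J S) : Bk x x :=
  ⟨0, by rw [rot_zero]; exact ⟨rfl, rfl, rfl⟩⟩

theorem Bk_symm {x y : Om J S} (h : Bk x y) : Bk y x := by
  obtain ⟨σ, hσ⟩ := h
  exact ⟨-σ, sm_symm (sm_rot_left hσ)⟩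

theorem Bk_trans {x y z : Om J S} (h : Bk x y) (h' : Bk y z) : Bk x z := by
  obtain ⟨σ, hσ⟩ := h
  obtain ⟨τ, hτ⟩ := h'
  refine ⟨σ + τ, ?_⟩
  have := sm_rot τ hσ
  rw [rot_add] at this
  exact sm_trans this hτ

omit [Fintype J] [Fintype S] in
/-- the rotation is determined by the tags -/
private theorem rot_uniq {σ : ZMod 3} {x y : Om J S} (h : Sm (rotO σ x) y) :
    σ = y.2.1 - x.2.1 := by
  have := h.2.1
  rw [rot_apply] at this
  rw [this]
  simp

omit [Fintype J] [Fintype S] in
private theorem rot_uniq' {σ : ZMod 3} {x y : Om J S} (h : Sm x (rotO σ y)) :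
    σ = x.2.1 - y.2.1 := rot_uniq (sm_symm h)

private theorem sm_count (u : Om J S) :
    ∑ z : Om J S, (if Sm u z then (1 : ℚ) else 0) = ((Fintype.card S ^ 3 : ℕ) : ℚ) := by
  have h1 : ∑ z : Om J S, (if Sm u z then (1 : ℚ) else 0) = ∑ _s : ZMod 3 → S, (1 : ℚ) := by
    rw [← Finset.sum_filter]
    refine Finset.sum_nbij' (fun z => z.2.2.2) (fun s => (u.1, u.2.1, u.2.2.1, s)) ?_ ?_ ?_ ?_ ?_
    · intro z _
      exact mem_univ _
    · intro s _
      rw [mem_filter]
      exact ⟨mem_univ _, rfl, rfl, rfl⟩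
    · intro z hz
      rw [mem_filter] at hz
      obtain ⟨-, h1, h2, h3⟩ := hz
      rw [← h1, ← h2, ← h3]
    · intro s _
      rfl
    · intro z _
      rfl
  rw [h1, Finset.sum_const, Finset.card_univ, nsmul_eq_mul, mul_one, Fintype.card_fun, ZMod.card]

theorem Bk_card (x : Om J S) :
    ∑ y, (if Bk x y then (1 : ℚ) else 0) = ((3 * Fintype.card S ^ 3 : ℕ) : ℚ) := by
  have h1 : ∀ y : Om J S, (if Bk x y then (1 : ℚ) else 0) =
      ∑ σ : ZMod 3, (if Sm (rotO σ x) y then (1 : ℚ) else 0) := by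
    intro y
    by_cases h : Bk x y
    · rw [if_pos h]
      obtain ⟨σ, hσ⟩ := h
      rw [Fintype.sum_eq_single σ, if_pos hσ]
      intro τ hτ
      rw [if_neg]
      intro h2
      exact hτ ((rot_uniq h2).trans (rot_uniq hσ).symm)
    · rw [if_neg h]
      symm
      refine Finset.sum_eq_zero (fun σ _ => ?_)
      rw [if_neg]
      intro h2
      exact h ⟨σ, h2⟩
  rw [Finset.sum_congr rfl (fun y _ => h1 y), Finset.sum_comm,
    Finset.sum_congr rfl (fun σ _ => sm_count (rotO σ x)), Finset.sum_const, Finset.card_univ,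
    ZMod.card, nsmul_eq_mul]
  push_cast
  ring

private theorem pr_qU (x y : Om J S) :
    Pr (qU S) x y = if Sm x y then 1 / ((Fintype.card S ^ 3 : ℕ) : ℚ) else 0 := by
  unfold Pr qU
  rw [Finset.prod_const, Finset.card_univ, ZMod.card]
  push_cast
  rw [one_div_pow]

private theorem ub_eq (x y : Om J S) :
    1 / 3 * ∑ σ : ZMod 3, Pr (qU S) x (rotO σ y) =
      UB Bk ((3 * Fintype.card S ^ 3 : ℕ) : ℚ) x y := by
  unfold UB
  by_cases h : Bk x y
  · rw [if_pos h]
    obtain ⟨σ, hσ⟩ := h
    have h2 := sm_rot_left hσ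
    rw [Fintype.sum_eq_single (-σ), pr_qU, if_pos h2]
    · push_cast
      rw [one_div_mul_one_div]
    · intro τ hτ
      rw [pr_qU, if_neg]
      intro h3
      exact hτ ((rot_uniq' h3).trans (rot_uniq' h2).symm)
  · rw [if_neg h, Finset.sum_eq_zero, mul_zero]
    intro σ _
    rw [pr_qU, if_neg]
    intro h2
    exact h (Bk_symm ⟨σ, sm_symm h2⟩)

theorem UB_cpl [Zero J] [Nonempty S] :
    ∃ c, IsCpl (VA (J := J) (S := S)) (UB Bk ((3 * Fintype.card S ^ 3 : ℕ) : ℚ)) c := by
  have h0 := cpr_scpl (J := J) (dst_qU S)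
  have h1 := SCpl.smul (1 / 3 : ℚ) (SCpl.sum (univ : Finset (ZMod 3))
    (fun σ => SCpl.aut (rotO (J := J) (S := S) σ) (VA_rotO σ) h0))
  refine ⟨fun x y u z => 1 / 3 * ∑ σ : ZMod 3, cpr (qU S) x (rotO σ y) u (rotO σ z), ?_⟩
  have h2 : (UB Bk ((3 * Fintype.card S ^ 3 : ℕ) : ℚ) : Om J S → Om J S → ℚ) =
      fun x y => 1 / 3 * ∑ σ : ZMod 3, Pr (qU S) x (rotO σ y) := by
    funext x y
    exact (ub_eq x y).symm
  rw [h2]
  refine SCpl.toCpl h1 (fun x y u z => ?_) (fun x u z _ => rfl)
  refine mul_nonneg (by norm_num) (Finset.sum_nonneg (fun σ _ => ?_))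
  exact cpr_nonneg (dst_qU S) _ _ _ _

end EntRF

end
end
end

section

/-!
# Definitions for the estimates
-/

noncomputable section

namespace EntRF

open Finset
open scoped Classical

/-- block size -/
def bb (k : ℕ) : ℕ := 3 * (3 * (k + 2)) ^ 3

/-- degree of the relation `VA` -/
def dd (k m : ℕ) : ℕ := 9 * ((m + 1) * (3 * (k + 2))) ^ 2

/-- state space of the lumped chain -/
abbrev XX (k m : ℕ) : Type := Om (Fin (m + 1)) (Site k) × ZMod 2 × Fin 4

/-- classes -/
inductive Cls : Type
  | X | N | A | B | C | D | O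
  deriving DecidableEq, Fintype

/-- `s` is a rotation of some `(A, B_j, C)`. -/
def rABC (k : ℕ) (s : ZMod 3 → Site k) : Prop := ∃ m, isABC k (s m) (s (m + 1)) (s (m + 2))

def clsS {k : ℕ} : Site k → Cls
  | .A => .A
  | .B _ => .B
  | .C => .C
  | .W _ => .D

/-- the class of a state -/
def cls {k m : ℕ} (x : XX k m) : Cls :=
  if Sp x.1 then (if x.2.2 = 0 ∧ rABC k x.1.2.2.2 then .X else .N)
  else
    match x.1.1 with
    | none => .O
    | some i =>
      if x.1.2.2.1 i = 0 then (if x.2.2 = 0 then clsS (x.1.2.2.2 i) else .D) else .O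

/-- `|S|` -/
def sS (k : ℕ) : ℝ := 3 * (k + 2)

/-- `1 + 6 b` -/
def b1 (k : ℕ) : ℝ := 1 + 6 * (bb k : ℝ)

/-- the normalisation `n (1 + 6 b) + d_V` -/
def DDr (k m n : ℕ) : ℝ := n * (1 + 6 * (bb k : ℝ)) + (dd k m : ℝ)

/-- `γ` -/
def gam (k m n : ℕ) : ℝ := n / DDr k m n

/-- `r = 1 / (3 R^2)` -/
def rr (k m : ℕ) : ℝ := 3 / (dd k m : ℝ)

/-- `η = K r` -/
def eta (k m : ℕ) (K : ℝ) : ℝ := K * rr k m

/-- values of `ρ` on the classes -/
def rv (k m : ℕ) (e1 K L3 : ℝ) : Cls → ℝ
  | .X => 1
  | .N => e1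
  | .A => k * eta k m K
  | .B => eta k m K
  | .C => k * eta k m K
  | .D => e1 * eta k m K
  | .O => eta k m K * Real.exp (-L3)

/-- values of `ψ` on the classes -/
def pv : Cls → ℝ
  | .X => 1
  | .N => 0
  | .A => 3
  | .B => 3
  | .C => -3
  | .D => 0
  | .O => 0

/-- the sign `(-1)^ε` -/
def sg (e : ZMod 2) : ℝ := if e = 0 then 1 else -1

section

variable {k m : ℕ}

/-- the test density (not normalised) -/
def rho (e1 K L3 : ℝ) (x : XX k m) : ℝ := rv k m e1 K L3 (cls x)

/-- the test function -/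
def psi (x : XX k m) : ℝ := sg x.2.1 * pv (cls x)

/-- `P`-type transitions -/
def hP (x y : XX k m) : ℝ :=
  if y.2.1 = x.2.1 + 1 ∧ y.2.2 = x.2.2 then ((PP x.1 y.1 : ℚ) : ℝ) else 0

/-- `U`-type transitions -/
def hU (x y : XX k m) : ℝ := if Bk x.1 y.1 ∧ y.2.2 ≠ x.2.2 then 1 else 0

/-- `V`-type transitions -/
def hV (x y : XX k m) : ℝ := if VA x.1 y.1 ∧ y.2.1 = x.2.1 ∧ y.2.2 = x.2.2 then 1 else 0

/-- the kernel of the lumped chain -/
def QQ (n : ℕ) (x y : XX k m) : ℝ :=
  Qn (PP (J := Fin (m + 1)) (k := k)) Bk VA (bb k) (dd k m) n x y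

/-- `R_x = ∑ z, Q x z ρ z` -/
def RR (n : ℕ) (e1 K L3 : ℝ) (x : XX k m) : ℝ := ∑ z, QQ n x z * rho e1 K L3 z

/-- `∑ z, Q x z ψ z - ψ x` -/
def DP (n : ℕ) (x : XX k m) : ℝ := (∑ z, QQ n x z * psi z) - psi x

/-- the summand of `BQ` -/
def gg (n : ℕ) (e1 K L3 : ℝ) (x y : XX k m) : ℝ :=
  1 / 2 * lm1 (rho e1 K L3 x) (rho e1 K L3 y) * (RR n e1 K L3 x - rho e1 K L3 x) *
      (psi y - psi x) ^ 2 +
    logMean (rho e1 K L3 x) (rho e1 K L3 y) * (psi y - psi x) * DP n x

end

/-- `log (e1 / (k η))` -/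
def Let (k m : ℕ) (e1 K : ℝ) : ℝ := Real.log (e1 / (k * eta k m K))

/-- `log (1 / e1)` -/
def L1f (e1 : ℝ) : ℝ := Real.log (1 / e1)

/-- Standing hypotheses on the parameters. -/
structure EHyp (k m n : ℕ) (e1 K L3 : ℝ) : Prop where
  hk : 1 ≤ k
  hLk : 1 ≤ Real.log k
  hn : 0 < n
  he0 : 0 < e1
  he1 : 1 ≤ L1f e1
  hS : sS k ^ 2 * e1 ≤ 1 / 2
  hg1 : gam k m n * b1 k ≤ e1
  hg2 : gam k m n * b1 k ≤ 1 / 32
  hK0 : 0 < K
  hK1 : k * K ≤ 1 / 8
  hK2 : k * K ≤ sS k ^ 2 * e1
  hK3 : 1 ≤ Let k m e1 K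
  hL3 : 0 < L3

/-- bound for the `V`-type contribution of a base in `A`, `B`, `C` -/
def VB (k m : ℕ) (e1 K L3 : ℝ) : ℝ :=
  sS k ^ 2 * rr k m * (36 / (K * Let k m e1 K ^ 2) + 36 / Let k m e1 K) +
    1 / (m + 1) * (36 * k ^ 2 * rr k m * (1 + K) + 36 * k * rr k m * (1 / L1f e1 + K)) +
    36 * k * rr k m * (1 / L3 + K)

/-- the final upper bound of `BQ` -/
def TT (k m n : ℕ) (e1 K L3 : ℝ) : ℝ :=
  18 * k * (gam k m n * (-(9 / 4) * k * (1 / (400 * k ^ 2)) + b1 k * (54 / L1f e1)) +
      54 / Let k m e1 K) +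
    24 * sS k ^ 3 * (gam k m n * b1 k * (72 / L1f e1) + 54 / Let k m e1 K) +
    54 * gam k m n * (1 / Real.log k + K) + 54 * gam k m n * (1 / Real.log k ^ 2 + K) +
    216 * k * (2 + k) * (gam k m n * b1 k * (1 / L1f e1 + K)) +
    6 * (2 + k) * (sS k ^ 2 * (36 / (K * Let k m e1 K ^ 2) + 36 / Let k m e1 K) +
      1 / (m + 1) * (36 * k ^ 2 * (1 + K) + 36 * k * (1 / L1f e1 + K)) +
      36 * k * (1 / L3 + K)) +
    864 * k * sS k ^ 3 * ((1 / L1f e1 + K) * (gam k m n * b1 k + 1 / (m + 1))) +
    216 * (2 + k) * k ^ 2 * K * (Real.exp L3 + 1)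

end EntRF

end
end
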