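import Pool.Agent.Lib.MP_a349aa_gt.Defs
import Pool.Agent.Lib.MP_a349aa_gt.B8
import Pool.Agent.Lib.MP_a349aa_gt.EDefs
import Pool.Agent.Lib.MP_a349aa_gt.E2
import Pool.Agent.Lib.MP_a349aa_gt.D5
import Pool.Agent.Lib.MP_a349aa_gt.DDefs

section

/-!
# A6 : a symmetric flat array gives (S)-Ricci flatness

Enumerate the neighbours of `x` as `y : Fin d ≃ G.neighborSet x` and put `η j x = y j`,
`η j (y i) = T (y i) (y j)` (and anything elsewhere, e.g. `η j v = T v (y j)` for `v ≠ x`).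
(i) `T (y i) (y j) ∈ neighborSet (y i)`; (ii) `T (y i)` is injective on `neighborSet x`;
(iii) and (S) from symmetry of `T`.
-/

noncomputable section

namespace EntRF

open Finset
open scoped Classical

theorem SArr.sRicci {V : Type} [Fintype V] {G : SimpleGraph V} {d : ℕ} {x : V}
    (hd : Nat.card (G.neighborSet x) = d) (h : SArr G x) : SRicciFlatAt G d x := by
  obtain ⟨T, hsym, hbij⟩ := h
  let e : Fin d ≃ G.neighborSet x := (Finite.equivFinOfCardEq hd).symm
  have he : ∀ j, G.Adj x (e j : V) := fun j => (e j).2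
  let η : Fin d → V → V := fun j v => if v = x then (e j : V) else T v (e j : V)
  have hx : ∀ j, η j x = (e j : V) := fun j => if_pos rfl
  have hne : ∀ j, (e j : V) ≠ x := fun j => (he j).ne'
  have hη : ∀ i j, η j (η i x) = T (e i : V) (e j : V) := by
    intro i j
    rw [hx i]
    exact if_neg (hne i)
  have hS : ∀ i j, η j (η i x) = η i (η j x) := by
    intro i j
    rw [hη i j, hη j i]
    exact hsym _ _ (he i) (he j)
  refine ⟨η, ?_, ?_, ?_, hS⟩
  · intro v hv j
    by_cases hvx : v = x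
    · subst hvx
      rw [hx j]
      exact he j
    · have hadj : G.Adj x v := by
        rcases hv with hv | hv
        · exact absurd hv hvx
        · exact hv
      have h1 : η j v = T v (e j : V) := if_neg hvx
      rw [h1]
      exact (hbij v hadj).mapsTo (e j).2
  · intro v hv i j hij heq
    by_cases hvx : v = x
    · subst hvx
      rw [hx i, hx j] at heq
      exact hij (e.injective (Subtype.ext heq))
    · have hadj : G.Adj x v := by
        rcases hv with hv | hv
        · exact absurd hv hvx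
        · exact hv
      have h1 : ∀ k, η k v = T v (e k : V) := fun k => if_neg hvx
      rw [h1 i, h1 j] at heq
      exact hij (e.injective (Subtype.ext ((hbij v hadj).injOn (e i).2 (e j).2 heq)))
  · intro i
    have : (fun j => η j (η i x)) = fun j => η i (η j x) := by
      funext j
      exact hS i j
    rw [this]

theorem SRicciFlatAt.ricci {V : Type} [Fintype V] {G : SimpleGraph V} {d : ℕ} {x : V}
    (h : SRicciFlatAt G d x) : RicciFlatAt G d x := by
  obtain ⟨η, h1, h2, h3, _⟩ := h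
  exact ⟨η, h1, h2, h3⟩

end EntRF

end
end

section

/-!
# C5 : lumping

If `∑ w, [π w = c] * Q' v w = Q (π v) c` for all `v, c` and all fibres of `π` have `F` elements,
then `BQ Q' (ρ ∘ π) (ψ ∘ π) = F * BQ Q ρ ψ`: for `f : X → ℝ`,
`∑ w, Q' v w * f (π w) = ∑ c, Q (π v) c * f c`; so the inner sums only depend on `π v`, and
`∑ v, g (π v) = F * ∑ x, g x`.
-/

noncomputable section

namespace EntRF

open Finset
open scoped Classical

private theorem lump_row {V X : Type} [Fintype V] [Fintype X] (Q' : V → V → ℝ) (Q : X → X → ℝ)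
    (π : V → X) (hQ : ∀ v c, ∑ w, (if π w = c then Q' v w else 0) = Q (π v) c)
    (v : V) (f : X → ℝ) : ∑ w, Q' v w * f (π w) = ∑ c, Q (π v) c * f c := by
  have h1 : ∀ c, Q (π v) c * f c = ∑ w, (if π w = c then Q' v w * f c else 0) := by
    intro c
    rw [← hQ v c, Finset.sum_mul]
    refine Finset.sum_congr rfl fun w _ => ?_
    split_ifs <;> simp
  rw [Finset.sum_congr rfl fun c _ => h1 c, Finset.sum_comm]
  refine Finset.sum_congr rfl fun w _ => ?_
  rw [Finset.sum_ite_eq]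
  simp

private theorem lump_fib {V X : Type} [Fintype V] [Fintype X]
    (π : V → X) (F : ℕ) (hF : ∀ c, ∑ w, (if π w = c then (1 : ℝ) else 0) = F)
    (g : X → ℝ) : ∑ v, g (π v) = F * ∑ c, g c := by
  have h1 : ∀ c, (F : ℝ) * g c = ∑ w, (if π w = c then g c else 0) := by
    intro c
    rw [← hF c, Finset.sum_mul]
    refine Finset.sum_congr rfl fun w _ => ?_
    split_ifs <;> simp
  rw [Finset.mul_sum, Finset.sum_congr rfl fun c _ => h1 c, Finset.sum_comm]
  refine Finset.sum_congr rfl fun w _ => ?_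
  rw [Finset.sum_ite_eq]
  simp

theorem BQ_lump {V X : Type} [Fintype V] [Fintype X] (Q' : V → V → ℝ) (Q : X → X → ℝ)
    (π : V → X) (hQ : ∀ v c, ∑ w, (if π w = c then Q' v w else 0) = Q (π v) c)
    (F : ℕ) (hF : ∀ c, ∑ w, (if π w = c then (1 : ℝ) else 0) = F) (ρ ψ : X → ℝ) :
    BQ Q' (fun v => ρ (π v)) (fun v => ψ (π v)) = F * BQ Q ρ ψ := by
  unfold BQ
  rw [← lump_fib π F hF (fun x => ∑ y, Q x y *
    (1 / 2 * lm1 (ρ x) (ρ y) * ((∑ z, Q x z * ρ z) - ρ x) * (ψ y - ψ x) ^ 2 +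
      logMean (ρ x) (ρ y) * (ψ y - ψ x) * ((∑ z, Q x z * ψ z) - ψ x)))]
  refine Finset.sum_congr rfl fun v _ => ?_
  rw [lump_row Q' Q π hQ v ρ, lump_row Q' Q π hQ v ψ]
  exact lump_row Q' Q π hQ v (fun y =>
    (1 / 2 * lm1 (ρ (π v)) (ρ y) * ((∑ z, Q (π v) z * ρ z) - ρ (π v)) * (ψ y - ψ (π v)) ^ 2 +
      logMean (ρ (π v)) (ρ y) * (ψ y - ψ (π v)) * ((∑ z, Q (π v) z * ψ z) - ψ (π v))))

end EntRF

end
end

section

/-!
# B10 : degrees and lumping of the labelled graph

`adj0_count`: number of `adj0`-neighbours of `x` in the class `c = (ω', ε', y')`. Three disjoint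
types: `P`-type (`y' = x.2`, `ε' = ε + 1`, `m (ω, ω')` values of `κ'`, `n` values of `λ'`), `U`-type
(`y' ≠ x.2`, `B ω ω'`, `K` values of `κ'`, `n` values of `λ'`), `R`-type (`y' = x.2`, `ε' = ε`,
`R ω ω'`, `K` values of `κ'`, one `λ'`). Use `card_lab`.

`adj0_deg`: sum over the classes: `n K + 3 * 2 * b * K * n + K * dV`.
-/

noncomputable section

namespace EntRF

open Finset
open scoped Classical

theorem adj0_count {Ω : Type} [Fintype Ω] {P : Ω → Ω → ℚ} {B R : Ω → Ω → Prop} {b dV : ℕ}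
    {cP cU : Ω → Ω → Ω → Ω → ℚ} {T : Ω → Ω → Ω → Ω} (h : KData P B R b dV cP cU T)
    (K n : ℕ) [NeZero K] (m : Ω → Ω → ℕ) (hm : ∀ x y, (m x y : ℚ) = K * P x y)
    (x : (Ω × Lab K n) × Fin 4) (c : Ω × ZMod 2 × Fin 4) :
    ∑ y : (Ω × Lab K n) × Fin 4, (if adj0 m B R x y ∧ lumpMap y = c then (1 : ℚ) else 0) =
      K * (n * ((if c.2.1 = x.1.2.2.1 + 1 ∧ c.2.2 = x.2 then P x.1.1 c.1 else 0) +
          (if B x.1.1 c.1 ∧ c.2.2 ≠ x.2 then 1 else 0)) +
        (if R x.1.1 c.1 ∧ c.2.1 = x.1.2.2.1 ∧ c.2.2 = x.2 then 1 else 0)) := by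
  obtain ⟨⟨ω, κ, ε, l⟩, p⟩ := x
  obtain ⟨ω', ε', p'⟩ := c
  simp only
  have hK : (0 : ℚ) < K := by
    have := Nat.pos_of_ne_zero (NeZero.ne K)
    exact_mod_cast this
  have hmK : m ω ω' ≤ K := by
    have h1 : P ω ω' ≤ 1 := by
      rw [← h.Psum ω]
      exact Finset.single_le_sum (f := fun y => P ω y) (fun y _ => h.Pnonneg ω y) (mem_univ ω')
    have h2 : (m ω ω' : ℚ) ≤ K := by
      rw [hm]
      nlinarith
    exact_mod_cast h2
  have hre : ∑ y : (Ω × Lab K n) × Fin 4,
      (if adj0 m B R ((ω, κ, ε, l), p) y ∧ lumpMap y = (ω', ε', p') then (1 : ℚ) else 0) =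
      ∑ q : ZMod K × Fin n, (if adj0 m B R ((ω, κ, ε, l), p) ((ω', q.1, ε', q.2), p')
        then (1 : ℚ) else 0) := by
    symm
    refine Fintype.sum_of_injective (fun q : ZMod K × Fin n => ((ω', q.1, ε', q.2), p'))
      ?_ _ _ ?_ ?_
    · rintro ⟨a, b⟩ ⟨a', b'⟩ hab
      simp only [Prod.mk.injEq, true_and, and_true] at hab
      exact Prod.ext hab.1 hab.2
    · rintro ⟨⟨a1, a2, a3, a4⟩, a5⟩ hy
      rw [if_neg]
      rintro ⟨-, hl⟩
      simp only [lumpMap, Prod.mk.injEq] at hl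
      obtain ⟨rfl, rfl, rfl⟩ := hl
      exact hy ⟨(a2, a4), rfl⟩
    · rintro ⟨a, b⟩
      simp [lumpMap]
  rw [hre, Fintype.sum_prod_type]
  have hε : ε + 1 ≠ ε := by
    intro h0
    have : (1 : ZMod 2) = 0 := by
      have := congrArg (fun z => z - ε) h0
      simp at this
    exact absurd this (by decide)
  have hsplit : ∀ (a : ZMod K) (c : Fin n),
      (if adj0 m B R ((ω, κ, ε, l), p) ((ω', a, ε', c), p') then (1 : ℚ) else 0) =
      (if ε' = ε + 1 ∧ p' = p then (if (κ + a).val < m ω ω' then (1 : ℚ) else 0) else 0) +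
      (if B ω ω' ∧ p' ≠ p then 1 else 0) +
      (if R ω ω' ∧ ε' = ε ∧ p' = p then (if c = l then (1 : ℚ) else 0) else 0) := by
    intro a c
    simp only [adj0, H4, W4, GLab, ELab, WLab]
    by_cases hp : p' = p
    · subst hp
      by_cases h1 : ε' = ε + 1
      · subst h1
        by_cases h2 : (κ + a).val < m ω ω'
        · simp [h2, hε]
        · simp [h2, hε]
      · by_cases h3 : ε' = ε
        · subst h3
          by_cases h4 : R ω ω'
          · by_cases h5 : c = l
            · simp [h4, h5, Ne.symm hε]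
            · simp [h4, h5, Ne.symm hε]
          · simp [h4, Ne.symm hε]
        · simp [h1, h3]
    · have hp2 : p ≠ p' := Ne.symm hp
      simp [hp, hp2]
  simp_rw [hsplit]
  simp only [Finset.sum_add_distrib]
  have s1 : ∑ a : ZMod K, ∑ _c : Fin n,
      (if ε' = ε + 1 ∧ p' = p then (if (κ + a).val < m ω ω' then (1 : ℚ) else 0) else 0) =
      K * (n * (if ε' = ε + 1 ∧ p' = p then P ω ω' else 0)) := by
    by_cases h1 : ε' = ε + 1 ∧ p' = p
    · simp only [if_pos h1]
      simp only [Finset.sum_const, Finset.card_univ, Fintype.card_fin, nsmul_eq_mul]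
      rw [← Finset.mul_sum, card_lab K (m ω ω') hmK κ, hm]
      ring
    · simp only [if_neg h1]
      simp
  have s2 : ∑ _a : ZMod K, ∑ _c : Fin n, (if B ω ω' ∧ p' ≠ p then (1 : ℚ) else 0) =
      K * (n * (if B ω ω' ∧ p' ≠ p then 1 else 0)) := by
    simp only [Finset.sum_const, Finset.card_univ, Fintype.card_fin, nsmul_eq_mul, ZMod.card]
  have s3 : ∑ _a : ZMod K, ∑ c : Fin n,
      (if R ω ω' ∧ ε' = ε ∧ p' = p then (if c = l then (1 : ℚ) else 0) else 0) =
      K * (if R ω ω' ∧ ε' = ε ∧ p' = p then 1 else 0) := by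
    by_cases h1 : R ω ω' ∧ ε' = ε ∧ p' = p
    · simp only [if_pos h1]
      simp [ZMod.card]
    · simp only [if_neg h1]
      simp
  rw [s1, s2, s3]
  ring

theorem adj0_deg {Ω : Type} [Fintype Ω] {P : Ω → Ω → ℚ} {B R : Ω → Ω → Prop} {b dV : ℕ}
    {cP cU : Ω → Ω → Ω → Ω → ℚ} {T : Ω → Ω → Ω → Ω} (h : KData P B R b dV cP cU T)
    (K n : ℕ) [NeZero K] (m : Ω → Ω → ℕ) (hm : ∀ x y, (m x y : ℚ) = K * P x y)
    (x : (Ω × Lab K n) × Fin 4) :
    ∑ y : (Ω × Lab K n) × Fin 4, (if adj0 m B R x y then (1 : ℚ) else 0) =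
      K * (n * (1 + 6 * b) + dV) := by
  have h1 : ∑ y : (Ω × Lab K n) × Fin 4, (if adj0 m B R x y then (1 : ℚ) else 0) =
      ∑ c : Ω × ZMod 2 × Fin 4, ∑ y : (Ω × Lab K n) × Fin 4,
        (if adj0 m B R x y ∧ lumpMap y = c then (1 : ℚ) else 0) := by
    rw [Finset.sum_comm]
    refine Finset.sum_congr rfl fun y _ => ?_
    rw [Finset.sum_eq_single (lumpMap y)]
    · simp
    · intro c _ hc
      rw [if_neg]
      rintro ⟨-, h2⟩
      exact hc h2.symm
    · intro h2
      exact absurd (mem_univ _) h2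
  rw [h1]
  simp_rw [adj0_count h K n m hm x]
  rw [← Finset.mul_sum]
  congr 1
  obtain ⟨⟨ω, κ, ε, l⟩, p⟩ := x
  simp only
  rw [Finset.sum_add_distrib, ← Finset.mul_sum, Finset.sum_add_distrib]
  have t1 : ∑ c : Ω × ZMod 2 × Fin 4, (if c.2.1 = ε + 1 ∧ c.2.2 = p then P ω c.1 else 0) = 1 := by
    rw [Fintype.sum_prod_type]
    rw [← h.Psum ω]
    refine Finset.sum_congr rfl fun ω' _ => ?_
    rw [Finset.sum_eq_single (ε + 1, p)]
    · simp
    · rintro ⟨e, q⟩ _ hne
      simp only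
      rw [if_neg]
      rintro ⟨h3, h4⟩
      exact hne (by rw [h3, h4])
    · intro h2
      exact absurd (mem_univ _) h2
  have t2 : ∑ c : Ω × ZMod 2 × Fin 4, (if B ω c.1 ∧ c.2.2 ≠ p then (1 : ℚ) else 0) = 6 * b := by
    rw [Fintype.sum_prod_type]
    have : ∀ ω' : Ω, ∑ y : ZMod 2 × Fin 4, (if B ω ω' ∧ y.2 ≠ p then (1 : ℚ) else 0) =
        6 * (if B ω ω' then (1 : ℚ) else 0) := by
      intro ω'
      by_cases hB : B ω ω'
      · simp only [hB, true_and, if_true, mul_one]
        rw [Fintype.sum_prod_type]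
        have h5 : ∑ y : Fin 4, (if y ≠ p then (1 : ℚ) else 0) = 3 := by
          have h6 : ∑ y : Fin 4, (if y ≠ p then (1 : ℚ) else 0) =
              ∑ y : Fin 4, (1 - (if y = p then (1 : ℚ) else 0)) := by
            refine Finset.sum_congr rfl fun y _ => ?_
            by_cases hy : y = p <;> simp [hy]
          rw [h6, Finset.sum_sub_distrib]
          simp
          norm_num
        simp only [h5, Finset.sum_const, Finset.card_univ, ZMod.card, nsmul_eq_mul]
        norm_num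
      · simp [hB]
    rw [Finset.sum_congr rfl fun ω' _ => this ω', ← Finset.mul_sum, h.Bcard]
  have t3 : ∑ c : Ω × ZMod 2 × Fin 4,
      (if R ω c.1 ∧ c.2.1 = ε ∧ c.2.2 = p then (1 : ℚ) else 0) = dV := by
    rw [Fintype.sum_prod_type, ← h.Rcard ω]
    refine Finset.sum_congr rfl fun ω' _ => ?_
    rw [Finset.sum_eq_single (ε, p)]
    · simp
    · rintro ⟨e, q⟩ _ hne
      simp only
      rw [if_neg]
      rintro ⟨-, h3, h4⟩
      exact hne (by rw [h3, h4])
    · intro h2
      exact absurd (mem_univ _) h2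
  rw [t1, t2, t3]

end EntRF

end
end

section

/-!
# E12 : choice of the parameters

Fix `k` with `log k ≥ 1500`. The two leading terms:
`18 k γ (-(9/4) k/(400 k^2)) = -(81/800) γ = -0.10125 γ` and
`54 γ (1/log k + 1/(log k)^2) ≤ 54 γ (1/1500 + 1/1500^2) ≤ 0.0361 γ`. All other terms are at most
`C (γ (1/L1 + K) + 1/Le + 1/(K Le^2) + 1/(m+1) + 1/L3 + K + K exp L3)` for a constant `C = C(k)`
(use `K ≤ 1`, `γ b1 ≤ 1`, `L1 ≥ 1`; e.g. `C = 10^6 * b1 * (sS k)^3 * (k+2)^3`).
Choose in this order: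
1. `e1 = exp (-L1)` with `L1 ≥ 1`, `C/L1 ≤ 0.005`, `(sS k)^2 e1 ≤ 1/2`;
2. `γ0 > 0` with `γ0 b1 ≤ min e1 (1/32)`;
3. `L3 > 0` and `K = exp (-2 L3)` with `C/L3`, `C K`, `C exp (-L3) ≤ 0.001 γ0`, `k K ≤ 1/8`,
   `k K ≤ (sS k)^2 e1`, `C K ≤ 0.005`;
4. `m` large and `n = ⌊γ0 dd⌋` (`dd = dd k m → ∞`): then `n ≥ 1`, `γ = n/(n b1 + dd) ≤ n/dd ≤ γ0`
   and `γ ≥ (γ0 - 1/dd)/(1 + γ0 b1) ≥ γ0/2`; `Le = log (e1/(k K r)) → ∞` (`r = 3/dd → 0`), so
   `C/Le`, `C/(K Le^2)`, `C/(m+1) ≤ 0.001 γ0`, `Le ≥ 1`.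
Then `TT ≤ -0.065 γ + 0.01 γ + 0.007 γ0 < 0` because `γ ≥ γ0/2`.
-/

noncomputable section

namespace EntRF

open Finset
open scoped Classical

private theorem tendsto_dd (k : ℕ) :
    Filter.Tendsto (fun m : ℕ => (dd k m : ℝ)) Filter.atTop Filter.atTop := by
  refine Filter.tendsto_atTop_mono (f := fun m : ℕ => (m : ℝ)) ?_ tendsto_natCast_atTop_atTop
  intro m
  have h : m ≤ dd k m := by
    unfold dd
    have h1 : m ≤ (m + 1) * (3 * (k + 2)) := by nlinarith [Nat.zero_le (m * k), Nat.zero_le k]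
    have h2 : (m + 1) * (3 * (k + 2)) ≤ ((m + 1) * (3 * (k + 2))) ^ 2 := Nat.le_self_pow (by norm_num) _
    omega
  exact_mod_cast h

private theorem TT_le {k m n : ℕ} {e1 K L3 γ L1 Le x S b : ℝ} (hx : x = (k : ℝ)) (hx0 : 0 < x)
    (hS : S = sS k) (hb : b = b1 k) (hγ : γ = gam k m n) (hL1 : L1 = L1f e1) (hLe : Le = Let k m e1 K)
    (hγ0 : 0 ≤ γ) (hk : 1500 ≤ Real.log x) :
    TT k m n e1 K L3 ≤ γ * (-(81 / 800) + 0.0361) +
      γ * ((18 * x * b * 54 + 24 * S ^ 3 * b * 72 + 216 * x * (2 + x) * b + 864 * x * S ^ 3 * b) / L1) +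
      γ * ((108 + 216 * x * (2 + x) * b + 864 * x * S ^ 3 * b) * K) +
      (6 * (2 + x) * (36 * x * (1 / L3 + K)) + 216 * (2 + x) * x ^ 2 * (K * (Real.exp L3 + 1))) +
      (18 * x * (54 / Le) + 24 * S ^ 3 * (54 / Le) +
        6 * (2 + x) * (S ^ 2 * (36 / (K * Le ^ 2) + 36 / Le) +
          1 / (m + 1) * (36 * x ^ 2 * (1 + K) + 36 * x * (1 / L1 + K))) +
        864 * x * S ^ 3 * ((1 / L1 + K) * (1 / (m + 1)))) := by
  have hlk : 1 / Real.log x ≤ 1 / 1500 := one_div_le_one_div_of_le (by norm_num) hk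
  have hlk2 : 1 / Real.log x ^ 2 ≤ 1 / 1500 ^ 2 :=
    one_div_le_one_div_of_le (by norm_num) (pow_le_pow_left₀ (by norm_num) hk 2)
  unfold TT
  rw [← hx, ← hS, ← hb, ← hγ, ← hL1, ← hLe]
  have h1 : 18 * x * (γ * (-(9 / 4) * x * (1 / (400 * x ^ 2)))) = -(81 / 800) * γ := by
    field_simp
    ring
  have h2 : 54 * γ * (1 / Real.log x) ≤ 54 * γ * (1 / 1500) :=
    mul_le_mul_of_nonneg_left hlk (by positivity)
  have h3 : 54 * γ * (1 / Real.log x ^ 2) ≤ 54 * γ * (1 / 1500 ^ 2) :=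
    mul_le_mul_of_nonneg_left hlk2 (by positivity)
  have h4 : 54 * γ * (1 / 1500) + 54 * γ * (1 / 1500 ^ 2) ≤ γ * 0.0361 := by nlinarith
  have h5 : 18 * x * (γ * (-(9 / 4) * x * (1 / (400 * x ^ 2)) + b * (54 / L1)) + 54 / Le) =
      18 * x * (γ * (-(9 / 4) * x * (1 / (400 * x ^ 2)))) + 18 * x * (γ * (b * (54 / L1))) +
        18 * x * (54 / Le) := by ring
  rw [h5, h1]
  have h6 : 54 * γ * (1 / Real.log x + K) + 54 * γ * (1 / Real.log x ^ 2 + K) ≤
      γ * 0.0361 + γ * (108 * K) := by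
    have : 54 * γ * (1 / Real.log x + K) + 54 * γ * (1 / Real.log x ^ 2 + K) =
      54 * γ * (1 / Real.log x) + 54 * γ * (1 / Real.log x ^ 2) + γ * (108 * K) := by ring
    rw [this]
    linarith
  have h7 : ∀ c : ℝ, c / L1 = c * (1 / L1) := fun c => by ring
  rw [h7 (_ + _), h7 54, h7 72]
  set i1 : ℝ := 1 / L1 with hi1
  set iM : ℝ := 1 / ((m : ℝ) + 1) with hiM
  set l1 : ℝ := 1 / Real.log x
  set l2 : ℝ := 1 / Real.log x ^ 2
  have h8 : -(81 / 800) * γ + 18 * x * (γ * (b * (54 * i1))) + 18 * x * (54 / Le) +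
      24 * S ^ 3 * (γ * b * (72 * i1) + 54 / Le) +
      54 * γ * (l1 + K) + 54 * γ * (l2 + K) +
      216 * x * (2 + x) * (γ * b * (i1 + K)) +
      6 * (2 + x) * (S ^ 2 * (36 / (K * Le ^ 2) + 36 / Le) +
        iM * (36 * x ^ 2 * (1 + K) + 36 * x * (i1 + K)) + 36 * x * (1 / L3 + K)) +
      864 * x * S ^ 3 * ((i1 + K) * (γ * b + iM)) +
      216 * (2 + x) * x ^ 2 * K * (Real.exp L3 + 1) =
      (54 * γ * (l1 + K) + 54 * γ * (l2 + K)) - (γ * 0.0361 + γ * (108 * K)) +
      (γ * (-(81 / 800) + 0.0361) +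
      γ * ((18 * x * b * 54 + 24 * S ^ 3 * b * 72 + 216 * x * (2 + x) * b + 864 * x * S ^ 3 * b) * i1) +
      γ * ((108 + 216 * x * (2 + x) * b + 864 * x * S ^ 3 * b) * K) +
      (6 * (2 + x) * (36 * x * (1 / L3 + K)) + 216 * (2 + x) * x ^ 2 * (K * (Real.exp L3 + 1))) +
      (18 * x * (54 / Le) + 24 * S ^ 3 * (54 / Le) +
        6 * (2 + x) * (S ^ 2 * (36 / (K * Le ^ 2) + 36 / Le) +
          iM * (36 * x ^ 2 * (1 + K) + 36 * x * (i1 + K))) +
        864 * x * S ^ 3 * ((i1 + K) * iM))) := by ring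
  rw [h8]
  linarith

theorem exists_params {k : ℕ} (hk : 1500 ≤ Real.log k) :
    ∃ (m n : ℕ) (e1 K L3 : ℝ), EHyp k m n e1 K L3 ∧ TT k m n e1 K L3 < 0 := by
  have hkpos : 0 < k := by
    rcases Nat.eq_zero_or_pos k with h | h
    · subst h
      simp at hk
      linarith
    · exact h
  have hk1 : 1 ≤ k := hkpos
  obtain ⟨x, hx⟩ : ∃ x : ℝ, x = (k : ℝ) := ⟨_, rfl⟩
  have hx0 : 0 < x := by
    rw [hx]
    exact_mod_cast hkpos
  obtain ⟨S, hS⟩ : ∃ S : ℝ, S = sS k := ⟨_, rfl⟩
  obtain ⟨b, hb⟩ : ∃ b : ℝ, b = b1 k := ⟨_, rfl⟩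
  have hS0 : 0 < S := by
    rw [hS]
    unfold sS
    positivity
  have hb0 : 0 < b := by
    rw [hb]
    unfold b1
    positivity
  -- the choice of `e1`
  obtain ⟨L1, hL1, hA, hSe⟩ : ∃ L1 : ℝ, 1 ≤ L1 ∧
      (18 * x * b * 54 + 24 * S ^ 3 * b * 72 + 216 * x * (2 + x) * b + 864 * x * S ^ 3 * b) / L1 ≤ 0.005 ∧
      S ^ 2 * Real.exp (-L1) ≤ 1 / 2 := by
    have h1 : Filter.Tendsto (fun L : ℝ =>
        (18 * x * b * 54 + 24 * S ^ 3 * b * 72 + 216 * x * (2 + x) * b + 864 * x * S ^ 3 * b) / L)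
        Filter.atTop (nhds 0) := tendsto_const_nhds.div_atTop Filter.tendsto_id
    have h2 : Filter.Tendsto (fun L : ℝ => S ^ 2 * Real.exp (-L)) Filter.atTop (nhds (S ^ 2 * 0)) :=
      Real.tendsto_exp_neg_atTop_nhds_zero.const_mul _
    rw [mul_zero] at h2
    obtain ⟨L1, h⟩ := ((Filter.eventually_ge_atTop (1 : ℝ)).and
      ((h1.eventually (ge_mem_nhds (show (0 : ℝ) < 0.005 by norm_num))).and
        (h2.eventually (ge_mem_nhds (show (0 : ℝ) < 1 / 2 by norm_num))))).exists
    exact ⟨L1, h.1, h.2.1, h.2.2⟩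
  obtain ⟨e1, he1⟩ : ∃ e1 : ℝ, e1 = Real.exp (-L1) := ⟨_, rfl⟩
  have he10 : 0 < e1 := he1 ▸ Real.exp_pos _
  have hL1f : L1 = L1f e1 := by
    unfold L1f
    rw [he1, one_div, ← Real.exp_neg, neg_neg, Real.log_exp]
  -- the choice of `γ0`
  obtain ⟨g0, hg0, hg1, hg2⟩ : ∃ g0 : ℝ, 0 < g0 ∧ g0 * b ≤ e1 ∧ g0 * b ≤ 1 / 32 := by
    refine ⟨min e1 (1 / 32) / b, by positivity, ?_, ?_⟩
    · rw [div_mul_cancel₀ _ hb0.ne']
      exact min_le_left _ _
    · rw [div_mul_cancel₀ _ hb0.ne']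
      exact min_le_right _ _
  -- the choice of `L3`, `K`
  obtain ⟨L3, hL3, hc1, hc2, hc3, hc4⟩ : ∃ L3 : ℝ, 0 < L3 ∧
      6 * (2 + x) * (36 * x * (1 / L3 + Real.exp (-L3) ^ 2)) +
        216 * (2 + x) * x ^ 2 * (Real.exp (-L3) + Real.exp (-L3) ^ 2) ≤ 0.001 * g0 ∧
      x * Real.exp (-L3) ^ 2 ≤ 1 / 8 ∧ x * Real.exp (-L3) ^ 2 ≤ S ^ 2 * e1 ∧
      (108 + 216 * x * (2 + x) * b + 864 * x * S ^ 3 * b) * Real.exp (-L3) ^ 2 ≤ 0.005 := by
    have hq := Real.tendsto_exp_neg_atTop_nhds_zero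
    have hinv : Filter.Tendsto (fun L : ℝ => 1 / L) Filter.atTop (nhds 0) :=
      tendsto_const_nhds.div_atTop Filter.tendsto_id
    have h1 : Filter.Tendsto (fun L : ℝ => 6 * (2 + x) * (36 * x * (1 / L + Real.exp (-L) ^ 2)) +
        216 * (2 + x) * x ^ 2 * (Real.exp (-L) + Real.exp (-L) ^ 2)) Filter.atTop
        (nhds (6 * (2 + x) * (36 * x * (0 + 0 ^ 2)) + 216 * (2 + x) * x ^ 2 * (0 + 0 ^ 2))) :=
      (((hinv.add (hq.pow 2)).const_mul _).const_mul _).add ((hq.add (hq.pow 2)).const_mul _)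
    have h2 : Filter.Tendsto (fun L : ℝ => x * Real.exp (-L) ^ 2) Filter.atTop (nhds (x * 0 ^ 2)) :=
      (hq.pow 2).const_mul _
    have h3 : Filter.Tendsto (fun L : ℝ => (108 + 216 * x * (2 + x) * b + 864 * x * S ^ 3 * b) *
        Real.exp (-L) ^ 2) Filter.atTop
        (nhds ((108 + 216 * x * (2 + x) * b + 864 * x * S ^ 3 * b) * 0 ^ 2)) :=
      (hq.pow 2).const_mul _
    have e1' : 6 * (2 + x) * (36 * x * (0 + 0 ^ 2)) + 216 * (2 + x) * x ^ 2 * (0 + 0 ^ 2) = 0 := by ring
    have e2' : x * 0 ^ 2 = 0 := by ring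
    have e3' : (108 + 216 * x * (2 + x) * b + 864 * x * S ^ 3 * b) * 0 ^ 2 = 0 := by ring
    rw [e1'] at h1
    rw [e2'] at h2
    rw [e3'] at h3
    obtain ⟨L3, h⟩ := ((Filter.eventually_gt_atTop (0 : ℝ)).and
      ((h1.eventually (ge_mem_nhds (show (0 : ℝ) < 0.001 * g0 by positivity))).and
        ((h2.eventually (ge_mem_nhds (show (0 : ℝ) < 1 / 8 by norm_num))).and
          ((h2.eventually (ge_mem_nhds (show (0 : ℝ) < S ^ 2 * e1 by positivity))).and
            (h3.eventually (ge_mem_nhds (show (0 : ℝ) < 0.005 by norm_num))))))).exists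
    exact ⟨L3, h.1, h.2.1, h.2.2.1, h.2.2.2.1, h.2.2.2.2⟩
  obtain ⟨K, hK⟩ : ∃ K : ℝ, K = Real.exp (-L3) ^ 2 := ⟨_, rfl⟩
  have hK0 : 0 < K := by
    rw [hK]
    positivity
  have hKe : K * (Real.exp L3 + 1) = Real.exp (-L3) + Real.exp (-L3) ^ 2 := by
    rw [hK]
    have h : Real.exp (-L3) * Real.exp L3 = 1 := by
      rw [← Real.exp_add]
      simp
    linear_combination Real.exp (-L3) * h
  rw [← hKe, ← hK] at hc1
  rw [← hK] at hc2 hc3 hc4
  -- the choice of `m`
  have hdd := tendsto_dd k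
  have hLe : Filter.Tendsto (fun m : ℕ => Let k m e1 K) Filter.atTop Filter.atTop := by
    unfold Let eta rr
    refine Real.tendsto_log_atTop.comp ?_
    have h1 : ∀ m : ℕ, e1 / ((k : ℝ) * (K * (3 / (dd k m : ℝ)))) =
        (e1 / (3 * x * K)) * (dd k m : ℝ) := by
      intro m
      rw [← hx]
      have : (dd k m : ℝ) ≠ 0 := by
        have : dd k m ≠ 0 := by
          unfold dd
          positivity
        exact_mod_cast this
      field_simp
    simp_rw [h1]
    exact hdd.const_mul_atTop (by positivity)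
  have hiM : Filter.Tendsto (fun m : ℕ => 1 / ((m : ℝ) + 1)) Filter.atTop (nhds 0) :=
    tendsto_one_div_add_atTop_nhds_zero_nat
  have hc : ∀ c : ℝ, Filter.Tendsto (fun m : ℕ => c / Let k m e1 K) Filter.atTop (nhds 0) :=
    fun c => tendsto_const_nhds.div_atTop hLe
  have hc' : Filter.Tendsto (fun m : ℕ => 36 / (K * Let k m e1 K ^ 2)) Filter.atTop (nhds 0) := by
    refine tendsto_const_nhds.div_atTop ?_
    refine Filter.Tendsto.const_mul_atTop hK0 ?_
    exact (Filter.tendsto_pow_atTop (by norm_num)).comp hLe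
  have hH : Filter.Tendsto (fun m : ℕ => 18 * x * (54 / Let k m e1 K) + 24 * S ^ 3 * (54 / Let k m e1 K) +
        6 * (2 + x) * (S ^ 2 * (36 / (K * Let k m e1 K ^ 2) + 36 / Let k m e1 K) +
          1 / ((m : ℝ) + 1) * (36 * x ^ 2 * (1 + K) + 36 * x * (1 / L1 + K))) +
        864 * x * S ^ 3 * ((1 / L1 + K) * (1 / ((m : ℝ) + 1)))) Filter.atTop
      (nhds (18 * x * 0 + 24 * S ^ 3 * 0 + 6 * (2 + x) * (S ^ 2 * (0 + 0) +
          0 * (36 * x ^ 2 * (1 + K) + 36 * x * (1 / L1 + K))) +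
        864 * x * S ^ 3 * ((1 / L1 + K) * 0))) :=
    ((((hc 54).const_mul _).add ((hc 54).const_mul _)).add
      ((((hc'.add (hc 36)).const_mul _).add (hiM.mul_const _)).const_mul _)).add
      ((hiM.const_mul _).const_mul _)
  have e4 : 18 * x * 0 + 24 * S ^ 3 * 0 + 6 * (2 + x) * (S ^ 2 * (0 + 0) +
          0 * (36 * x ^ 2 * (1 + K) + 36 * x * (1 / L1 + K))) +
        864 * x * S ^ 3 * ((1 / L1 + K) * 0) = 0 := by ring
  rw [e4] at hH
  obtain ⟨m, hm1, hm2, hm3⟩ := ((hLe.eventually_ge_atTop 1).and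
    ((hH.eventually (ge_mem_nhds (show (0 : ℝ) < 0.001 * g0 by positivity))).and
      (hdd.eventually_ge_atTop (4 / g0)))).exists
  -- the choice of `n`
  obtain ⟨D, hD⟩ : ∃ D : ℝ, D = (dd k m : ℝ) := ⟨_, rfl⟩
  rw [← hD] at hm3
  have hD0 : 0 < D := lt_of_lt_of_le (by positivity) hm3
  have hgD : 4 ≤ g0 * D := by
    rw [div_le_iff₀ hg0] at hm3
    linarith
  obtain ⟨n, hn⟩ : ∃ n : ℕ, n = ⌊g0 * D⌋₊ := ⟨_, rfl⟩
  have hn1 : (n : ℝ) ≤ g0 * D := by
    rw [hn]
    exact Nat.floor_le (by positivity)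
  have hn2 : g0 * D - 1 < n := by
    rw [hn]
    have := Nat.lt_floor_add_one (g0 * D)
    linarith
  have hn3 : (3 : ℝ) < n := by linarith
  have hn0 : 0 < n := by
    have : (0 : ℝ) < n := by linarith
    exact_mod_cast this
  obtain ⟨γ, hγ⟩ : ∃ γ : ℝ, γ = gam k m n := ⟨_, rfl⟩
  have hγ' : γ = n / (n * b + D) := by
    rw [hγ, hb, hD]
    rfl
  have hden : 0 < (n : ℝ) * b + D := by positivity
  have hγ1 : γ ≤ g0 := by
    rw [hγ', div_le_iff₀ hden]
    have : 0 ≤ g0 * (n * b) := by positivity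
    linarith
  have hγ2 : g0 / 2 ≤ γ := by
    rw [hγ', le_div_iff₀ hden]
    have h1 : (n : ℝ) * b ≤ D / 32 := by
      calc (n : ℝ) * b ≤ g0 * D * b := mul_le_mul_of_nonneg_right hn1 hb0.le
        _ = g0 * b * D := by ring
        _ ≤ 1 / 32 * D := mul_le_mul_of_nonneg_right hg2 hD0.le
        _ = D / 32 := by ring
    have h2 : g0 / 2 * (n * b + D) ≤ g0 / 2 * (D / 32 + D) :=
      mul_le_mul_of_nonneg_left (by linarith) (by positivity)
    have h3 : g0 / 2 * (D / 32 + D) = 33 / 64 * (g0 * D) := by ring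
    linarith
  have hγ0 : 0 < γ := lt_of_lt_of_le (by positivity) hγ2
  have hγb : γ * b ≤ g0 * b := mul_le_mul_of_nonneg_right hγ1 hb0.le
  refine ⟨m, n, e1, K, L3, ?_, ?_⟩
  · refine ⟨hk1, by linarith, hn0, he10, ?_, ?_, ?_, ?_, hK0, ?_, ?_, hm1, hL3⟩
    · rw [← hL1f]
      exact hL1
    · rw [← hS, he1]
      exact hSe
    · rw [← hγ, ← hb]
      linarith
    · rw [← hγ, ← hb]
      linarith
    · rw [← hx]
      exact hc2
    · rw [← hx, ← hS]
      exact hc3
  · have h := TT_le (k := k) (m := m) (n := n) (e1 := e1) (K := K) (L3 := L3) hx hx0 hS hb hγ hL1f rfl hγ0.le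
      (by rw [hx]; exact hk)
    have h1 : γ * ((18 * x * b * 54 + 24 * S ^ 3 * b * 72 + 216 * x * (2 + x) * b + 864 * x * S ^ 3 * b) / L1) ≤
      γ * 0.005 := mul_le_mul_of_nonneg_left hA hγ0.le
    have h2 : γ * ((108 + 216 * x * (2 + x) * b + 864 * x * S ^ 3 * b) * K) ≤ γ * 0.005 :=
      mul_le_mul_of_nonneg_left hc4 hγ0.le
    linarith

end EntRF

end
end

section

/-!
# E4 : `P`-type masses between classes

`hP_X_X` (`cls x = X`): `PP x y ≥ τ/3 * vbar(x) vbar(y)` for special `x`, `y` (`Pr ≥ 0`, `sum_E0`), and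
`vbar = 1` on rotations of `(A, B_j, C)` (exactly one `vm` is nonzero). There are `3` tags and `3 k`
site configurations in class `X` (with `ε` and part determined), so the mass is `≥ 3 k τ`,
`τ = a/100 = 1/(400 k^2)`.
`hP_A_B`: for `x.1.1 = some i`: `PP x y = 1/3 ∑ σ, Pr (qP k) x (rotO σ y)` (the extra part vanishes,
`tsO` is trivial off special points); summed over `y` of class `B` (a rotation invariant class) it
is `∑ j, qs A (B j) = k a = 1/(4k)`. `hP_B_A`: `qs (B j) A = a = 1/(4 k^2)`.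
-/

noncomputable section

namespace EntRF

open Finset
open scoped Classical

variable {k m : ℕ}

private theorem e4_sum3 (f : ZMod 3 → ℚ) (r : ZMod 3) : ∑ i, f i = f r + f (r + 1) + f (r + 2) := by
  have h0 : ∑ i : ZMod 3, f i = f 0 + f 1 + f 2 := by
    rw [show (Finset.univ : Finset (ZMod 3)) = {0, 1, 2} from by decide]
    rw [Finset.sum_insert (by decide), Finset.sum_insert (by decide), Finset.sum_singleton]
    ring
  have h1 : ∑ i, f i = ∑ i, f (r + i) := (Equiv.sum_comp (Equiv.addLeft r) f).symm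
  have h2 : ∑ i : ZMod 3, f (r + i) = f (r + 0) + f (r + 1) + f (r + 2) := by
    rw [show (Finset.univ : Finset (ZMod 3)) = {0, 1, 2} from by decide]
    rw [Finset.sum_insert (by decide), Finset.sum_insert (by decide), Finset.sum_singleton]
    ring
  rw [h1, h2, add_zero]

private theorem e4_vbar {s : ZMod 3 → Site k} (h : rABC k s) : vbar k s = 1 := by
  obtain ⟨r, hr⟩ := h
  have e1 : r + 1 + 1 = r + 2 := by ring
  have e2 : r + 1 + 2 = r := by
    have : (3 : ZMod 3) = 0 := by decide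
    linear_combination this
  have e3 : r + 2 + 1 = r := by
    have : (3 : ZMod 3) = 0 := by decide
    linear_combination this
  have e4 : r + 2 + 2 = r + 1 := by
    have : (3 : ZMod 3) = 0 := by decide
    linear_combination this
  unfold vbar
  rw [e4_sum3 _ r]
  unfold vm
  rw [e1, e2, e3, e4]
  generalize s r = a at hr ⊢
  generalize s (r + 1) = b at hr ⊢
  generalize s (r + 2) = c at hr ⊢
  cases a <;> cases b <;> cases c <;> simp [isABC] at hr ⊢ <;> simp [v3]

/-- the configuration `(A, B_j, C)` starting at position `r` -/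
private def cfg (k : ℕ) (r : ZMod 3) (j : Fin k) : ZMod 3 → Site k :=
  fun l => if l = r then .A else if l = r + 1 then .B j else .C

private theorem cfg_r (r : ZMod 3) (j : Fin k) : cfg k r j r = .A := by simp [cfg]

private theorem cfg_r1 (r : ZMod 3) (j : Fin k) : cfg k r j (r + 1) = .B j := by
  have : (r + 1 : ZMod 3) ≠ r := by
    intro h
    have h1 : (1 : ZMod 3) = 0 := by linear_combination h
    exact absurd h1 (by decide)
  simp [cfg, this]

private theorem cfg_r2 (r : ZMod 3) (j : Fin k) : cfg k r j (r + 2) = .C := by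
  have h1 : (r + 2 : ZMod 3) ≠ r := by
    intro h
    have h1 : (2 : ZMod 3) = 0 := by linear_combination h
    exact absurd h1 (by decide)
  have h2 : (r + 2 : ZMod 3) ≠ r + 1 := by
    intro h
    have h1 : (1 : ZMod 3) = 0 := by linear_combination h
    exact absurd h1 (by decide)
  simp only [cfg]
  rw [if_neg h1, if_neg h2]

private theorem cfg_rABC (r : ZMod 3) (j : Fin k) : rABC k (cfg k r j) := by
  refine ⟨r, ?_⟩
  rw [cfg_r, cfg_r1, cfg_r2]
  trivial

private theorem cfg_inj {r r' : ZMod 3} {j j' : Fin k} (h : cfg k r j = cfg k r' j') :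
    r = r' ∧ j = j' := by
  have hr : r = r' := by
    have h1 := congrFun h r
    rw [cfg_r] at h1
    by_contra hne
    simp only [cfg] at h1
    rw [if_neg hne] at h1
    split_ifs at h1
  subst hr
  refine ⟨rfl, ?_⟩
  have h1 := congrFun h (r + 1)
  rw [cfg_r1, cfg_r1] at h1
  exact Site.B.inj h1

private theorem e4_PP_ge (hk : 1 ≤ k) {J : Type} [Fintype J] [Zero J] {x y : Om J (Site k)}
    (hx : Sp x) (hy : Sp y) (hrx : rABC k x.2.2.2) (hry : rABC k y.2.2.2) :
    tau k / 3 ≤ PP x y := by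
  have h1 := sum_E0 x y
  rw [if_pos ⟨hx, hy⟩, e4_vbar hrx, e4_vbar hry] at h1
  have h2 : (0 : ℚ) ≤ ∑ σ, ∑ ρ, Pr (qP k) x (phi σ ρ y) := by
    apply Finset.sum_nonneg
    intro σ _
    apply Finset.sum_nonneg
    intro ρ _
    unfold Pr
    split_ifs
    · apply Finset.prod_nonneg
      intro l _
      exact (dst_qP hk).nonneg _ _ _ _
    · exact le_refl _
  have h3 : PP x y = 1 / 9 * ((∑ σ, ∑ ρ, Pr (qP k) x (phi σ ρ y)) +
      tau k * ∑ σ, ∑ ρ, E0 x (phi σ ρ y)) := by
    unfold PP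
    congr 1
    simp only [Finset.sum_add_distrib, Finset.mul_sum]
  rw [h3, h1]
  linarith

/-- the points of class `X` with given `ε` -/
private def embX (m : ℕ) (e : ZMod 2) (p : ZMod 3 × ZMod 3 × Fin k) : XX k m :=
  ((none, p.1, fun _ => 0, cfg k p.2.1 p.2.2), e, 0)

private theorem embX_cls (e : ZMod 2) (p : ZMod 3 × ZMod 3 × Fin k) :
    cls (embX m e p) = Cls.X := by
  rw [cls_X_iff]
  exact ⟨⟨rfl, fun _ => rfl⟩, rfl, cfg_rABC _ _⟩

private theorem embX_inj (e : ZMod 2) : Function.Injective (embX (k := k) m e) := by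
  rintro ⟨t, r, j⟩ ⟨t', r', j'⟩ h
  have h1 : t = t' := congrArg (fun z : XX k m => z.1.2.1) h
  have h2 : cfg k r j = cfg k r' j' := congrArg (fun z : XX k m => z.1.2.2.2) h
  obtain ⟨h3, h4⟩ := cfg_inj h2
  rw [h1, h3, h4]

theorem hP_X_X (hk : 1 ≤ k) {x : XX k m} (hx : cls x = Cls.X) :
    3 * (k : ℝ) * (1 / (400 * k ^ 2)) ≤ ∑ y, (if cls y = Cls.X then hP x y else 0) := by
  have hx' := (cls_X_iff x).1 hx
  have h1 : ∑ p : ZMod 3 × ZMod 3 × Fin k,
      (fun y => if cls y = Cls.X then hP x y else 0) (embX m (x.2.1 + 1) p) ≤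
      ∑ y, (if cls y = Cls.X then hP x y else 0) := by
    rw [← Finset.sum_image (f := fun y => if cls y = Cls.X then hP x y else 0)
      (fun a _ b _ h => embX_inj _ h)]
    apply Finset.sum_le_univ_sum_of_nonneg
    intro y
    split_ifs
    · unfold hP
      split_ifs
      · exact_mod_cast PP_nonneg hk _ _
      · exact le_refl _
    · exact le_refl _
  refine le_trans ?_ h1
  have h2 : ∀ p : ZMod 3 × ZMod 3 × Fin k, ((tau k / 3 : ℚ) : ℝ) ≤
      (fun y => if cls y = Cls.X then hP x y else 0) (embX m (x.2.1 + 1) p) := by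
    intro p
    show _ ≤ (if cls (embX m (x.2.1 + 1) p) = Cls.X then hP x (embX m (x.2.1 + 1) p) else 0)
    rw [if_pos (embX_cls _ _)]
    unfold hP
    rw [if_pos ⟨rfl, hx'.2.1.symm⟩]
    have := e4_PP_ge hk (x := x.1) (y := (embX m (x.2.1 + 1) p).1) hx'.1 ⟨rfl, fun _ => rfl⟩
      hx'.2.2 (cfg_rABC _ _)
    exact_mod_cast this
  refine le_trans ?_ (Finset.sum_le_sum (fun p _ => h2 p))
  rw [Finset.sum_const, Finset.card_univ, Fintype.card_prod, Fintype.card_prod, Fintype.card_fin,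
    ZMod.card, nsmul_eq_mul]
  unfold tau aa
  push_cast
  have hk0 : (0 : ℝ) < k := by exact_mod_cast hk
  apply le_of_eq
  field_simp
  ring

private theorem e4_Sm_sum {J S : Type} [Fintype J] [Fintype S] (x : Om J S) (F : Om J S → ℚ) :
    ∑ y, (if Sm x y then F y else 0) = ∑ s, F (x.1, x.2.1, x.2.2.1, s) := by
  rw [← Finset.sum_filter]
  symm
  apply Finset.sum_bij (fun s _ => ((x.1, x.2.1, x.2.2.1, s) : Om J S))
  · intro s _
    rw [Finset.mem_filter]
    exact ⟨Finset.mem_univ _, rfl, rfl, rfl⟩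
  · intro a _ b _ h
    exact congrArg (fun z : Om J S => z.2.2.2) h
  · rintro ⟨l, t, c, s⟩ hy
    rw [Finset.mem_filter] at hy
    obtain ⟨-, h1, h2, h3⟩ := hy
    refine ⟨s, Finset.mem_univ _, ?_⟩
    simp only at h1 h2 h3
    rw [h1, h2, h3]
  · intro s _
    rfl

private theorem e4_prod_sum (a : ZMod 3 → Site k) (i : ZMod 3) (P : Site k → Prop) :
    ∑ s : ZMod 3 → Site k, (if P (s i) then ∏ l, qP k (some i) l (a l) (s l) else 0) =
      ∑ t, (if P t then qs k (a i) t else 0) := by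
  have h1 : ∀ s : ZMod 3 → Site k,
      (if P (s i) then ∏ l, qP k (some i) l (a l) (s l) else 0) =
      ∏ l, (if l = i then (if P (s l) then qs k (a l) (s l) else 0)
        else (if a l = s l then 1 else 0)) := by
    intro s
    by_cases hP : P (s i)
    · rw [if_pos hP]
      apply Finset.prod_congr rfl
      intro l _
      by_cases hl : l = i
      · subst hl
        rw [if_pos rfl, if_pos hP]
        unfold qP
        rw [if_pos (Or.inr rfl)]
      · rw [if_neg hl]
        unfold qP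
        rw [if_neg]
        rintro (h | h)
        · exact absurd h (by simp)
        · exact hl (Option.some.inj h).symm
    · rw [if_neg hP]
      symm
      apply Finset.prod_eq_zero (Finset.mem_univ i)
      rw [if_pos rfl, if_neg hP]
  simp only [h1]
  have h2 := (Finset.prod_univ_sum (fun _ : ZMod 3 => (Finset.univ : Finset (Site k)))
    (fun l t => (if l = i then (if P t then qs k (a l) t else 0)
        else (if a l = t then (1 : ℚ) else 0)))).symm
  rw [Fintype.piFinset_univ] at h2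
  rw [h2]
  rw [Finset.prod_eq_single i]
  · apply Finset.sum_congr rfl
    intro t _
    rw [if_pos rfl]
  · intro l _ hl
    simp only [if_neg hl]
    rw [Finset.sum_ite_eq]
    simp
  · intro h
    exact absurd (Finset.mem_univ _) h

/-- class condition on the first component -/
private def QQc {J : Type} [Zero J] (P : Site k → Prop) (w : Om J (Site k)) : Prop :=
  ∃ i, w.1 = some i ∧ w.2.2.1 i = 0 ∧ P (w.2.2.2 i)

private theorem QQc_rot {J : Type} [Zero J] (P : Site k → Prop) (σ : ZMod 3)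
    (w : Om J (Site k)) : QQc P (rotO σ w) ↔ QQc P w := by
  constructor
  · rintro ⟨i, h1, h2, h3⟩
    have h1' : w.1.map (· + σ) = some i := h1
    have h2' : w.2.2.1 (i - σ) = 0 := h2
    have h3' : P (w.2.2.2 (i - σ)) := h3
    rcases hw : w.1 with _ | i'
    · rw [hw] at h1'
      exact absurd h1' (by simp)
    · rw [hw] at h1'
      have h4 : i' + σ = i := Option.some.inj h1'
      have h5 : i - σ = i' := by rw [← h4]; ring
      rw [h5] at h2' h3'
      exact ⟨i', hw, h2', h3'⟩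
  · rintro ⟨i, h1, h2, h3⟩
    refine ⟨i + σ, ?_, ?_, ?_⟩
    · show w.1.map (· + σ) = _
      rw [h1]
      rfl
    · show w.2.2.1 (i + σ - σ) = 0
      rw [add_sub_cancel_right]
      exact h2
    · show P (w.2.2.2 (i + σ - σ))
      rw [add_sub_cancel_right]
      exact h3

private theorem e4_PP_some {J : Type} [Fintype J] [Zero J] {x y : Om J (Site k)} {i i' : ZMod 3}
    (hx : x.1 = some i) (hy : y.1 = some i') :
    PP x y = 1 / 3 * ∑ σ, Pr (qP k) x (rotO σ y) := by
  have hS : ¬ Sp x := by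
    intro hS
    rw [hS.1] at hx
    exact absurd hx (by simp)
  have hSy : ¬ Sp y := by
    intro hS
    rw [hS.1] at hy
    exact absurd hy (by simp)
  have h1 : ∀ σ ρ : ZMod 3, (Pr (qP k) x (phi σ ρ y) + tau k * E0 x (phi σ ρ y)) =
      Pr (qP k) x (rotO σ y) := by
    intro σ ρ
    have hphi : phi σ ρ y = rotO σ y := by
      show tsO ρ (rotO σ y) = rotO σ y
      show (if Sp (rotO σ y) then _ else rotO σ y) = rotO σ y
      rw [if_neg (fun h => hSy ((Sp_rotO σ y).1 h))]
    rw [hphi]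
    have hE : E0 x (rotO σ y) = 0 := by
      unfold E0
      rw [if_neg (fun h => hS h.1)]
    rw [hE, mul_zero, add_zero]
  unfold PP
  simp only [h1]
  simp only [Finset.sum_const, Finset.card_univ, ZMod.card, nsmul_eq_mul]
  rw [← Finset.mul_sum]
  push_cast
  ring

private theorem e4_massQ {J : Type} [Fintype J] [Zero J] {x : Om J (Site k)} {i : ZMod 3}
    (hx : x.1 = some i) (hc : x.2.2.1 i = 0) (P : Site k → Prop) :
    ∑ w, (if QQc P w then PP x w else 0) = ∑ t, (if P t then qs k (x.2.2.2 i) t else 0) := by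
  have h1 : ∀ w : Om J (Site k), (if QQc P w then PP x w else 0) =
      1 / 3 * ∑ σ, (if QQc P (rotO σ w) then Pr (qP k) x (rotO σ w) else 0) := by
    intro w
    by_cases h : QQc P w
    · have h' : ∀ σ, QQc P (rotO σ w) := fun σ => (QQc_rot P σ w).2 h
      simp only [if_pos h, if_pos (h' _)]
      obtain ⟨i', hi', -, -⟩ := h
      exact e4_PP_some hx hi'
    · have h' : ∀ σ, ¬ QQc P (rotO σ w) := fun σ h0 => h ((QQc_rot P σ w).1 h0)
      simp only [if_neg h, if_neg (h' _)]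
      simp
  simp only [h1]
  rw [← Finset.mul_sum, Finset.sum_comm]
  have h2 : ∀ σ : ZMod 3, ∑ w : Om J (Site k),
      (if QQc P (rotO σ w) then Pr (qP k) x (rotO σ w) else 0) =
      ∑ w : Om J (Site k), (if QQc P w then Pr (qP k) x w else 0) := by
    intro σ
    exact Equiv.sum_comp (rotO σ) (fun w : Om J (Site k) => if QQc P w then Pr (qP k) x w else 0)
  simp only [h2]
  rw [Finset.sum_const, Finset.card_univ, ZMod.card, nsmul_eq_mul]
  have h3 : ∀ w : Om J (Site k), (if QQc P w then Pr (qP k) x w else 0) =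
      (if Sm x w then (if P (w.2.2.2 i) then
        ∏ l, qP k (some i) l (x.2.2.2 l) (w.2.2.2 l) else 0) else 0) := by
    intro w
    unfold Pr
    by_cases hs : Sm x w
    · have hw : w.1 = some i := hs.1.trans hx
      have hcw : w.2.2.1 i = 0 := by rw [hs.2.2]; exact hc
      have h4 : QQc P w ↔ P (w.2.2.2 i) := by
        constructor
        · rintro ⟨i', h5, -, h6⟩
          have : i' = i := by
            rw [hw] at h5
            exact (Option.some.inj h5).symm
          rw [this] at h6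
          exact h6
        · intro h5
          exact ⟨i, hw, hcw, h5⟩
      simp only [if_pos hs]
      by_cases h5 : P (w.2.2.2 i)
      · rw [if_pos (h4.2 h5), if_pos h5, hx]
      · rw [if_neg (fun h => h5 (h4.1 h)), if_neg h5]
    · simp only [if_neg hs]
      simp
  simp only [h3]
  rw [e4_Sm_sum x (fun w => if P (w.2.2.2 i) then
        ∏ l, qP k (some i) l (x.2.2.2 l) (w.2.2.2 l) else 0)]
  rw [e4_prod_sum (fun l => x.2.2.2 l) i P]
  push_cast
  ring

private theorem e4_mass (hk : 1 ≤ k) {x : XX k m} {i : ZMod 3} (hx : x.1.1 = some i)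
    (hc : x.1.2.2.1 i = 0) (P : Site k → Prop) (c : Cls)
    (hcls : ∀ y : XX k m, cls y = c → QQc P y.1) :
    ∑ y, (if cls y = c then hP x y else 0) ≤
      ((∑ t, (if P t then qs k (x.1.2.2.2 i) t else 0) : ℚ) : ℝ) := by
  rw [← e4_massQ hx hc P]
  push_cast
  rw [Fintype.sum_prod_type]
  apply Finset.sum_le_sum
  intro w _
  have h0 : (0 : ℝ) ≤ ((PP x.1 w : ℚ) : ℝ) := by exact_mod_cast PP_nonneg hk _ _
  rw [Finset.sum_eq_single (x.2.1 + 1, x.2.2)]
  · by_cases h1 : cls ((w, x.2.1 + 1, x.2.2) : XX k m) = c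
    · rw [if_pos h1]
      have h2 := hcls _ h1
      have h3 : (((if QQc P w then PP x.1 w else 0 : ℚ)) : ℝ) = ((PP x.1 w : ℚ) : ℝ) := by
        rw [if_pos h2]
      rw [h3]
      unfold hP
      rw [if_pos ⟨rfl, rfl⟩]
    · rw [if_neg h1]
      split_ifs
      · exact h0
      · simp
  · intro b _ hb
    split_ifs
    · unfold hP
      rw [if_neg]
      rintro ⟨h1, h2⟩
      apply hb
      exact Prod.ext h1 h2
    · rfl
  · intro h
    exact absurd (Finset.mem_univ _) h

theorem hP_A_B (hk : 1 ≤ k) {x : XX k m} (hx : cls x = Cls.A) :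
    ∑ y, (if cls y = Cls.B then hP x y else 0) ≤ 1 / (4 * (k : ℝ)) := by
  obtain ⟨i, hi, hc, -, hs⟩ := (cls_A_iff x).1 hx
  refine le_trans (e4_mass hk hi hc (fun t => ∃ j, t = Site.B j) Cls.B ?_) ?_
  · intro y hy
    obtain ⟨i', h1, h2, -, h3⟩ := (cls_B_iff y).1 hy
    exact ⟨i', h1, h2, h3⟩
  · rw [hs, sum_site]
    simp [qs, aa]
    have hk0 : (0 : ℝ) < k := by exact_mod_cast hk
    apply le_of_eq
    field_simp

theorem hP_B_A (hk : 1 ≤ k) {x : XX k m} (hx : cls x = Cls.B) :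
    ∑ y, (if cls y = Cls.A then hP x y else 0) ≤ 1 / (4 * (k : ℝ) ^ 2) := by
  obtain ⟨i, hi, hc, -, j, hs⟩ := (cls_B_iff x).1 hx
  refine le_trans (e4_mass hk hi hc (fun t => t = Site.A) Cls.A ?_) ?_
  · intro y hy
    obtain ⟨i', h1, h2, -, h3⟩ := (cls_A_iff y).1 hy
    exact ⟨i', h1, h2, h3⟩
  · rw [hs, sum_site]
    simp [qs, aa]

end EntRF

end
end

section

/-!
# E5 : sizes of the classes

* `X`: 3 tags, `3 k` configurations (`m` and `j`; distinct `(m, j)` give distinct sites), 2 values of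
  `ε`: `18 k`.
* `N`: at most all special points: `3 |S|^3 * 2 * 4`.
* `A`, `C`: 3 levels, 3 tags, colours `(m+1)^2`, sites `|S|^2`, 2 values of `ε`: `2 dd`. `B`: `2 k dd`.
* `D`: at most `3 * 3 * (m+1)^2 * |S|^3 * 2 * 4 = 8 |S| dd`.
-/

noncomputable section

namespace EntRF

open Finset
open scoped Classical

variable {k m : ℕ}

private theorem e5_cls_some (i t : ZMod 3) (c : ZMod 3 → Fin (m + 1)) (s : ZMod 3 → Site k)
    (e : ZMod 2) (q : Fin 4) :
    cls (((some i, t, c, s), e, q) : XX k m) =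
      if c i = 0 then (if q = 0 then clsS (s i) else Cls.D) else Cls.O := by
  unfold cls
  rw [if_neg]
  intro h
  have := h.1
  simp at this

private theorem e5_cls_none (t : ZMod 3) (c : ZMod 3 → Fin (m + 1)) (s : ZMod 3 → Site k)
    (e : ZMod 2) (q : Fin 4) :
    cls (((none, t, c, s), e, q) : XX k m) =
      if (∀ l, c l = 0) then (if q = 0 ∧ rABC k s then Cls.X else Cls.N) else Cls.O := by
  unfold cls Sp
  simp

private theorem e5_sum_coord {T : Type} [Fintype T] (i : ZMod 3) (g : T → ℝ) :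
    ∑ s : ZMod 3 → T, g (s i) = (Fintype.card T : ℝ) ^ 2 * ∑ a, g a := by
  have h1 : ∀ s : ZMod 3 → T, g (s i) = ∏ l, (if l = i then g (s l) else 1) := by
    intro s
    rw [Finset.prod_ite_eq' Finset.univ i (fun l => g (s l)), if_pos (Finset.mem_univ _)]
  have h2 := Finset.prod_univ_sum (fun _ : ZMod 3 => (Finset.univ : Finset T))
    (fun l a => if l = i then g a else (1 : ℝ))
  rw [Fintype.piFinset_univ] at h2
  rw [Finset.sum_congr rfl fun s _ => h1 s, ← h2, ← Finset.mul_prod_erase _ _ (Finset.mem_univ i)]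
  have h3 : ∏ l ∈ Finset.univ.erase i, ∑ a : T, (if l = i then g a else (1 : ℝ)) =
      (Fintype.card T : ℝ) ^ 2 := by
    rw [Finset.prod_congr rfl (g := fun _ => (Fintype.card T : ℝ))]
    · rw [Finset.prod_const, Finset.card_erase_of_mem (Finset.mem_univ i), Finset.card_univ,
        ZMod.card]
    · intro l hl
      simp [(Finset.mem_erase.1 hl).1]
  rw [h3]
  simp only [if_true]
  ring

private theorem e5_sum_some (F : XX k m → ℝ) (g1 : Fin (m + 1) → ℝ) (g2 : Site k → ℝ)
    (g3 : Fin 4 → ℝ)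
    (hnone : ∀ t c s e q, F ((none, t, c, s), e, q) = 0)
    (hsome : ∀ i t c s e q, F ((some i, t, c, s), e, q) = g1 (c i) * (g2 (s i) * g3 q)) :
    ∑ x, F x = 18 * (((m + 1 : ℝ)) ^ 2 * ∑ a, g1 a) * ((3 * (k + 2 : ℝ)) ^ 2 * ∑ a, g2 a) *
      ∑ q, g3 q := by
  have hcS : (Fintype.card (Site k) : ℝ) = 3 * (k + 2 : ℝ) := by
    rw [card_site]; push_cast; ring
  have hcF : (Fintype.card (Fin (m + 1)) : ℝ) = (m + 1 : ℝ) := by
    rw [Fintype.card_fin]; push_cast; ring
  have hin : ∀ (i t : ZMod 3) (c : ZMod 3 → Fin (m + 1)) (s : ZMod 3 → Site k),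
      ∑ e : ZMod 2, ∑ q : Fin 4, F ((some i, t, c, s), e, q) =
        g1 (c i) * (g2 (s i) * (2 * ∑ q, g3 q)) := by
    intro i t c s
    simp only [hsome]
    rw [Finset.sum_const, Finset.card_univ, ZMod.card, ← Finset.mul_sum, ← Finset.mul_sum,
      nsmul_eq_mul]
    push_cast
    ring
  have hin0 : ∀ (t : ZMod 3) (c : ZMod 3 → Fin (m + 1)) (s : ZMod 3 → Site k),
      ∑ e : ZMod 2, ∑ q : Fin 4, F ((none, t, c, s), e, q) = 0 := by
    intro t c s
    simp only [hnone, Finset.sum_const_zero]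
  rw [Fintype.sum_prod_type, Fintype.sum_prod_type]
  simp only [Fintype.sum_prod_type, Fintype.sum_option, hin, hin0, Finset.sum_const_zero, zero_add]
  have h2 : ∀ (i : ZMod 3) (c : ZMod 3 → Fin (m + 1)),
      ∑ s : ZMod 3 → Site k, g1 (c i) * (g2 (s i) * (2 * ∑ q, g3 q)) =
        g1 (c i) * (((3 * (k + 2 : ℝ)) ^ 2 * ∑ a, g2 a) * (2 * ∑ q, g3 q)) := by
    intro i c
    rw [← Finset.mul_sum, ← Finset.sum_mul, e5_sum_coord i g2, hcS]
  simp only [h2]
  have h3 : ∀ i : ZMod 3, ∑ c : ZMod 3 → Fin (m + 1),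
      g1 (c i) * (((3 * (k + 2 : ℝ)) ^ 2 * ∑ a, g2 a) * (2 * ∑ q, g3 q)) =
        (((m + 1 : ℝ)) ^ 2 * ∑ a, g1 a) * (((3 * (k + 2 : ℝ)) ^ 2 * ∑ a, g2 a) *
          (2 * ∑ q, g3 q)) := by
    intro i
    rw [← Finset.sum_mul, e5_sum_coord i g1, hcF]
  simp only [h3, Finset.sum_const, Finset.card_univ, ZMod.card, nsmul_eq_mul]
  push_cast
  ring

private theorem e5_clsS_A (a : Site k) : (clsS a = Cls.A) ↔ a = Site.A := by
  cases a <;> simp [clsS]

private theorem e5_clsS_C (a : Site k) : (clsS a = Cls.C) ↔ a = Site.C := by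
  cases a <;> simp [clsS]

private theorem e5_one (p : Prop) : (if p then (1 : ℝ) else 0) = if p then 1 else 0 := rfl

/-- Sum of the indicator of a class of the form `clsS`. -/
private theorem e5_class (κ : Cls) (hD : κ ≠ .D) (hO : κ ≠ .O) (hX : κ ≠ .X) (hN : κ ≠ .N) :
    ∑ x : XX k m, (if cls x = κ then (1 : ℝ) else 0) =
      2 * (dd k m : ℝ) * ∑ a : Site k, (if clsS a = κ then (1 : ℝ) else 0) := by
  rw [e5_sum_some (fun x : XX k m => if cls x = κ then (1 : ℝ) else 0)
    (fun a => if a = 0 then 1 else 0) (fun a => if clsS a = κ then (1 : ℝ) else 0)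
    (fun q => if q = 0 then 1 else 0)]
  · have e1 : ∑ a : Fin (m + 1), (if a = 0 then (1 : ℝ) else 0) = 1 := by
      rw [Finset.sum_ite_eq']; simp
    have e2 : ∑ a : Fin 4, (if a = 0 then (1 : ℝ) else 0) = 1 := by
      rw [Finset.sum_ite_eq']; simp
    rw [e1, e2]
    unfold dd
    push_cast
    ring
  · intro t c s e q
    rw [e5_cls_none]
    split_ifs <;> first | rfl | (exfalso; simp_all)
  · intro i t c s e q
    rw [e5_cls_some]
    by_cases h1 : c i = 0 <;> by_cases h2 : q = 0 <;> simp [h1, h2, Ne.symm hD, Ne.symm hO]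

/-- The site configuration of `X`. -/
private def e5S (k : ℕ) (p : ZMod 3 × Fin k) : ZMod 3 → Site k :=
  fun l => if l = p.1 then .A else if l = p.1 + 1 then .B p.2 else .C

private theorem e5_z1 (a : ZMod 3) : a + 1 ≠ a := by revert a; decide
private theorem e5_z2 (a : ZMod 3) : a + 2 ≠ a := by revert a; decide
private theorem e5_z3 (a : ZMod 3) : a + 2 ≠ a + 1 := by revert a; decide
private theorem e5_z4 (a l : ZMod 3) (h1 : l ≠ a) (h2 : l ≠ a + 1) : l = a + 2 := by
  revert a l; decide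

private theorem e5S_inj (k : ℕ) : Function.Injective (e5S k) := by
  rintro ⟨a, j⟩ ⟨b, j'⟩ h
  have h1 := congrFun h a
  have h2 := congrFun h (a + 1)
  simp only [e5S, if_true] at h1
  have hab : a = b := by
    by_contra hne
    rw [if_neg hne] at h1
    split_ifs at h1
  subst hab
  simp only [e5S, if_neg (e5_z1 a), if_true, Site.B.injEq] at h2
  rw [h2]

private theorem e5_rABC (k : ℕ) (s : ZMod 3 → Site k) : rABC k s ↔ ∃ p, e5S k p = s := by
  constructor
  · rintro ⟨a, h⟩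
    rcases hA : s a with _ | _ | j | w <;> rcases hB : s (a + 1) with _ | _ | j | w <;>
      rcases hC : s (a + 2) with _ | _ | j' | w <;> rw [hA, hB, hC] at h <;>
      simp only [isABC] at h
    refine ⟨(a, j), ?_⟩
    funext l
    simp only [e5S]
    by_cases h1 : l = a
    · rw [if_pos h1, h1, hA]
    · rw [if_neg h1]
      by_cases h2 : l = a + 1
      · rw [if_pos h2, h2, hB]
      · rw [if_neg h2, e5_z4 a l h1 h2, hC]
  · rintro ⟨⟨a, j⟩, rfl⟩
    refine ⟨a, ?_⟩
    simp only [e5S, if_true, if_neg (e5_z1 a), if_neg (e5_z2 a), if_neg (e5_z3 a), isABC]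

private theorem e5_count (k : ℕ) :
    ∑ s : ZMod 3 → Site k, (if rABC k s then (1 : ℝ) else 0) = 3 * k := by
  rw [← Finset.sum_filter, Finset.sum_const, nsmul_eq_mul, mul_one]
  have h : (Finset.univ.filter fun s : ZMod 3 → Site k => rABC k s) =
      Finset.univ.image (e5S k) := by
    ext s
    simp only [Finset.mem_filter, Finset.mem_univ, true_and, Finset.mem_image]
    exact e5_rABC k s
  rw [h, Finset.card_image_of_injective _ (e5S_inj k), Finset.card_univ, Fintype.card_prod,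
    ZMod.card, Fintype.card_fin]
  push_cast
  ring

private theorem e5_sum_none (F : XX k m → ℝ) (g : (ZMod 3 → Site k) → Fin 4 → ℝ)
    (hsome : ∀ i t c s e q, F ((some i, t, c, s), e, q) = 0)
    (hnone : ∀ t c s e q, F ((none, t, c, s), e, q) = if (∀ l, c l = 0) then g s q else 0) :
    ∑ x, F x = 6 * ∑ s, ∑ q, g s q := by
  have hin : ∀ (t : ZMod 3) (c : ZMod 3 → Fin (m + 1)) (s : ZMod 3 → Site k),
      ∑ e : ZMod 2, ∑ q : Fin 4, F ((none, t, c, s), e, q) =
        if (∀ l, c l = 0) then 2 * ∑ q, g s q else 0 := by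
    intro t c s
    simp only [hnone]
    rw [Finset.sum_const, Finset.card_univ, ZMod.card, nsmul_eq_mul]
    split_ifs
    · push_cast; ring
    · simp
  have hin0 : ∀ (i t : ZMod 3) (c : ZMod 3 → Fin (m + 1)) (s : ZMod 3 → Site k),
      ∑ e : ZMod 2, ∑ q : Fin 4, F ((some i, t, c, s), e, q) = 0 := by
    intro i t c s
    simp only [hsome, Finset.sum_const_zero]
  rw [Fintype.sum_prod_type, Fintype.sum_prod_type]
  simp only [Fintype.sum_prod_type, Fintype.sum_option, hin, hin0, Finset.sum_const_zero, add_zero]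
  have h2 : ∀ t : ZMod 3, ∑ c : ZMod 3 → Fin (m + 1), ∑ s : ZMod 3 → Site k,
      (if (∀ l, c l = 0) then 2 * ∑ q, g s q else 0) = 2 * ∑ s, ∑ q, g s q := by
    intro t
    rw [Finset.sum_eq_single (fun _ => 0)]
    · simp only [implies_true, if_true]
      rw [Finset.mul_sum]
    · intro c _ hc
      have : ¬ ∀ l, c l = 0 := fun h => hc (funext h)
      simp only [if_neg this, Finset.sum_const_zero]
    · intro h
      exact absurd (Finset.mem_univ _) h
  rw [Finset.sum_congr rfl fun t _ => h2 t]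
  simp only [Finset.sum_const, Finset.card_univ, ZMod.card, nsmul_eq_mul]
  push_cast
  ring

theorem card_X (k m : ℕ) :
    ∑ x : XX k m, (if cls x = Cls.X then (1 : ℝ) else 0) = 18 * k := by
  rw [e5_sum_none (fun x : XX k m => if cls x = Cls.X then (1 : ℝ) else 0)
    (fun s q => if q = 0 ∧ rABC k s then 1 else 0)]
  · have : ∀ s : ZMod 3 → Site k, ∑ q : Fin 4, (if q = 0 ∧ rABC k s then (1 : ℝ) else 0) =
        if rABC k s then 1 else 0 := by
      intro s
      by_cases h : rABC k s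
      · simp only [h, and_true, if_true]
        rw [Finset.sum_ite_eq']; simp
      · simp only [h, and_false, if_false, Finset.sum_const_zero]
    simp only [this]
    rw [e5_count]
    ring
  · intro i t c s e q
    rw [e5_cls_some]
    by_cases h1 : c i = 0
    · by_cases h2 : q = 0
      · rw [if_pos h1, if_pos h2]
        rcases s i with _ | _ | j | w <;> simp [clsS]
      · simp [h1, h2]
    · simp [h1]
  · intro t c s e q
    rw [e5_cls_none]
    by_cases h1 : ∀ l, c l = 0 <;> by_cases h2 : q = 0 ∧ rABC k s <;> simp [h1, h2]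

theorem card_N (k m : ℕ) :
    ∑ x : XX k m, (if cls x = Cls.N then (1 : ℝ) else 0) ≤ 24 * sS k ^ 3 := by
  have h1 : ∑ x : XX k m, (if cls x = Cls.N then (1 : ℝ) else 0) ≤
      ∑ x : XX k m, (if Sp x.1 then (1 : ℝ) else 0) := by
    refine Finset.sum_le_sum fun x _ => ?_
    by_cases h : Sp x.1
    · rw [if_pos h]
      split_ifs <;> norm_num
    · rw [if_neg h, if_neg]
      unfold cls
      rw [if_neg h]
      rcases x with ⟨⟨(_ | i), t, c, s⟩, e, q⟩
      · simp
      · simp only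
        by_cases h1 : c i = 0
        · by_cases h2 : q = 0
          · rw [if_pos h1, if_pos h2]
            rcases s i with _ | _ | j | w <;> simp [clsS]
          · simp [h1, h2]
        · simp [h1]
  refine h1.trans ?_
  rw [e5_sum_none (fun x : XX k m => if Sp x.1 then (1 : ℝ) else 0) (fun _ _ => 1)]
  · simp only [Finset.sum_const, Finset.card_univ, Fintype.card_fin, Fintype.card_fun, ZMod.card,
      card_site, nsmul_eq_mul, mul_one]
    unfold sS
    push_cast
    nlinarith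
  · intro i t c s e q
    rw [if_neg]
    intro h
    have := h.1
    simp at this
  · intro t c s e q
    unfold Sp
    simp

theorem card_A (k m : ℕ) :
    ∑ x : XX k m, (if cls x = Cls.A then (1 : ℝ) else 0) = 2 * (dd k m : ℝ) := by
  rw [e5_class Cls.A (by simp) (by simp) (by simp) (by simp), sum_site]
  simp [clsS]

theorem card_B (k m : ℕ) :
    ∑ x : XX k m, (if cls x = Cls.B then (1 : ℝ) else 0) = 2 * k * (dd k m : ℝ) := by
  rw [e5_class Cls.B (by simp) (by simp) (by simp) (by simp), sum_site]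
  simp [clsS]
  ring

theorem card_C (k m : ℕ) :
    ∑ x : XX k m, (if cls x = Cls.C then (1 : ℝ) else 0) = 2 * (dd k m : ℝ) := by
  rw [e5_class Cls.C (by simp) (by simp) (by simp) (by simp), sum_site]
  simp [clsS]

theorem card_D (k m : ℕ) :
    ∑ x : XX k m, (if cls x = Cls.D then (1 : ℝ) else 0) ≤ 8 * sS k * (dd k m : ℝ) := by
  have h1 : ∑ x : XX k m, (if cls x = Cls.D then (1 : ℝ) else 0) ≤
      ∑ x : XX k m, (match x.1.1 with
        | none => (0 : ℝ)
        | some i => if x.1.2.2.1 i = 0 then 1 else 0) := by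
    refine Finset.sum_le_sum fun x _ => ?_
    rcases x with ⟨⟨(_ | i), t, c, s⟩, e, q⟩
    · rw [e5_cls_none, if_neg]
      split_ifs <;> simp
    · rw [e5_cls_some]
      simp only
      by_cases h : c i = 0
      · simp only [h, if_true]
        split_ifs <;> norm_num
      · simp [h]
  refine h1.trans ?_
  rw [e5_sum_some _ (fun a => if a = 0 then 1 else 0) (fun _ => 1) (fun _ => 1)]
  · have e1 : ∑ a : Fin (m + 1), (if a = 0 then (1 : ℝ) else 0) = 1 := by
      rw [Finset.sum_ite_eq']; simp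
    rw [e1]
    simp only [Finset.sum_const, Finset.card_univ, Fintype.card_fin, card_site, nsmul_eq_mul,
      mul_one]
    unfold sS dd
    push_cast
    nlinarith
  · intro t c s e q
    rfl
  · intro i t c s e q
    simp

end EntRF

end
end

section

/-!
# D14 : connectedness on points

Only `VA`-steps are needed. Let `y` be the target. From `x` make a step of kind `0` to the point with
tag of `y`, colours and sites of `y` at positions `1, 2` (and those of `x` at position `0`); then a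
step of kind `1` to the point with all colours and sites of `y` (position `1` is kept, it is already
that of `y`). Its level is some `ℓ`; the levels `ℓ` and `y.1` differ by `0` or some `c_i`; in the
second case one more step of kind `i` (keeping all colours, sites, tag) reaches `y`, in the first case
two further steps of kind `0` or nothing.
-/

noncomputable section

namespace EntRF

open Finset
open scoped Classical

private theorem level_cases (l l' : Option (ZMod 3)) : l' = l ∨ ∃ i, l' = addL l i := by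
  rcases l with _ | a
  · rcases l' with _ | b
    · exact Or.inl rfl
    · exact Or.inr ⟨b, rfl⟩
  · rcases l' with _ | b
    · exact Or.inr ⟨a, by simp [addL]⟩
    · by_cases h : b = a
      · exact Or.inl (by rw [h])
      · refine Or.inr ⟨-(a + b), ?_⟩
        have h1 : a ≠ -(a + b) := by
          revert h; revert a b; decide
        have h2 : -(-(a + b) + a) = b := by ring
        show some b = if a = -(a + b) then none else some (-(-(a + b) + a))
        rw [if_neg h1, h2]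

theorem VA_conn {J S : Type} (x y : Om J S) :
    Relation.ReflTransGen (fun a c => VA a c ∨ Bk a c) x y := by
  let p : Om J S := (addL x.1 0, y.2.1, Function.update y.2.2.1 0 (x.2.2.1 0),
    Function.update y.2.2.2 0 (x.2.2.2 0))
  let r : Om J S := (addL p.1 1, y.2)
  have h10 : (1 : ZMod 3) ≠ 0 := by decide
  have hxp : VA x p := ⟨0, rfl, by simp [p], by simp [p]⟩
  have hpr : VA p r := ⟨1, rfl, by simp [p, r], by simp [p, r]⟩
  have hxp' : Relation.ReflTransGen (fun a c => VA a c ∨ Bk a c) x p :=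
    Relation.ReflTransGen.single (Or.inl hxp)
  have hxr : Relation.ReflTransGen (fun a c => VA a c ∨ Bk a c) x r :=
    hxp'.tail (Or.inl hpr)
  rcases level_cases r.1 y.1 with h | ⟨i, hi⟩
  · have : r = y := by
      refine Prod.ext h.symm rfl
    rw [← this]; exact hxr
  · exact hxr.tail (Or.inl ⟨i, hi, rfl, rfl⟩)

end EntRF

end
end
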