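import Mathlib

/-!
# MP_a349aa_gt : definitions of the problem

Ricci-flat and (S)-Ricci-flat vertices of a finite regular graph, and the entropic curvature
(Erbar-Maas) of the simple random walk.
-/

noncomputable section

namespace EntRF

open Finset
open scoped Classical

/-- The logarithmic mean `(s - t) / (log s - log t)` (and `s` on the diagonal). -/
def logMean (s t : ℝ) : ℝ :=
  if s = t then s else (s - t) / (Real.log s - Real.log t)

section problem

variable {V : Type} [Fintype V]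

/-- The closed ball `B_1(x)`. -/
def ball1 (G : SimpleGraph V) (x : V) : Set V := {y | y = x ∨ G.Adj x y}

/-- `x` is Ricci flat in the `d`-regular graph `G`. -/
def RicciFlatAt (G : SimpleGraph V) (d : ℕ) (x : V) : Prop :=
  ∃ η : Fin d → V → V,
    (∀ y ∈ ball1 G x, ∀ j, G.Adj y (η j y)) ∧
    (∀ y ∈ ball1 G x, ∀ i j, i ≠ j → η i y ≠ η j y) ∧
    (∀ i, (Set.range fun j => η j (η i x)) = Set.range fun j => η i (η j x))

/-- `x` is (S)-Ricci flat in the `d`-regular graph `G`. -/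
def SRicciFlatAt (G : SimpleGraph V) (d : ℕ) (x : V) : Prop :=
  ∃ η : Fin d → V → V,
    (∀ y ∈ ball1 G x, ∀ j, G.Adj y (η j y)) ∧
    (∀ y ∈ ball1 G x, ∀ i j, i ≠ j → η i y ≠ η j y) ∧
    (∀ i, (Set.range fun j => η j (η i x)) = Set.range fun j => η i (η j x)) ∧
    (∀ i j, η j (η i x) = η i (η j x))

/-- Transition function `Q` of the simple random walk on the `d`-regular graph `G`. -/
def walk (G : SimpleGraph V) (d : ℕ) (x y : V) : ℝ :=
  if G.Adj x y then 1 / (d : ℝ) else 0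

/-- The value `1 / |V|` of the uniform probability measure. -/
def unif (V : Type) [Fintype V] : ℝ := 1 / (Fintype.card V : ℝ)

/-- `Δ f (x) = ∑ y, Q(x,y) (f(y) - f(x))`. -/
def lap (G : SimpleGraph V) (d : ℕ) (f : V → ℝ) (x : V) : ℝ :=
  ∑ y, walk G d x y * (f y - f x)

/-- Discrete gradient. -/
def grad (f : V → ℝ) (x y : V) : ℝ := f y - f x

/-- `⟨Φ, Ψ⟩_π = 1/2 ∑ Φ(x,y) Ψ(x,y) Q(x,y) π(x)`. -/
def edgeInner (G : SimpleGraph V) (d : ℕ) (Φ Ψ : V → V → ℝ) : ℝ :=
  1 / 2 * ∑ x, ∑ y, Φ x y * Ψ x y * walk G d x y * unif V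

/-- `ρ^(x,y) = θ(ρ(x), ρ(y))`. -/
def rhoHat (ρ : V → ℝ) (x y : V) : ℝ := logMean (ρ x) (ρ y)

/-- `Δ^ρ(x,y) = ∂₁θ(ρ(x),ρ(y)) Δρ(x) + ∂₂θ(ρ(x),ρ(y)) Δρ(y)`. -/
def lapHat (G : SimpleGraph V) (d : ℕ) (ρ : V → ℝ) (x y : V) : ℝ :=
  deriv (fun s => logMean s (ρ y)) (ρ x) * lap G d ρ x +
    deriv (fun t => logMean (ρ x) t) (ρ y) * lap G d ρ y

/-- The functional `A_ρ(ψ)`. -/
def calA (G : SimpleGraph V) (d : ℕ) (ρ ψ : V → ℝ) : ℝ :=
  edgeInner G d (fun x y => rhoHat ρ x y * grad ψ x y) (grad ψ)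

/-- The functional `B_ρ(ψ)`. -/
def calB (G : SimpleGraph V) (d : ℕ) (ρ ψ : V → ℝ) : ℝ :=
  1 / 2 * edgeInner G d (fun x y => lapHat G d ρ x y * grad ψ x y) (grad ψ) -
    edgeInner G d (fun x y => rhoHat ρ x y * grad ψ x y) (grad (lap G d ψ))

/-- The entropic curvature `K_ent(G)` (dimension infinity) of the simple random walk on the
`d`-regular graph `G`, as an extended real number. -/
def Kent (G : SimpleGraph V) (d : ℕ) : EReal :=
  sInf {r : EReal | ∃ ρ ψ : V → ℝ, (∀ x, 0 < ρ x) ∧ (∑ x, ρ x * unif V = 1) ∧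
    calA G d ρ ψ ≠ 0 ∧ r = ((calB G d ρ ψ / calA G d ρ ψ : ℝ) : EReal)}

end problem

/-! ## Auxiliary definitions -/

/-- The partial derivative of the logarithmic mean in its first argument. -/
def lm1 (s t : ℝ) : ℝ :=
  if s = t then 1 / 2 else (1 - logMean s t / s) / (Real.log s - Real.log t)

/-- The functional `B` of a kernel `Q` on a finite set, symmetrised. -/
def BQ {X : Type} [Fintype X] (Q : X → X → ℝ) (ρ ψ : X → ℝ) : ℝ :=
  ∑ x, ∑ y, Q x y *
    (1 / 2 * lm1 (ρ x) (ρ y) * ((∑ z, Q x z * ρ z) - ρ x) * (ψ y - ψ x) ^ 2 +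
      logMean (ρ x) (ρ y) * (ψ y - ψ x) * ((∑ z, Q x z * ψ z) - ψ x))

/-- A symmetric flat array at `x`. -/
def SArr {V : Type} (G : SimpleGraph V) (x : V) : Prop :=
  ∃ T : V → V → V, (∀ a b, G.Adj x a → G.Adj x b → T a b = T b a) ∧
    ∀ a, G.Adj x a → Set.BijOn (T a) (G.neighborSet x) (G.neighborSet a)

/-- The blow-up `G[N]`: every vertex is replaced by `N` independent copies. -/
def blow {V : Type} (G : SimpleGraph V) (N : ℕ) : SimpleGraph (V × Fin N) where
  Adj p q := G.Adj p.1 q.1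
  symm := ⟨fun _ _ h => SimpleGraph.Adj.symm h⟩
  loopless := ⟨fun _ h => SimpleGraph.Adj.ne h rfl⟩

/-- Fractional symmetric flat arrays for pairs of `H`-neighbours. `K x a b z`: base `x`,
neighbours `a, b` of `x`, common neighbour `z` of `a` and `b`. -/
structure IsHH {V : Type} [Fintype V] (H : V → V → Prop) (K : V → V → V → V → ℚ) : Prop where
  nonneg : ∀ x a b z, 0 ≤ K x a b z
  symm : ∀ x a b z, K x a b z = K x b a z
  supp : ∀ x a b z, K x a b z ≠ 0 → H x a ∧ H x b ∧ H a z ∧ H b z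
  sum_z : ∀ x a b, H x a → H x b → ∑ z, K x a b z = 1
  sum_b : ∀ x a z, H x a → H a z → ∑ b, K x a b z = 1
  pos : ∀ x a b, H x a → H x b → 0 < K x a b x

/-- Fractional flat arrays for pairs (`H`-neighbour, `W`-neighbour). `K x a u z`: base `x`,
`H`-neighbour `a` of `x`, `W`-neighbour `u` of `x`, and `z` with `W a z`, `H u z`. -/
structure IsHV {V : Type} [Fintype V] (H W : V → V → Prop) (K : V → V → V → V → ℚ) : Prop where
  nonneg : ∀ x a u z, 0 ≤ K x a u z
  supp : ∀ x a u z, K x a u z ≠ 0 → H x a ∧ W x u ∧ W a z ∧ H u z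
  sum_z : ∀ x a u, H x a → W x u → ∑ z, K x a u z = 1
  sum_u : ∀ x a z, H x a → W a z → ∑ u, K x a u z = 1
  sum_a : ∀ x u z, W x u → H u z → ∑ a, K x a u z = 1

/-- Exact symmetric flat arrays for pairs of `W`-neighbours. -/
structure IsVV {V : Type} (W : V → V → Prop) (T : V → V → V → V) : Prop where
  symm : ∀ x a b, W x a → W x b → T x a b = T x b a
  bij : ∀ x a, W x a → Set.BijOn (T x a) {b | W x b} {z | W a z}

end EntRF

end
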