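import Pool.Agent.Lib.MP_a349aa_gt.D3
import Pool.Agent.Lib.MP_a349aa_gt.A4
import Pool.Agent.Lib.MP_a349aa_gt.EDefs
import Pool.Agent.Lib.MP_a349aa_gt.E2

section

/-!
# D13 : the relation `VA`

Symmetric (`addL_addL`), irreflexive (`addL ℓ i ≠ ℓ`). Count: three kinds, `3` tags, `|J|^2 |S|^2`
choices for the two other positions: `9 |J|^2 |S|^2`.

`VA_vv`: let `LJ`, `LS` be symmetric latin squares on `J`, `S` (`comm_latin`). For `VK i x a`,
`VK i' x b` (the kinds are determined by the levels) define `T x a b` with level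
`addL (addL x.1 i) i'`, tag `a.tag + b.tag`, and at position `l`
* `i = i'`: value of `x` if `l = i`, else `L (a l) (b l)`;
* `i ≠ i'`: `b l` if `l = i`; `a l` if `l = i'`; `L (a l) (b l)` at the third position
(for colours with `LJ`, for sites with `LS`). Symmetric; note `addL (addL ℓ i) i' = addL (addL ℓ i') i`.
For fixed `a` (kind `i`): the `b` of kind `i'` go bijectively to the `z` with `VK i' a z`: at position
`i'`, `z` must have the value of `a` (for `i' = i`: `a i = x i`), the other positions and the tag are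
free, and `b` has position `i'` fixed to `x i'` and the other positions and the tag free.
-/

noncomputable section

namespace EntRF

open Finset
open scoped Classical

variable {J S : Type} [Fintype J] [Fintype S]

private theorem addL_ne' : ∀ (ℓ : Option (ZMod 3)) (i : ZMod 3), addL ℓ i ≠ ℓ := by
  decide

private theorem addL_comm' : ∀ (ℓ : Option (ZMod 3)) (i i' : ZMod 3),
    addL (addL ℓ i) i' = addL (addL ℓ i') i := by
  decide

theorem VA_symm {x y : Om J S} (h : VA x y) : VA y x := by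
  obtain ⟨i, h1, h2, h3⟩ := h
  exact ⟨i, by rw [h1, addL_addL], h2.symm, h3.symm⟩

theorem VA_irr (x : Om J S) : ¬ VA x x := by
  rintro ⟨i, h1, -, -⟩
  exact addL_ne' _ _ h1.symm

private theorem card_fix {X : Type} [Fintype X] (i : ZMod 3) (x : X) :
    ∑ c : ZMod 3 → X, (if c i = x then (1 : ℚ) else 0) = (Fintype.card X : ℚ) ^ 2 := by
  have h1 : (univ.filter fun c : ZMod 3 → X => c i = x) =
      Fintype.piFinset (fun l : ZMod 3 => if l = i then ({x} : Finset X) else univ) := by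
    ext c
    simp only [mem_filter, mem_univ, true_and, Fintype.mem_piFinset]
    constructor
    · intro h l
      by_cases hl : l = i
      · rw [if_pos hl, hl, h]; exact mem_singleton_self _
      · rw [if_neg hl]; exact mem_univ _
    · intro h
      have := h i
      rw [if_pos rfl] at this
      exact mem_singleton.mp this
  rw [← Finset.sum_filter, h1, Finset.sum_const, Fintype.card_piFinset, nsmul_eq_mul, mul_one]
  have h2 : ∀ l : ZMod 3, (if l = i then ({x} : Finset X) else univ).card =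
      if l = i then 1 else Fintype.card X := by
    intro l
    by_cases hl : l = i
    · rw [if_pos hl, if_pos hl, card_singleton]
    · rw [if_neg hl, if_neg hl, card_univ]
  rw [Finset.prod_congr rfl (fun l _ => h2 l)]
  rw [Finset.prod_ite]
  have h3 : (univ.filter fun l : ZMod 3 => ¬ l = i).card = 2 := by
    rw [Finset.filter_not, Finset.filter_eq' , if_pos (mem_univ i)]
    rw [Finset.card_sdiff_of_subset (by simp)]
    simp
  simp only [Finset.prod_const, one_pow, one_mul, h3]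
  push_cast
  rfl

private theorem sum_prod_mul {A B : Type} [Fintype A] [Fintype B] (f : A → ℚ) (g : B → ℚ) :
    ∑ p : A × B, f p.1 * g p.2 = (∑ a, f a) * ∑ b, g b := by
  rw [Fintype.sum_prod_type, Finset.sum_mul_sum]

theorem VA_card (x : Om J S) :
    ∑ y, (if VA x y then (1 : ℚ) else 0) =
      ((9 * (Fintype.card J * Fintype.card S) ^ 2 : ℕ) : ℚ) := by
  have h1 : ∀ y : Om J S, (if VA x y then (1 : ℚ) else 0) =
      ∑ i, if VK i x y then (1 : ℚ) else 0 := by
    intro y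
    by_cases h : VA x y
    · obtain ⟨i, hi⟩ := h
      rw [if_pos ⟨i, hi⟩]
      rw [Finset.sum_eq_single i]
      · rw [if_pos hi]
      · intro i' _ hne
        rw [if_neg]
        intro hi'
        exact hne (addL_inj x.1 i' i (hi'.1.symm.trans hi.1))
      · intro h; exact absurd (mem_univ i) h
    · rw [if_neg h]
      symm
      apply Finset.sum_eq_zero
      intro i _
      rw [if_neg]
      exact fun hi => h ⟨i, hi⟩
  rw [Finset.sum_congr rfl (fun y _ => h1 y), Finset.sum_comm]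
  have h2 : ∀ i : ZMod 3, ∑ y : Om J S, (if VK i x y then (1 : ℚ) else 0) =
      3 * ((Fintype.card J : ℚ) ^ 2 * (Fintype.card S : ℚ) ^ 2) := by
    intro i
    have h3 : ∀ y : Om J S, (if VK i x y then (1 : ℚ) else 0) =
        (if y.1 = addL x.1 i then (1 : ℚ) else 0) * ((1 : ℚ) *
          ((if y.2.2.1 i = x.2.2.1 i then (1 : ℚ) else 0) *
            (if y.2.2.2 i = x.2.2.2 i then (1 : ℚ) else 0))) := by
      intro y
      unfold VK
      by_cases ha : y.1 = addL x.1 i <;> by_cases hb : y.2.2.1 i = x.2.2.1 i <;>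
        by_cases hc : y.2.2.2 i = x.2.2.2 i <;> simp [ha, hb, hc]
    rw [Finset.sum_congr rfl (fun y _ => h3 y)]
    have e1 := sum_prod_mul (fun l : Option (ZMod 3) => if l = addL x.1 i then (1 : ℚ) else 0)
      (fun q : ZMod 3 × (ZMod 3 → J) × (ZMod 3 → S) => (1 : ℚ) *
          ((if q.2.1 i = x.2.2.1 i then (1 : ℚ) else 0) *
            (if q.2.2 i = x.2.2.2 i then (1 : ℚ) else 0)))
    have e2 := sum_prod_mul (fun _ : ZMod 3 => (1 : ℚ))
      (fun q : (ZMod 3 → J) × (ZMod 3 → S) =>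
          ((if q.1 i = x.2.2.1 i then (1 : ℚ) else 0) *
            (if q.2 i = x.2.2.2 i then (1 : ℚ) else 0)))
    have e3 := sum_prod_mul (fun c : ZMod 3 → J => if c i = x.2.2.1 i then (1 : ℚ) else 0)
      (fun c : ZMod 3 → S => if c i = x.2.2.2 i then (1 : ℚ) else 0)
    rw [e1, e2, e3, card_fix, card_fix]
    simp
  rw [Finset.sum_congr rfl (fun i _ => h2 i)]
  simp only [Finset.sum_const, card_univ, ZMod.card, nsmul_eq_mul]
  push_cast
  ring

/-- Combination of the positions. -/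
private def cmb {X : Type} (L : X → X → X) (i i' : ZMod 3) (x a b : ZMod 3 → X) : ZMod 3 → X :=
  fun l => if i = i' then (if l = i then x l else L (a l) (b l))
    else if l = i then b l else if l = i' then a l else L (a l) (b l)

private theorem cmb_symm {X : Type} {L : X → X → X} (hL : ∀ a b, L a b = L b a) (i i' : ZMod 3)
    (x a b : ZMod 3 → X) : cmb L i i' x a b = cmb L i' i x b a := by
  funext l
  unfold cmb
  by_cases h : i = i'
  · subst h
    rw [if_pos rfl, if_pos rfl, hL]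
  · rw [if_neg h, if_neg (Ne.symm h)]
    by_cases h1 : l = i
    · have h2 : l ≠ i' := fun h2 => h (h1.symm.trans h2)
      rw [if_pos h1, if_neg h2, if_pos h1]
    · by_cases h2 : l = i'
      · rw [if_neg h1, if_pos h2, if_pos h2]
      · rw [if_neg h1, if_neg h2, if_neg h2, if_neg h1, hL]

private theorem cmb_apply {X : Type} {L : X → X → X} {i i' : ZMod 3}
    {x a : ZMod 3 → X} (b : ZMod 3 → X) (h : a i = x i) : cmb L i i' x a b i' = a i' := by
  unfold cmb
  by_cases h1 : i = i'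
  · subst h1
    rw [if_pos rfl, if_pos rfl, h]
  · rw [if_neg h1, if_neg (Ne.symm h1), if_pos rfl]

private theorem cmb_inj {X : Type} {L : X → X → X} (hL : ∀ a, Function.Bijective (L a))
    {i i' : ZMod 3} {x a b b' : ZMod 3 → X} (hb : b i' = x i') (hb' : b' i' = x i')
    (h : cmb L i i' x a b = cmb L i i' x a b') : b = b' := by
  funext l
  by_cases hl : l = i'
  · rw [hl, hb, hb']
  have hh := congrFun h l
  unfold cmb at hh
  by_cases h1 : i = i'
  · have h2 : l ≠ i := fun h2 => hl (h2.trans h1)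
    rw [if_pos h1, if_pos h1, if_neg h2, if_neg h2] at hh
    exact (hL _).1 hh
  · rw [if_neg h1, if_neg h1] at hh
    by_cases h2 : l = i
    · rw [if_pos h2, if_pos h2] at hh
      exact hh
    · rw [if_neg h2, if_neg h2, if_neg hl, if_neg hl] at hh
      exact (hL _).1 hh

private theorem cmb_surj {X : Type} {L : X → X → X} (hL : ∀ a, Function.Bijective (L a))
    {i i' : ZMod 3} {x a z : ZMod 3 → X} (ha : a i = x i) (hz : z i' = a i') :
    ∃ b : ZMod 3 → X, b i' = x i' ∧ cmb L i i' x a b = z := by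
  have hs : ∀ l, ∃ c, L (a l) c = z l := fun l => (hL (a l)).2 (z l)
  choose g hg using hs
  refine ⟨fun l => if l = i' then x l else if l = i then z l else g l, by simp, ?_⟩
  funext l
  unfold cmb
  by_cases h1 : i = i'
  · rw [if_pos h1]
    by_cases h2 : l = i
    · rw [if_pos h2, h2, ← ha, h1, hz]
    · have h3 : l ≠ i' := fun h3 => h2 (h3.trans h1.symm)
      rw [if_neg h2]
      simp only [if_neg h3, if_neg h2]
      exact hg l
  · rw [if_neg h1]
    by_cases h2 : l = i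
    · have h3 : l ≠ i' := fun h3 => h1 (h2.symm.trans h3)
      rw [if_pos h2]
      simp only [if_neg h3, if_pos h2]
    · rw [if_neg h2]
      by_cases h3 : l = i'
      · rw [if_pos h3, h3, hz]
      · rw [if_neg h3]
        simp only [if_neg h3, if_neg h2]
        exact hg l

/-- The kind of a pair of levels. -/
private def kd (ℓ ℓ' : Option (ZMod 3)) : ZMod 3 :=
  if h : ∃ i, ℓ' = addL ℓ i then h.choose else 0

private theorem kd_eq {ℓ ℓ' : Option (ZMod 3)} {i : ZMod 3} (h : ℓ' = addL ℓ i) :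
    kd ℓ ℓ' = i := by
  have h' : ∃ i, ℓ' = addL ℓ i := ⟨i, h⟩
  unfold kd
  rw [dif_pos h']
  exact addL_inj ℓ _ _ (h'.choose_spec.symm.trans h)

theorem VA_vv : ∃ T, IsVV (VA (J := J) (S := S)) T := by
  obtain ⟨LJ, hJs, hJ⟩ := comm_latin J
  obtain ⟨LS, hSs, hS⟩ := comm_latin S
  let T : Om J S → Om J S → Om J S → Om J S := fun x a b =>
    (addL (addL x.1 (kd x.1 a.1)) (kd x.1 b.1), a.2.1 + b.2.1,
      cmb LJ (kd x.1 a.1) (kd x.1 b.1) x.2.2.1 a.2.2.1 b.2.2.1,
      cmb LS (kd x.1 a.1) (kd x.1 b.1) x.2.2.2 a.2.2.2 b.2.2.2)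
  have hT : ∀ (x a b : Om J S) (i i' : ZMod 3), VK i x a → VK i' x b →
      T x a b = (addL a.1 i', a.2.1 + b.2.1,
        cmb LJ i i' x.2.2.1 a.2.2.1 b.2.2.1, cmb LS i i' x.2.2.2 a.2.2.2 b.2.2.2) := by
    intro x a b i i' ha hb
    simp only [T]
    rw [kd_eq ha.1, kd_eq hb.1, ← ha.1]
  refine ⟨T, ?_, ?_⟩
  · rintro x a b ⟨i, ha⟩ ⟨i', hb⟩
    rw [hT x a b i i' ha hb, hT x b a i' i hb ha]
    rw [cmb_symm hJs, cmb_symm hSs, ha.1, hb.1, addL_comm', add_comm a.2.1]
  · rintro x a ⟨i, ha⟩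
    refine ⟨?_, ?_, ?_⟩
    · rintro b ⟨i', hb⟩
      refine ⟨i', ?_⟩
      rw [hT x a b i i' ha hb]
      exact ⟨rfl, cmb_apply _ ha.2.1, cmb_apply _ ha.2.2⟩
    · rintro b ⟨i', hb⟩ b' ⟨i'', hb'⟩ h
      rw [hT x a b i i' ha hb, hT x a b' i i'' ha hb'] at h
      have e1 := congrArg (fun p : Om J S => p.1) h
      have e2 := congrArg (fun p : Om J S => p.2.1) h
      have e3 := congrArg (fun p : Om J S => p.2.2.1) h
      have e4 := congrArg (fun p : Om J S => p.2.2.2) h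
      simp only at e1 e2 e3 e4
      have hi := addL_inj _ _ _ e1
      subst hi
      have f3 := cmb_inj hJ hb.2.1 hb'.2.1 e3
      have f4 := cmb_inj hS hb.2.2 hb'.2.2 e4
      have f2 := add_left_cancel e2
      have f1 : b.1 = b'.1 := hb.1.trans hb'.1.symm
      exact Prod.ext f1 (Prod.ext f2 (Prod.ext f3 f4))
    · rintro z ⟨i', hz⟩
      obtain ⟨c, hc1, hc2⟩ := cmb_surj (i := i) (i' := i') (x := x.2.2.1) (a := a.2.2.1)
        (z := z.2.2.1) hJ ha.2.1 hz.2.1
      obtain ⟨s, hs1, hs2⟩ := cmb_surj (i := i) (i' := i') (x := x.2.2.2) (a := a.2.2.2)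
        (z := z.2.2.2) hS ha.2.2 hz.2.2
      have hb : VK i' x ((addL x.1 i', z.2.1 - a.2.1, c, s) : Om J S) := ⟨rfl, hc1, hs1⟩
      refine ⟨(addL x.1 i', z.2.1 - a.2.1, c, s), ⟨i', hb⟩, ?_⟩
      rw [hT x a _ i i' ha hb]
      simp only
      rw [hc2, hs2, ← hz.1]
      refine Prod.ext rfl (Prod.ext ?_ rfl)
      simp

end EntRF

end
end

section

/-!
# E1 : the three types of transitions

`hP`: `PP` is nonnegative, symmetric, has row sums 1 (D11), `ε` and the part are determined.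
`hU`: `Bk` has classes of size `bb k = 3 |S|^3` (D12, `|S| = 3 (k + 2)`), two values of `ε`, three parts.
`hV`: `VA` has degree `dd k m` (D13).
`QQ_eq`: unfold `Qn`; `Q x y = γ (hP + hU) + hV / DD`. Row sums:
`(n/DD) (1 + 6 b) + dd/DD = 1`.
`BQ_eq`: unfold. `gam`, `rr` facts: `0 ≤ γ`, `DD ≥ dd > 0`, `rr = 3/dd > 0`, `rr ≤ 1/3` (`dd ≥ 9`).
-/

noncomputable section

namespace EntRF

open Finset
open scoped Classical

variable {k m : ℕ}

private theorem e1_card (k : ℕ) : Fintype.card (Site k) = 3 * (k + 2) := by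
  have e : Site k ≃ Unit ⊕ Unit ⊕ Fin k ⊕ Fin (2 * (k + 2)) :=
    { toFun := fun s => match s with
        | .A => Sum.inl ()
        | .C => Sum.inr (Sum.inl ())
        | .B j => Sum.inr (Sum.inr (Sum.inl j))
        | .W w => Sum.inr (Sum.inr (Sum.inr w))
      invFun := fun s => match s with
        | Sum.inl _ => .A
        | Sum.inr (Sum.inl _) => .C
        | Sum.inr (Sum.inr (Sum.inl j)) => .B j
        | Sum.inr (Sum.inr (Sum.inr w)) => .W w
      left_inv := fun s => by cases s <;> rfl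
      right_inv := fun s => by
        rcases s with _ | _ | _ | _ <;> rfl }
  rw [Fintype.card_congr e]
  simp only [Fintype.card_sum, Fintype.card_unit, Fintype.card_fin]
  ring

private theorem e1_z2 : ∀ a b : ZMod 2, b = a + 1 → a = b + 1 := by
  decide

theorem hP_nonneg (hk : 1 ≤ k) (x y : XX k m) : 0 ≤ hP x y := by
  unfold hP
  split_ifs
  · exact_mod_cast PP_nonneg hk x.1 y.1
  · exact le_rfl

theorem hU_nonneg (x y : XX k m) : 0 ≤ hU x y := by
  unfold hU
  split_ifs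
  · exact zero_le_one
  · exact le_rfl

theorem hV_nonneg (x y : XX k m) : 0 ≤ hV x y := by
  unfold hV
  split_ifs
  · exact zero_le_one
  · exact le_rfl

theorem hP_symm (hk : 1 ≤ k) (x y : XX k m) : hP x y = hP y x := by
  unfold hP
  by_cases h : y.2.1 = x.2.1 + 1 ∧ y.2.2 = x.2.2
  · rw [if_pos h, if_pos ⟨e1_z2 _ _ h.1, h.2.symm⟩, PP_symm hk]
  · rw [if_neg h, if_neg (fun h' => h ⟨e1_z2 _ _ h'.1, h'.2.symm⟩)]

theorem hU_symm (x y : XX k m) : hU x y = hU y x := by
  unfold hU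
  by_cases h : Bk x.1 y.1 ∧ y.2.2 ≠ x.2.2
  · rw [if_pos h, if_pos ⟨Bk_symm h.1, h.2.symm⟩]
  · rw [if_neg h, if_neg (fun h' => h ⟨Bk_symm h'.1, h'.2.symm⟩)]

theorem hV_symm (x y : XX k m) : hV x y = hV y x := by
  unfold hV
  by_cases h : VA x.1 y.1 ∧ y.2.1 = x.2.1 ∧ y.2.2 = x.2.2
  · rw [if_pos h, if_pos ⟨VA_symm h.1, h.2.1.symm, h.2.2.symm⟩]
  · rw [if_neg h, if_neg (fun h' => h ⟨VA_symm h'.1, h'.2.1.symm, h'.2.2.symm⟩)]

theorem hP_sum (hk : 1 ≤ k) (x : XX k m) : ∑ y, hP x y = 1 := by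
  have h1 : ∀ y1 : Om (Fin (m + 1)) (Site k), ∑ q : ZMod 2 × Fin 4, hP x (y1, q) =
      ((PP x.1 y1 : ℚ) : ℝ) := by
    intro y1
    rw [Fintype.sum_eq_single ((x.2.1 + 1, x.2.2) : ZMod 2 × Fin 4)]
    · unfold hP
      rw [if_pos ⟨rfl, rfl⟩]
    · intro q hq
      unfold hP
      rw [if_neg]
      rintro ⟨h2, h3⟩
      exact hq (Prod.ext h2 h3)
  rw [Fintype.sum_prod_type, sum_congr rfl (fun y1 _ => h1 y1)]
  exact_mod_cast PP_sum hk x.1

private theorem e1_ne_sum (p : Fin 4) : ∑ q : ZMod 2 × Fin 4, (if q.2 ≠ p then (1 : ℝ) else 0) =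
    6 := by
  rw [Fintype.sum_prod_type]
  have h1 : ∑ y : Fin 4, (if y ≠ p then (1 : ℝ) else 0) = 3 := by
    have h2 : ((univ : Finset (Fin 4)).filter (fun y => y ≠ p)).card = 3 := by
      revert p
      decide
    rw [← Finset.sum_filter, Finset.sum_const, h2]
    norm_num
  simp only [h1, Finset.sum_const, card_univ, ZMod.card]
  norm_num

theorem hU_sum (x : XX k m) : ∑ y, hU x y = 6 * (bb k : ℝ) := by
  have h1 : ∀ y1 : Om (Fin (m + 1)) (Site k), ∑ q : ZMod 2 × Fin 4, hU x (y1, q) =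
      6 * (if Bk x.1 y1 then (1 : ℝ) else 0) := by
    intro y1
    by_cases h : Bk x.1 y1
    · rw [if_pos h, mul_one, ← e1_ne_sum x.2.2]
      refine sum_congr rfl (fun q _ => ?_)
      unfold hU
      by_cases hq : q.2 ≠ x.2.2
      · rw [if_pos ⟨h, hq⟩, if_pos hq]
      · rw [if_neg (fun h' => hq h'.2), if_neg hq]
    · rw [if_neg h, mul_zero]
      refine sum_eq_zero (fun q _ => ?_)
      unfold hU
      rw [if_neg (fun h' => h h'.1)]
  rw [Fintype.sum_prod_type, sum_congr rfl (fun y1 _ => h1 y1), ← mul_sum]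
  congr 1
  have h2 := Bk_card x.1
  have h3 : ∑ y, (if Bk x.1 y then (1 : ℝ) else 0) =
      ((∑ y, (if Bk x.1 y then (1 : ℚ) else 0) : ℚ) : ℝ) := by
    push_cast
    refine sum_congr rfl (fun y _ => ?_)
    split_ifs <;> simp
  rw [h3, h2, e1_card]
  unfold bb
  push_cast
  ring

theorem hV_sum (x : XX k m) : ∑ y, hV x y = (dd k m : ℝ) := by
  have h1 : ∀ y1 : Om (Fin (m + 1)) (Site k), ∑ q : ZMod 2 × Fin 4, hV x (y1, q) =
      (if VA x.1 y1 then (1 : ℝ) else 0) := by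
    intro y1
    rw [Fintype.sum_eq_single ((x.2.1, x.2.2) : ZMod 2 × Fin 4)]
    · unfold hV
      by_cases h : VA x.1 y1
      · rw [if_pos ⟨h, rfl, rfl⟩, if_pos h]
      · rw [if_neg (fun h' => h h'.1), if_neg h]
    · intro q hq
      unfold hV
      rw [if_neg]
      rintro ⟨-, h2, h3⟩
      exact hq (Prod.ext h2 h3)
  rw [Fintype.sum_prod_type, sum_congr rfl (fun y1 _ => h1 y1)]
  have h2 := VA_card x.1
  have h3 : ∑ y, (if VA x.1 y then (1 : ℝ) else 0) =
      ((∑ y, (if VA x.1 y then (1 : ℚ) else 0) : ℚ) : ℝ) := by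
    push_cast
    refine sum_congr rfl (fun y _ => ?_)
    split_ifs <;> simp
  rw [h3, h2, e1_card, Fintype.card_fin]
  unfold dd
  push_cast
  ring

private theorem e1_dd_ge (k m : ℕ) : (9 : ℝ) ≤ dd k m := by
  have h : 9 ≤ dd k m := by
    unfold dd
    have h1 : 1 ≤ (m + 1) * (3 * (k + 2)) := Nat.mul_pos (Nat.succ_pos m) (by omega)
    have h2 : 1 ≤ ((m + 1) * (3 * (k + 2))) ^ 2 := Nat.one_le_pow _ _ h1
    omega
  exact_mod_cast h

theorem dd_pos (k m : ℕ) : (0 : ℝ) < dd k m := by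
  have := e1_dd_ge k m
  linarith

theorem DDr_ge (k m n : ℕ) : (dd k m : ℝ) ≤ DDr k m n := by
  unfold DDr
  have h : 0 ≤ (n : ℝ) * (1 + 6 * (bb k : ℝ)) := by positivity
  linarith

theorem gam_nonneg (k m n : ℕ) : 0 ≤ gam k m n := by
  unfold gam
  have h1 := dd_pos k m
  have h2 := DDr_ge k m n
  exact div_nonneg (Nat.cast_nonneg n) (by linarith)

theorem rr_pos (k m : ℕ) : 0 < rr k m := by
  unfold rr
  exact div_pos (by norm_num) (dd_pos k m)

theorem rr_le (k m : ℕ) : rr k m ≤ 1 / 3 := by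
  unfold rr
  rw [div_le_div_iff₀ (dd_pos k m) (by norm_num)]
  have := e1_dd_ge k m
  linarith

theorem QQ_eq (n : ℕ) (x y : XX k m) :
    QQ n x y = gam k m n * (hP x y + hU x y) + 1 / DDr k m n * hV x y := by
  rfl

theorem QQ_nonneg (hk : 1 ≤ k) (n : ℕ) (x y : XX k m) : 0 ≤ QQ n x y := by
  have h1 := dd_pos k m
  have h2 := DDr_ge k m n
  rw [QQ_eq]
  refine add_nonneg (mul_nonneg (gam_nonneg k m n) (add_nonneg (hP_nonneg hk x y)
    (hU_nonneg x y))) (mul_nonneg (div_nonneg zero_le_one (by linarith)) (hV_nonneg x y))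

theorem QQ_symm (hk : 1 ≤ k) (n : ℕ) (x y : XX k m) : QQ n x y = QQ n y x := by
  rw [QQ_eq, QQ_eq, hP_symm hk, hU_symm, hV_symm]

theorem QQ_sum (hk : 1 ≤ k) (n : ℕ) (x : XX k m) : ∑ y, QQ n x y = 1 := by
  have h1 := dd_pos k m
  have h2 := DDr_ge k m n
  have h3 : DDr k m n ≠ 0 := by linarith
  rw [sum_congr rfl (fun y _ => QQ_eq n x y), sum_add_distrib, ← mul_sum, ← mul_sum,
    sum_add_distrib, hP_sum hk, hU_sum, hV_sum]
  have h4 : gam k m n * (1 + 6 * (bb k : ℝ)) + 1 / DDr k m n * (dd k m : ℝ) =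
      (n * (1 + 6 * (bb k : ℝ)) + dd k m) / DDr k m n := by
    unfold gam
    field_simp
  rw [h4]
  exact div_self h3

theorem BQ_eq (n : ℕ) (e1 K L3 : ℝ) :
    BQ (QQ (k := k) (m := m) n) (rho e1 K L3) psi =
      ∑ x : XX k m, ∑ y, QQ n x y * gg n e1 K L3 x y := by
  rfl

end EntRF

end
end

section

section

/-!
# E3 : classes and `V`-type transitions

`hV x y ≠ 0`: same part and `ε`, `VK i x.1 y.1` for some `i`.
* `x` special: `y` has level `some i` and colour 0 at `i`, so `cls y ∈ {A,B,C,D}`; if `cls x = X` the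
  site at `i` is `A`, `B j` or `C` and the part is 0, so `cls y ∈ {A, B, C}`.
* `cls x ∈ {A,B,C,D}`, `x.1.1 = some i`: if `y` is special then the kind is `i` and the site of `y`
  at `i` is that of `x`. Count special `y`: tag 3, two free sites: `3 |S|^2`. Those of class `X`: the
  rotation of `(A, B_j, C)` is determined by the position `i` and the type of the site: for `A`, `C`
  there remain `k` choices of `j` (times 3 tags), for `B j` only 1 (times 3 tags), for `W` or part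
  `≠ 0` none.
* `y` of class `A,B,C,D` with `x` of level `some i`: kind `i' ≠ i` (2 choices), `y.1.1 = some i''` with
  `i'' = -(i+i')`, colour 0 at `i''`; free: tag (3), site at `i''` (`|S|`), colour and site at `i`
  (`(m+1)|S|`): total `6 (m+1) |S|^2`.
* `hV_X_A` etc.: for `cls x = X` each of the classes `A`, `B`, `C` receives exactly one kind, i.e.
  `3 ((m+1)|S|)^2 = dd/3` neighbours.
-/

noncomputable section

namespace EntRF

open Finset
open scoped Classical

variable {k m : ℕ}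

/-! ### counting -/

private theorem e3_card (k : ℕ) : Fintype.card (Site k) = 3 * (k + 2) := by
  have e : Site k ≃ Unit ⊕ Unit ⊕ Fin k ⊕ Fin (2 * (k + 2)) :=
    { toFun := fun s => match s with
        | .A => Sum.inl ()
        | .C => Sum.inr (Sum.inl ())
        | .B j => Sum.inr (Sum.inr (Sum.inl j))
        | .W w => Sum.inr (Sum.inr (Sum.inr w))
      invFun := fun s => match s with
        | Sum.inl _ => .A
        | Sum.inr (Sum.inl _) => .C
        | Sum.inr (Sum.inr (Sum.inl j)) => .B j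
        | Sum.inr (Sum.inr (Sum.inr w)) => .W w
      left_inv := fun s => by cases s <;> rfl
      right_inv := fun s => by
        rcases s with _ | _ | _ | _ <;> rfl }
  rw [Fintype.card_congr e]
  simp only [Fintype.card_sum, Fintype.card_unit, Fintype.card_fin]
  ring

private theorem e3_prod3 (f : ZMod 3 → ℝ) (i : ZMod 3) :
    ∏ l, f l = f i * f (i + 1) * f (i + 2) := by
  have h0 : ∏ l, f l = f 0 * f 1 * f 2 := Fin.prod_univ_three f
  have h : ∀ i : ZMod 3, i = 0 ∨ i = 1 ∨ i = 2 := by decide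
  rw [h0]
  rcases h i with rfl | rfl | rfl
  · have a1 : (0 : ZMod 3) + 1 = 1 := by decide
    have a2 : (0 : ZMod 3) + 2 = 2 := by decide
    rw [a1, a2]
  · have a1 : (1 : ZMod 3) + 1 = 2 := by decide
    have a2 : (1 : ZMod 3) + 2 = 0 := by decide
    rw [a1, a2]
    ring
  · have a1 : (2 : ZMod 3) + 1 = 0 := by decide
    have a2 : (2 : ZMod 3) + 2 = 1 := by decide
    rw [a1, a2]
    ring

private theorem e3_cnt (ℓ : Option (ZMod 3)) (C : ZMod 3 → Finset (Fin (m + 1)))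
    (T : ZMod 3 → Finset (Site k)) :
    ∑ y : Om (Fin (m + 1)) (Site k),
      (if y.1 = ℓ ∧ (∀ l, y.2.2.1 l ∈ C l) ∧ (∀ l, y.2.2.2 l ∈ T l) then (1 : ℝ) else 0) =
      3 * (∏ l, ((C l).card : ℝ)) * ∏ l, ((T l).card : ℝ) := by
  have h1 : (univ.filter fun y : Om (Fin (m + 1)) (Site k) =>
      y.1 = ℓ ∧ (∀ l, y.2.2.1 l ∈ C l) ∧ (∀ l, y.2.2.2 l ∈ T l)) =
      ({ℓ} : Finset (Option (ZMod 3))) ×ˢ ((univ : Finset (ZMod 3)) ×ˢ
        (Fintype.piFinset C ×ˢ Fintype.piFinset T)) := by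
    ext y
    simp only [mem_filter, mem_univ, true_and, mem_product, mem_singleton, Fintype.mem_piFinset]
  rw [← Finset.sum_filter, h1, Finset.sum_const, nsmul_eq_mul, mul_one, card_product,
    card_product, card_product, card_singleton, Fintype.card_piFinset, Fintype.card_piFinset,
    card_univ, ZMod.card]
  push_cast
  ring

/-! ### reduction of the sums -/

private theorem e3_inner (x : XX k m) (c : XX k m → Prop) [DecidablePred c]
    (y1 : Om (Fin (m + 1)) (Site k)) :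
    ∑ q : ZMod 2 × Fin 4, (if c (y1, q) then hV x (y1, q) else 0) =
      if VA x.1 y1 ∧ c (y1, x.2) then (1 : ℝ) else 0 := by
  rw [Fintype.sum_eq_single x.2]
  · unfold hV
    by_cases h1 : c (y1, x.2)
    · rw [if_pos h1]
      by_cases h2 : VA x.1 y1
      · rw [if_pos ⟨h2, rfl, rfl⟩, if_pos ⟨h2, h1⟩]
      · rw [if_neg (fun h => h2 h.1), if_neg (fun h => h2 h.1)]
    · rw [if_neg h1, if_neg (fun h => h1 h.2)]
  · intro q hq
    have : hV x (y1, q) = 0 := by
      unfold hV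
      rw [if_neg]
      rintro ⟨-, h2, h3⟩
      exact hq (Prod.ext h2 h3)
    rw [this]
    split_ifs <;> rfl

private theorem e3_red_eq (x : XX k m) (c : XX k m → Prop) [DecidablePred c]
    (Q : Om (Fin (m + 1)) (Site k) → Prop) (h : ∀ y1, (VA x.1 y1 ∧ c (y1, x.2)) ↔ Q y1) :
    ∑ y, (if c y then hV x y else 0) = ∑ y1, if Q y1 then (1 : ℝ) else 0 := by
  rw [Fintype.sum_prod_type]
  refine Finset.sum_congr rfl (fun y1 _ => ?_)
  rw [e3_inner]
  by_cases hq : Q y1
  · rw [if_pos hq, if_pos ((h y1).2 hq)]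
  · rw [if_neg hq, if_neg (fun h' => hq ((h y1).1 h'))]

private theorem e3_red_le (x : XX k m) (c : XX k m → Prop) [DecidablePred c]
    (f : Om (Fin (m + 1)) (Site k) → ℝ) (hf : ∀ y1, 0 ≤ f y1)
    (h : ∀ y1, VA x.1 y1 → c (y1, x.2) → 1 ≤ f y1) :
    ∑ y, (if c y then hV x y else 0) ≤ ∑ y1, f y1 := by
  rw [Fintype.sum_prod_type]
  refine Finset.sum_le_sum (fun y1 _ => ?_)
  rw [e3_inner]
  split_ifs with h1
  · exact h y1 h1.1 h1.2
  · exact hf y1

/-! ### classes -/

private theorem e3_cls_some {x : XX k m} {i : ZMod 3} (h : x.1.1 = some i) :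
    cls x = if x.1.2.2.1 i = 0 then (if x.2.2 = 0 then clsS (x.1.2.2.2 i) else Cls.D)
      else Cls.O := by
  have hS : ¬ Sp x.1 := by
    intro hS
    rw [hS.1] at h
    exact absurd h (by simp)
  obtain ⟨⟨l, t, c, s⟩, e, f⟩ := x
  simp only at h
  subst h
  unfold cls
  rw [if_neg hS]

private theorem e3_isABC {a b c : Site k} (h : isABC k a b c) :
    a = Site.A ∧ (∃ j, b = Site.B j) ∧ c = Site.C := by
  cases a <;> cases b <;> cases c <;> simp [isABC] at h ⊢

private theorem e3_sp_nb {x y : XX k m} {i : ZMod 3} (hS : Sp x.1) (hV : VK i x.1 y.1)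
    (hp : y.2.2 = x.2.2) :
    cls y = if x.2.2 = 0 then clsS (x.1.2.2.2 i) else Cls.D := by
  have h1 : y.1.1 = some i := by
    rw [hV.1, hS.1]
    rfl
  have h2 : y.1.2.2.1 i = 0 := by rw [hV.2.1, hS.2 i]
  rw [e3_cls_some h1, if_pos h2, hV.2.2, hp]

private theorem e3_hV {x y : XX k m} (h : hV x y ≠ 0) :
    (∃ i, VK i x.1 y.1) ∧ y.2.1 = x.2.1 ∧ y.2.2 = x.2.2 := by
  unfold hV at h
  by_cases h' : VA x.1 y.1 ∧ y.2.1 = x.2.1 ∧ y.2.2 = x.2.2
  · exact ⟨h'.1, h'.2⟩
  · rw [if_neg h'] at h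
    exact absurd rfl h

private theorem e3_VK_symm {J S : Type} {i : ZMod 3} {x y : Om J S} (h : VK i x y) : VK i y x :=
  ⟨by rw [h.1, addL_addL], h.2.1.symm, h.2.2.symm⟩

private theorem e3_three : ∀ a i : ZMod 3, i = a ∨ i = a + 1 ∨ i = a + 2 := by
  decide

private theorem e3_sp_of_N {x : XX k m} (hx : cls x = Cls.X ∨ cls x = Cls.N) : Sp x.1 := by
  rcases hx with h | h
  · exact ((cls_X_iff x).1 h).1
  · exact ((cls_N_iff x).1 h).1

private theorem e3_clsS_ABCD (s : Site k) :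
    clsS s = Cls.A ∨ clsS s = Cls.B ∨ clsS s = Cls.C ∨ clsS s = Cls.D := by
  cases s <;> simp [clsS]

theorem hV_from_X {x y : XX k m} (hx : cls x = Cls.X) (h : hV x y ≠ 0) :
    cls y = Cls.A ∨ cls y = Cls.B ∨ cls y = Cls.C := by
  obtain ⟨⟨i, hi⟩, -, hp⟩ := e3_hV h
  obtain ⟨hS, h0, m0, hm⟩ := (cls_X_iff x).1 hx
  rw [e3_sp_nb hS hi hp, if_pos h0]
  obtain ⟨h1, ⟨j, h2⟩, h3⟩ := e3_isABC hm
  rcases e3_three m0 i with rfl | rfl | rfl
  · rw [h1]; exact Or.inl rfl
  · rw [h2]; exact Or.inr (Or.inl rfl)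
  · rw [h3]; exact Or.inr (Or.inr rfl)

private theorem e3_from_sp {x y : XX k m} (hS : Sp x.1) (hi : ∃ i, VK i x.1 y.1)
    (hp : y.2.2 = x.2.2) :
    cls y = Cls.A ∨ cls y = Cls.B ∨ cls y = Cls.C ∨ cls y = Cls.D := by
  obtain ⟨i, hi⟩ := hi
  rw [e3_sp_nb hS hi hp]
  split_ifs
  · exact e3_clsS_ABCD _
  · exact Or.inr (Or.inr (Or.inr rfl))

theorem hV_from_N {x y : XX k m} (hx : cls x = Cls.N) (h : hV x y ≠ 0) :
    cls y = Cls.A ∨ cls y = Cls.B ∨ cls y = Cls.C ∨ cls y = Cls.D := by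
  obtain ⟨hi, -, hp⟩ := e3_hV h
  exact e3_from_sp (e3_sp_of_N (Or.inr hx)) hi hp

theorem hV_from_O {x y : XX k m} (hx : cls x = Cls.O) (h : hV x y ≠ 0) :
    cls y ≠ Cls.X ∧ cls y ≠ Cls.N := by
  obtain ⟨⟨i, hi⟩, -, hp⟩ := e3_hV h
  have key : ¬ (cls y = Cls.X ∨ cls y = Cls.N) := by
    intro hy
    have h1 := e3_from_sp (x := y) (y := x) (e3_sp_of_N hy) ⟨i, e3_VK_symm hi⟩ hp.symm
    rw [hx] at h1
    rcases h1 with h1 | h1 | h1 | h1 <;> exact absurd h1 (by decide)
  exact ⟨fun h => key (Or.inl h), fun h => key (Or.inr h)⟩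

theorem hV_from_D {x y : XX k m} (hx : cls x = Cls.D) (h : hV x y ≠ 0) : cls y ≠ Cls.X := by
  intro hy
  obtain ⟨⟨i, hi⟩, he, hp⟩ := e3_hV h
  have h2 : hV y x ≠ 0 := by
    unfold hV
    rw [if_pos ⟨⟨i, e3_VK_symm hi⟩, he.symm, hp.symm⟩]
    exact one_ne_zero
  have h1 := hV_from_X hy h2
  rw [hx] at h1
  rcases h1 with h1 | h1 | h1 <;> exact absurd h1 (by decide)

/-! ### sums from class `X` -/

private theorem e3_dd (k m : ℕ) :
    (dd k m : ℝ) / 3 = 3 * ((m : ℝ) + 1) ^ 2 * (3 * ((k : ℝ) + 2)) ^ 2 := by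
  unfold dd
  push_cast
  ring

private theorem e3_cnt_VK (i : ZMod 3) (x1 : Om (Fin (m + 1)) (Site k)) :
    ∑ y1, (if VK i x1 y1 then (1 : ℝ) else 0) = (dd k m : ℝ) / 3 := by
  have h := e3_cnt (k := k) (m := m) (addL x1.1 i)
    (fun l => if l = i then {x1.2.2.1 i} else univ) (fun l => if l = i then {x1.2.2.2 i} else univ)
  have h2 : ∀ y1 : Om (Fin (m + 1)) (Site k), (if VK i x1 y1 then (1 : ℝ) else 0) =
      if y1.1 = addL x1.1 i ∧
        (∀ l, y1.2.2.1 l ∈ (if l = i then ({x1.2.2.1 i} : Finset (Fin (m + 1))) else univ)) ∧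
        (∀ l, y1.2.2.2 l ∈ (if l = i then ({x1.2.2.2 i} : Finset (Site k)) else univ))
      then (1 : ℝ) else 0 := by
    intro y1
    have e : VK i x1 y1 ↔ (y1.1 = addL x1.1 i ∧
        (∀ l, y1.2.2.1 l ∈ (if l = i then ({x1.2.2.1 i} : Finset (Fin (m + 1))) else univ)) ∧
        (∀ l, y1.2.2.2 l ∈ (if l = i then ({x1.2.2.2 i} : Finset (Site k)) else univ))) := by
      unfold VK
      constructor
      · rintro ⟨h1, h2, h3⟩
        refine ⟨h1, fun l => ?_, fun l => ?_⟩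
        · by_cases hl : l = i
          · rw [if_pos hl, hl, h2]; exact mem_singleton_self _
          · rw [if_neg hl]; exact mem_univ _
        · by_cases hl : l = i
          · rw [if_pos hl, hl, h3]; exact mem_singleton_self _
          · rw [if_neg hl]; exact mem_univ _
      · rintro ⟨h1, h2, h3⟩
        refine ⟨h1, ?_, ?_⟩
        · have := h2 i
          rw [if_pos rfl] at this
          exact mem_singleton.mp this
        · have := h3 i
          rw [if_pos rfl] at this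
          exact mem_singleton.mp this
    by_cases hv : VK i x1 y1
    · rw [if_pos hv, if_pos (e.1 hv)]
    · rw [if_neg hv, if_neg (fun h' => hv (e.2 h'))]
  rw [Finset.sum_congr rfl (fun y1 _ => h2 y1), h, e3_prod3 _ i, e3_prod3 _ i, e3_dd]
  have n1 : i + 1 ≠ i := by
    have : ∀ i : ZMod 3, i + 1 ≠ i := by decide
    exact this i
  have n2 : i + 2 ≠ i := by
    have : ∀ i : ZMod 3, i + 2 ≠ i := by decide
    exact this i
  simp only [if_true, if_neg n1, if_neg n2, card_singleton, card_univ, Fintype.card_fin, e3_card]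
  push_cast
  ring

private theorem e3_X_sum {x : XX k m} {c : Cls} {i : ZMod 3} (hS : Sp x.1) (h0 : x.2.2 = 0)
    (hi : ∀ l, clsS (x.1.2.2.2 l) = c ↔ l = i) :
    ∑ y, (if cls y = c then hV x y else 0) = (dd k m : ℝ) / 3 := by
  rw [e3_red_eq x (fun y => cls y = c) (fun y1 => VK i x.1 y1), e3_cnt_VK]
  intro y1
  constructor
  · rintro ⟨⟨l, hl⟩, hc⟩
    have h1 := e3_sp_nb (x := x) (y := (y1, x.2)) hS hl rfl
    rw [if_pos h0] at h1
    have h2 : clsS (x.1.2.2.2 l) = c := h1.symm.trans hc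
    rw [(hi l).1 h2] at hl
    exact hl
  · intro hl
    refine ⟨⟨i, hl⟩, ?_⟩
    have h1 := e3_sp_nb (x := x) (y := (y1, x.2)) hS hl rfl
    rw [if_pos h0] at h1
    exact h1.trans ((hi i).2 rfl)

private theorem e3_ne : ∀ a : ZMod 3, a + 1 ≠ a ∧ a + 2 ≠ a ∧ a + 2 ≠ a + 1 := by
  decide

theorem hV_X_A {x : XX k m} (hx : cls x = Cls.X) :
    ∑ y, (if cls y = Cls.A then hV x y else 0) = (dd k m : ℝ) / 3 := by
  obtain ⟨hS, h0, m0, hm⟩ := (cls_X_iff x).1 hx
  obtain ⟨h1, ⟨j, h2⟩, h3⟩ := e3_isABC hm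
  refine e3_X_sum (i := m0) hS h0 (fun l => ?_)
  obtain ⟨n1, n2, n3⟩ := e3_ne m0
  rcases e3_three m0 l with rfl | rfl | rfl
  · rw [h1]; simp [clsS]
  · rw [h2]; simp [clsS, n1]
  · rw [h3]; simp [clsS, n2]

theorem hV_X_B {x : XX k m} (hx : cls x = Cls.X) :
    ∑ y, (if cls y = Cls.B then hV x y else 0) = (dd k m : ℝ) / 3 := by
  obtain ⟨hS, h0, m0, hm⟩ := (cls_X_iff x).1 hx
  obtain ⟨h1, ⟨j, h2⟩, h3⟩ := e3_isABC hm
  refine e3_X_sum (i := m0 + 1) hS h0 (fun l => ?_)
  obtain ⟨n1, n2, n3⟩ := e3_ne m0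
  rcases e3_three m0 l with rfl | rfl | rfl
  · rw [h1]; simp only [clsS, n1.symm, iff_false]; decide
  · rw [h2]; simp [clsS]
  · rw [h3]; simp only [clsS, n3, iff_false]; decide

theorem hV_X_C {x : XX k m} (hx : cls x = Cls.X) :
    ∑ y, (if cls y = Cls.C then hV x y else 0) = (dd k m : ℝ) / 3 := by
  obtain ⟨hS, h0, m0, hm⟩ := (cls_X_iff x).1 hx
  obtain ⟨h1, ⟨j, h2⟩, h3⟩ := e3_isABC hm
  refine e3_X_sum (i := m0 + 2) hS h0 (fun l => ?_)
  obtain ⟨n1, n2, n3⟩ := e3_ne m0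
  rcases e3_three m0 l with rfl | rfl | rfl
  · rw [h1]; simp only [clsS, n2.symm, iff_false]; decide
  · rw [h2]; simp only [clsS, n3.symm, iff_false]; decide
  · rw [h3]; simp [clsS]

/-! ### sums into `X`, `N` -/

private theorem e3_addL_none : ∀ i i' : ZMod 3, addL (some i) i' = none → i' = i := by
  decide

private theorem e3_nb_sp {x y : XX k m} {i i' : ZMod 3} (hx : x.1.1 = some i) (hy : Sp y.1)
    (h : VK i' x.1 y.1) : y.1.2.2.2 i = x.1.2.2.2 i := by
  have h1 : addL (some i) i' = none := by rw [← hx, ← h.1, hy.1]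
  have h2 := e3_addL_none i i' h1
  rw [← h2]
  exact h.2.2

private theorem e3_le_cnt (x : XX k m) (c : XX k m → Prop) [DecidablePred c]
    (ℓ : Option (ZMod 3)) (C : ZMod 3 → Finset (Fin (m + 1)))
    (T : ZMod 3 → Finset (Site k)) (r : ℝ)
    (h : ∀ y1, VA x.1 y1 → c (y1, x.2) →
      y1.1 = ℓ ∧ (∀ l, y1.2.2.1 l ∈ C l) ∧ (∀ l, y1.2.2.2 l ∈ T l))
    (hr : 3 * (∏ l, ((C l).card : ℝ)) * ∏ l, ((T l).card : ℝ) ≤ r) :
    ∑ y, (if c y then hV x y else 0) ≤ r := by
  refine le_trans (e3_red_le x c (fun y1 =>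
    if y1.1 = ℓ ∧ (∀ l, y1.2.2.1 l ∈ C l) ∧ (∀ l, y1.2.2.2 l ∈ T l) then (1 : ℝ) else 0)
    (fun y1 => by split_ifs <;> norm_num) (fun y1 h1 h2 => ?_)) ?_
  · rw [if_pos (h y1 h1 h2)]
  · rw [e3_cnt]
    exact hr

private theorem e3_rot {s : ZMod 3 → Site k} (h : rABC k s) (i : ZMod 3) :
    (s i = Site.A → (∃ j, s (i + 1) = Site.B j) ∧ s (i + 2) = Site.C) ∧
    ((∃ j, s i = Site.B j) → s (i + 1) = Site.C ∧ s (i + 2) = Site.A) ∧
    (s i = Site.C → s (i + 1) = Site.A ∧ ∃ j, s (i + 2) = Site.B j) := by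
  obtain ⟨m0, hm⟩ := h
  obtain ⟨h1, ⟨j, h2⟩, h3⟩ := e3_isABC hm
  have e3 : ∀ a : ZMod 3, a + 1 + 1 = a + 2 ∧ a + 1 + 2 = a ∧ a + 2 + 1 = a ∧ a + 2 + 2 = a + 1 := by
    decide
  obtain ⟨a1, a2, a3, a4⟩ := e3 m0
  rcases e3_three m0 i with rfl | rfl | rfl
  · refine ⟨fun _ => ⟨⟨j, h2⟩, h3⟩, ?_, ?_⟩
    · rintro ⟨j', hj'⟩
      rw [h1] at hj'
      exact absurd hj' (by simp)
    · intro h4
      rw [h1] at h4
      exact absurd h4 (by simp)
  · rw [a1, a2]
    refine ⟨?_, fun _ => ⟨h3, h1⟩, ?_⟩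
    · intro h4
      rw [h2] at h4
      exact absurd h4 (by simp)
    · intro h4
      rw [h2] at h4
      exact absurd h4 (by simp)
  · rw [a3, a4]
    refine ⟨?_, ?_, fun _ => ⟨h1, j, h2⟩⟩
    · intro h4
      rw [h3] at h4
      exact absurd h4 (by simp)
    · rintro ⟨j', hj'⟩
      rw [h3] at hj'
      exact absurd hj' (by simp)

private theorem e3_zero_col {y : Om (Fin (m + 1)) (Site k)} (hy : Sp y) (l : ZMod 3) :
    y.2.2.1 l ∈ ({0} : Finset (Fin (m + 1))) := by
  rw [mem_singleton]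
  exact hy.2 l

private theorem e3_allT {T : ZMod 3 → Finset (Site k)} {s : ZMod 3 → Site k} (i : ZMod 3)
    (h0 : s i ∈ T i) (h1 : s (i + 1) ∈ T (i + 1)) (h2 : s (i + 2) ∈ T (i + 2)) :
    ∀ l, s l ∈ T l := by
  intro l
  rcases e3_three i l with rfl | rfl | rfl
  · exact h0
  · exact h1
  · exact h2

/-- the finset of the sites `B j` -/
private def e3_Bs (k : ℕ) : Finset (Site k) := univ.image (fun j : Fin k => Site.B j)

private theorem e3_Bs_card (k : ℕ) : ((e3_Bs k).card : ℝ) ≤ k := by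
  have h : (e3_Bs k).card ≤ k := by
    refine le_trans card_image_le ?_
    rw [card_univ, Fintype.card_fin]
  exact_mod_cast h

theorem hV_AC_X {x : XX k m} (hx : cls x = Cls.A ∨ cls x = Cls.C) :
    ∑ y, (if cls y = Cls.X then hV x y else 0) ≤ 3 * (k : ℝ) := by
  rcases hx with hx | hx
  · obtain ⟨i, hi, -, -, hs⟩ := (cls_A_iff x).1 hx
    obtain ⟨n1, n2, n3⟩ := e3_ne i
    refine e3_le_cnt x (fun y => cls y = Cls.X) none (fun _ => {0})
      (fun l => if l = i then {Site.A} else if l = i + 1 then e3_Bs k else {Site.C}) _ ?_ ?_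
    · intro y1 hVA hy
      obtain ⟨hS, -, hr⟩ := (cls_X_iff _).1 hy
      obtain ⟨i', hi'⟩ := hVA
      have h1 := e3_nb_sp (x := x) (y := (y1, x.2)) hi hS hi'
      rw [hs] at h1
      obtain ⟨⟨j, h2⟩, h3⟩ := (e3_rot hr i).1 h1
      refine ⟨hS.1, fun l => e3_zero_col hS l, e3_allT i ?_ ?_ ?_⟩
      · rw [if_pos rfl, mem_singleton]; exact h1
      · rw [if_neg n1, if_pos rfl]
        exact mem_image.2 ⟨j, mem_univ _, h2.symm⟩
      · rw [if_neg n2, if_neg n3, mem_singleton]; exact h3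
    · rw [e3_prod3 _ i, e3_prod3 _ i]
      simp only [if_true, if_neg n1, if_neg n2, if_neg n3, card_singleton]
      have := e3_Bs_card k
      push_cast
      linarith
  · obtain ⟨i, hi, -, -, hs⟩ := (cls_C_iff x).1 hx
    obtain ⟨n1, n2, n3⟩ := e3_ne i
    refine e3_le_cnt x (fun y => cls y = Cls.X) none (fun _ => {0})
      (fun l => if l = i then {Site.C} else if l = i + 1 then {Site.A} else e3_Bs k) _ ?_ ?_
    · intro y1 hVA hy
      obtain ⟨hS, -, hr⟩ := (cls_X_iff _).1 hy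
      obtain ⟨i', hi'⟩ := hVA
      have h1 := e3_nb_sp (x := x) (y := (y1, x.2)) hi hS hi'
      rw [hs] at h1
      obtain ⟨h2, ⟨j, h3⟩⟩ := (e3_rot hr i).2.2 h1
      refine ⟨hS.1, fun l => e3_zero_col hS l, e3_allT i ?_ ?_ ?_⟩
      · rw [if_pos rfl, mem_singleton]; exact h1
      · rw [if_neg n1, if_pos rfl, mem_singleton]; exact h2
      · rw [if_neg n2, if_neg n3]
        exact mem_image.2 ⟨j, mem_univ _, h3.symm⟩
    · rw [e3_prod3 _ i, e3_prod3 _ i]
      simp only [if_true, if_neg n1, if_neg n2, if_neg n3, card_singleton]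
      have := e3_Bs_card k
      push_cast
      linarith

theorem hV_B_X {x : XX k m} (hx : cls x = Cls.B) :
    ∑ y, (if cls y = Cls.X then hV x y else 0) ≤ 3 := by
  obtain ⟨i, hi, -, -, j, hs⟩ := (cls_B_iff x).1 hx
  obtain ⟨n1, n2, n3⟩ := e3_ne i
  refine e3_le_cnt x (fun y => cls y = Cls.X) none (fun _ => {0})
    (fun l => if l = i then {Site.B j} else if l = i + 1 then {Site.C} else {Site.A}) _ ?_ ?_
  · intro y1 hVA hy
    obtain ⟨hS, -, hr⟩ := (cls_X_iff _).1 hy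
    obtain ⟨i', hi'⟩ := hVA
    have h1 := e3_nb_sp (x := x) (y := (y1, x.2)) hi hS hi'
    rw [hs] at h1
    obtain ⟨h2, h3⟩ := (e3_rot hr i).2.1 ⟨j, h1⟩
    refine ⟨hS.1, fun l => e3_zero_col hS l, e3_allT i ?_ ?_ ?_⟩
    · rw [if_pos rfl, mem_singleton]; exact h1
    · rw [if_neg n1, if_pos rfl, mem_singleton]; exact h2
    · rw [if_neg n2, if_neg n3, mem_singleton]; exact h3
  · rw [e3_prod3 _ i, e3_prod3 _ i]
    simp only [if_true, if_neg n1, if_neg n2, if_neg n3, card_singleton]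
    norm_num

theorem hV_ABCD_XN {x : XX k m}
    (hx : cls x = Cls.A ∨ cls x = Cls.B ∨ cls x = Cls.C ∨ cls x = Cls.D) :
    ∑ y, (if cls y = Cls.X ∨ cls y = Cls.N then hV x y else 0) ≤ 3 * sS k ^ 2 := by
  obtain ⟨i, hi, -⟩ := (cls_ABCD_iff x).1 hx
  obtain ⟨n1, n2, n3⟩ := e3_ne i
  refine e3_le_cnt x (fun y => cls y = Cls.X ∨ cls y = Cls.N) none (fun _ => {0})
    (fun l => if l = i then {x.1.2.2.2 i} else univ) _ ?_ ?_
  · intro y1 hVA hy
    have hS := e3_sp_of_N hy
    obtain ⟨i', hi'⟩ := hVA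
    have h1 := e3_nb_sp (x := x) (y := (y1, x.2)) hi hS hi'
    refine ⟨hS.1, fun l => e3_zero_col hS l, e3_allT i ?_ ?_ ?_⟩
    · rw [if_pos rfl, mem_singleton]; exact h1
    · rw [if_neg n1]; exact mem_univ _
    · rw [if_neg n2]; exact mem_univ _
  · rw [e3_prod3 _ i, e3_prod3 _ i]
    simp only [if_true, if_neg n1, if_neg n2, card_singleton, card_univ, e3_card]
    unfold sS
    push_cast
    apply le_of_eq
    ring

private theorem e3_addL_some : ∀ i i' i'' : ZMod 3, addL (some i) i' = some i'' →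
    (i' = i + 1 ∧ i'' = i + 2) ∨ (i' = i + 2 ∧ i'' = i + 1) := by
  decide

theorem hV_ABCD_ABCD {x : XX k m}
    (hx : cls x = Cls.A ∨ cls x = Cls.B ∨ cls x = Cls.C ∨ cls x = Cls.D) :
    ∑ y, (if cls y = Cls.A ∨ cls y = Cls.B ∨ cls y = Cls.C ∨ cls y = Cls.D then hV x y else 0) ≤
      6 * (m + 1) * sS k ^ 2 := by
  obtain ⟨i, hi, -⟩ := (cls_ABCD_iff x).1 hx
  obtain ⟨n1, n2, n3⟩ := e3_ne i
  -- kind `i + 1`, new level `some (i + 2)`; kind `i + 2`, new level `some (i + 1)`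
  let C1 : ZMod 3 → Finset (Fin (m + 1)) := fun l =>
    if l = i then univ else if l = i + 1 then {x.1.2.2.1 (i + 1)} else {0}
  let T1 : ZMod 3 → Finset (Site k) := fun l =>
    if l = i then univ else if l = i + 1 then {x.1.2.2.2 (i + 1)} else univ
  let C2 : ZMod 3 → Finset (Fin (m + 1)) := fun l =>
    if l = i then univ else if l = i + 1 then {0} else {x.1.2.2.1 (i + 2)}
  let T2 : ZMod 3 → Finset (Site k) := fun l =>
    if l = i then univ else if l = i + 1 then univ else {x.1.2.2.2 (i + 2)}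
  have hall : ∀ {X : Type} {F : ZMod 3 → Finset X} {s : ZMod 3 → X},
      s i ∈ F i → s (i + 1) ∈ F (i + 1) → s (i + 2) ∈ F (i + 2) → ∀ l, s l ∈ F l := by
    intro X F s h0 h1 h2 l
    rcases e3_three i l with rfl | rfl | rfl
    · exact h0
    · exact h1
    · exact h2
  refine le_trans (e3_red_le x
    (fun y => cls y = Cls.A ∨ cls y = Cls.B ∨ cls y = Cls.C ∨ cls y = Cls.D)
    (fun y1 => (if y1.1 = some (i + 2) ∧ (∀ l, y1.2.2.1 l ∈ C1 l) ∧ (∀ l, y1.2.2.2 l ∈ T1 l)
        then (1 : ℝ) else 0) +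
      (if y1.1 = some (i + 1) ∧ (∀ l, y1.2.2.1 l ∈ C2 l) ∧ (∀ l, y1.2.2.2 l ∈ T2 l)
        then (1 : ℝ) else 0)) (fun y1 => by split_ifs <;> norm_num) (fun y1 h1 h2 => ?_)) ?_
  · obtain ⟨i'', hl, hc⟩ := (cls_ABCD_iff _).1 h2
    obtain ⟨i', hV⟩ := h1
    simp only at hl hc
    have h3 : addL (some i) i' = some i'' := by rw [← hi, ← hV.1, hl]
    rcases e3_addL_some i i' i'' h3 with ⟨ha, hb⟩ | ⟨ha, hb⟩
    · subst ha hb
      have hA : y1.1 = some (i + 2) ∧ (∀ l, y1.2.2.1 l ∈ C1 l) ∧ (∀ l, y1.2.2.2 l ∈ T1 l) := by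
        refine ⟨hl, hall ?_ ?_ ?_, hall ?_ ?_ ?_⟩
        · simp [C1]
        · simp only [C1, if_neg n1, if_true, mem_singleton]; exact hV.2.1
        · simp only [C1, if_neg n2, if_neg n3, mem_singleton]; exact hc
        · simp [T1]
        · simp only [T1, if_neg n1, if_true, mem_singleton]; exact hV.2.2
        · simp only [T1, if_neg n2, if_neg n3]; exact mem_univ _
      rw [if_pos hA]
      have : (0 : ℝ) ≤ (if y1.1 = some (i + 1) ∧ (∀ l, y1.2.2.1 l ∈ C2 l) ∧
        (∀ l, y1.2.2.2 l ∈ T2 l) then (1 : ℝ) else 0) := by split_ifs <;> norm_num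
      linarith
    · subst ha hb
      have hB : y1.1 = some (i + 1) ∧ (∀ l, y1.2.2.1 l ∈ C2 l) ∧ (∀ l, y1.2.2.2 l ∈ T2 l) := by
        refine ⟨hl, hall ?_ ?_ ?_, hall ?_ ?_ ?_⟩
        · simp [C2]
        · simp only [C2, if_neg n1, if_true, mem_singleton]; exact hc
        · simp only [C2, if_neg n2, if_neg n3, mem_singleton]; exact hV.2.1
        · simp [T2]
        · simp only [T2, if_neg n1, if_true]; exact mem_univ _
        · simp only [T2, if_neg n2, if_neg n3, mem_singleton]; exact hV.2.2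
      rw [if_pos hB]
      have : (0 : ℝ) ≤ (if y1.1 = some (i + 2) ∧ (∀ l, y1.2.2.1 l ∈ C1 l) ∧
        (∀ l, y1.2.2.2 l ∈ T1 l) then (1 : ℝ) else 0) := by split_ifs <;> norm_num
      linarith
  · rw [Finset.sum_add_distrib, e3_cnt, e3_cnt]
    rw [e3_prod3 _ i, e3_prod3 _ i, e3_prod3 _ i, e3_prod3 _ i]
    simp only [C1, C2, T1, T2, if_true, if_neg n1, if_neg n2, if_neg n3, card_singleton,
      card_univ, e3_card, Fintype.card_fin]
    unfold sS
    push_cast
    apply le_of_eq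
    ring

end EntRF

end
end

section

/-!
# E6 : bounds for `R_x = ∑ z, Q x z ρ z` and for `∑ z, Q x z ψ z - ψ x`

Write `Q = γ (hP + hU) + hV/DD` (`QQ_eq`), `∑ (hP + hU) = b1`, `∑ hV = dd ≤ DD`,
`3/DD ≤ 3/dd = r`.
`ρ ≤ 1` everywhere and `ρ ≤ k η` on `A, B, C, D, O`, where `k η = k K r ≤ 1/24`, `k η ≤ e1`.
(`kη ≤ e1`: `k K ≤ |S|^2 e1` and `r = 3/dd = 1/(3 ((m+1)|S|)^2) ≤ 1/(3 |S|^2)`.)
* `RR_X ≤ γ b1 + k η`: `V`-neighbours are in `A,B,C`. `RR_N ≤ γ b1 + k η ≤ 2 e1`.
* `A`, `C`: `H`-neighbours and nonspecial `V`-neighbours have `ρ ≤ k η`; `X`-neighbours: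
  `≤ 3k/DD ≤ k r`; `N`-neighbours: `≤ e1 * 3|S|^2/DD ≤ |S|^2 e1 r`. Total
  `≤ (k + |S|^2 e1 + k K) r ≤ 2 k r`. `B`: `≤ (1 + |S|^2 e1 + k K) r ≤ 2 r`. `D`: no `X`-neighbours:
  `≤ (|S|^2 e1 + k K) r ≤ 2 |S|^2 e1 r`. `O`: all neighbours in `A,B,C,D,O`: `≤ k η = k K r`.
* `DP_X`: the `V`-part of `∑ z, Q x z (ψ z - ψ x)` is `sg * (dd/3)/DD * (2 + 2 - 4) = 0` by `hV_X_A`,
  `hV_X_B`, `hV_X_C`, `hV_from_X`; in the `H`-part `|ψ z - ψ x| ≤ 2` (classes `X`, `N`).
-/

noncomputable section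

namespace EntRF

open Finset
open scoped Classical

variable {k m n : ℕ} {e1 K L3 : ℝ}

private theorem e6_k (h : EHyp k m n e1 K L3) : (1 : ℝ) ≤ k := by exact_mod_cast h.hk

private theorem e6_S (k : ℕ) : (0 : ℝ) < sS k := by
  unfold sS
  positivity

private theorem e6_S9 (h : EHyp k m n e1 K L3) : (9 : ℝ) ≤ sS k := by
  unfold sS
  have := e6_k h
  linarith

private theorem e6_rr (k m : ℕ) : rr k m * (3 * sS k ^ 2) ≤ 1 := by
  have h1 : (dd k m : ℝ) = 9 * ((m + 1) * sS k) ^ 2 := by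
    unfold dd sS
    push_cast
    ring
  unfold rr
  rw [h1]
  have hS := e6_S k
  have h2 : (0 : ℝ) < 9 * ((m + 1) * sS k) ^ 2 := by positivity
  rw [div_mul_eq_mul_div, div_le_one h2]
  have h3 : (1 : ℝ) ≤ ((m : ℝ) + 1) ^ 2 := by
    have : (0 : ℝ) ≤ m := Nat.cast_nonneg m
    nlinarith
  have h4 : (0 : ℝ) < sS k ^ 2 := by positivity
  rw [mul_pow]
  nlinarith

theorem eta_pos (h : EHyp k m n e1 K L3) : 0 < eta k m K := by
  unfold eta
  exact mul_pos h.hK0 (rr_pos k m)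

theorem keta_le (h : EHyp k m n e1 K L3) : k * eta k m K ≤ 1 / 24 := by
  unfold eta
  have h1 := rr_pos k m
  have h2 := rr_le k m
  have h3 := h.hK1
  have h4 : (0 : ℝ) ≤ k * K := mul_nonneg (Nat.cast_nonneg k) h.hK0.le
  calc (k : ℝ) * (K * rr k m) = (k * K) * rr k m := by ring
    _ ≤ (1 / 8) * (1 / 3) := mul_le_mul h3 h2 h1.le (by norm_num)
    _ = 1 / 24 := by norm_num

theorem keta_le_e1 (h : EHyp k m n e1 K L3) : k * eta k m K ≤ e1 := by
  unfold eta
  have h1 := rr_pos k m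
  have h2 := e6_rr k m
  have h3 := h.hK2
  have h4 := h.he0
  calc (k : ℝ) * (K * rr k m) = (k * K) * rr k m := by ring
    _ ≤ (sS k ^ 2 * e1) * rr k m := mul_le_mul_of_nonneg_right h3 h1.le
    _ = (1 / 3 * e1) * (rr k m * (3 * sS k ^ 2)) := by ring
    _ ≤ (1 / 3 * e1) * 1 := mul_le_mul_of_nonneg_left h2 (by positivity)
    _ ≤ e1 := by linarith

private theorem e6_e1 (h : EHyp k m n e1 K L3) : e1 ≤ 1 := by
  have h1 := h.hS
  have h2 := e6_S9 h
  have h3 := h.he0
  have h4 : (1 : ℝ) ≤ sS k ^ 2 := by nlinarith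
  nlinarith

private theorem e6_eta_le (h : EHyp k m n e1 K L3) : eta k m K ≤ k * eta k m K := by
  have h1 := e6_k h
  have h2 := eta_pos h
  nlinarith

private theorem e6_exp (h : EHyp k m n e1 K L3) : Real.exp (-L3) ≤ 1 := by
  rw [Real.exp_le_one_iff]
  have := h.hL3
  linarith

theorem rho_pos (h : EHyp k m n e1 K L3) (x : XX k m) : 0 < rho e1 K L3 x := by
  have h1 := eta_pos h
  have h2 := e6_k h
  have h3 := h.he0
  have h4 := Real.exp_pos (-L3)
  unfold rho
  cases cls x <;> simp only [rv] <;> positivity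

theorem rho_le_keta (h : EHyp k m n e1 K L3) (x : XX k m) (h1 : cls x ≠ Cls.X)
    (h2 : cls x ≠ Cls.N) : rho e1 K L3 x ≤ k * eta k m K := by
  have a1 := eta_pos h
  have a2 := e6_eta_le h
  have a3 := e6_e1 h
  have a4 := e6_exp h
  have a5 : e1 * eta k m K ≤ eta k m K := by nlinarith
  have a6 : eta k m K * Real.exp (-L3) ≤ eta k m K := by nlinarith
  unfold rho
  revert h1 h2
  cases cls x <;> simp only [rv] <;> intro h1 h2
  · exact absurd rfl h1
  · exact absurd rfl h2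
  · exact le_rfl
  · exact a2
  · exact le_rfl
  · exact a5.trans a2
  · exact a6.trans a2

theorem rho_le_one (h : EHyp k m n e1 K L3) (x : XX k m) : rho e1 K L3 x ≤ 1 := by
  by_cases h1 : cls x = Cls.X
  · unfold rho
    rw [h1]
    exact le_rfl
  · by_cases h2 : cls x = Cls.N
    · unfold rho
      rw [h2]
      exact e6_e1 h
    · have h3 := rho_le_keta h x h1 h2
      have h4 := keta_le h
      linarith

theorem RR_nonneg (h : EHyp k m n e1 K L3) (x : XX k m) : 0 ≤ RR n e1 K L3 x := by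
  unfold RR
  exact sum_nonneg (fun z _ => mul_nonneg (QQ_nonneg h.hk n x z) (rho_pos h z).le)

private theorem e6_DD (k m n : ℕ) : 0 < DDr k m n := lt_of_lt_of_le (dd_pos k m) (DDr_ge k m n)

private theorem e6_three (k m n : ℕ) : 3 / DDr k m n ≤ rr k m := by
  unfold rr
  exact div_le_div_of_nonneg_left (by norm_num) (dd_pos k m) (DDr_ge k m n)

private theorem e6_ddDD (k m n : ℕ) : (dd k m : ℝ) / DDr k m n ≤ 1 := by
  rw [div_le_one (e6_DD k m n)]
  exact DDr_ge k m n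

private theorem e6_tot (k m n : ℕ) : gam k m n * b1 k + (dd k m : ℝ) / DDr k m n = 1 := by
  have h1 := e6_DD k m n
  have h2 : DDr k m n = n * b1 k + dd k m := rfl
  unfold gam
  rw [div_mul_eq_mul_div, ← add_div, ← h2, div_self h1.ne']

private theorem e6_hH_sum (hk : 1 ≤ k) (x : XX k m) : ∑ y, (hP x y + hU x y) = b1 k := by
  rw [sum_add_distrib, hP_sum hk, hU_sum]
  rfl

private theorem e6_hH_nn (hk : 1 ≤ k) (x y : XX k m) : 0 ≤ hP x y + hU x y :=
  add_nonneg (hP_nonneg hk x y) (hU_nonneg x y)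

private theorem e6_hH_blk {x y : XX k m} (h : hP x y + hU x y ≠ 0) :
    blk (cls x) = blk (cls y) := by
  by_cases h1 : hP x y = 0
  · rw [h1, zero_add] at h
    apply blk_of_bk
    unfold hU at h
    by_contra h2
    exact h (if_neg (fun h3 => h2 h3.1))
  · exact blk_of_bk (hP_bk h1)

/-- splitting of sums against `QQ` -/
private theorem e6_split (n : ℕ) (x : XX k m) (f : XX k m → ℝ) :
    ∑ z, QQ n x z * f z = gam k m n * ∑ z, (hP x z + hU x z) * f z +
      1 / DDr k m n * ∑ z, hV x z * f z := by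
  rw [mul_sum, mul_sum, ← sum_add_distrib]
  refine sum_congr rfl (fun z _ => ?_)
  rw [QQ_eq]
  ring

private theorem e6_H (hk : 1 ≤ k) (x : XX k m) (f : XX k m → ℝ) (c : ℝ)
    (hf : ∀ z, hP x z + hU x z ≠ 0 → f z ≤ c) :
    gam k m n * ∑ z, (hP x z + hU x z) * f z ≤ gam k m n * b1 k * c := by
  have h1 : ∑ z, (hP x z + hU x z) * f z ≤ b1 k * c := by
    rw [← e6_hH_sum hk x, sum_mul]
    refine sum_le_sum (fun z _ => ?_)
    by_cases h2 : hP x z + hU x z = 0
    · rw [h2, zero_mul, zero_mul]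
    · exact mul_le_mul_of_nonneg_left (hf z h2) (e6_hH_nn hk x z)
  rw [mul_assoc]
  exact mul_le_mul_of_nonneg_left h1 (gam_nonneg k m n)

private theorem e6_V (x : XX k m) (f : XX k m → ℝ) (c s : ℝ) (hc : 0 ≤ c)
    (g : XX k m → ℝ) (hg : ∑ z, g z ≤ s)
    (hf : ∀ z, hV x z ≠ 0 → hV x z * f z ≤ g z + hV x z * c) (hg0 : ∀ z, 0 ≤ g z) :
    1 / DDr k m n * ∑ z, hV x z * f z ≤ 1 / DDr k m n * s + (dd k m : ℝ) / DDr k m n * c := by
  have h1 : ∑ z, hV x z * f z ≤ s + dd k m * c := by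
    calc ∑ z, hV x z * f z ≤ ∑ z, (g z + hV x z * c) := by
          refine sum_le_sum (fun z _ => ?_)
          by_cases h2 : hV x z = 0
          · rw [h2, zero_mul, zero_mul, add_zero]
            exact hg0 z
          · exact hf z h2
      _ = ∑ z, g z + dd k m * c := by
          rw [sum_add_distrib, ← sum_mul, hV_sum]
      _ ≤ s + dd k m * c := by linarith
  have h2 : (0 : ℝ) ≤ 1 / DDr k m n := div_nonneg zero_le_one (e6_DD k m n).le
  calc 1 / DDr k m n * ∑ z, hV x z * f z ≤ 1 / DDr k m n * (s + dd k m * c) :=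
        mul_le_mul_of_nonneg_left h1 h2
    _ = 1 / DDr k m n * s + (dd k m : ℝ) / DDr k m n * c := by ring

private theorem e6_V0 (x : XX k m) (f : XX k m → ℝ) (c : ℝ) (hc : 0 ≤ c)
    (hf : ∀ z, hV x z ≠ 0 → f z ≤ c) :
    1 / DDr k m n * ∑ z, hV x z * f z ≤ (dd k m : ℝ) / DDr k m n * c := by
  have := e6_V (n := n) x f c 0 hc (fun _ => 0) (by simp)
    (fun z hz => by
      rw [zero_add]
      exact mul_le_mul_of_nonneg_left (hf z hz) (hV_nonneg x z)) (fun _ => le_rfl)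
  simpa using this

private theorem e6_keta0 (h : EHyp k m n e1 K L3) : 0 ≤ k * eta k m K :=
  mul_nonneg (Nat.cast_nonneg k) (eta_pos h).le

private theorem e6_ABC {c : Cls} (h : c = Cls.A ∨ c = Cls.B ∨ c = Cls.C) :
    c ≠ Cls.X ∧ c ≠ Cls.N := by
  rcases h with rfl | rfl | rfl <;> exact ⟨by decide, by decide⟩

private theorem e6_ABCD {c : Cls} (h : c = Cls.A ∨ c = Cls.B ∨ c = Cls.C ∨ c = Cls.D) :
    c ≠ Cls.X ∧ c ≠ Cls.N := by
  rcases h with rfl | rfl | rfl | rfl <;> exact ⟨by decide, by decide⟩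

theorem RR_X (h : EHyp k m n e1 K L3) {x : XX k m} (hx : cls x = Cls.X) :
    RR n e1 K L3 x ≤ gam k m n * b1 k + k * eta k m K := by
  unfold RR
  rw [e6_split]
  have h1 := e6_H (n := n) h.hk x (rho e1 K L3) 1 (fun z _ => rho_le_one h z)
  have h2 := e6_V0 (n := n) x (rho e1 K L3) (k * eta k m K) (e6_keta0 h) (fun z hz => by
    have h3 := e6_ABC (hV_from_X hx hz)
    exact rho_le_keta h z h3.1 h3.2)
  have h3 := e6_ddDD k m n
  have h4 := e6_keta0 h
  have h5 : (dd k m : ℝ) / DDr k m n * (k * eta k m K) ≤ 1 * (k * eta k m K) :=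
    mul_le_mul_of_nonneg_right h3 h4
  linarith

theorem RR_N (h : EHyp k m n e1 K L3) {x : XX k m} (hx : cls x = Cls.N) :
    RR n e1 K L3 x ≤ 2 * e1 := by
  unfold RR
  rw [e6_split]
  have h1 := e6_H (n := n) h.hk x (rho e1 K L3) 1 (fun z _ => rho_le_one h z)
  have h2 := e6_V0 (n := n) x (rho e1 K L3) (k * eta k m K) (e6_keta0 h) (fun z hz => by
    have h3 := e6_ABCD (hV_from_N hx hz)
    exact rho_le_keta h z h3.1 h3.2)
  have h3 := e6_ddDD k m n
  have h4 := e6_keta0 h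
  have h5 : (dd k m : ℝ) / DDr k m n * (k * eta k m K) ≤ 1 * (k * eta k m K) :=
    mul_le_mul_of_nonneg_right h3 h4
  have h6 := h.hg1
  have h7 := keta_le_e1 h
  linarith

private theorem e6_blk1 {c : Cls} (h : c = Cls.A ∨ c = Cls.B ∨ c = Cls.C ∨ c = Cls.D) :
    blk c = 1 := by
  rcases h with rfl | rfl | rfl | rfl <;> rfl

private theorem e6_blk_ne {c : Cls} (h : blk c ≠ 0) : c ≠ Cls.X ∧ c ≠ Cls.N := by
  constructor <;> rintro rfl <;> exact h rfl

/-- the bound for `x` of class `A, B, C, D` -/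
private theorem e6_main (h : EHyp k m n e1 K L3) {x : XX k m}
    (hx : cls x = Cls.A ∨ cls x = Cls.B ∨ cls x = Cls.C ∨ cls x = Cls.D) (s : ℝ)
    (hs : ∑ y, (if cls y = Cls.X then hV x y else 0) ≤ 3 * s) :
    RR n e1 K L3 x ≤ (s + 2 * (sS k ^ 2 * e1)) * rr k m := by
  unfold RR
  rw [e6_split]
  have h1 := e6_H (n := n) h.hk x (rho e1 K L3) (k * eta k m K) (fun z hz => by
    have h3 := e6_hH_blk hz
    rw [e6_blk1 hx] at h3
    have h4 := e6_blk_ne (c := cls z) (by rw [← h3]; exact one_ne_zero)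
    exact rho_le_keta h z h4.1 h4.2)
  have he0 := h.he0
  have hXN := hV_ABCD_XN hx
  have h2 := e6_V (n := n) x (rho e1 K L3) (k * eta k m K) (3 * s + e1 * (3 * sS k ^ 2))
    (e6_keta0 h)
    (fun y => (if cls y = Cls.X then hV x y else 0) +
      e1 * (if cls y = Cls.X ∨ cls y = Cls.N then hV x y else 0))
    (by
      rw [sum_add_distrib, ← mul_sum]
      exact add_le_add hs (mul_le_mul_of_nonneg_left hXN he0.le))
    (fun z hz => by
      have hn := hV_nonneg x z
      have hkk := e6_keta0 h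
      have hnk : 0 ≤ hV x z * (k * eta k m K) := mul_nonneg hn hkk
      by_cases hX : cls z = Cls.X
      · rw [if_pos hX, if_pos (Or.inl hX)]
        have h5 : rho e1 K L3 z ≤ 1 := rho_le_one h z
        have h6 : hV x z * rho e1 K L3 z ≤ hV x z * 1 := mul_le_mul_of_nonneg_left h5 hn
        have h7 : 0 ≤ e1 * hV x z := mul_nonneg he0.le hn
        linarith
      · rw [if_neg hX]
        by_cases hN : cls z = Cls.N
        · rw [if_pos (Or.inr hN)]
          have h5 : rho e1 K L3 z = e1 := by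
            unfold rho
            rw [hN]
            rfl
          rw [h5]
          linarith [mul_comm (hV x z) e1]
        · rw [if_neg (fun h' => h'.elim hX hN)]
          have h5 := rho_le_keta h z hX hN
          have h6 := mul_le_mul_of_nonneg_left h5 hn
          linarith)
    (fun z => by
      have hn := hV_nonneg x z
      refine add_nonneg ?_ (mul_nonneg he0.le ?_) <;> split_ifs <;> first | exact hn | exact le_rfl)
  have h3 := e6_tot k m n
  have h4 := e6_three k m n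
  have h5 : (0 : ℝ) ≤ sS k ^ 2 * e1 := by positivity
  have h6 : k * eta k m K ≤ (sS k ^ 2 * e1) * rr k m := by
    unfold eta
    calc (k : ℝ) * (K * rr k m) = (k * K) * rr k m := by ring
      _ ≤ (sS k ^ 2 * e1) * rr k m := mul_le_mul_of_nonneg_right h.hK2 (rr_pos k m).le
  have hs0 : 0 ≤ s := by
    have : 0 ≤ ∑ y, (if cls y = Cls.X then hV x y else 0) :=
      sum_nonneg (fun y _ => by
        split_ifs
        · exact hV_nonneg x y
        · exact le_rfl)
    linarith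
  have h7 : 1 / DDr k m n * (3 * s + e1 * (3 * sS k ^ 2)) =
      (s + sS k ^ 2 * e1) * (3 / DDr k m n) := by ring
  have h8 : (s + sS k ^ 2 * e1) * (3 / DDr k m n) ≤ (s + sS k ^ 2 * e1) * rr k m :=
    mul_le_mul_of_nonneg_left h4 (by linarith)
  have h9 : gam k m n * b1 k * (k * eta k m K) + (dd k m : ℝ) / DDr k m n * (k * eta k m K) =
      k * eta k m K := by
    rw [← add_mul, h3, one_mul]
  have h10 : (s + 2 * (sS k ^ 2 * e1)) * rr k m =
      (s + sS k ^ 2 * e1) * rr k m + (sS k ^ 2 * e1) * rr k m := by ring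
  rw [h10]
  linarith

theorem RR_AC (h : EHyp k m n e1 K L3) {x : XX k m} (hx : cls x = Cls.A ∨ cls x = Cls.C) :
    RR n e1 K L3 x ≤ 2 * k * rr k m := by
  have h1 := e6_main h (x := x) (by rcases hx with hx | hx <;> simp [hx]) k (hV_AC_X hx)
  have h2 := h.hS
  have h3 := e6_k h
  refine h1.trans (mul_le_mul_of_nonneg_right ?_ (rr_pos k m).le)
  linarith

theorem RR_B (h : EHyp k m n e1 K L3) {x : XX k m} (hx : cls x = Cls.B) :
    RR n e1 K L3 x ≤ 2 * rr k m := by
  have h1 := e6_main h (x := x) (by simp [hx]) 1 (by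
    have := hV_B_X hx
    linarith)
  have h2 := h.hS
  refine h1.trans (mul_le_mul_of_nonneg_right ?_ (rr_pos k m).le)
  linarith

theorem RR_D (h : EHyp k m n e1 K L3) {x : XX k m} (hx : cls x = Cls.D) :
    RR n e1 K L3 x ≤ 2 * sS k ^ 2 * e1 * rr k m := by
  have h1 := e6_main h (x := x) (by simp [hx]) 0 (by
    have h2 : ∀ y : XX k m, (if cls y = Cls.X then hV x y else 0) = 0 := by
      intro y
      split_ifs with h3
      · by_contra h4
        exact hV_from_D hx h4 h3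
      · rfl
    rw [sum_congr rfl (fun y _ => h2 y)]
    simp)
  refine h1.trans (le_of_eq ?_)
  ring

theorem RR_O (h : EHyp k m n e1 K L3) {x : XX k m} (hx : cls x = Cls.O) :
    RR n e1 K L3 x ≤ k * K * rr k m := by
  unfold RR
  rw [e6_split]
  have h1 := e6_H (n := n) h.hk x (rho e1 K L3) (k * eta k m K) (fun z hz => by
    have h3 := e6_hH_blk hz
    rw [hx] at h3
    have h4 := e6_blk_ne (c := cls z) (by rw [← h3]; decide)
    exact rho_le_keta h z h4.1 h4.2)
  have h2 := e6_V0 (n := n) x (rho e1 K L3) (k * eta k m K) (e6_keta0 h) (fun z hz => by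
    have h3 := hV_from_O hx hz
    exact rho_le_keta h z h3.1 h3.2)
  have h3 := e6_tot k m n
  have h9 : gam k m n * b1 k * (k * eta k m K) + (dd k m : ℝ) / DDr k m n * (k * eta k m K) =
      k * eta k m K := by
    rw [← add_mul, h3, one_mul]
  have h10 : k * eta k m K = k * K * rr k m := by
    unfold eta
    ring
  linarith

private theorem e6_sg (e : ZMod 2) : |sg e| = 1 := by
  unfold sg
  split_ifs <;> simp

private theorem e6_pv (c : Cls) : |pv c| ≤ 3 := by
  cases c <;> simp [pv] <;> norm_num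

theorem psi_abs_le (x : XX k m) : |psi x| ≤ 3 := by
  unfold psi
  rw [abs_mul, e6_sg, one_mul]
  exact e6_pv _

theorem DP_abs_le (hk : 1 ≤ k) (n : ℕ) (x : XX k m) : |DP n x| ≤ 6 := by
  have h1 : |∑ z, QQ n x z * psi z| ≤ 3 := by
    calc |∑ z, QQ n x z * psi z| ≤ ∑ z, |QQ n x z * psi z| := abs_sum_le_sum_abs _ _
      _ ≤ ∑ z, QQ n x z * 3 := by
          refine sum_le_sum (fun z _ => ?_)
          rw [abs_mul, abs_of_nonneg (QQ_nonneg hk n x z)]
          exact mul_le_mul_of_nonneg_left (psi_abs_le z) (QQ_nonneg hk n x z)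
      _ = 3 := by
          rw [← sum_mul, QQ_sum hk, one_mul]
  have h2 := psi_abs_le x
  unfold DP
  have h3 := abs_sub (∑ z, QQ n x z * psi z) (psi x)
  linarith

private theorem e6_pv0 {c : Cls} (h : blk c = 0) : |pv c| ≤ 1 := by
  revert h
  cases c <;> intro h <;> first | (exact absurd h (by decide)) | simp [pv]

theorem DP_X (hk : 1 ≤ k) (n : ℕ) {x : XX k m} (hx : cls x = Cls.X) :
    |DP n x| ≤ 2 * (gam k m n * b1 k) := by
  have h1 : DP n x = ∑ z, QQ n x z * (psi z - psi x) := by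
    unfold DP
    have h2 : psi x = ∑ z, QQ n x z * psi x := by
      rw [← sum_mul, QQ_sum hk, one_mul]
    conv_lhs => rw [h2]
    rw [← sum_sub_distrib]
    refine sum_congr rfl (fun z _ => ?_)
    ring
  have hV0 : ∑ z, hV x z * (psi z - psi x) = 0 := by
    have h2 : ∀ z, hV x z * (psi z - psi x) =
        sg x.2.1 * (2 * (if cls z = Cls.A then hV x z else 0) +
          2 * (if cls z = Cls.B then hV x z else 0) -
          4 * (if cls z = Cls.C then hV x z else 0)) := by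
      intro z
      by_cases hz : hV x z = 0
      · rw [hz]
        simp
      · have h3 : z.2.1 = x.2.1 := by
          unfold hV at hz
          by_contra h4
          exact hz (if_neg (fun h5 => h4 h5.2.1))
        have h4 : psi x = sg x.2.1 * 1 := by
          unfold psi
          rw [hx]
          rfl
        have h5 : psi z = sg x.2.1 * pv (cls z) := by
          unfold psi
          rw [h3]
        rw [h4, h5]
        rcases hV_from_X hx hz with hc | hc | hc
        · rw [hc]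
          simp [pv]
          ring
        · rw [hc]
          simp [pv]
          ring
        · rw [hc]
          simp [pv]
          ring
    rw [sum_congr rfl (fun z _ => h2 z), ← mul_sum, sum_sub_distrib, sum_add_distrib,
      ← mul_sum, ← mul_sum, ← mul_sum, hV_X_A hx, hV_X_B hx, hV_X_C hx]
    ring
  rw [h1, e6_split, hV0, mul_zero, add_zero, abs_mul, abs_of_nonneg (gam_nonneg k m n)]
  have h3 : |∑ z, (hP x z + hU x z) * (psi z - psi x)| ≤ b1 k * 2 := by
    calc |∑ z, (hP x z + hU x z) * (psi z - psi x)|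
        ≤ ∑ z, |(hP x z + hU x z) * (psi z - psi x)| := abs_sum_le_sum_abs _ _
      _ ≤ ∑ z, (hP x z + hU x z) * 2 := by
          refine sum_le_sum (fun z _ => ?_)
          rw [abs_mul, abs_of_nonneg (e6_hH_nn hk x z)]
          by_cases hz : hP x z + hU x z = 0
          · rw [hz, zero_mul, zero_mul]
          · refine mul_le_mul_of_nonneg_left ?_ (e6_hH_nn hk x z)
            have h4 := e6_hH_blk hz
            have h5 : |psi z| ≤ 1 := by
              unfold psi
              rw [abs_mul, e6_sg, one_mul]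
              exact e6_pv0 (by rw [← h4, hx]; rfl)
            have h6 : |psi x| ≤ 1 := by
              unfold psi
              rw [abs_mul, e6_sg, one_mul]
              exact e6_pv0 (by rw [hx]; rfl)
            have h7 := abs_sub (psi z) (psi x)
            linarith
      _ = b1 k * 2 := by
          rw [← sum_mul, e6_hH_sum hk]
  calc gam k m n * |∑ z, (hP x z + hU x z) * (psi z - psi x)| ≤ gam k m n * (b1 k * 2) :=
        mul_le_mul_of_nonneg_left h3 (gam_nonneg k m n)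
    _ = 2 * (gam k m n * b1 k) := by ring

end EntRF

end
end

section

/-!
# E7 : pointwise bounds of `gg` (I)

`gg_le`: `|ψ y - ψ x| ≤ 6`, `|DP| ≤ 6`, `lm1, ρ, RR ≥ 0`, hence
`gg ≤ 18 * lm1 (ρ x) (ρ y) * RR x + 36 * logMean (ρ x) (ρ y)`.
With `L1 = log (1/e1)`, `Le = log (e1/(k η))`, `r = rr`:
* `gg_XX`: `hP x y ≠ 0` flips `ε`, so `ψ y = - ψ x`, `|ψ x| = 1`:
  `gg = 1/2 * 1/2 * (RR - 1) * 4 + (ψ y - ψ x) DP ≤ RR - 1 + 2 |DP| ≤ -1 + 5 γ b1 + k η ≤ -3/4`.
* `gg_XN`: `lm1 1 e1 ≤ 1/L1`, `logMean 1 e1 ≤ 1/L1`, `RR ≤ 1`.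
* `gg_NX`: `lm1 e1 1 ≤ (1/e1)/L1^2`, `RR ≤ 2 e1`, `L1 ≥ 1`.
* `gg_AB`: `lm1 (kη) η ≤ 1/log k`, `RR ≤ 2 k r`, `logMean ≤ k η = k K r`.
* `gg_BA`: `lm1 η (kη) ≤ k/(log k)^2`, `RR ≤ 2 r`.
* `gg_VD` (`x ∈ A,B,C`, `y ∈ D`): `lm1 (ρ x) (e1 η) ≤ 1/log (ρ x/(e1 η)) ≤ 1/L1` (`ρ x ≥ η`),
  `RR ≤ 2 k r`, `logMean ≤ k η`.
* `gg_DV` (`x ∈ D`): `lm1 (e1 η) (ρ y) ≤ (ρ y/(e1 η))/L1^2 ≤ (k/e1)/L1`, `RR ≤ 2 |S|^2 e1 r`,
  `logMean ≤ k η ≤ k |S|^2 K r`.
(Use C1, C2; note `log k ≥ 1` gives `k > 1`.)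
-/

noncomputable section

namespace EntRF

open Finset
open scoped Classical

variable {k m n : ℕ} {e1 K L3 : ℝ}

private theorem e7_L1 (h : EHyp k m n e1 K L3) : 0 < L1f e1 := lt_of_lt_of_le one_pos h.he1

private theorem e7_e1_lt (h : EHyp k m n e1 K L3) : e1 < 1 := by
  have h1 := e7_L1 h
  unfold L1f at h1
  have h2 : 1 < 1 / e1 := by
    by_contra hc
    push Not at hc
    have := Real.log_nonpos (by have := h.he0; positivity) hc
    linarith
  rwa [lt_div_iff₀ h.he0, one_mul] at h2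

private theorem e7_k (h : EHyp k m n e1 K L3) : (1 : ℝ) < k := by
  by_contra hc
  push Not at hc
  have := Real.log_nonpos (Nat.cast_nonneg k) hc
  linarith [h.hLk]

private theorem e7_eta (k m : ℕ) (K : ℝ) : eta k m K = K * rr k m := rfl

private theorem e7_lm_nonneg (h : EHyp k m n e1 K L3) (x y : XX k m) :
    0 ≤ lm1 (rho e1 K L3 x) (rho e1 K L3 y) := lm1_nonneg (rho_pos h x) (rho_pos h y)

private theorem e7_th_nonneg (h : EHyp k m n e1 K L3) (x y : XX k m) :
    0 ≤ logMean (rho e1 K L3 x) (rho e1 K L3 y) := (logMean_pos (rho_pos h x) (rho_pos h y)).le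

theorem gg_le (h : EHyp k m n e1 K L3) (x y : XX k m) :
    gg n e1 K L3 x y ≤ 18 * lm1 (rho e1 K L3 x) (rho e1 K L3 y) * RR n e1 K L3 x +
      36 * logMean (rho e1 K L3 x) (rho e1 K L3 y) := by
  have h1 := e7_lm_nonneg h x y
  have h2 := e7_th_nonneg h x y
  have h3 := RR_nonneg h x
  have h4 := (rho_pos h x).le
  have h5 := psi_abs_le x
  have h6 := psi_abs_le y
  have h7 := DP_abs_le h.hk n x
  have h8 : |psi y - psi x| ≤ 6 := by
    have := abs_sub (psi y) (psi x)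
    linarith
  have h9 : (psi y - psi x) ^ 2 ≤ 36 := by
    rw [← sq_abs]
    nlinarith [abs_nonneg (psi y - psi x)]
  have h10 : (psi y - psi x) * DP n x ≤ 36 := by
    refine (le_abs_self _).trans ?_
    rw [abs_mul]
    nlinarith [abs_nonneg (psi y - psi x), abs_nonneg (DP n x)]
  unfold gg
  have e1' : 1 / 2 * lm1 (rho e1 K L3 x) (rho e1 K L3 y) * (RR n e1 K L3 x - rho e1 K L3 x) *
      (psi y - psi x) ^ 2 ≤ 18 * lm1 (rho e1 K L3 x) (rho e1 K L3 y) * RR n e1 K L3 x := by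
    have a1 : lm1 (rho e1 K L3 x) (rho e1 K L3 y) * (RR n e1 K L3 x - rho e1 K L3 x) ≤
        lm1 (rho e1 K L3 x) (rho e1 K L3 y) * RR n e1 K L3 x :=
      mul_le_mul_of_nonneg_left (by linarith) h1
    have a2 : lm1 (rho e1 K L3 x) (rho e1 K L3 y) * (RR n e1 K L3 x - rho e1 K L3 x) *
        (psi y - psi x) ^ 2 ≤ lm1 (rho e1 K L3 x) (rho e1 K L3 y) * RR n e1 K L3 x *
        (psi y - psi x) ^ 2 := mul_le_mul_of_nonneg_right a1 (sq_nonneg _)
    have a3 : lm1 (rho e1 K L3 x) (rho e1 K L3 y) * RR n e1 K L3 x * (psi y - psi x) ^ 2 ≤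
        lm1 (rho e1 K L3 x) (rho e1 K L3 y) * RR n e1 K L3 x * 36 :=
      mul_le_mul_of_nonneg_left h9 (mul_nonneg h1 h3)
    linarith
  have e2' : logMean (rho e1 K L3 x) (rho e1 K L3 y) * (psi y - psi x) * DP n x ≤
      36 * logMean (rho e1 K L3 x) (rho e1 K L3 y) := by
    have := mul_le_mul_of_nonneg_left h10 h2
    linarith
  linarith

theorem gg_zero {x y : XX k m} (hxy : psi y = psi x) : gg n e1 K L3 x y = 0 := by
  unfold gg
  rw [hxy]
  ring

private theorem e7_sg (e : ZMod 2) : sg (e + 1) = - sg e := by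
  have he : e = 0 ∨ e = 1 := by revert e; decide
  unfold sg
  rcases he with rfl | rfl
  · have a : ((0 : ZMod 2) + 1) ≠ 0 := by decide
    rw [if_neg a, if_pos rfl]
  · have a : ((1 : ZMod 2) + 1) = 0 := by decide
    have b : (1 : ZMod 2) ≠ 0 := by decide
    rw [if_pos a, if_neg b]
    norm_num

private theorem e7_sg_abs (e : ZMod 2) : |sg e| = 1 := by
  unfold sg
  split_ifs <;> simp

theorem gg_XX (h : EHyp k m n e1 K L3) {x y : XX k m} (hx : cls x = Cls.X)
    (hy : cls y = Cls.X) (hp : hP x y ≠ 0) : gg n e1 K L3 x y ≤ -(3 / 4) := by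
  have h1 := RR_X h hx
  have h2 := DP_X h.hk n hx
  have h3 := keta_le h
  have h4 := h.hg2
  have h5 : y.2.1 = x.2.1 + 1 := by
    unfold hP at hp
    by_contra hc
    exact hp (if_neg (fun h' => hc h'.1))
  have h6 : psi y = - psi x := by
    unfold psi
    rw [hx, hy, h5, e7_sg]
    ring
  have h7 : |psi x| = 1 := by
    unfold psi
    rw [hx, abs_mul, e7_sg_abs]
    simp [pv]
  have h8 : rho e1 K L3 x = 1 := by unfold rho; rw [hx]; rfl
  have h9 : rho e1 K L3 y = 1 := by unfold rho; rw [hy]; rfl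
  have h10 : psi x ^ 2 = 1 := by rw [← sq_abs, h7]; norm_num
  have h11 : logMean 1 1 = 1 := by unfold logMean; simp
  unfold gg
  rw [h8, h9, lm1_self, h11, h6]
  have h12 : (-psi x - psi x) ^ 2 = 4 := by
    have : (-psi x - psi x) ^ 2 = 4 * psi x ^ 2 := by ring
    rw [this, h10]; norm_num
  rw [h12]
  have h13 : 1 * (-psi x - psi x) * DP n x ≤ 2 * |DP n x| := by
    refine (le_abs_self _).trans ?_
    have : 1 * (-psi x - psi x) * DP n x = -2 * (psi x * DP n x) := by ring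
    rw [this, abs_mul, abs_mul, h7]
    norm_num
  linarith

theorem gg_XN (h : EHyp k m n e1 K L3) {x y : XX k m} (hx : cls x = Cls.X)
    (hy : cls y = Cls.N) : gg n e1 K L3 x y ≤ 54 / L1f e1 := by
  have h0 := gg_le h x y
  have h8 : rho e1 K L3 x = 1 := by unfold rho; rw [hx]; rfl
  have h9 : rho e1 K L3 y = e1 := by unfold rho; rw [hy]; rfl
  have hlt := e7_e1_lt h
  have h1 := RR_X h hx
  have h3 := keta_le h
  have h4 := h.hg2
  have h5 := RR_nonneg h x
  have hl := e7_L1 h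
  have h6 : lm1 1 e1 ≤ 1 / L1f e1 := lm1_le_inv_log h.he0 hlt
  have h7 : logMean 1 e1 ≤ 1 / L1f e1 := logMean_le_div h.he0 hlt
  have hp := e7_lm_nonneg h x y
  rw [h8, h9] at h0 hp
  have h10 : lm1 1 e1 * RR n e1 K L3 x ≤ 1 / L1f e1 := by
    calc lm1 1 e1 * RR n e1 K L3 x ≤ lm1 1 e1 * 1 :=
          mul_le_mul_of_nonneg_left (by linarith) hp
      _ = lm1 1 e1 := mul_one _
      _ ≤ _ := h6
  have h11 : 54 / L1f e1 = 54 * (1 / L1f e1) := by ring
  rw [h11]
  linarith

theorem gg_NX (h : EHyp k m n e1 K L3) {x y : XX k m} (hx : cls x = Cls.N)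
    (hy : cls y = Cls.X) : gg n e1 K L3 x y ≤ 72 / L1f e1 := by
  have h0 := gg_le h x y
  have h8 : rho e1 K L3 x = e1 := by unfold rho; rw [hx]; rfl
  have h9 : rho e1 K L3 y = 1 := by unfold rho; rw [hy]; rfl
  have hlt := e7_e1_lt h
  have h1 := RR_N h hx
  have h5 := RR_nonneg h x
  have hl := e7_L1 h
  have hl1 := h.he1
  have he := h.he0
  have h6 : lm1 e1 1 ≤ (1 / e1) / L1f e1 ^ 2 := lm1_le_of_lt h.he0 hlt
  have h7 : logMean e1 1 ≤ 1 / L1f e1 := by
    rw [logMean_comm]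
    exact logMean_le_div h.he0 hlt
  have hp := e7_lm_nonneg h x y
  rw [h8, h9] at h0 hp
  have h10 : lm1 e1 1 * RR n e1 K L3 x ≤ 2 * (1 / L1f e1) := by
    calc lm1 e1 1 * RR n e1 K L3 x ≤ ((1 / e1) / L1f e1 ^ 2) * (2 * e1) :=
          mul_le_mul h6 h1 h5 (by positivity)
      _ = 2 * (1 / L1f e1 ^ 2) := by field_simp
      _ ≤ _ := by
        refine mul_le_mul_of_nonneg_left ?_ (by norm_num)
        refine one_div_le_one_div_of_le hl ?_
        nlinarith
  have h11 : 72 / L1f e1 = 72 * (1 / L1f e1) := by ring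
  rw [h11]
  linarith

private theorem e7_rho_A {x : XX k m} (hx : cls x = Cls.A) :
    rho e1 K L3 x = k * eta k m K := by unfold rho; rw [hx]; rfl

private theorem e7_rho_B {x : XX k m} (hx : cls x = Cls.B) :
    rho e1 K L3 x = eta k m K := by unfold rho; rw [hx]; rfl

private theorem e7_rho_C {x : XX k m} (hx : cls x = Cls.C) :
    rho e1 K L3 x = k * eta k m K := by unfold rho; rw [hx]; rfl

private theorem e7_rho_D {x : XX k m} (hx : cls x = Cls.D) :
    rho e1 K L3 x = e1 * eta k m K := by unfold rho; rw [hx]; rfl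

private theorem e7_eta_lt (h : EHyp k m n e1 K L3) : eta k m K < k * eta k m K := by
  have := eta_pos h
  have := e7_k h
  nlinarith

private theorem e7_th (h : EHyp k m n e1 K L3) (x y : XX k m)
    (h1 : cls x ≠ Cls.X) (h2 : cls x ≠ Cls.N) (h3 : cls y ≠ Cls.X) (h4 : cls y ≠ Cls.N) :
    logMean (rho e1 K L3 x) (rho e1 K L3 y) ≤ k * (K * rr k m) := by
  refine (logMean_le_max (rho_pos h x) (rho_pos h y)).trans ?_
  exact max_le (rho_le_keta h x h1 h2) (rho_le_keta h y h3 h4)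

theorem gg_AB (h : EHyp k m n e1 K L3) {x y : XX k m} (hx : cls x = Cls.A)
    (hy : cls y = Cls.B) : gg n e1 K L3 x y ≤ 36 * k * rr k m * (1 / Real.log k + K) := by
  have h0 := gg_le h x y
  have h1 := RR_AC h (Or.inl hx)
  have h2 := e7_th h x y (by rw [hx]; decide) (by rw [hx]; decide) (by rw [hy]; decide)
    (by rw [hy]; decide)
  have h3 := eta_pos h
  have h5 := RR_nonneg h x
  have hr := rr_pos k m
  have hk := e7_k h
  have hk0 : (0 : ℝ) < k := by linarith
  have hl : 0 < Real.log k := by linarith [h.hLk]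
  have h6 : lm1 (rho e1 K L3 x) (rho e1 K L3 y) ≤ 1 / Real.log k := by
    rw [e7_rho_A hx, e7_rho_B hy]
    have := lm1_le_inv_log h3 (e7_eta_lt h)
    rwa [mul_div_assoc, div_self h3.ne', mul_one] at this
  have h7 : lm1 (rho e1 K L3 x) (rho e1 K L3 y) * RR n e1 K L3 x ≤
      1 / Real.log k * (2 * k * rr k m) := mul_le_mul h6 h1 h5 (by positivity)
  calc gg n e1 K L3 x y ≤ 18 * (lm1 (rho e1 K L3 x) (rho e1 K L3 y) * RR n e1 K L3 x) +
      36 * logMean (rho e1 K L3 x) (rho e1 K L3 y) := by linarith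
    _ ≤ 18 * (1 / Real.log k * (2 * k * rr k m)) + 36 * (k * (K * rr k m)) := by linarith
    _ = _ := by ring

theorem gg_BA (h : EHyp k m n e1 K L3) {x y : XX k m} (hx : cls x = Cls.B)
    (hy : cls y = Cls.A) : gg n e1 K L3 x y ≤ 36 * k * rr k m * (1 / Real.log k ^ 2 + K) := by
  have h0 := gg_le h x y
  have h1 := RR_B h hx
  have h2 := e7_th h x y (by rw [hx]; decide) (by rw [hx]; decide) (by rw [hy]; decide)
    (by rw [hy]; decide)
  have h3 := eta_pos h
  have h5 := RR_nonneg h x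
  have hr := rr_pos k m
  have hk := e7_k h
  have hk0 : (0 : ℝ) < k := by linarith
  have hl : 0 < Real.log k := by linarith [h.hLk]
  have h6 : lm1 (rho e1 K L3 x) (rho e1 K L3 y) ≤ k / Real.log k ^ 2 := by
    rw [e7_rho_B hx, e7_rho_A hy]
    have := lm1_le_of_lt h3 (e7_eta_lt h)
    rwa [mul_div_assoc, div_self h3.ne', mul_one] at this
  have h7 : lm1 (rho e1 K L3 x) (rho e1 K L3 y) * RR n e1 K L3 x ≤
      k / Real.log k ^ 2 * (2 * rr k m) := mul_le_mul h6 h1 h5 (by positivity)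
  calc gg n e1 K L3 x y ≤ 18 * (lm1 (rho e1 K L3 x) (rho e1 K L3 y) * RR n e1 K L3 x) +
      36 * logMean (rho e1 K L3 x) (rho e1 K L3 y) := by linarith
    _ ≤ 18 * (k / Real.log k ^ 2 * (2 * rr k m)) + 36 * (k * (K * rr k m)) := by linarith
    _ = _ := by ring

/-- values of `ρ` on `A`, `B`, `C` -/
private theorem e7_V (h : EHyp k m n e1 K L3) {x : XX k m}
    (hx : cls x = Cls.A ∨ cls x = Cls.B ∨ cls x = Cls.C) :
    eta k m K ≤ rho e1 K L3 x ∧ rho e1 K L3 x ≤ k * eta k m K := by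
  have h1 := e7_eta_lt h
  rcases hx with hx | hx | hx
  · rw [e7_rho_A hx]; exact ⟨h1.le, le_rfl⟩
  · rw [e7_rho_B hx]; exact ⟨le_rfl, h1.le⟩
  · rw [e7_rho_C hx]; exact ⟨h1.le, le_rfl⟩

private theorem e7_VXN {x : XX k m} (hx : cls x = Cls.A ∨ cls x = Cls.B ∨ cls x = Cls.C) :
    cls x ≠ Cls.X ∧ cls x ≠ Cls.N := by
  rcases hx with hx | hx | hx <;> rw [hx] <;> decide

theorem gg_VD (h : EHyp k m n e1 K L3) {x y : XX k m}
    (hx : cls x = Cls.A ∨ cls x = Cls.B ∨ cls x = Cls.C) (hy : cls y = Cls.D) :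
    gg n e1 K L3 x y ≤ 36 * k * rr k m * (1 / L1f e1 + K) := by
  have h0 := gg_le h x y
  have hk := e7_k h
  have hr := rr_pos k m
  have h1 : RR n e1 K L3 x ≤ 2 * k * rr k m := by
    rcases hx with hx | hx | hx
    · exact RR_AC h (Or.inl hx)
    · refine (RR_B h hx).trans ?_
      nlinarith
    · exact RR_AC h (Or.inr hx)
  have h2 := e7_th h x y (e7_VXN hx).1 (e7_VXN hx).2 (by rw [hy]; decide) (by rw [hy]; decide)
  have h3 := eta_pos h
  have h5 := RR_nonneg h x
  have hk0 : (0 : ℝ) < k := by linarith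
  have hl := e7_L1 h
  have he := h.he0
  have hlt := e7_e1_lt h
  obtain ⟨v1, v2⟩ := e7_V h hx
  have h6 : lm1 (rho e1 K L3 x) (rho e1 K L3 y) ≤ 1 / L1f e1 := by
    rw [e7_rho_D hy]
    have hlt' : e1 * eta k m K < rho e1 K L3 x := by nlinarith
    have hpos : 0 < e1 * eta k m K := mul_pos he h3
    refine (lm1_le_inv_log hpos hlt').trans ?_
    refine one_div_le_one_div_of_le hl ?_
    unfold L1f
    refine Real.log_le_log (by positivity) ?_
    rw [div_le_div_iff₀ he hpos]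
    nlinarith
  have h7 : lm1 (rho e1 K L3 x) (rho e1 K L3 y) * RR n e1 K L3 x ≤
      1 / L1f e1 * (2 * k * rr k m) := mul_le_mul h6 h1 h5 (by positivity)
  calc gg n e1 K L3 x y ≤ 18 * (lm1 (rho e1 K L3 x) (rho e1 K L3 y) * RR n e1 K L3 x) +
      36 * logMean (rho e1 K L3 x) (rho e1 K L3 y) := by linarith
    _ ≤ 18 * (1 / L1f e1 * (2 * k * rr k m)) + 36 * (k * (K * rr k m)) := by linarith
    _ = _ := by ring

theorem gg_DV (h : EHyp k m n e1 K L3) {x y : XX k m} (hx : cls x = Cls.D)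
    (hy : cls y = Cls.A ∨ cls y = Cls.B ∨ cls y = Cls.C) :
    gg n e1 K L3 x y ≤ 36 * k * sS k ^ 2 * rr k m * (1 / L1f e1 + K) := by
  have h0 := gg_le h x y
  have hk := e7_k h
  have hr := rr_pos k m
  have h1 := RR_D h hx
  have h2 := e7_th h x y (by rw [hx]; decide) (by rw [hx]; decide) (e7_VXN hy).1 (e7_VXN hy).2
  have h3 := eta_pos h
  have h5 := RR_nonneg h x
  have hk0 : (0 : ℝ) < k := by linarith
  have hl := e7_L1 h
  have hl1 := h.he1
  have he := h.he0
  have hlt := e7_e1_lt h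
  have hS : 1 ≤ sS k ^ 2 := by
    unfold sS
    nlinarith
  obtain ⟨v1, v2⟩ := e7_V h hy
  have h6 : lm1 (rho e1 K L3 x) (rho e1 K L3 y) ≤ (k / e1) / L1f e1 := by
    rw [e7_rho_D hx]
    have hlt' : e1 * eta k m K < rho e1 K L3 y := by nlinarith
    have hpos : 0 < e1 * eta k m K := mul_pos he h3
    refine (lm1_le_of_lt hpos hlt').trans ?_
    have u1 : rho e1 K L3 y / (e1 * eta k m K) ≤ k / e1 := by
      rw [div_le_div_iff₀ hpos he]
      nlinarith
    have u2 : 1 / e1 ≤ rho e1 K L3 y / (e1 * eta k m K) := by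
      rw [div_le_div_iff₀ he hpos]
      nlinarith
    have u3 : L1f e1 ≤ Real.log (rho e1 K L3 y / (e1 * eta k m K)) := by
      unfold L1f
      exact Real.log_le_log (by positivity) u2
    have u4 : L1f e1 ≤ Real.log (rho e1 K L3 y / (e1 * eta k m K)) ^ 2 := by nlinarith
    exact div_le_div₀ (by positivity) u1 hl u4
  have h7 : lm1 (rho e1 K L3 x) (rho e1 K L3 y) * RR n e1 K L3 x ≤
      (k / e1) / L1f e1 * (2 * sS k ^ 2 * e1 * rr k m) := mul_le_mul h6 h1 h5 (by positivity)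
  have h8 : (k / e1) / L1f e1 * (2 * sS k ^ 2 * e1 * rr k m) =
      2 * (k * sS k ^ 2 * rr k m * (1 / L1f e1)) := by field_simp
  rw [h8] at h7
  have hK := h.hK0
  have h9 : k * (K * rr k m) ≤ k * sS k ^ 2 * rr k m * K := by
    have h10 : 0 ≤ k * (K * rr k m) := by positivity
    have h11 : k * sS k ^ 2 * rr k m * K = (k * (K * rr k m)) * sS k ^ 2 := by ring
    rw [h11]
    exact le_mul_of_one_le_right h10 hS
  calc gg n e1 K L3 x y ≤ 18 * (lm1 (rho e1 K L3 x) (rho e1 K L3 y) * RR n e1 K L3 x) +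
      36 * logMean (rho e1 K L3 x) (rho e1 K L3 y) := by linarith
    _ ≤ 18 * (2 * (k * sS k ^ 2 * rr k m * (1 / L1f e1))) + 36 * (k * sS k ^ 2 * rr k m * K) := by
      linarith
    _ = _ := by ring

end EntRF

end
end
end
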