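import Pool.Agent.Lib.MP_a349aa_gt.A4
import Pool.Agent.Lib.MP_a349aa_gt.B9
import Pool.Agent.Lib.MP_a349aa_gt.EDefs
import Pool.Agent.Lib.MP_a349aa_gt.E7
import Pool.Agent.Lib.MP_a349aa_gt.D14

section

section

/-!
# C3 : derivatives of the logarithmic mean

See C2 for a sketch. `s ≠ t`: near `s` the function is the quotient `(u - t)/(log u - log t)`.
Diagonal: `logMean u t` lies between `√(u t)` and `(u + t)/2`, hence
`|logMean u t - t - (u - t)/2| ≤ (√u - √t)^2/2 ≤ (u-t)^2/(2 t)`.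
-/

noncomputable section

namespace EntRF

open Finset
open scoped Classical

private theorem log_taylor {t u : ℝ} (ht : 0 < t) (hu : |u - t| ≤ t / 4) :
    |Real.log u - Real.log t - (u - t) / t + (u - t) ^ 2 / (2 * t ^ 2)| ≤
      2 * |u - t| ^ 3 / t ^ 3 := by
  have hab := abs_le.1 hu
  have hupos : 0 < u := by linarith [hab.1]
  set x : ℝ := -((u - t) / t) with hx
  have hxabs : |x| = |u - t| / t := by rw [hx, abs_neg, abs_div, abs_of_pos ht]
  have hx4 : |x| ≤ 1 / 4 := by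
    rw [hxabs, div_le_iff₀ ht]; linarith
  have h1 := Real.abs_log_sub_add_sum_range_le (x := x) (by linarith) 2
  have h2 : (1 : ℝ) - x = u / t := by
    rw [hx]; field_simp; ring
  rw [h2, Real.log_div hupos.ne' ht.ne'] at h1
  simp only [Finset.sum_range_succ, Finset.sum_range_zero] at h1
  norm_num at h1
  have h3 : x + x ^ 2 / 2 + (Real.log u - Real.log t)
      = Real.log u - Real.log t - (u - t) / t + (u - t) ^ 2 / (2 * t ^ 2) := by
    rw [hx]; field_simp; ring
  rw [h3] at h1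
  refine h1.trans ?_
  have h4 : |x| ^ 3 / (1 - |x|) ≤ 2 * |x| ^ 3 := by
    rw [div_le_iff₀ (by linarith)]
    have : 0 ≤ |x| ^ 3 := by positivity
    nlinarith
  refine h4.trans ?_
  rw [hxabs, div_pow]
  apply le_of_eq
  ring

private theorem logMean_taylor {t u : ℝ} (ht : 0 < t) (hu : |u - t| ≤ t / 4) :
    |logMean u t - t - (u - t) * (1 / 2)| ≤ 6 / t * (u - t) ^ 2 := by
  by_cases hut : u = t
  · subst hut
    simp [logMean]
  have h := log_taylor ht hu
  set d : ℝ := u - t with hd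
  have hd0 : d ≠ 0 := sub_ne_zero.2 hut
  have hdpos : 0 < |d| := abs_pos.2 hd0
  set L : ℝ := Real.log u - Real.log t with hL
  set R : ℝ := L - d / t + d ^ 2 / (2 * t ^ 2) with hR
  have hLR : L = d / t - d ^ 2 / (2 * t ^ 2) + R := by rw [hR]; ring
  have hq : |d| / t ≤ 1 / 4 := by rw [div_le_iff₀ ht]; linarith
  have hq0 : 0 < |d| / t := by positivity
  -- lower bound for `|L|`
  have hLlow : |d| / t / 2 ≤ |L| := by
    have e1 : |d / t| ≤ |L| + |d ^ 2 / (2 * t ^ 2)| + |R| := by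
      have : d / t = L + d ^ 2 / (2 * t ^ 2) - R := by rw [hLR]; ring
      rw [this]
      calc |L + d ^ 2 / (2 * t ^ 2) - R| ≤ |L + d ^ 2 / (2 * t ^ 2)| + |R| := abs_sub _ _
        _ ≤ |L| + |d ^ 2 / (2 * t ^ 2)| + |R| := by
          have := abs_add_le L (d ^ 2 / (2 * t ^ 2)); linarith
    have e2 : |d / t| = |d| / t := by rw [abs_div, abs_of_pos ht]
    have e3 : |d ^ 2 / (2 * t ^ 2)| = (|d| / t) ^ 2 / 2 := by
      rw [abs_of_nonneg (by positivity), div_pow, sq_abs]; field_simp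
    have e4 : |R| ≤ 2 * (|d| / t) ^ 3 := by
      refine h.trans (le_of_eq ?_)
      rw [div_pow]; ring
    rw [e2, e3] at e1
    have e5 : (|d| / t) ^ 2 ≤ (|d| / t) * (1 / 4) := by
      rw [pow_two]; exact mul_le_mul_of_nonneg_left hq hq0.le
    have e6 : (|d| / t) ^ 3 ≤ (|d| / t) * (1 / 16) := by
      have : (|d| / t) ^ 3 = (|d| / t) ^ 2 * (|d| / t) := by ring
      rw [this]
      nlinarith
    linarith
  have hLpos : 0 < |L| := lt_of_lt_of_le (by positivity) hLlow
  have hL0 : L ≠ 0 := abs_pos.1 hLpos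
  have e0 : logMean u t - t - d * (1 / 2) = (-(t * R) + d ^ 3 / (4 * t ^ 2) - d * R / 2) / L := by
    rw [eq_div_iff hL0]
    have : logMean u t = d / L := by
      unfold logMean
      rw [if_neg hut]
    rw [this]
    have : d / L * L = d := div_mul_cancel₀ _ hL0
    have h5 : (d / L - t - d * (1 / 2)) * L = d - t * L - d * L / 2 := by
      rw [sub_mul, sub_mul, this]; ring
    rw [h5]
    conv_lhs => rw [hLR]
    field_simp
    ring
  rw [e0, abs_div, div_le_iff₀ hLpos]
  have hR3 : |R| ≤ 2 * |d| ^ 3 / t ^ 3 := h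
  have n1 : |(-(t * R) + d ^ 3 / (4 * t ^ 2) - d * R / 2)| ≤ 3 * |d| ^ 3 / t ^ 2 := by
    have a1 : |(-(t * R) + d ^ 3 / (4 * t ^ 2) - d * R / 2)|
        ≤ t * |R| + |d| ^ 3 / (4 * t ^ 2) + |d| * |R| / 2 := by
      calc |(-(t * R) + d ^ 3 / (4 * t ^ 2) - d * R / 2)|
          ≤ |-(t * R) + d ^ 3 / (4 * t ^ 2)| + |d * R / 2| := abs_sub _ _
        _ ≤ |-(t * R)| + |d ^ 3 / (4 * t ^ 2)| + |d * R / 2| := by
          have := abs_add_le (-(t * R)) (d ^ 3 / (4 * t ^ 2)); linarith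
        _ = t * |R| + |d| ^ 3 / (4 * t ^ 2) + |d| * |R| / 2 := by
          rw [abs_neg, abs_mul, abs_of_pos ht, abs_div, abs_pow,
            abs_of_pos (by positivity : (0:ℝ) < 4 * t ^ 2), abs_div, abs_mul]
          norm_num
    refine a1.trans ?_
    have a2 : t * |R| ≤ 2 * |d| ^ 3 / t ^ 2 := by
      have := mul_le_mul_of_nonneg_left hR3 ht.le
      refine this.trans (le_of_eq ?_)
      field_simp
    have a3 : |d| * |R| / 2 ≤ |d| ^ 3 / t ^ 2 / 4 := by
      have b1 := mul_le_mul_of_nonneg_left hR3 hdpos.le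
      have b2 : |d| * (2 * |d| ^ 3 / t ^ 3) = 2 * (|d| ^ 3 / t ^ 2) * (|d| / t) := by
        field_simp
      have b3 : 2 * (|d| ^ 3 / t ^ 2) * (|d| / t) ≤ 2 * (|d| ^ 3 / t ^ 2) * (1 / 4) :=
        mul_le_mul_of_nonneg_left hq (by positivity)
      linarith
    have a4 : |d| ^ 3 / (4 * t ^ 2) = |d| ^ 3 / t ^ 2 / 4 := by field_simp
    have a5 : 2 * |d| ^ 3 / t ^ 2 = 2 * (|d| ^ 3 / t ^ 2) := by ring
    have a6 : 3 * |d| ^ 3 / t ^ 2 = 3 * (|d| ^ 3 / t ^ 2) := by ring
    have a7 : 0 ≤ |d| ^ 3 / t ^ 2 := by positivity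
    rw [a4, a6]
    rw [a5] at a2
    linarith
  refine n1.trans ?_
  have m1 : 3 * |d| ^ 3 / t ^ 2 = 6 / t * d ^ 2 * (|d| / t / 2) := by
    rw [← sq_abs d]; field_simp; ring
  rw [m1]
  exact mul_le_mul_of_nonneg_left hLlow (by positivity)

private theorem hasDerivAt_logMean_diag {t : ℝ} (ht : 0 < t) :
    HasDerivAt (fun u => logMean u t) (1 / 2) t := by
  rw [hasDerivAt_iff_isLittleO]
  have h1 : (fun u => logMean u t - logMean t t - (u - t) • (1 / 2 : ℝ)) =O[nhds t]
      fun u => (u - t) ^ 2 := by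
    apply Asymptotics.IsBigO.of_bound (6 / t)
    have : Metric.closedBall t (t / 4) ∈ nhds t := Metric.closedBall_mem_nhds t (by positivity)
    filter_upwards [this] with u hu
    have hu' : |u - t| ≤ t / 4 := by
      have := Metric.mem_closedBall.1 hu
      rwa [Real.dist_eq] at this
    have h2 := logMean_taylor ht hu'
    have h3 : logMean t t = t := by simp [logMean]
    rw [h3, Real.norm_eq_abs, Real.norm_eq_abs, smul_eq_mul, abs_of_nonneg (sq_nonneg (u - t))]
    exact h2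
  refine h1.trans_isLittleO ?_
  have h2 : (fun u : ℝ => (u - t) ^ 2) = fun u => (u - t) * (u - t) := by
    funext u; ring
  rw [h2]
  have h3 : Filter.Tendsto (fun u : ℝ => u - t) (nhds t) (nhds 0) := by
    have : ContinuousAt (fun u : ℝ => u - t) t := by fun_prop
    simpa [ContinuousAt] using this
  have h4 : (fun u : ℝ => u - t) =o[nhds t] (fun _ : ℝ => (1 : ℝ)) :=
    (Asymptotics.isLittleO_one_iff ℝ).2 h3
  have h5 := h4.mul_isBigO (Asymptotics.isBigO_refl (fun u : ℝ => u - t) (nhds t))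
  simpa using h5

theorem hasDerivAt_logMean_fst {s t : ℝ} (hs : 0 < s) (ht : 0 < t) :
    HasDerivAt (fun u => logMean u t) (lm1 s t) s := by
  by_cases hst : s = t
  · subst hst
    have : lm1 s s = 1 / 2 := by simp [lm1]
    rw [this]
    exact hasDerivAt_logMean_diag hs
  · have hL : Real.log s - Real.log t ≠ 0 := by
      intro h
      exact hst (Real.log_injOn_pos hs ht (sub_eq_zero.1 h))
    have h1 : HasDerivAt (fun u : ℝ => (u - t) / (Real.log u - Real.log t))
        ((1 * (Real.log s - Real.log t) - (s - t) * s⁻¹) / (Real.log s - Real.log t) ^ 2) s := by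
      have a : HasDerivAt (fun u : ℝ => u - t) 1 s := (hasDerivAt_id s).sub_const t
      have b : HasDerivAt (fun u : ℝ => Real.log u - Real.log t) s⁻¹ s :=
        (Real.hasDerivAt_log hs.ne').sub_const _
      exact a.div b hL
    have h2 : (1 * (Real.log s - Real.log t) - (s - t) * s⁻¹) / (Real.log s - Real.log t) ^ 2
        = lm1 s t := by
      unfold lm1 logMean
      rw [if_neg hst, if_neg hst]
      field_simp
    rw [h2] at h1
    refine h1.congr_of_eventuallyEq ?_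
    have : {u : ℝ | u ≠ t} ∈ nhds s := isOpen_ne.mem_nhds hst
    filter_upwards [this] with u hu
    simp only [logMean]
    rw [if_neg hu]

theorem hasDerivAt_logMean_snd {s t : ℝ} (hs : 0 < s) (ht : 0 < t) :
    HasDerivAt (fun u => logMean s u) (lm1 t s) t := by
  have h := hasDerivAt_logMean_fst ht hs
  have h2 : (fun u => logMean s u) = fun u => logMean u s := by
    funext u
    unfold logMean
    by_cases h : s = u
    · subst h; rfl
    · rw [if_neg h, if_neg (Ne.symm h), ← neg_sub u s, ← neg_sub (Real.log u) (Real.log s),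
        neg_div_neg_eq]
  rw [h2]
  exact h

end EntRF

end
end

section

/-!
# C4 : `calB` as a symmetrised sum

`deriv (fun s => logMean s (ρ y)) (ρ x) = lm1 (ρ x) (ρ y)` and
`deriv (fun t => logMean (ρ x) t) (ρ y) = lm1 (ρ y) (ρ x)` by C3. `Q = walk G d` is symmetric and
has row sums 1 (`d ≥ 1`, regular), so `lap G d f x = ∑ z, Q x z * f z - f x`.
First term of `calB`: `1/2 * 1/2 * ∑∑ [lm1 (ρ x) (ρ y) Δρ(x) + lm1 (ρ y) (ρ x) Δρ(y)] (ψ y - ψ x)^2 Q π`
equals by the symmetry `x ↔ y`: `π * ∑∑ Q * 1/2 * lm1 (ρ x)(ρ y) * Δρ(x) * (ψ y - ψ x)^2`.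
Second term: `-1/2 ∑∑ θ (ψ y - ψ x)(Δψ(y) - Δψ(x)) Q π = π ∑∑ Q θ (ψ y - ψ x) Δψ(x)`
(swap `x ↔ y` in the part with `Δψ(y)`).

`calA_ne_zero`: if `calA = 0` then, all summands being `≥ 0` and `θ > 0`, `ψ y = ψ x` whenever
`Q x y ≠ 0`, and then `calB = 0`.

`Kent_neg`: put `c = 1/∑ ρ π > 0`, `ρ' = c ρ`; `BQ Q (c ρ) ψ = c * BQ Q ρ ψ` by `logMean_mul`,
`lm1_mul`; so `calB G d ρ' ψ < 0`, `calA G d ρ' ψ ≠ 0`, and `calA > 0`. Then `sInf ≤ ↑(calB/calA) < 0`.
-/

noncomputable section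

namespace EntRF

open Finset
open scoped Classical

variable {V : Type} [Fintype V]

theorem walk_symm (G : SimpleGraph V) (d : ℕ) (x y : V) : walk G d x y = walk G d y x := by
  unfold walk
  rw [if_congr (G.adj_comm x y) rfl rfl]

theorem walk_sum {G : SimpleGraph V} {d : ℕ} (hd : 1 ≤ d)
    (hreg : ∀ x, Nat.card (G.neighborSet x) = d) (x : V) : ∑ y, walk G d x y = 1 := by
  have hc : (univ.filter (fun y => G.Adj x y)).card = d := by
    rw [← hreg x]
    symm
    exact Nat.subtype_card (p := fun y => y ∈ G.neighborSet x) (univ.filter (fun y => G.Adj x y))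
      (fun y => by simp)
  unfold walk
  rw [← Finset.sum_filter, Finset.sum_const, hc, nsmul_eq_mul]
  have : (d : ℝ) ≠ 0 := by
    have : 0 < d := hd
    exact_mod_cast this.ne'
  field_simp

private theorem walk_nonneg (G : SimpleGraph V) (d : ℕ) (x y : V) : 0 ≤ walk G d x y := by
  unfold walk
  split_ifs
  · positivity
  · exact le_rfl

private theorem lap_eq {G : SimpleGraph V} {d : ℕ} (hd : 1 ≤ d)
    (hreg : ∀ x, Nat.card (G.neighborSet x) = d) (f : V → ℝ) (x : V) :
    lap G d f x = (∑ z, walk G d x z * f z) - f x := by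
  unfold lap
  have h := walk_sum hd hreg x
  calc ∑ y, walk G d x y * (f y - f x)
      = (∑ y, walk G d x y * f y) - (∑ y, walk G d x y) * f x := by
        rw [Finset.sum_mul, ← Finset.sum_sub_distrib]
        refine Finset.sum_congr rfl fun y _ => by ring
    _ = _ := by rw [h, one_mul]

private theorem sum_swap_add {X : Type} [Fintype X] (F : X → X → ℝ) :
    ∑ x, ∑ y, (F x y + F y x) = 2 * ∑ x, ∑ y, F x y := by
  have h : ∑ x, ∑ y, F y x = ∑ x, ∑ y, F x y := Finset.sum_comm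
  calc ∑ x, ∑ y, (F x y + F y x) = ∑ x, ∑ y, F x y + ∑ x, ∑ y, F y x := by
        rw [← Finset.sum_add_distrib]
        refine Finset.sum_congr rfl fun x _ => Finset.sum_add_distrib
    _ = _ := by rw [h]; ring

theorem calB_eq {G : SimpleGraph V} {d : ℕ} (hd : 1 ≤ d)
    (hreg : ∀ x, Nat.card (G.neighborSet x) = d) (ρ ψ : V → ℝ) (hρ : ∀ x, 0 < ρ x) :
    calB G d ρ ψ = unif V * BQ (walk G d) ρ ψ := by
  have hlap : ∀ (f : V → ℝ) (x : V), lap G d f x = (∑ z, walk G d x z * f z) - f x :=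
    fun f x => lap_eq hd hreg f x
  set F : V → V → ℝ := fun x y =>
    lm1 (ρ x) (ρ y) * lap G d ρ x * (ψ y - ψ x) ^ 2 * walk G d x y * unif V with hF
  set H : V → V → ℝ := fun x y =>
    logMean (ρ x) (ρ y) * (ψ y - ψ x) * lap G d ψ x * walk G d x y * unif V with hH
  have h1 : edgeInner G d (fun x y => lapHat G d ρ x y * grad ψ x y) (grad ψ)
      = ∑ x, ∑ y, F x y := by
    have e : ∀ x y, lapHat G d ρ x y * grad ψ x y * grad ψ x y * walk G d x y * unif V
        = F x y + F y x := by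
      intro x y
      simp only [hF, lapHat, grad]
      rw [(hasDerivAt_logMean_fst (hρ x) (hρ y)).deriv, (hasDerivAt_logMean_snd (hρ x) (hρ y)).deriv,
        walk_symm G d y x]
      ring
    unfold edgeInner
    have e2 : ∑ x, ∑ y, lapHat G d ρ x y * grad ψ x y * grad ψ x y * walk G d x y * unif V
        = 2 * ∑ x, ∑ y, F x y := by
      rw [← sum_swap_add]
      exact Finset.sum_congr rfl fun x _ => Finset.sum_congr rfl fun y _ => e x y
    rw [e2]; ring
  have h2 : edgeInner G d (fun x y => rhoHat ρ x y * grad ψ x y) (grad (lap G d ψ))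
      = -∑ x, ∑ y, H x y := by
    have e : ∀ x y, rhoHat ρ x y * grad ψ x y * grad (lap G d ψ) x y * walk G d x y * unif V
        = -(H x y + H y x) := by
      intro x y
      simp only [hH, rhoHat, grad]
      rw [logMean_comm (ρ y) (ρ x), walk_symm G d y x]
      ring
    unfold edgeInner
    have e2 : ∑ x, ∑ y, rhoHat ρ x y * grad ψ x y * grad (lap G d ψ) x y * walk G d x y * unif V
        = -(2 * ∑ x, ∑ y, H x y) := by
      rw [← sum_swap_add, ← Finset.sum_neg_distrib]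
      refine Finset.sum_congr rfl fun x _ => ?_
      rw [← Finset.sum_neg_distrib]
      exact Finset.sum_congr rfl fun y _ => e x y
    rw [e2]; ring
  unfold calB
  rw [h1, h2]
  unfold BQ
  have h3 : 1 / 2 * ∑ x, ∑ y, F x y - -∑ x, ∑ y, H x y
      = ∑ x, ∑ y, (1 / 2 * F x y + H x y) := by
    rw [sub_neg_eq_add, Finset.mul_sum, ← Finset.sum_add_distrib]
    refine Finset.sum_congr rfl fun x _ => ?_
    rw [Finset.mul_sum, ← Finset.sum_add_distrib]
  rw [h3, Finset.mul_sum]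
  refine Finset.sum_congr rfl fun x _ => ?_
  rw [Finset.mul_sum]
  refine Finset.sum_congr rfl fun y _ => ?_
  simp only [hF, hH, ← hlap]
  ring

theorem calA_pos {G : SimpleGraph V} {d : ℕ} (hd : 1 ≤ d)
    (hreg : ∀ x, Nat.card (G.neighborSet x) = d) (ρ ψ : V → ℝ) (hρ : ∀ x, 0 < ρ x)
    (hB : BQ (walk G d) ρ ψ < 0) : 0 < calA G d ρ ψ := by
  have hne : Nonempty V := by
    by_contra h
    rw [not_nonempty_iff] at h
    unfold BQ at hB
    rw [Finset.univ_eq_empty, Finset.sum_empty] at hB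
    exact lt_irrefl _ hB
  have hπ : 0 < unif V := by
    unfold unif
    have : 0 < Fintype.card V := Fintype.card_pos
    positivity
  have hterm : ∀ x y, 0 ≤ rhoHat ρ x y * grad ψ x y * grad ψ x y * walk G d x y * unif V := by
    intro x y
    have h1 : 0 < rhoHat ρ x y := logMean_pos (hρ x) (hρ y)
    have h2 : 0 ≤ grad ψ x y * grad ψ x y := mul_self_nonneg _
    have h3 := walk_nonneg G d x y
    have h4 : 0 ≤ rhoHat ρ x y * (grad ψ x y * grad ψ x y) := mul_nonneg h1.le h2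
    have h5 := mul_nonneg (mul_nonneg h4 h3) hπ.le
    calc (0 : ℝ) ≤ _ := h5
      _ = _ := by ring
  have hA : calA G d ρ ψ
      = 1 / 2 * ∑ x, ∑ y, rhoHat ρ x y * grad ψ x y * grad ψ x y * walk G d x y * unif V := rfl
  have hS : 0 ≤ ∑ x, ∑ y, rhoHat ρ x y * grad ψ x y * grad ψ x y * walk G d x y * unif V :=
    Finset.sum_nonneg fun x _ => Finset.sum_nonneg fun y _ => hterm x y
  rcases hS.lt_or_eq with h | h
  · rw [hA]; positivity
  · exfalso
    have hz : ∀ x y, walk G d x y * (ψ y - ψ x) = 0 := by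
      intro x y
      have h1 := (Finset.sum_eq_zero_iff_of_nonneg
        (fun x _ => Finset.sum_nonneg fun y _ => hterm x y)).1 h.symm x (mem_univ x)
      have h2 := (Finset.sum_eq_zero_iff_of_nonneg (fun y _ => hterm x y)).1 h1 y (mem_univ y)
      have h3 : 0 < rhoHat ρ x y := logMean_pos (hρ x) (hρ y)
      have h4 : rhoHat ρ x y * unif V * (walk G d x y * (grad ψ x y * grad ψ x y)) = 0 := by
        rw [← h2]; ring
      have h5 : walk G d x y * (grad ψ x y * grad ψ x y) = 0 := by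
        rcases mul_eq_zero.1 h4 with h | h
        · exact absurd h (mul_pos h3 hπ).ne'
        · exact h
      rcases mul_eq_zero.1 h5 with h | h
      · rw [h, zero_mul]
      · have : grad ψ x y = 0 := mul_self_eq_zero.1 h
        unfold grad at this
        rw [this, mul_zero]
    have hB0 : BQ (walk G d) ρ ψ = 0 := by
      unfold BQ
      refine Finset.sum_eq_zero fun x _ => Finset.sum_eq_zero fun y _ => ?_
      have h1 := hz x y
      have : walk G d x y *
          (1 / 2 * lm1 (ρ x) (ρ y) * ((∑ z, walk G d x z * ρ z) - ρ x) * (ψ y - ψ x) ^ 2 +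
            logMean (ρ x) (ρ y) * (ψ y - ψ x) * ((∑ z, walk G d x z * ψ z) - ψ x))
          = (walk G d x y * (ψ y - ψ x)) *
          (1 / 2 * lm1 (ρ x) (ρ y) * ((∑ z, walk G d x z * ρ z) - ρ x) * (ψ y - ψ x) +
            logMean (ρ x) (ρ y) * ((∑ z, walk G d x z * ψ z) - ψ x)) := by ring
      rw [this, h1, zero_mul]
    rw [hB0] at hB
    exact lt_irrefl _ hB

theorem BQ_smul {X : Type} [Fintype X] (Q : X → X → ℝ) (ρ ψ : X → ℝ) (hρ : ∀ x, 0 < ρ x)
    {c : ℝ} (hc : 0 < c) : BQ Q (fun x => c * ρ x) ψ = c * BQ Q ρ ψ := by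
  unfold BQ
  rw [Finset.mul_sum]
  refine Finset.sum_congr rfl fun x _ => ?_
  rw [Finset.mul_sum]
  refine Finset.sum_congr rfl fun y _ => ?_
  rw [lm1_mul hc (hρ x) (hρ y), logMean_mul hc (hρ x) (hρ y)]
  have : ∑ z, Q x z * (c * ρ z) = c * ∑ z, Q x z * ρ z := by
    rw [Finset.mul_sum]
    exact Finset.sum_congr rfl fun z _ => by ring
  rw [this]
  ring

theorem Kent_neg {G : SimpleGraph V} {d : ℕ} (hd : 1 ≤ d)
    (hreg : ∀ x, Nat.card (G.neighborSet x) = d) (ρ ψ : V → ℝ) (hρ : ∀ x, 0 < ρ x)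
    (hB : BQ (walk G d) ρ ψ < 0) : Kent G d < 0 := by
  have hne : Nonempty V := by
    by_contra h
    rw [not_nonempty_iff] at h
    unfold BQ at hB
    rw [Finset.univ_eq_empty, Finset.sum_empty] at hB
    exact lt_irrefl _ hB
  have hπ : 0 < unif V := by
    unfold unif
    have : 0 < Fintype.card V := Fintype.card_pos
    positivity
  have hS : 0 < ∑ x, ρ x * unif V :=
    Finset.sum_pos (fun x _ => mul_pos (hρ x) hπ) univ_nonempty
  set S : ℝ := ∑ x, ρ x * unif V with hSdef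
  have hc : 0 < S⁻¹ := inv_pos.2 hS
  have hρ' : ∀ x, 0 < S⁻¹ * ρ x := fun x => mul_pos hc (hρ x)
  have hB' : BQ (walk G d) (fun x => S⁻¹ * ρ x) ψ < 0 := by
    rw [BQ_smul _ _ _ hρ hc]
    exact mul_neg_of_pos_of_neg hc hB
  have hA := calA_pos hd hreg (fun x => S⁻¹ * ρ x) ψ hρ' hB'
  have hBneg : calB G d (fun x => S⁻¹ * ρ x) ψ < 0 := by
    rw [calB_eq hd hreg _ ψ hρ']
    exact mul_neg_of_pos_of_neg hπ hB'
  have hle : Kent G d ≤
      ((calB G d (fun x => S⁻¹ * ρ x) ψ / calA G d (fun x => S⁻¹ * ρ x) ψ : ℝ) : EReal) := by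
    apply sInf_le
    refine ⟨fun x => S⁻¹ * ρ x, ψ, hρ', ?_, hA.ne', rfl⟩
    have : ∑ x, S⁻¹ * ρ x * unif V = S⁻¹ * S := by
      rw [hSdef, Finset.mul_sum]
      exact Finset.sum_congr rfl fun x _ => by ring
    rw [this]
    exact inv_mul_cancel₀ hS.ne'
  refine lt_of_le_of_lt hle ?_
  have : calB G d (fun x => S⁻¹ * ρ x) ψ / calA G d (fun x => S⁻¹ * ρ x) ψ < 0 :=
    div_neg_of_neg_of_pos hBneg hA
  exact_mod_cast this

end EntRF

end
end
end

section

section

/-!
# B11 : connectedness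

`G0_conn`: a `B`-step: for `B ω ω'` and arbitrary labels `l, l'` and parts `y, y'`: choose a part
`y'' ∉ {y, y'}`; then `(ω, l, y) ~ (ω, l, y'') ~ (ω', l', y')` (both `U`-type edges, as `B ω ω`,
`B ω ω'`). An `R`-step: `(ω, l, y) ~ (ω', l, y)`. Use `conn`.

`blow_conn`: in `blow G N` with `G` connected and every vertex of `G` having a neighbour: `(v, i)` and
`(v, j)` are both adjacent to `(w, i)` for a neighbour `w` of `v`; walks lift.
-/

noncomputable section

namespace EntRF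

open Finset
open scoped Classical

private theorem b11_part (y y' : Fin 4) : ∃ z : Fin 4, y ≠ z ∧ z ≠ y' := by
  revert y y'
  decide

private theorem b11_Bstep {Ω : Type} [Fintype Ω] {P : Ω → Ω → ℚ} {B R : Ω → Ω → Prop} {b dV : ℕ}
    {cP cU : Ω → Ω → Ω → Ω → ℚ} {T : Ω → Ω → Ω → Ω} (h : KData P B R b dV cP cU T)
    (K n : ℕ) [NeZero K] (m : Ω → Ω → ℕ)
    (hm : ∀ x y, (m x y : ℚ) = K * P x y) {ω ω' : Ω} (hB : B ω ω') (l l' : Lab K n)
    (y y' : Fin 4) :
    (G0 (K := K) (n := n) m B R).Reachable ((ω, l), y) ((ω', l'), y') := by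
  obtain ⟨z, hz1, hz2⟩ := b11_part y y'
  have h1 : (G0 (K := K) (n := n) m B R).Adj ((ω, l), y) ((ω, l), z) :=
    (G0_adj h K n m hm _ _).2 (Or.inl (Or.inr ⟨hz1, h.Brefl ω⟩))
  have h2 : (G0 (K := K) (n := n) m B R).Adj ((ω, l), z) ((ω', l'), y') :=
    (G0_adj h K n m hm _ _).2 (Or.inl (Or.inr ⟨hz2, hB⟩))
  exact h1.reachable.trans h2.reachable

private theorem b11_Rstep {Ω : Type} [Fintype Ω] {P : Ω → Ω → ℚ} {B R : Ω → Ω → Prop} {b dV : ℕ}
    {cP cU : Ω → Ω → Ω → Ω → ℚ} {T : Ω → Ω → Ω → Ω} (h : KData P B R b dV cP cU T)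
    (K n : ℕ) [NeZero K] (m : Ω → Ω → ℕ)
    (hm : ∀ x y, (m x y : ℚ) = K * P x y) {ω ω' : Ω} (hR : R ω ω') (l l' : Lab K n)
    (y y' : Fin 4) :
    (G0 (K := K) (n := n) m B R).Reachable ((ω, l), y) ((ω', l'), y') := by
  have h1 : (G0 (K := K) (n := n) m B R).Adj ((ω, l), y) ((ω', l), y) :=
    (G0_adj h K n m hm _ _).2 (Or.inr ⟨rfl, hR, rfl, rfl⟩)
  exact h1.reachable.trans (b11_Bstep h K n m hm (h.Brefl ω') l l' y y')

theorem G0_conn {Ω : Type} [Fintype Ω] [Nonempty Ω] {P : Ω → Ω → ℚ} {B R : Ω → Ω → Prop}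
    {b dV : ℕ} {cP cU : Ω → Ω → Ω → Ω → ℚ} {T : Ω → Ω → Ω → Ω} (h : KData P B R b dV cP cU T)
    (K n : ℕ) [NeZero K] (hn : 0 < n) (m : Ω → Ω → ℕ)
    (hm : ∀ x y, (m x y : ℚ) = K * P x y) :
    (G0 (K := K) (n := n) m B R).Connected := by
  have key : ∀ ω ω' : Ω, Relation.ReflTransGen (fun a c => R a c ∨ B a c) ω ω' →
      ∀ (l l' : Lab K n) (y y' : Fin 4),
        (G0 (K := K) (n := n) m B R).Reachable ((ω, l), y) ((ω', l'), y') := by
    intro ω ω' hωω'
    induction hωω' with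
    | refl => intro l l' y y'; exact b11_Bstep h K n m hm (h.Brefl ω) l l' y y'
    | tail _ hstep ih =>
      intro l l' y y'
      rcases hstep with hR | hB
      · exact (ih l l y y).trans (b11_Rstep h K n m hm hR l l' y y')
      · exact (ih l l y y).trans (b11_Bstep h K n m hm hB l l' y y')
  have : Nonempty ((Ω × Lab K n) × Fin 4) :=
    ⟨((Classical.arbitrary Ω, ((0 : ZMod K), (0 : ZMod 2), (⟨0, hn⟩ : Fin n))), 0)⟩
  refine SimpleGraph.Connected.mk ?_
  rintro ⟨⟨ω, l⟩, y⟩ ⟨⟨ω', l'⟩, y'⟩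
  exact key ω ω' (h.conn ω ω') l l' y y'

theorem blow_conn {V : Type} (G : SimpleGraph V) (N : ℕ) (hN : 0 < N) (hG : G.Connected)
    (hnb : ∀ v, ∃ w, G.Adj v w) : (blow G N).Connected := by
  have hadj : ∀ (v w : V) (i j : Fin N), G.Adj v w → (blow G N).Adj (v, i) (w, j) :=
    fun v w i j hvw => hvw
  have hloc : ∀ (v : V) (i j : Fin N), (blow G N).Reachable (v, i) (v, j) := by
    intro v i j
    obtain ⟨w, hw⟩ := hnb v
    exact (hadj v w i i hw).reachable.trans (hadj w v i j hw.symm).reachable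
  have key : ∀ (v w : V) (p : G.Walk v w) (i j : Fin N),
      (blow G N).Reachable (v, i) (w, j) := by
    intro v w p
    induction p with
    | nil => intro i j; exact hloc _ i j
    | cons hvw _ ih =>
      intro i j
      exact (hadj _ _ i i hvw).reachable.trans (ih i j)
  have : Nonempty (V × Fin N) := ⟨(hG.nonempty.some, ⟨0, hN⟩)⟩
  refine SimpleGraph.Connected.mk ?_
  rintro ⟨v, i⟩ ⟨w, j⟩
  obtain ⟨p⟩ := hG.preconnected v w
  exact key v w p i j

end EntRF

end
end

section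

/-!
# D15 : assembly of the data

`|Site k| = 3 (k + 2)`, `|Fin (m + 1)| = m + 1`.
-/

noncomputable section

namespace EntRF

open Finset
open scoped Classical

theorem kdata {k : ℕ} (hk : 1 ≤ k) (m : ℕ) :
    ∃ cU T, KData (PP (J := Fin (m + 1)) (k := k)) Bk VA (bb k) (dd k m) cPP cU T := by
  have : Nonempty (Site k) := ⟨Site.A⟩
  obtain ⟨cU, hcU⟩ := UB_cpl (J := Fin (m + 1)) (S := Site k)
  obtain ⟨T, hT⟩ := VA_vv (J := Fin (m + 1)) (S := Site k)
  have hb : bb k = 3 * Fintype.card (Site k) ^ 3 := by rw [bb, card_site]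
  have hd : dd k m = 9 * (Fintype.card (Fin (m + 1)) * Fintype.card (Site k)) ^ 2 := by
    rw [dd, card_site, Fintype.card_fin]
  refine ⟨cU, T, ?_⟩
  exact {
    Psymm := PP_symm hk
    Pnonneg := PP_nonneg hk
    Psum := PP_sum hk
    PB := PP_block
    Brefl := Bk_refl
    Bsymm := fun _ _ h => Bk_symm h
    Btrans := fun _ _ _ h h' => Bk_trans h h'
    Bcard := fun x => by rw [hb]; exact Bk_card x
    Rsymm := fun _ _ h => VA_symm h
    Rirr := VA_irr
    Rcard := fun x => by rw [hd]; exact VA_card x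
    cplP := cPP_cpl hk
    cplU := by rw [hb]; exact hcU
    vv := hT
    conn := VA_conn }

end EntRF

end
end

section

/-!
# E8 : pointwise bounds of `gg` (II)

From `gg_le`. `Le = Let k m e1 K = log (e1/(k η)) ≥ 1`; `log (1/(k η)) ≥ Le` (`e1 ≤ 1`),
`log (ρ/(..)) ≥ Le` for the quotients below. `V` means class `A`, `B` or `C`: `η ≤ ρ ≤ k η`.
* `gg_XV`: `lm1 1 (ρ y) ≤ 1/log (1/ρ y) ≤ 1/Le`, `logMean ≤ 1/Le`, `RR ≤ 1`: `≤ 54/Le`.
* `gg_VX`: `x ∈ A, C`: `lm1 (kη) 1 ≤ (1/(kη))/Le^2`, `RR ≤ 2 k r`, `r/η = 1/K`: `18 * 2/(K Le^2)`;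
  `x ∈ B`: `(1/η)/Le^2`, `RR ≤ 2 r`: same. Plus `36 logMean ≤ 36/Le`.
* `gg_NV`: `lm1 e1 (ρ y) ≤ 1/Le`, `RR ≤ 2 e1 ≤ 1`, `logMean e1 (ρ y) ≤ e1/Le ≤ 1/Le`.
* `gg_VN`: as `gg_VX` with `e1` instead of 1 (`e1 ≤ 1`).
* `gg_VV`: `lm1 ≤ max 1 (ρ y/ρ x) ≤ k`, `RR ≤ 2 k r`, `logMean ≤ k η = k K r`.
* `gg_VO`: `lm1 (ρ x) (η exp (-L3)) ≤ 1/log (ρ x/(η exp (-L3))) ≤ 1/L3`, `RR ≤ 2 k r`, `logMean ≤ k η`.
* `gg_OV`: `lm1 (η exp (-L3)) (ρ y) ≤ k exp L3`, `RR ≤ k K r`, `logMean ≤ k η`:
  `≤ 18 k^2 K r exp L3 + 36 k K r ≤ 36 k^2 r K (exp L3 + 1)`.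
-/

noncomputable section

namespace EntRF

open Finset
open scoped Classical

variable {k m n : ℕ} {e1 K L3 : ℝ}

private theorem e8_e1_lt (h : EHyp k m n e1 K L3) : e1 < 1 := by
  have h1 : 0 < L1f e1 := lt_of_lt_of_le one_pos h.he1
  unfold L1f at h1
  have h2 : 1 < 1 / e1 := by
    by_contra hc
    push Not at hc
    have := Real.log_nonpos (by have := h.he0; positivity) hc
    linarith
  rwa [lt_div_iff₀ h.he0, one_mul] at h2

private theorem e8_k (h : EHyp k m n e1 K L3) : (1 : ℝ) < k := by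
  by_contra hc
  push Not at hc
  have := Real.log_nonpos (Nat.cast_nonneg k) hc
  linarith [h.hLk]

private theorem e8_r (h : EHyp k m n e1 K L3) : 0 < rr k m := by
  have h1 := eta_pos h
  unfold eta at h1
  exact pos_of_mul_pos_right h1 h.hK0.le

private theorem e8_Le (h : EHyp k m n e1 K L3) : 0 < Let k m e1 K :=
  lt_of_lt_of_le one_pos h.hK3

private theorem e8_keta_pos (h : EHyp k m n e1 K L3) : 0 < (k : ℝ) * eta k m K := by
  have h1 := eta_pos h
  have h2 := e8_k h
  positivity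

private theorem e8_keta_lt (h : EHyp k m n e1 K L3) : (k : ℝ) * eta k m K < e1 := by
  have h1 := e8_Le h
  have h2 := e8_keta_pos h
  unfold Let at h1
  have h3 : 1 < e1 / (k * eta k m K) := by
    by_contra hc
    push Not at hc
    have := Real.log_nonpos (by have := h.he0; positivity) hc
    linarith
  rwa [lt_div_iff₀ h2, one_mul] at h3

private theorem e8_rho (h : EHyp k m n e1 K L3) {x : XX k m}
    (hx : cls x = Cls.A ∨ cls x = Cls.B ∨ cls x = Cls.C) :
    (rho e1 K L3 x = k * eta k m K ∧ RR n e1 K L3 x ≤ 2 * k * rr k m) ∨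
      (rho e1 K L3 x = eta k m K ∧ RR n e1 K L3 x ≤ 2 * rr k m) := by
  rcases hx with hx | hx | hx
  · left
    exact ⟨by unfold rho; rw [hx]; rfl, RR_AC h (Or.inl hx)⟩
  · right
    exact ⟨by unfold rho; rw [hx]; rfl, RR_B h hx⟩
  · left
    exact ⟨by unfold rho; rw [hx]; rfl, RR_AC h (Or.inr hx)⟩

private theorem e8_ge (h : EHyp k m n e1 K L3) {x : XX k m}
    (hx : cls x = Cls.A ∨ cls x = Cls.B ∨ cls x = Cls.C) :
    eta k m K ≤ rho e1 K L3 x := by
  have h1 := eta_pos h
  have h2 := e8_k h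
  rcases e8_rho h hx with ⟨e, _⟩ | ⟨e, _⟩
  · rw [e]
    nlinarith
  · rw [e]

private theorem e8_le (h : EHyp k m n e1 K L3) {x : XX k m}
    (hx : cls x = Cls.A ∨ cls x = Cls.B ∨ cls x = Cls.C) :
    rho e1 K L3 x ≤ k * eta k m K := by
  have h1 := eta_pos h
  have h2 := e8_k h
  rcases e8_rho h hx with ⟨e, _⟩ | ⟨e, _⟩
  · rw [e]
  · rw [e]
    nlinarith

private theorem e8_RR (h : EHyp k m n e1 K L3) {x : XX k m}
    (hx : cls x = Cls.A ∨ cls x = Cls.B ∨ cls x = Cls.C) :
    RR n e1 K L3 x ≤ 2 * k * rr k m := by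
  have h1 := e8_r h
  have h2 := e8_k h
  rcases e8_rho h hx with ⟨_, e⟩ | ⟨_, e⟩
  · exact e
  · nlinarith

private theorem e8_RR' (h : EHyp k m n e1 K L3) {x : XX k m}
    (hx : cls x = Cls.A ∨ cls x = Cls.B ∨ cls x = Cls.C) :
    RR n e1 K L3 x ≤ 2 * rho e1 K L3 x / K := by
  have h1 := h.hK0
  have h3 : eta k m K = K * rr k m := rfl
  rcases e8_rho h hx with ⟨e, e'⟩ | ⟨e, e'⟩
  · rw [e, h3]
    refine e'.trans (le_of_eq ?_)
    field_simp
  · rw [e, h3]
    refine e'.trans (le_of_eq ?_)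
    field_simp

/-- `log (c / s) ≥ Le` for `e1 ≤ c`, `s ≤ k η`. -/
private theorem e8_log (h : EHyp k m n e1 K L3) {c s : ℝ} (hc : e1 ≤ c) (hs0 : 0 < s)
    (hs : s ≤ k * eta k m K) : Let k m e1 K ≤ Real.log (c / s) := by
  have h1 := e8_keta_pos h
  have h2 := h.he0
  unfold Let
  refine Real.log_le_log (by positivity) ?_
  exact div_le_div₀ (h2.le.trans hc) hc hs0 hs

private theorem e8_inv (h : EHyp k m n e1 K L3) {c s : ℝ} (hc : e1 ≤ c) (hs0 : 0 < s)
    (hs : s ≤ k * eta k m K) : 1 / Real.log (c / s) ≤ 1 / Let k m e1 K :=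
  one_div_le_one_div_of_le (e8_Le h) (e8_log h hc hs0 hs)

private theorem e8_mean (h : EHyp k m n e1 K L3) {c s : ℝ} (hc : e1 ≤ c) (hc1 : c ≤ 1)
    (hs0 : 0 < s) (hs : s ≤ k * eta k m K) : logMean c s ≤ 1 / Let k m e1 K := by
  have h1 := e8_keta_lt h
  have h2 : s < c := by linarith
  have h3 := e8_Le h
  have h4 := e8_log h hc hs0 hs
  refine (logMean_le_div hs0 h2).trans ?_
  exact div_le_div₀ zero_le_one hc1 h3 h4

private theorem e8_lm_nonneg (h : EHyp k m n e1 K L3) (x y : XX k m) :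
    0 ≤ lm1 (rho e1 K L3 x) (rho e1 K L3 y) := lm1_nonneg (rho_pos h x) (rho_pos h y)

private theorem e8_cV (h : EHyp k m n e1 K L3) {x y : XX k m} {c : ℝ} (hc : e1 ≤ c)
    (hc1 : c ≤ 1) (hx : rho e1 K L3 x = c)
    (hR : RR n e1 K L3 x ≤ 1)
    (hy : cls y = Cls.A ∨ cls y = Cls.B ∨ cls y = Cls.C) :
    gg n e1 K L3 x y ≤ 54 / Let k m e1 K := by
  have h0 := gg_le h x y
  have hp := e8_lm_nonneg h x y
  have hy0 := rho_pos h y
  have hy1 := e8_le h hy
  have hlt := e8_keta_lt h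
  rw [hx] at h0 hp
  have h1 : lm1 c (rho e1 K L3 y) ≤ 1 / Let k m e1 K :=
    (lm1_le_inv_log hy0 (by linarith)).trans (e8_inv h hc hy0 hy1)
  have h2 := e8_mean h hc hc1 hy0 hy1
  have h3 : lm1 c (rho e1 K L3 y) * RR n e1 K L3 x ≤ 1 / Let k m e1 K :=
    (mul_le_of_le_one_right hp hR).trans h1
  have h4 : 54 / Let k m e1 K = 54 * (1 / Let k m e1 K) := by ring
  rw [h4]
  linarith

private theorem e8_Vc (h : EHyp k m n e1 K L3) {x y : XX k m} {c : ℝ} (hc : e1 ≤ c)
    (hc1 : c ≤ 1) (hy : rho e1 K L3 y = c)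
    (hx : cls x = Cls.A ∨ cls x = Cls.B ∨ cls x = Cls.C) :
    gg n e1 K L3 x y ≤ 36 / (K * Let k m e1 K ^ 2) + 36 / Let k m e1 K := by
  have h0 := gg_le h x y
  have hx0 := rho_pos h x
  have hx1 := e8_le h hx
  have hlt := e8_keta_lt h
  have hL := e8_Le h
  have hK := h.hK0
  have he := h.he0
  have hR := e8_RR' h hx
  have hR0 := RR_nonneg h x
  rw [hy] at h0
  have h1 : lm1 (rho e1 K L3 x) c ≤ (1 / rho e1 K L3 x) / Let k m e1 K ^ 2 := by
    refine (lm1_le_of_lt hx0 (by linarith)).trans ?_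
    have h5 := e8_log h hc hx0 hx1
    refine div_le_div₀ (by positivity) ?_ (by positivity) ?_
    · exact div_le_div_of_nonneg_right hc1 hx0.le
    · exact pow_le_pow_left₀ hL.le h5 2
  have h2 : logMean (rho e1 K L3 x) c ≤ 1 / Let k m e1 K := by
    rw [logMean_comm]
    exact e8_mean h hc hc1 hx0 hx1
  have h3 : lm1 (rho e1 K L3 x) c * RR n e1 K L3 x ≤ 2 * (1 / (K * Let k m e1 K ^ 2)) := by
    calc lm1 (rho e1 K L3 x) c * RR n e1 K L3 x
        ≤ ((1 / rho e1 K L3 x) / Let k m e1 K ^ 2) * (2 * rho e1 K L3 x / K) :=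
          mul_le_mul h1 hR hR0 (by positivity)
      _ = _ := by field_simp
  have h4 : 36 / (K * Let k m e1 K ^ 2) + 36 / Let k m e1 K =
      36 * (1 / (K * Let k m e1 K ^ 2)) + 36 * (1 / Let k m e1 K) := by ring
  rw [h4]
  linarith

theorem gg_XV (h : EHyp k m n e1 K L3) {x y : XX k m} (hx : cls x = Cls.X)
    (hy : cls y = Cls.A ∨ cls y = Cls.B ∨ cls y = Cls.C) :
    gg n e1 K L3 x y ≤ 54 / Let k m e1 K := by
  have h1 := RR_X h hx
  have h3 := keta_le h
  have h4 := h.hg2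
  exact e8_cV h (e8_e1_lt h).le le_rfl (by unfold rho; rw [hx]; rfl) (by linarith) hy

theorem gg_VX (h : EHyp k m n e1 K L3) {x y : XX k m}
    (hx : cls x = Cls.A ∨ cls x = Cls.B ∨ cls x = Cls.C) (hy : cls y = Cls.X) :
    gg n e1 K L3 x y ≤ 36 / (K * Let k m e1 K ^ 2) + 36 / Let k m e1 K :=
  e8_Vc h (e8_e1_lt h).le le_rfl (by unfold rho; rw [hy]; rfl) hx

private theorem e8_two (h : EHyp k m n e1 K L3) : 2 * e1 ≤ 1 := by
  have h1 := h.hS
  have h2 : (1 : ℝ) ≤ sS k := by
    unfold sS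
    have := e8_k h
    linarith
  have h3 : (1 : ℝ) ≤ sS k ^ 2 := by nlinarith
  have h4 := h.he0
  nlinarith

theorem gg_NV (h : EHyp k m n e1 K L3) {x y : XX k m} (hx : cls x = Cls.N)
    (hy : cls y = Cls.A ∨ cls y = Cls.B ∨ cls y = Cls.C) :
    gg n e1 K L3 x y ≤ 54 / Let k m e1 K :=
  e8_cV h le_rfl (e8_e1_lt h).le (by unfold rho; rw [hx]; rfl) ((RR_N h hx).trans (e8_two h)) hy

theorem gg_VN (h : EHyp k m n e1 K L3) {x y : XX k m}
    (hx : cls x = Cls.A ∨ cls x = Cls.B ∨ cls x = Cls.C) (hy : cls y = Cls.N) :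
    gg n e1 K L3 x y ≤ 36 / (K * Let k m e1 K ^ 2) + 36 / Let k m e1 K :=
  e8_Vc h le_rfl (e8_e1_lt h).le (by unfold rho; rw [hy]; rfl) hx

theorem gg_VV (h : EHyp k m n e1 K L3) {x y : XX k m}
    (hx : cls x = Cls.A ∨ cls x = Cls.B ∨ cls x = Cls.C)
    (hy : cls y = Cls.A ∨ cls y = Cls.B ∨ cls y = Cls.C) :
    gg n e1 K L3 x y ≤ 36 * k ^ 2 * rr k m * (1 + K) := by
  have h0 := gg_le h x y
  have hk := e8_k h
  have hr := e8_r h
  have hη := eta_pos h
  have hx0 := rho_pos h x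
  have hy0 := rho_pos h y
  have hx1 := e8_ge h hx
  have hx2 := e8_le h hx
  have hy2 := e8_le h hy
  have hR := e8_RR h hx
  have hR0 := RR_nonneg h x
  have hK := h.hK0
  have hKr : (k : ℝ) * eta k m K = k * K * rr k m := by unfold eta; ring
  have h1 : lm1 (rho e1 K L3 x) (rho e1 K L3 y) ≤ k := by
    refine (lm1_le_max hx0 hy0).trans (max_le hk.le ?_)
    rw [div_le_iff₀ hx0]
    have : (k : ℝ) * eta k m K ≤ k * rho e1 K L3 x := mul_le_mul_of_nonneg_left hx1 (by linarith)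
    linarith
  have h2 : logMean (rho e1 K L3 x) (rho e1 K L3 y) ≤ k * K * rr k m := by
    rw [← hKr]
    exact (logMean_le_max hx0 hy0).trans (max_le hx2 hy2)
  have h3 : lm1 (rho e1 K L3 x) (rho e1 K L3 y) * RR n e1 K L3 x ≤ k * (2 * k * rr k m) :=
    mul_le_mul h1 hR hR0 (by linarith)
  have h4 : (k : ℝ) * K * rr k m ≤ k ^ 2 * rr k m * K := by
    have : 0 < (k : ℝ) * K * rr k m := by positivity
    nlinarith
  nlinarith

private theorem e8_O {x : XX k m} (hx : cls x = Cls.O) :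
    rho e1 K L3 x = eta k m K * Real.exp (-L3) := by
  unfold rho; rw [hx]; rfl

theorem gg_VO (h : EHyp k m n e1 K L3) {x y : XX k m}
    (hx : cls x = Cls.A ∨ cls x = Cls.B ∨ cls x = Cls.C) (hy : cls y = Cls.O) :
    gg n e1 K L3 x y ≤ 36 * k * rr k m * (1 / L3 + K) := by
  have h0 := gg_le h x y
  have hk := e8_k h
  have hr := e8_r h
  have hη := eta_pos h
  have hL := h.hL3
  have hx0 := rho_pos h x
  have hy0 := rho_pos h y
  have hx1 := e8_ge h hx
  have hx2 := e8_le h hx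
  have hR := e8_RR h hx
  have hR0 := RR_nonneg h x
  have hK := h.hK0
  have hp := e8_lm_nonneg h x y
  have hKr : (k : ℝ) * eta k m K = k * K * rr k m := by unfold eta; ring
  have hye := e8_O (e1 := e1) (K := K) (L3 := L3) hy
  have hexp : Real.exp (-L3) < 1 := by
    rw [Real.exp_lt_one_iff]
    linarith
  have hylt : rho e1 K L3 y < eta k m K := by
    rw [hye]
    nlinarith
  have h1 : lm1 (rho e1 K L3 x) (rho e1 K L3 y) ≤ 1 / L3 := by
    refine (lm1_le_inv_log hy0 (lt_of_lt_of_le hylt hx1)).trans ?_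
    refine one_div_le_one_div_of_le hL ?_
    rw [Real.le_log_iff_exp_le (by positivity), le_div_iff₀ hy0, hye]
    calc Real.exp L3 * (eta k m K * Real.exp (-L3))
        = eta k m K * (Real.exp L3 * Real.exp (-L3)) := by ring
      _ = eta k m K := by rw [← Real.exp_add]; simp
      _ ≤ _ := hx1
  have h2 : logMean (rho e1 K L3 x) (rho e1 K L3 y) ≤ k * K * rr k m := by
    rw [← hKr]
    refine (logMean_le_max hx0 hy0).trans (max_le hx2 ?_)
    linarith
  have h3 : lm1 (rho e1 K L3 x) (rho e1 K L3 y) * RR n e1 K L3 x ≤ 1 / L3 * (2 * k * rr k m) :=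
    mul_le_mul h1 hR hR0 (by positivity)
  have h5 : 36 * k * rr k m * (1 / L3 + K) =
      18 * (1 / L3 * (2 * k * rr k m)) + 36 * (k * K * rr k m) := by ring
  rw [h5]
  linarith

theorem gg_OV (h : EHyp k m n e1 K L3) {x y : XX k m} (hx : cls x = Cls.O)
    (hy : cls y = Cls.A ∨ cls y = Cls.B ∨ cls y = Cls.C) :
    gg n e1 K L3 x y ≤ 36 * k ^ 2 * rr k m * K * (Real.exp L3 + 1) := by
  have h0 := gg_le h x y
  have hk := e8_k h
  have hr := e8_r h
  have hη := eta_pos h
  have hL := h.hL3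
  have hx0 := rho_pos h x
  have hy0 := rho_pos h y
  have hy1 := e8_ge h hy
  have hy2 := e8_le h hy
  have hR := RR_O h hx
  have hR0 := RR_nonneg h x
  have hK := h.hK0
  have hKr : (k : ℝ) * eta k m K = k * K * rr k m := by unfold eta; ring
  have hxe := e8_O (e1 := e1) (K := K) (L3 := L3) hx
  have hexp : Real.exp (-L3) < 1 := by
    rw [Real.exp_lt_one_iff]
    linarith
  have hexp' : 1 < Real.exp L3 := Real.one_lt_exp_iff.2 hL
  have hxlt : rho e1 K L3 x < eta k m K := by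
    rw [hxe]
    nlinarith
  have h1 : lm1 (rho e1 K L3 x) (rho e1 K L3 y) ≤ k * Real.exp L3 := by
    refine (lm1_le_max hx0 hy0).trans (max_le (by nlinarith) ?_)
    rw [div_le_iff₀ hx0, hxe]
    calc rho e1 K L3 y ≤ k * eta k m K := hy2
      _ = k * eta k m K * (Real.exp L3 * Real.exp (-L3)) := by rw [← Real.exp_add]; simp
      _ = k * Real.exp L3 * (eta k m K * Real.exp (-L3)) := by ring
  have h2 : logMean (rho e1 K L3 x) (rho e1 K L3 y) ≤ k * K * rr k m := by
    rw [← hKr]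
    refine (logMean_le_max hx0 hy0).trans (max_le ?_ hy2)
    nlinarith
  have h3 : lm1 (rho e1 K L3 x) (rho e1 K L3 y) * RR n e1 K L3 x ≤
      k * Real.exp L3 * (k * K * rr k m) :=
    mul_le_mul h1 hR hR0 (by positivity)
  have h4 : (k : ℝ) * K * rr k m ≤ k ^ 2 * rr k m * K := by
    have : 0 < (k : ℝ) * K * rr k m := by positivity
    nlinarith
  have h5 : 0 < (k : ℝ) ^ 2 * rr k m * K := by positivity
  have h6 : (k : ℝ) * Real.exp L3 * (k * K * rr k m) = k ^ 2 * rr k m * K * Real.exp L3 := by ring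
  have h7 : 0 < (k : ℝ) ^ 2 * rr k m * K * Real.exp L3 := by positivity
  rw [h6] at h3
  nlinarith

end EntRF

end
end

section

/-!
# C6 : realisation theorem

Choose `K > 0` with `K * P x y` natural for all `x, y` (`exists_common_den`), `m` these numbers.
`G0` (B9), `N` from `G0_blow`, `G = blow G0 N`, `d = N * (K * (n * (1 + 6 b) + dV))`.
Regular: `adj0_deg`. Connected: `G0_conn`, `blow_conn` (`d ≥ 1` gives a neighbour). (S)-Ricci flat:
`SArr.sRicci`. Curvature: `BQ_lump` with `π (v, i) = lumpMap v`, fibres of size `K * n * N`,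
`∑ w, [π w = c] walk v w = N * adj0_count / d = Qn (π v) c`, and `Kent_neg` with `ρ ∘ π`, `ψ ∘ π`.
-/

noncomputable section

namespace EntRF

open Finset
open scoped Classical

private def c6_equiv (Ω : Type) (K n N : ℕ) :
    (((Ω × Lab K n) × Fin 4) × Fin N) ≃ (Ω × ZMod 2 × Fin 4) × (ZMod K × Fin n × Fin N) where
  toFun q := (lumpMap q.1, (q.1.1.2.1, q.1.1.2.2.2, q.2))
  invFun q := (((q.1.1, (q.2.1, q.1.2.1, q.2.2.1)), q.1.2.2), q.2.2.2)
  left_inv := by
    rintro ⟨⟨⟨ω, κ, ε, l⟩, p⟩, j⟩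
    rfl
  right_inv := by
    rintro ⟨⟨ω, ε, p⟩, κ, l, j⟩
    rfl

private theorem c6_fib {Ω : Type} [Fintype Ω] (K n N : ℕ) [NeZero K] (c : Ω × ZMod 2 × Fin 4) :
    ∑ w : ((Ω × Lab K n) × Fin 4) × Fin N, (if lumpMap w.1 = c then (1 : ℝ) else 0) =
      ((K * (n * N) : ℕ) : ℝ) := by
  rw [Fintype.sum_equiv (c6_equiv Ω K n N)
    (fun w : ((Ω × Lab K n) × Fin 4) × Fin N => if lumpMap w.1 = c then (1 : ℝ) else 0)
    (fun q : (Ω × ZMod 2 × Fin 4) × (ZMod K × Fin n × Fin N) => if q.1 = c then (1 : ℝ) else 0)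
    (fun q => rfl)]
  rw [Fintype.sum_prod_type]
  have h1 : ∀ a : Ω × ZMod 2 × Fin 4, ∑ b : ZMod K × Fin n × Fin N,
      (if ((a, b) : (Ω × ZMod 2 × Fin 4) × (ZMod K × Fin n × Fin N)).1 = c then (1 : ℝ) else 0) =
      if a = c then ((K * (n * N) : ℕ) : ℝ) else 0 := by
    intro a
    show ∑ b : ZMod K × Fin n × Fin N, (if a = c then (1 : ℝ) else 0) = _
    by_cases hac : a = c
    · simp only [hac, if_true]
      rw [Finset.sum_const, nsmul_eq_mul, mul_one, Finset.card_univ, Fintype.card_prod,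
        Fintype.card_prod, ZMod.card, Fintype.card_fin, Fintype.card_fin]
    · simp only [hac, if_false, Finset.sum_const_zero]
  rw [Finset.sum_congr rfl fun a _ => h1 a, Finset.sum_ite_eq']
  simp

theorem realize {Ω : Type} [Fintype Ω] [Nonempty Ω] {P : Ω → Ω → ℚ} {B R : Ω → Ω → Prop}
    {b dV : ℕ} {cP cU : Ω → Ω → Ω → Ω → ℚ} {T : Ω → Ω → Ω → Ω} (h : KData P B R b dV cP cU T)
    (hb : 0 < b) (n : ℕ) (hn : 0 < n) (ρ ψ : Ω × ZMod 2 × Fin 4 → ℝ) (hρ : ∀ x, 0 < ρ x)
    (hB : BQ (Qn P B R b dV n) ρ ψ < 0) :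
    ∃ (V : Type) (_ : Fintype V) (G : SimpleGraph V) (d : ℕ), 1 ≤ d ∧ G.Connected ∧
      (∀ x, Nat.card (G.neighborSet x) = d) ∧ (∀ x, SRicciFlatAt G d x) ∧ Kent G d < 0 := by
  obtain ⟨K, hK, hm⟩ := exists_common_den (fun s : Ω × Ω => P s.1 s.2) (fun s => h.Pnonneg _ _)
  choose m0 hm0 using hm
  have : NeZero K := ⟨hK.ne'⟩
  set m : Ω → Ω → ℕ := fun x y => m0 (x, y) with hmdef
  have hm : ∀ x y, (m x y : ℚ) = K * P x y := fun x y => hm0 (x, y)
  obtain ⟨N, hN, hS⟩ := G0_blow h hb K n hn m hm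
  have hadj : ∀ x y, (G0 (K := K) (n := n) m B R).Adj x y ↔ adj0 m B R x y :=
    fun x y => G0_adj h K n m hm x y
  set G : SimpleGraph (((Ω × Lab K n) × Fin 4) × Fin N) :=
    blow (G0 (K := K) (n := n) m B R) N with hG
  have hGadj : ∀ p q, G.Adj p q ↔ adj0 m B R p.1 q.1 := fun p q => hadj p.1 q.1
  set d : ℕ := N * (K * (n * (1 + 6 * b) + dV)) with hd
  have hd1 : 1 ≤ d := by
    have h1 : 0 < n * (1 + 6 * b) := Nat.mul_pos hn (by omega)
    have h2 : 0 < n * (1 + 6 * b) + dV := by omega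
    exact Nat.mul_pos hN (Nat.mul_pos hK h2)
  have hreg : ∀ x, Nat.card (G.neighborSet x) = d := by
    intro p
    have h1 : Nat.card (G.neighborSet p) = (univ.filter (fun q => G.Adj p q)).card :=
      Nat.subtype_card (p := fun y => y ∈ G.neighborSet p) (univ.filter (fun q => G.Adj p q))
        (fun y => by simp)
    have h2 : (((univ.filter (fun q => G.Adj p q)).card : ℕ) : ℚ) = (d : ℚ) := by
      rw [Finset.card_filter]
      push_cast
      rw [Fintype.sum_prod_type]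
      have h3 : ∀ w : (Ω × Lab K n) × Fin 4, ∑ j : Fin N, (if G.Adj p (w, j) then (1 : ℚ) else 0) =
          N * (if adj0 m B R p.1 w then (1 : ℚ) else 0) := by
        intro w
        have h4 : ∀ j : Fin N, (if G.Adj p (w, j) then (1 : ℚ) else 0) =
            (if adj0 m B R p.1 w then (1 : ℚ) else 0) :=
          fun j => if_congr (hGadj p (w, j)) rfl rfl
        rw [Finset.sum_congr rfl fun j _ => h4 j, Finset.sum_const, Finset.card_univ,
          Fintype.card_fin, nsmul_eq_mul]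
      rw [Finset.sum_congr rfl fun w _ => h3 w, ← Finset.mul_sum, adj0_deg h K n m hm p.1, hd]
      push_cast
      ring
    rw [h1]
    exact_mod_cast h2
  have hG0conn := G0_conn h K n hn m hm
  have hnb : ∀ v, ∃ w, (G0 (K := K) (n := n) m B R).Adj v w := by
    intro v
    have h1 := hreg (v, ⟨0, hN⟩)
    have h2 : 0 < Nat.card (G.neighborSet (v, (⟨0, hN⟩ : Fin N))) := by rw [h1]; exact hd1
    obtain ⟨⟨w, hw⟩⟩ := (Nat.card_pos_iff.1 h2).1
    exact ⟨w.1, hw⟩
  have hconn : G.Connected := blow_conn _ N hN hG0conn hnb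
  refine ⟨_, inferInstance, G, d, hd1, hconn, hreg, fun x => SArr.sRicci (hreg x) (hS x), ?_⟩
  set π : ((Ω × Lab K n) × Fin 4) × Fin N → Ω × ZMod 2 × Fin 4 := fun q => lumpMap q.1 with hπ
  have hdR : (d : ℝ) = N * (K * ((n : ℝ) * (1 + 6 * b) + dV)) := by
    rw [hd]; push_cast; ring
  have hNR : (0 : ℝ) < N := by exact_mod_cast hN
  have hKR : (0 : ℝ) < K := by exact_mod_cast hK
  have hnR : (0 : ℝ) < n := by exact_mod_cast hn
  have hsR : (0 : ℝ) < (n : ℝ) * (1 + 6 * b) + dV := by positivity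
  have hQ : ∀ v c, ∑ w, (if π w = c then walk G d v w else 0) = Qn P B R b dV n (π v) c := by
    intro v c
    rw [Fintype.sum_prod_type]
    have h3 : ∀ w : (Ω × Lab K n) × Fin 4,
        ∑ j : Fin N, (if π (w, j) = c then walk G d v (w, j) else 0) =
        N * (1 / (d : ℝ)) * (if adj0 m B R v.1 w ∧ lumpMap w = c then (1 : ℝ) else 0) := by
      intro w
      have h4 : ∀ j : Fin N, (if π (w, j) = c then walk G d v (w, j) else 0) =
          (1 / (d : ℝ)) * (if adj0 m B R v.1 w ∧ lumpMap w = c then (1 : ℝ) else 0) := by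
        intro j
        have h5 : walk G d v (w, j) = if adj0 m B R v.1 w then 1 / (d : ℝ) else 0 := by
          unfold walk
          exact if_congr (hGadj v (w, j)) rfl rfl
        rw [h5]
        show (if lumpMap w = c then (if adj0 m B R v.1 w then 1 / (d : ℝ) else 0) else 0) = _
        by_cases ha : adj0 m B R v.1 w <;> by_cases hc : lumpMap w = c <;> simp [ha, hc]
      rw [Finset.sum_congr rfl fun j _ => h4 j, Finset.sum_const, Finset.card_univ,
        Fintype.card_fin, nsmul_eq_mul, mul_assoc]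
    rw [Finset.sum_congr rfl fun w _ => h3 w, ← Finset.mul_sum]
    have h6 := congrArg (fun q : ℚ => (q : ℝ)) (adj0_count h K n m hm v.1 c)
    push_cast at h6
    simp only [apply_ite (Rat.cast (K := ℝ)), Rat.cast_one, Rat.cast_zero] at h6
    rw [h6, hdR]
    have h7 : (π v).1 = v.1.1.1 := rfl
    have h8 : (π v).2.1 = v.1.1.2.2.1 := rfl
    have h9 : (π v).2.2 = v.1.2 := rfl
    unfold Qn
    rw [h7, h8, h9]
    field_simp
  have hlump := BQ_lump (walk G d) (Qn P B R b dV n) π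
    (fun v c => by
      rw [← hQ v c]
      refine Finset.sum_congr rfl fun w _ => ?_
      congr) (K * (n * N))
    (fun c => by
      rw [← c6_fib K n N c]
      refine Finset.sum_congr rfl fun w _ => ?_
      congr) ρ ψ
  refine Kent_neg hd1 hreg (fun v => ρ (π v)) (fun v => ψ (π v)) (fun v => hρ _) ?_
  rw [hlump]
  have hF : (0 : ℝ) < ((K * (n * N) : ℕ) : ℝ) := by
    have : 0 < K * (n * N) := Nat.mul_pos hK (Nat.mul_pos hn hN)
    exact_mod_cast this
  exact mul_neg_of_pos_of_neg hF hB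

end EntRF

end
end

section

/-!
# E10 : sums over `y` for a base in `A`, `B`, `C`

`V`-part (`baseV`): neighbours in `X`, `N`: weight `≤ 3 |S|^2/DD ≤ |S|^2 r`, bounds `gg_VX`, `gg_VN`;
in `A,B,C,D`: weight `≤ 6 (m+1) |S|^2/DD ≤ 1/(m+1)`, bounds `gg_VV`, `gg_VD` (sum of both); in `O`:
weight `≤ 1`, `gg_VO`. This gives `VB`.
`H`-part: neighbours in `A,B,C,D` (`blk_of_bk`), `D`: `γ b1 * gg_VD`. `hU` never goes to `A,B,C`.
`hP`: `A`: not `A`; `C`: `ψ y = ψ x` (`ε` is flipped, `pv A = - pv C`), zero; `B`: `hP_A_B`, `gg_AB`.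
`B`: not `B`; `C`: zero; `A`: `hP_B_A`, `gg_BA`. `C`: not `C`; `A`, `B`: zero.
-/

noncomputable section

namespace EntRF

open Finset
open scoped Classical

variable {k m n : ℕ} {e1 K L3 : ℝ}

private theorem e10_L1_pos (h : EHyp k m n e1 K L3) : 0 < L1f e1 := by
  have := h.he1
  linarith

private theorem e10_M3 (h : EHyp k m n e1 K L3) :
    0 ≤ 36 * k * rr k m * (1 / L1f e1 + K) := by
  have h1 := e10_L1_pos h
  have h2 := rr_pos k m
  have h3 := h.hK0
  positivity

private theorem e10_dd (k m : ℕ) : (dd k m : ℝ) = 9 * (((m : ℝ) + 1) * sS k) ^ 2 := by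
  unfold dd sS
  push_cast
  ring

theorem baseV (h : EHyp k m n e1 K L3) {x : XX k m}
    (hx : cls x = Cls.A ∨ cls x = Cls.B ∨ cls x = Cls.C) :
    ∑ y, 1 / DDr k m n * hV x y * gg n e1 K L3 x y ≤ VB k m e1 K L3 := by
  have hx4 : cls x = Cls.A ∨ cls x = Cls.B ∨ cls x = Cls.C ∨ cls x = Cls.D := by tauto
  have hL1 := e10_L1_pos h
  have hr := rr_pos k m
  have hK := h.hK0
  have hLe : 0 < Let k m e1 K := by
    have := h.hK3
    linarith
  have hL3 := h.hL3
  set M1 : ℝ := 36 / (K * Let k m e1 K ^ 2) + 36 / Let k m e1 K with hM1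
  set M2 : ℝ := 36 * k ^ 2 * rr k m * (1 + K) with hM2
  set M3 : ℝ := 36 * k * rr k m * (1 / L1f e1 + K) with hM3
  set M4 : ℝ := 36 * k * rr k m * (1 / L3 + K) with hM4
  have hM1' : 0 ≤ M1 := by positivity
  have hM2' : 0 ≤ M2 := by positivity
  have hM3' : 0 ≤ M3 := by positivity
  have hM4' : 0 ≤ M4 := by positivity
  have hpt : ∀ y, hV x y * gg n e1 K L3 x y ≤
      (if cls y = Cls.X ∨ cls y = Cls.N then hV x y else 0) * M1 +
      (if cls y = Cls.A ∨ cls y = Cls.B ∨ cls y = Cls.C ∨ cls y = Cls.D then hV x y else 0) *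
        (M2 + M3) + hV x y * M4 := by
    intro y
    have hv := hV_nonneg x y
    have h4 : 0 ≤ hV x y * M4 := mul_nonneg hv hM4'
    have h3 : 0 ≤ hV x y * M3 := mul_nonneg hv hM3'
    have h2 : 0 ≤ hV x y * M2 := mul_nonneg hv hM2'
    rcases hy : cls y with _ | _ | _ | _ | _ | _ | _
    · have := mul_le_mul_of_nonneg_left (gg_VX h hx hy) hv
      simp only [reduceCtorEq, or_false, or_self, if_true, if_false]
      linarith
    · have := mul_le_mul_of_nonneg_left (gg_VN h hx hy) hv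
      simp only [reduceCtorEq, or_true, or_self, if_true, if_false]
      linarith
    · have := mul_le_mul_of_nonneg_left (gg_VV h hx (y := y) (by tauto)) hv
      simp only [reduceCtorEq, or_false, or_self, if_true, if_false]
      linarith
    · have := mul_le_mul_of_nonneg_left (gg_VV h hx (y := y) (by tauto)) hv
      simp only [reduceCtorEq, or_false, or_true, or_self, if_true, if_false]
      linarith
    · have := mul_le_mul_of_nonneg_left (gg_VV h hx (y := y) (by tauto)) hv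
      simp only [reduceCtorEq, or_false, or_true, or_self, if_true, if_false]
      linarith
    · have := mul_le_mul_of_nonneg_left (gg_VD h hx hy) hv
      simp only [reduceCtorEq, or_true, or_self, if_true, if_false]
      linarith
    · have := mul_le_mul_of_nonneg_left (gg_VO h hx hy) hv
      simp only [reduceCtorEq, or_self, if_false]
      linarith
  have hdd := dd_pos k m
  have hDD := DDr_ge k m n
  have hDpos : 0 < DDr k m n := lt_of_lt_of_le hdd hDD
  have hS : 0 < sS k := by unfold sS; positivity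
  have hm : (0 : ℝ) < (m : ℝ) + 1 := by positivity
  have hsum : ∑ y, hV x y * gg n e1 K L3 x y ≤
      3 * sS k ^ 2 * M1 + 6 * (m + 1) * sS k ^ 2 * (M2 + M3) + (dd k m : ℝ) * M4 := by
    refine (sum_le_sum (fun y _ => hpt y)).trans ?_
    rw [sum_add_distrib, sum_add_distrib, ← sum_mul, ← sum_mul, ← sum_mul, hV_sum]
    have e1' := mul_le_mul_of_nonneg_right (hV_ABCD_XN hx4) hM1'
    have e2' := mul_le_mul_of_nonneg_right (hV_ABCD_ABCD hx4) (add_nonneg hM2' hM3')
    linarith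
  have hlhs : ∑ y, 1 / DDr k m n * hV x y * gg n e1 K L3 x y =
      1 / DDr k m n * ∑ y, hV x y * gg n e1 K L3 x y := by
    rw [mul_sum]
    exact sum_congr rfl (fun y _ => by ring)
  rw [hlhs]
  have hinv : (0 : ℝ) ≤ 1 / DDr k m n := by positivity
  refine (mul_le_mul_of_nonneg_left hsum hinv).trans ?_
  have hinv2 : 1 / DDr k m n ≤ 1 / dd k m := one_div_le_one_div_of_le hdd hDD
  have hnn : 0 ≤ 3 * sS k ^ 2 * M1 + 6 * (m + 1) * sS k ^ 2 * (M2 + M3) + (dd k m : ℝ) * M4 := by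
    positivity
  refine (mul_le_mul_of_nonneg_right hinv2 hnn).trans ?_
  have e : 1 / (dd k m : ℝ) * (3 * sS k ^ 2 * M1 + 6 * (m + 1) * sS k ^ 2 * (M2 + M3) +
      (dd k m : ℝ) * M4) = sS k ^ 2 * rr k m * M1 + (2 / 3) * (1 / (m + 1)) * (M2 + M3) + M4 := by
    unfold rr
    rw [e10_dd]
    field_simp
    ring
  rw [e]
  have hVB : VB k m e1 K L3 = sS k ^ 2 * rr k m * M1 + 1 / (m + 1) * (M2 + M3) + M4 := by
    rfl
  rw [hVB]
  have h5 : 0 ≤ 1 / ((m : ℝ) + 1) * (M2 + M3) := by positivity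
  linarith

private theorem e10_split (x : XX k m) :
    ∑ y, QQ n x y * gg n e1 K L3 x y =
      gam k m n * ∑ y, (hP x y + hU x y) * gg n e1 K L3 x y +
        ∑ y, 1 / DDr k m n * hV x y * gg n e1 K L3 x y := by
  rw [mul_sum, ← sum_add_distrib]
  refine sum_congr rfl (fun y _ => ?_)
  rw [QQ_eq]
  ring

private theorem e10_sg (e : ZMod 2) : sg (e + 1) = - sg e := by
  unfold sg
  revert e
  have : ∀ e : ZMod 2, (e = 0 ∧ e + 1 ≠ 0) ∨ (e ≠ 0 ∧ e + 1 = 0) := by decide
  intro e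
  rcases this e with ⟨h1, h2⟩ | ⟨h1, h2⟩
  · rw [if_pos h1, if_neg h2]
  · rw [if_neg h1, if_pos h2]
    ring

private theorem e10_psi {x y : XX k m} (hp : hP x y ≠ 0) (hpv : pv (cls y) = - pv (cls x)) :
    psi y = psi x := by
  have h1 : y.2.1 = x.2.1 + 1 := by
    by_contra hne
    apply hp
    unfold hP
    rw [if_neg (fun h => hne h.1)]
  unfold psi
  rw [h1, e10_sg, hpv]
  ring

/-- zero contribution of `hP` between classes with opposite values of `pv` -/
private theorem e10_zero {x y : XX k m} (hU0 : hU x y = 0) (hpv : pv (cls y) = - pv (cls x)) :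
    (hP x y + hU x y) * gg n e1 K L3 x y = 0 := by
  rw [hU0, add_zero]
  by_cases hp : hP x y = 0
  · rw [hp, zero_mul]
  · rw [gg_zero (e10_psi hp hpv), mul_zero]

private theorem e10_blk {x y : XX k m} (hx : cls x = Cls.A ∨ cls x = Cls.B ∨ cls x = Cls.C)
    (hne : hP x y + hU x y ≠ 0) :
    cls y = Cls.A ∨ cls y = Cls.B ∨ cls y = Cls.C ∨ cls y = Cls.D := by
  have hbk : Bk x.1 y.1 := by
    by_cases hp : hP x y = 0
    · have hu : hU x y ≠ 0 := by
        intro h0
        apply hne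
        rw [hp, h0, add_zero]
      by_contra hcon
      apply hu
      unfold hU
      rw [if_neg (fun h => hcon h.1)]
    · exact hP_bk hp
  have h1 := blk_of_bk hbk
  have h2 : blk (cls x) = 1 := by
    rcases hx with h | h | h <;> rw [h] <;> rfl
  rw [h2] at h1
  rcases hy : cls y with _ | _ | _ | _ | _ | _ | _ <;> rw [hy] at h1 <;> simp [blk] at h1 <;> simp

private theorem e10_b1 (hk : 1 ≤ k) (x : XX k m) (c : ℝ) :
    ∑ y, (hP x y + hU x y) * c = b1 k * c := by
  rw [← sum_mul, sum_add_distrib, hP_sum hk, hU_sum]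
  rfl

theorem base_A (h : EHyp k m n e1 K L3) {x : XX k m} (hx : cls x = Cls.A) :
    ∑ y, QQ n x y * gg n e1 K L3 x y ≤
      gam k m n * (1 / (4 * k) * (36 * k * rr k m * (1 / Real.log k + K)) +
        b1 k * (36 * k * rr k m * (1 / L1f e1 + K))) + VB k m e1 K L3 := by
  have hx3 : cls x = Cls.A ∨ cls x = Cls.B ∨ cls x = Cls.C := Or.inl hx
  rw [e10_split]
  refine add_le_add (mul_le_mul_of_nonneg_left ?_ (gam_nonneg k m n)) (baseV h hx3)
  set MA : ℝ := 36 * k * rr k m * (1 / Real.log k + K) with hMA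
  set M3 : ℝ := 36 * k * rr k m * (1 / L1f e1 + K) with hM3
  have hM3' : 0 ≤ M3 := e10_M3 h
  have hlk := h.hLk
  have hr := rr_pos k m
  have hK := h.hK0
  have hMA' : 0 ≤ MA := by
    have : 0 < Real.log k := by linarith
    positivity
  have hpt : ∀ y, (hP x y + hU x y) * gg n e1 K L3 x y ≤
      (if cls y = Cls.B then hP x y else 0) * MA + (hP x y + hU x y) * M3 := by
    intro y
    have hp := hP_nonneg h.hk x y
    have hu := hU_nonneg x y
    have hnn : 0 ≤ (hP x y + hU x y) * M3 := mul_nonneg (add_nonneg hp hu) hM3'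
    have hnn2 : 0 ≤ (if cls y = Cls.B then hP x y else 0) * MA := by
      split_ifs
      · exact mul_nonneg hp hMA'
      · rw [zero_mul]
    by_cases hne : hP x y + hU x y = 0
    · rw [hne] at hnn ⊢
      rw [zero_mul]
      linarith
    rcases e10_blk hx3 hne with hy | hy | hy | hy
    · exfalso
      apply hne
      rw [hP_AA hx hy, hU_ABC hx3 (Or.inl hy), add_zero]
    · rw [if_pos hy]
      have hu0 := hU_ABC hx3 (y := y) (Or.inr (Or.inl hy))
      rw [hu0, add_zero] at hnn ⊢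
      have := mul_le_mul_of_nonneg_left (gg_AB h hx hy) hp
      linarith
    · rw [e10_zero (hU_ABC hx3 (Or.inr (Or.inr hy))) (by rw [hx, hy]; rfl)]
      linarith
    · have := mul_le_mul_of_nonneg_left (gg_VD h hx3 hy) (add_nonneg hp hu)
      linarith
  refine (sum_le_sum (fun y _ => hpt y)).trans ?_
  rw [sum_add_distrib, ← sum_mul, e10_b1 h.hk]
  have := mul_le_mul_of_nonneg_right (hP_A_B h.hk hx) hMA'
  linarith

theorem base_B (h : EHyp k m n e1 K L3) {x : XX k m} (hx : cls x = Cls.B) :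
    ∑ y, QQ n x y * gg n e1 K L3 x y ≤
      gam k m n * (1 / (4 * k ^ 2) * (36 * k * rr k m * (1 / Real.log k ^ 2 + K)) +
        b1 k * (36 * k * rr k m * (1 / L1f e1 + K))) + VB k m e1 K L3 := by
  have hx3 : cls x = Cls.A ∨ cls x = Cls.B ∨ cls x = Cls.C := Or.inr (Or.inl hx)
  rw [e10_split]
  refine add_le_add (mul_le_mul_of_nonneg_left ?_ (gam_nonneg k m n)) (baseV h hx3)
  set MA : ℝ := 36 * k * rr k m * (1 / Real.log k ^ 2 + K) with hMA
  set M3 : ℝ := 36 * k * rr k m * (1 / L1f e1 + K) with hM3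
  have hM3' : 0 ≤ M3 := e10_M3 h
  have hlk := h.hLk
  have hr := rr_pos k m
  have hK := h.hK0
  have hMA' : 0 ≤ MA := by
    have : 0 < Real.log k := by linarith
    positivity
  have hpt : ∀ y, (hP x y + hU x y) * gg n e1 K L3 x y ≤
      (if cls y = Cls.A then hP x y else 0) * MA + (hP x y + hU x y) * M3 := by
    intro y
    have hp := hP_nonneg h.hk x y
    have hu := hU_nonneg x y
    have hnn : 0 ≤ (hP x y + hU x y) * M3 := mul_nonneg (add_nonneg hp hu) hM3'
    have hnn2 : 0 ≤ (if cls y = Cls.A then hP x y else 0) * MA := by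
      split_ifs
      · exact mul_nonneg hp hMA'
      · rw [zero_mul]
    by_cases hne : hP x y + hU x y = 0
    · rw [hne] at hnn ⊢
      rw [zero_mul]
      linarith
    rcases e10_blk hx3 hne with hy | hy | hy | hy
    · rw [if_pos hy]
      have hu0 := hU_ABC hx3 (y := y) (Or.inl hy)
      rw [hu0, add_zero] at hnn ⊢
      have := mul_le_mul_of_nonneg_left (gg_BA h hx hy) hp
      linarith
    · exfalso
      apply hne
      rw [hP_BB hx hy, hU_ABC hx3 (Or.inr (Or.inl hy)), add_zero]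
    · rw [e10_zero (hU_ABC hx3 (Or.inr (Or.inr hy))) (by rw [hx, hy]; rfl)]
      linarith
    · have := mul_le_mul_of_nonneg_left (gg_VD h hx3 hy) (add_nonneg hp hu)
      linarith
  refine (sum_le_sum (fun y _ => hpt y)).trans ?_
  rw [sum_add_distrib, ← sum_mul, e10_b1 h.hk]
  have := mul_le_mul_of_nonneg_right (hP_B_A h.hk hx) hMA'
  linarith

theorem base_C (h : EHyp k m n e1 K L3) {x : XX k m} (hx : cls x = Cls.C) :
    ∑ y, QQ n x y * gg n e1 K L3 x y ≤
      gam k m n * (b1 k * (36 * k * rr k m * (1 / L1f e1 + K))) + VB k m e1 K L3 := by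
  have hx3 : cls x = Cls.A ∨ cls x = Cls.B ∨ cls x = Cls.C := Or.inr (Or.inr hx)
  rw [e10_split]
  refine add_le_add (mul_le_mul_of_nonneg_left ?_ (gam_nonneg k m n)) (baseV h hx3)
  set M3 : ℝ := 36 * k * rr k m * (1 / L1f e1 + K) with hM3
  have hM3' : 0 ≤ M3 := e10_M3 h
  have hpt : ∀ y, (hP x y + hU x y) * gg n e1 K L3 x y ≤ (hP x y + hU x y) * M3 := by
    intro y
    have hp := hP_nonneg h.hk x y
    have hu := hU_nonneg x y
    have hnn : 0 ≤ (hP x y + hU x y) * M3 := mul_nonneg (add_nonneg hp hu) hM3'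
    by_cases hne : hP x y + hU x y = 0
    · rw [hne, zero_mul, zero_mul]
    rcases e10_blk hx3 hne with hy | hy | hy | hy
    · rw [e10_zero (hU_ABC hx3 (Or.inl hy)) (by rw [hx, hy]; simp [pv])]
      exact hnn
    · rw [e10_zero (hU_ABC hx3 (Or.inr (Or.inl hy))) (by rw [hx, hy]; simp [pv])]
      exact hnn
    · exfalso
      apply hne
      rw [hP_CC hx hy, hU_ABC hx3 (Or.inr (Or.inr hy)), add_zero]
    · exact mul_le_mul_of_nonneg_left (gg_VD h hx3 hy) (add_nonneg hp hu)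
  refine (sum_le_sum (fun y _ => hpt y)).trans ?_
  rw [e10_b1 h.hk]

end EntRF

end
end

section

/-!
# E9 : sums over `y` for a base in `X`, `N` or `D`

`QQ x y = γ (hP + hU) + hV/DD`.
* `base_X`: `H`-neighbours are in `X` (only by `hP`, `hU_XX`) or `N` (`blk_of_bk`);
  `∑ hP [y ∈ X] gg ≤ -(3/4) ∑ hP [y ∈ X] ≤ -(3/4) 3 k τ` (`hP_X_X`, `τ = 1/(400 k^2)`);
  `N`: `≤ b1 * 54/L1`. `V`-neighbours in `A,B,C`: `≤ 54/Le` (total weight `dd/DD ≤ 1`).
* `base_N`: `H`-neighbours `X` (`≤ b1 * 72/L1`) or `N` (`ψ = 0 = ψ`, `gg_zero`); `V`-neighbours `A,B,C`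
  (`54/Le`), `D` (`gg_zero`).
* `base_D`: `H`-neighbours `A,B,C` (`gg_DV`), `D` (zero); `V`-neighbours: `X` never, `N`, `D`, `O` zero,
  `A,B,C`: `gg_DV` with weight `≤ 6 (m+1)|S|^2/DD ≤ 1/(m+1)` (`dd = 9 (m+1)^2 |S|^2`).
-/

noncomputable section

namespace EntRF

open Finset
open scoped Classical

variable {k m n : ℕ} {e1 K L3 : ℝ}

private theorem e9_sumH (hk : 1 ≤ k) (x : XX k m) : ∑ y, (hP x y + hU x y) = b1 k := by
  rw [Finset.sum_add_distrib, hP_sum hk, hU_sum]; rfl

private theorem e9_H_bk {x y : XX k m} (h : hP x y + hU x y ≠ 0) : Bk x.1 y.1 := by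
  by_cases hp : hP x y = 0
  · have hu : hU x y ≠ 0 := by
      intro h0; apply h; rw [hp, h0, add_zero]
    by_contra hb
    exact hu (if_neg (fun h' => hb h'.1))
  · exact hP_bk hp

private theorem e9_split (n : ℕ) (x : XX k m) (g : XX k m → ℝ) :
    ∑ y, QQ n x y * g y = gam k m n * ∑ y, (hP x y + hU x y) * g y +
      1 / DDr k m n * ∑ y, hV x y * g y := by
  rw [Finset.mul_sum, Finset.mul_sum, ← Finset.sum_add_distrib]
  refine Finset.sum_congr rfl fun y _ => ?_
  rw [QQ_eq]; ring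

private theorem e9_DD_pos (k m n : ℕ) : 0 < DDr k m n :=
  lt_of_lt_of_le (dd_pos k m) (DDr_ge k m n)

private theorem e9_ratio (k m n : ℕ) : 1 / DDr k m n * (dd k m : ℝ) ≤ 1 := by
  rw [one_div, inv_mul_eq_div, div_le_one (e9_DD_pos k m n)]
  exact DDr_ge k m n

private theorem e9_psi0 {x : XX k m} (h : pv (cls x) = 0) : psi x = 0 := by
  unfold psi; rw [h, mul_zero]

private theorem e9_Vle {x : XX k m} {g : XX k m → ℝ} {c : ℝ} (hc : 0 ≤ c)
    (hg : ∀ y, hV x y * g y ≤ hV x y * c) :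
    1 / DDr k m n * ∑ y, hV x y * g y ≤ c := by
  have hD := e9_DD_pos k m n
  have h1 : ∑ y, hV x y * g y ≤ (dd k m : ℝ) * c := by
    rw [← hV_sum x, Finset.sum_mul]
    exact Finset.sum_le_sum fun y _ => hg y
  calc 1 / DDr k m n * ∑ y, hV x y * g y ≤ 1 / DDr k m n * ((dd k m : ℝ) * c) :=
        mul_le_mul_of_nonneg_left h1 (by positivity)
    _ = (1 / DDr k m n * (dd k m : ℝ)) * c := by ring
    _ ≤ 1 * c := mul_le_mul_of_nonneg_right (e9_ratio k m n) hc
    _ = c := one_mul c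

theorem base_X (h : EHyp k m n e1 K L3) {x : XX k m} (hx : cls x = Cls.X) :
    ∑ y, QQ n x y * gg n e1 K L3 x y ≤
      gam k m n * (-(9 / 4) * k * (1 / (400 * k ^ 2)) + b1 k * (54 / L1f e1)) +
        54 / Let k m e1 K := by
  have hL1 : 0 < L1f e1 := lt_of_lt_of_le one_pos h.he1
  have hLe : 0 < Let k m e1 K := lt_of_lt_of_le one_pos h.hK3
  have hc1 : 0 ≤ 54 / L1f e1 := by positivity
  have hc2 : 0 ≤ 54 / Let k m e1 K := by positivity
  rw [e9_split]
  have hH : ∑ y, (hP x y + hU x y) * gg n e1 K L3 x y ≤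
      -(9 / 4) * k * (1 / (400 * k ^ 2)) + b1 k * (54 / L1f e1) := by
    have hpt : ∀ y, (hP x y + hU x y) * gg n e1 K L3 x y ≤
        -(3 / 4) * (if cls y = Cls.X then hP x y else 0) + (hP x y + hU x y) * (54 / L1f e1) := by
      intro y
      have hp0 := hP_nonneg h.hk x y
      have hu0 := hU_nonneg x y
      by_cases hz : hP x y + hU x y = 0
      · have hp : hP x y = 0 := by linarith
        rw [hz, hp]; simp
      · have hb := blk_of_bk (e9_H_bk hz)
        rw [hx] at hb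
        rcases hcy : cls y with _ | _ | _ | _ | _ | _ | _
        · have hU0 := hU_XX hx hcy
          rw [hU0, add_zero] at hz ⊢
          have hg := gg_XX h hx hcy hz
          rw [if_pos rfl]
          have h1 : hP x y * gg n e1 K L3 x y ≤ hP x y * (-(3 / 4)) :=
            mul_le_mul_of_nonneg_left hg hp0
          have h2 : 0 ≤ hP x y * (54 / L1f e1) := mul_nonneg hp0 hc1
          linarith
        · rw [if_neg (by simp)]
          have hg := gg_XN h hx hcy
          have h1 := mul_le_mul_of_nonneg_left hg (add_nonneg hp0 hu0)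
          linarith
        all_goals (exfalso; rw [hcy] at hb; revert hb; decide)
    calc ∑ y, (hP x y + hU x y) * gg n e1 K L3 x y
        ≤ ∑ y, (-(3 / 4) * (if cls y = Cls.X then hP x y else 0) +
            (hP x y + hU x y) * (54 / L1f e1)) := Finset.sum_le_sum fun y _ => hpt y
      _ = -(3 / 4) * ∑ y, (if cls y = Cls.X then hP x y else 0) + b1 k * (54 / L1f e1) := by
          rw [Finset.sum_add_distrib, ← Finset.mul_sum, ← Finset.sum_mul, e9_sumH h.hk]
      _ ≤ -(9 / 4) * k * (1 / (400 * k ^ 2)) + b1 k * (54 / L1f e1) := by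
          have := hP_X_X h.hk hx
          linarith
  have hV' := e9_Vle (n := n) (x := x) (g := fun y => gg n e1 K L3 x y) hc2 (by
    intro y
    by_cases hz : hV x y = 0
    · rw [hz]; simp
    · exact mul_le_mul_of_nonneg_left (gg_XV h hx (hV_from_X hx hz)) (hV_nonneg x y))
  have := mul_le_mul_of_nonneg_left hH (gam_nonneg k m n)
  linarith

theorem base_N (h : EHyp k m n e1 K L3) {x : XX k m} (hx : cls x = Cls.N) :
    ∑ y, QQ n x y * gg n e1 K L3 x y ≤
      gam k m n * b1 k * (72 / L1f e1) + 54 / Let k m e1 K := by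
  have hL1 : 0 < L1f e1 := lt_of_lt_of_le one_pos h.he1
  have hLe : 0 < Let k m e1 K := lt_of_lt_of_le one_pos h.hK3
  have hc1 : 0 ≤ 72 / L1f e1 := by positivity
  have hc2 : 0 ≤ 54 / Let k m e1 K := by positivity
  have hpx : psi x = 0 := e9_psi0 (by rw [hx]; rfl)
  rw [e9_split]
  have hH : ∑ y, (hP x y + hU x y) * gg n e1 K L3 x y ≤ b1 k * (72 / L1f e1) := by
    rw [← e9_sumH h.hk x, Finset.sum_mul]
    refine Finset.sum_le_sum fun y _ => ?_
    have hp0 := hP_nonneg h.hk x y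
    have hu0 := hU_nonneg x y
    by_cases hz : hP x y + hU x y = 0
    · rw [hz]; simp
    · refine mul_le_mul_of_nonneg_left ?_ (add_nonneg hp0 hu0)
      have hb := blk_of_bk (e9_H_bk hz)
      rw [hx] at hb
      rcases hcy : cls y with _ | _ | _ | _ | _ | _ | _
      · exact gg_NX h hx hcy
      · rw [gg_zero (by rw [hpx]; exact e9_psi0 (by rw [hcy]; rfl))]; exact hc1
      all_goals (exfalso; rw [hcy] at hb; revert hb; decide)
  have hV' := e9_Vle (n := n) (x := x) (g := fun y => gg n e1 K L3 x y) hc2 (by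
    intro y
    by_cases hz : hV x y = 0
    · rw [hz]; simp
    · refine mul_le_mul_of_nonneg_left ?_ (hV_nonneg x y)
      rcases hV_from_N hx hz with h1 | h1 | h1 | h1
      · exact gg_NV h hx (Or.inl h1)
      · exact gg_NV h hx (Or.inr (Or.inl h1))
      · exact gg_NV h hx (Or.inr (Or.inr h1))
      · show gg n e1 K L3 x y ≤ _
        rw [gg_zero (by rw [hpx]; exact e9_psi0 (by rw [h1]; rfl))]; exact hc2)
  have := mul_le_mul_of_nonneg_left hH (gam_nonneg k m n)
  linarith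

private theorem e9_w (k m n : ℕ) : 1 / DDr k m n * (6 * (m + 1) * sS k ^ 2) ≤ 1 / (m + 1) := by
  have hD := e9_DD_pos k m n
  have hge := DDr_ge k m n
  have hdd : (dd k m : ℝ) = 9 * (m + 1) ^ 2 * sS k ^ 2 := by
    unfold dd sS; push_cast; ring
  have hm : (0 : ℝ) < m + 1 := by positivity
  have hS : 0 ≤ sS k ^ 2 := by positivity
  rw [one_div, inv_mul_eq_div, div_le_div_iff₀ hD hm]
  rw [hdd] at hge
  have : 0 ≤ ((m : ℝ) + 1) ^ 2 * sS k ^ 2 := by positivity
  nlinarith

theorem base_D (h : EHyp k m n e1 K L3) {x : XX k m} (hx : cls x = Cls.D) :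
    ∑ y, QQ n x y * gg n e1 K L3 x y ≤
      36 * k * sS k ^ 2 * rr k m * (1 / L1f e1 + K) * (gam k m n * b1 k + 1 / (m + 1)) := by
  have hL1 : 0 < L1f e1 := lt_of_lt_of_le one_pos h.he1
  have hK := h.hK0
  have hr := rr_pos k m
  have hD := e9_DD_pos k m n
  set c : ℝ := 36 * k * sS k ^ 2 * rr k m * (1 / L1f e1 + K) with hcdef
  have hc : 0 ≤ c := by rw [hcdef]; positivity
  have hpx : psi x = 0 := e9_psi0 (by rw [hx]; rfl)
  rw [e9_split]
  have hH : ∑ y, (hP x y + hU x y) * gg n e1 K L3 x y ≤ b1 k * c := by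
    rw [← e9_sumH h.hk x, Finset.sum_mul]
    refine Finset.sum_le_sum fun y _ => ?_
    have hp0 := hP_nonneg h.hk x y
    have hu0 := hU_nonneg x y
    by_cases hz : hP x y + hU x y = 0
    · rw [hz]; simp
    · refine mul_le_mul_of_nonneg_left ?_ (add_nonneg hp0 hu0)
      have hb := blk_of_bk (e9_H_bk hz)
      rw [hx] at hb
      rcases hcy : cls y with _ | _ | _ | _ | _ | _ | _
      · exfalso; rw [hcy] at hb; revert hb; decide
      · exfalso; rw [hcy] at hb; revert hb; decide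
      · exact gg_DV h hx (Or.inl hcy)
      · exact gg_DV h hx (Or.inr (Or.inl hcy))
      · exact gg_DV h hx (Or.inr (Or.inr hcy))
      · rw [gg_zero (by rw [hpx]; exact e9_psi0 (by rw [hcy]; rfl))]; exact hc
      · exfalso; rw [hcy] at hb; revert hb; decide
  have hV' : ∑ y, hV x y * gg n e1 K L3 x y ≤ 6 * (m + 1) * sS k ^ 2 * c := by
    refine le_trans ?_ (mul_le_mul_of_nonneg_right
      (hV_ABCD_ABCD (x := x) (Or.inr (Or.inr (Or.inr hx)))) hc)
    rw [Finset.sum_mul]
    refine Finset.sum_le_sum fun y _ => ?_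
    have hv0 := hV_nonneg x y
    by_cases hz : hV x y = 0
    · rw [hz]; simp
    · rcases hcy : cls y with _ | _ | _ | _ | _ | _ | _
      · exact absurd hcy (hV_from_D hx hz)
      · rw [gg_zero (by rw [hpx]; exact e9_psi0 (by rw [hcy]; rfl))]
        rw [if_neg (by simp), mul_zero, zero_mul]
      · rw [if_pos (by simp)]
        exact mul_le_mul_of_nonneg_left (gg_DV h hx (Or.inl hcy)) hv0
      · rw [if_pos (by simp)]
        exact mul_le_mul_of_nonneg_left (gg_DV h hx (Or.inr (Or.inl hcy))) hv0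
      · rw [if_pos (by simp)]
        exact mul_le_mul_of_nonneg_left (gg_DV h hx (Or.inr (Or.inr hcy))) hv0
      · rw [gg_zero (by rw [hpx]; exact e9_psi0 (by rw [hcy]; rfl))]
        rw [if_pos (by simp), mul_zero]
        exact mul_nonneg hv0 hc
      · rw [gg_zero (by rw [hpx]; exact e9_psi0 (by rw [hcy]; rfl))]
        rw [if_neg (by simp), mul_zero, zero_mul]
  have h1 := mul_le_mul_of_nonneg_left hH (gam_nonneg k m n)
  have h2 : 1 / DDr k m n * ∑ y, hV x y * gg n e1 K L3 x y ≤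
      1 / DDr k m n * (6 * (m + 1) * sS k ^ 2 * c) :=
    mul_le_mul_of_nonneg_left hV' (by positivity)
  have h3 := mul_le_mul_of_nonneg_right (e9_w k m n) hc
  calc gam k m n * ∑ y, (hP x y + hU x y) * gg n e1 K L3 x y +
        1 / DDr k m n * ∑ y, hV x y * gg n e1 K L3 x y
      ≤ gam k m n * (b1 k * c) + 1 / DDr k m n * (6 * (m + 1) * sS k ^ 2 * c) := add_le_add h1 h2
    _ ≤ gam k m n * (b1 k * c) + 1 / (m + 1) * c := by linarith
    _ = c * (gam k m n * b1 k + 1 / (m + 1)) := by ring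

end EntRF

end
end

section

/-!
# E11 : the total

`base_O`: for `cls x = O` the `H`-neighbours are in `O` (zero), the `V`-neighbours in `A,B,C`
(`gg_OV`), `D`, `O` (zero). Sum over `x`, exchange the sums and use `hV_symm`:
`∑ x [x ∈ O] ∑ y [y ∈ ABC] (hV x y/DD) f ≤ f * ∑ y [y ∈ ABC] dd/DD ≤ f * (card A + card B + card C)`
with `f = 36 k^2 r K (exp L3 + 1)`, and `dd * r = 3`:
`(4 + 2 k) dd * 36 k^2 r K (exp L3 + 1) = 216 (2 + k) k^2 K (exp L3 + 1)`.

`BQ_le`: split `∑ x` by classes (`BQ_eq`), use `card_X` (equality!), `card_N`, `card_A`, `card_B`,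
`card_C`, `card_D`, the bounds `base_*` (the right hand sides of `base_N`, `base_D` are nonnegative)
and `dd * rr = 3`:
`2 dd * (base_A) + 2 dd * (base_C) + 2 k dd * (base_B)` gives `54 γ (1/log k + K)`,
`54 γ (1/(log k)^2 + K)`, `216 k (2 + k) γ b1 (1/L1 + K)` and `(4 + 2 k) dd * VB`;
`8 |S| dd * (base_D)` gives `864 k |S|^3 (..)`.
-/

noncomputable section

namespace EntRF

open Finset
open scoped Classical

variable {k m n : ℕ} {e1 K L3 : ℝ}

private theorem e11_psi0 {x : XX k m} (h : pv (cls x) = 0) : psi x = 0 := by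
  unfold psi; rw [h, mul_zero]

private theorem e11_ddrr (k m : ℕ) : (dd k m : ℝ) * rr k m = 3 := by
  have h := (dd_pos k m).ne'
  unfold rr
  field_simp

/-- `[y ∈ A ∪ B ∪ C]` -/
private def iABC (y : XX k m) : ℝ :=
  if cls y = Cls.A ∨ cls y = Cls.B ∨ cls y = Cls.C then 1 else 0

private theorem iABC_eq (y : XX k m) :
    iABC y = (if cls y = Cls.A then (1 : ℝ) else 0) + (if cls y = Cls.B then (1 : ℝ) else 0) +
      (if cls y = Cls.C then (1 : ℝ) else 0) := by
  unfold iABC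
  rcases cls y with _ | _ | _ | _ | _ | _ | _ <;> simp

private theorem iABC_sum (k m : ℕ) :
    ∑ y : XX k m, iABC y = (4 + 2 * k) * (dd k m : ℝ) := by
  simp only [iABC_eq]
  rw [Finset.sum_add_distrib, Finset.sum_add_distrib, card_A, card_B, card_C]
  ring

private theorem e11_H_bk {x y : XX k m} (h : hP x y + hU x y ≠ 0) : Bk x.1 y.1 := by
  by_cases hp : hP x y = 0
  · have hu : hU x y ≠ 0 := by
      intro h0; apply h; rw [hp, h0, add_zero]
    by_contra hb
    exact hu (if_neg (fun h' => hb h'.1))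
  · exact hP_bk hp

theorem base_O (h : EHyp k m n e1 K L3) :
    ∑ x : XX k m, (if cls x = Cls.O then ∑ y, QQ n x y * gg n e1 K L3 x y else 0) ≤
      216 * (2 + k) * k ^ 2 * K * (Real.exp L3 + 1) := by
  have hK := h.hK0
  have hr := rr_pos k m
  have hdd := dd_pos k m
  have hD : 0 < DDr k m n := lt_of_lt_of_le hdd (DDr_ge k m n)
  set f : ℝ := 36 * k ^ 2 * rr k m * K * (Real.exp L3 + 1) with hf
  have hf0 : 0 ≤ f := by rw [hf]; positivity
  have hpt : ∀ x : XX k m, (if cls x = Cls.O then ∑ y, QQ n x y * gg n e1 K L3 x y else 0) ≤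
      ∑ y, 1 / DDr k m n * (hV x y * iABC y) * f := by
    intro x
    have hi : ∀ y : XX k m, 0 ≤ iABC y := by
      intro y; unfold iABC; split_ifs <;> norm_num
    by_cases hx : cls x = Cls.O
    · rw [if_pos hx]
      refine Finset.sum_le_sum fun y _ => ?_
      have hpx : psi x = 0 := e11_psi0 (by rw [hx]; rfl)
      have hv0 := hV_nonneg x y
      have hrhs : 0 ≤ 1 / DDr k m n * (hV x y * iABC y) * f := by
        have := hi y
        positivity
      have hzero : pv (cls y) = 0 → QQ n x y * gg n e1 K L3 x y ≤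
          1 / DDr k m n * (hV x y * iABC y) * f := by
        intro hy
        rw [gg_zero (by rw [hpx, e11_psi0 hy]), mul_zero]
        exact hrhs
      have hH0 : blk (cls y) ≠ 2 → hP x y + hU x y = 0 := by
        intro hb
        by_contra hne
        have := blk_of_bk (e11_H_bk hne)
        rw [hx] at this
        exact hb this.symm
      have hABC : (cls y = Cls.A ∨ cls y = Cls.B ∨ cls y = Cls.C) →
          QQ n x y * gg n e1 K L3 x y ≤ 1 / DDr k m n * (hV x y * iABC y) * f := by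
        intro hy
        have hb : hP x y + hU x y = 0 := hH0 (by
          rcases hy with hy | hy | hy <;> rw [hy] <;> decide)
        rw [QQ_eq, hb, mul_zero, zero_add]
        have hi1 : iABC y = 1 := by unfold iABC; rw [if_pos hy]
        rw [hi1, mul_one]
        refine mul_le_mul_of_nonneg_left (gg_OV h hx hy) (by positivity)
      rcases hy : cls y with _ | _ | _ | _ | _ | _ | _
      · have hb : hP x y + hU x y = 0 := hH0 (by rw [hy]; decide)
        have hv : hV x y = 0 := by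
          by_contra hne
          exact (hV_from_O hx hne).1 hy
        rw [QQ_eq, hb, hv, mul_zero, mul_zero, add_zero, zero_mul]
        rw [zero_mul, mul_zero, zero_mul]
      · exact hzero (by rw [hy]; rfl)
      · exact hABC (Or.inl hy)
      · exact hABC (Or.inr (Or.inl hy))
      · exact hABC (Or.inr (Or.inr hy))
      · exact hzero (by rw [hy]; rfl)
      · exact hzero (by rw [hy]; rfl)
    · rw [if_neg hx]
      refine Finset.sum_nonneg fun y _ => ?_
      have := hi y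
      have hv0 := hV_nonneg x y
      positivity
  refine (Finset.sum_le_sum fun x _ => hpt x).trans ?_
  rw [Finset.sum_comm]
  have hin : ∀ y : XX k m, ∑ x, 1 / DDr k m n * (hV x y * iABC y) * f ≤ iABC y * f := by
    intro y
    have hi : 0 ≤ iABC y := by unfold iABC; split_ifs <;> norm_num
    have e : ∑ x, 1 / DDr k m n * (hV x y * iABC y) * f =
        (1 / DDr k m n * (dd k m : ℝ)) * (iABC y * f) := by
      rw [← hV_sum y, Finset.mul_sum, Finset.sum_mul]
      refine Finset.sum_congr rfl fun x _ => ?_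
      rw [hV_symm x y]
      ring
    rw [e]
    have hr1 : 1 / DDr k m n * (dd k m : ℝ) ≤ 1 := by
      rw [one_div, inv_mul_eq_div, div_le_one hD]
      exact DDr_ge k m n
    have := mul_le_mul_of_nonneg_right hr1 (mul_nonneg hi hf0)
    linarith
  refine (Finset.sum_le_sum fun y _ => hin y).trans ?_
  rw [← Finset.sum_mul, iABC_sum]
  have h3 := e11_ddrr k m
  have : (4 + 2 * (k : ℝ)) * (dd k m : ℝ) * f =
      (4 + 2 * (k : ℝ)) * ((dd k m : ℝ) * rr k m) * (36 * k ^ 2 * K * (Real.exp L3 + 1)) := by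
    rw [hf]; ring
  rw [this, h3]
  apply le_of_eq
  ring

private theorem e11_split (F : XX k m → ℝ) (bX bN bA bB bC bD : ℝ)
    (hX : ∀ x, cls x = Cls.X → F x ≤ bX) (hN : ∀ x, cls x = Cls.N → F x ≤ bN)
    (hA : ∀ x, cls x = Cls.A → F x ≤ bA) (hB : ∀ x, cls x = Cls.B → F x ≤ bB)
    (hC : ∀ x, cls x = Cls.C → F x ≤ bC) (hDD : ∀ x, cls x = Cls.D → F x ≤ bD)
    (hN0 : 0 ≤ bN) (hD0 : 0 ≤ bD) :
    ∑ x, F x ≤ 18 * k * bX + 24 * sS k ^ 3 * bN + 2 * (dd k m : ℝ) * bA +
      2 * k * (dd k m : ℝ) * bB + 2 * (dd k m : ℝ) * bC + 8 * sS k * (dd k m : ℝ) * bD +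
      ∑ x, (if cls x = Cls.O then F x else 0) := by
  have hpt : ∀ x, F x ≤ (if cls x = Cls.X then (1 : ℝ) else 0) * bX +
      (if cls x = Cls.N then (1 : ℝ) else 0) * bN + (if cls x = Cls.A then (1 : ℝ) else 0) * bA +
      (if cls x = Cls.B then (1 : ℝ) else 0) * bB + (if cls x = Cls.C then (1 : ℝ) else 0) * bC +
      (if cls x = Cls.D then (1 : ℝ) else 0) * bD + (if cls x = Cls.O then F x else 0) := by
    intro x
    rcases hx : cls x with _ | _ | _ | _ | _ | _ | _
    · have := hX x hx; simpa using this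
    · have := hN x hx; simpa using this
    · have := hA x hx; simpa using this
    · have := hB x hx; simpa using this
    · have := hC x hx; simpa using this
    · have := hDD x hx; simpa using this
    · simp
  refine (Finset.sum_le_sum fun x _ => hpt x).trans ?_
  simp only [Finset.sum_add_distrib, ← Finset.sum_mul]
  rw [card_X, card_A, card_B, card_C]
  have h1 := mul_le_mul_of_nonneg_right (card_N k m) hN0
  have h2 := mul_le_mul_of_nonneg_right (card_D k m) hD0
  linarith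

theorem BQ_le (h : EHyp k m n e1 K L3) :
    BQ (QQ (k := k) (m := m) n) (rho e1 K L3) psi ≤ TT k m n e1 K L3 := by
  have hL1 : 0 < L1f e1 := lt_of_lt_of_le one_pos h.he1
  have hLe : 0 < Let k m e1 K := lt_of_lt_of_le one_pos h.hK3
  have hK := h.hK0
  have hr := rr_pos k m
  have hdd := dd_pos k m
  have hγ := gam_nonneg k m n
  have hkpos : (0 : ℝ) < k := by exact_mod_cast h.hk
  have hS : 0 ≤ sS k := by unfold sS; positivity
  have hb1 : 0 ≤ b1 k := by unfold b1; positivity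
  rw [BQ_eq]
  have hmain := e11_split (k := k) (m := m) (fun x => ∑ y, QQ n x y * gg n e1 K L3 x y)
    _ _ _ _ _ _ (fun x hx => base_X h hx) (fun x hx => base_N h hx) (fun x hx => base_A h hx)
    (fun x hx => base_B h hx) (fun x hx => base_C h hx) (fun x hx => base_D h hx)
    (by positivity) (by positivity)
  have hO := base_O (m := m) (n := n) h
  refine hmain.trans ?_
  refine (add_le_add le_rfl hO).trans (le_of_eq ?_)
  have h3 := e11_ddrr k m
  have hlk : Real.log k ≠ 0 := by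
    have := h.hLk; intro h0; rw [h0] at this; linarith
  have hrr : rr k m = 3 / (dd k m : ℝ) := rfl
  unfold TT VB
  rw [hrr]
  have hddne := hdd.ne'
  have hkne := hkpos.ne'
  generalize (dd k m : ℝ) = d at *
  generalize gam k m n = g at *
  generalize b1 k = b at *
  generalize sS k = s at *
  generalize L1f e1 = l1 at *
  generalize Let k m e1 K = le at *
  generalize Real.exp L3 = E at *
  generalize Real.log (k : ℝ) = lk at *
  have hl1 := hL1.ne'
  have hle := hLe.ne'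
  have hKne := hK.ne'
  have hm1 : (m : ℝ) + 1 ≠ 0 := by positivity
  have hL3 := h.hL3.ne'
  generalize (m : ℝ) + 1 = M at *
  generalize (k : ℝ) = κ at *
  field_simp
  ring

end EntRF

end
end

section

/-!
# E13 : the main theorem

Take `k` with `log k ≥ 1500` (e.g. `k = 2 ^ 3000`, `log 2 ≥ 0.69`, or `⌈exp 1500⌉`), the parameters of
`exists_params`, the data `kdata`, and apply `realize` with `ρ = rho e1 K L3` (`rho_pos`), `ψ = psi`;
`QQ n` is `Qn PP Bk VA (bb k) (dd k m) n` by definition and `BQ ≤ TT < 0`.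
-/

noncomputable section

namespace EntRF

open Finset
open scoped Classical

theorem exists_k : ∃ k : ℕ, 1500 ≤ Real.log k := by
  refine ⟨⌈Real.exp 1500⌉₊, ?_⟩
  rw [Real.le_log_iff_exp_le]
  · exact Nat.le_ceil _
  · exact lt_of_lt_of_le (Real.exp_pos _) (Nat.le_ceil _)

theorem main_theorem :
    ∃ (V : Type) (_ : Fintype V) (G : SimpleGraph V) (d : ℕ), 1 ≤ d ∧ G.Connected ∧
      (∀ x, Nat.card (G.neighborSet x) = d) ∧ (∀ x, SRicciFlatAt G d x) ∧ Kent G d < 0 := by
  obtain ⟨k, hk⟩ := exists_k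
  obtain ⟨m, n, e1, K, L3, h, hT⟩ := exists_params hk
  obtain ⟨cU, T, hKD⟩ := kdata h.hk m
  have hne : Nonempty (Om (Fin (m + 1)) (Site k)) := ⟨(none, (0, ((fun _ => 0), (fun _ => Site.A))))⟩
  have hb : 0 < bb k := by
    unfold bb
    positivity
  exact realize hKD hb n h.hn (rho e1 K L3) psi (fun x => rho_pos h x)
    (lt_of_le_of_lt (BQ_le h) hT)

end EntRF

end
end
end
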